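import Mathlib

/-!
# The `n`-Selmer group of an elliptic curve over a subfield of an algebraic closure of `ℚ`
-/

set_option autoImplicit false

namespace Pool.Agent.W94.F3

open scoped Classical

/-- the map on points of `W` given by a field embedding -/
noncomputable def ptMap (W : WeierstrassCurve ℚ) {L L' : Type} [Field L] [Algebra ℚ L] [Field L']
    [Algebra ℚ L'] (f : L →ₐ[ℚ] L') (P : (W.baseChange L).toAffine.Point) :
    (W.baseChange L').toAffine.Point :=
  WeierstrassCurve.Affine.Point.map (W' := W) f P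

/-- Let `K` be a subfield of `Ω`, let `ι : Ω → C` be an embedding into a field `C` that is
algebraically closed and algebraic over its subfield `k` (for `k = ℚ_p` or `k = ℝ` it determines
a place `w` of `K`), and let `c` be a map from `Gal(Ω/K)` to the points of `W` over `Ω`. The
restriction of `c` to the decomposition group, with values in the points over `C`, is a
coboundary. -/
def LocallyTrivial (W : WeierstrassCurve ℚ) {Ω : Type} [Field Ω] [Algebra ℚ Ω]
    (K : IntermediateField ℚ Ω) (c : K.fixingSubgroup → (W.baseChange Ω).toAffine.Point)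
    (k C : Type) [Field k] [Field C] [Algebra k C] [Algebra ℚ C] (ι : Ω →ₐ[ℚ] C) : Prop :=
  ∃ R : (W.baseChange C).toAffine.Point, ∀ (t : C ≃ₐ[k] C) (h : K.fixingSubgroup),
    (∀ z : Ω, ι (h.1 z) = t (ι z)) →
      ptMap W ι (c h) = ptMap W (t : C →+* C).toRatAlgHom R - R

/-- `c` is a continuous 1-cocycle of `Gal(Ω/K)` with values in the `n`-torsion points of `W`
whose class is trivial in `H¹(K_w, W)` for all places `w` of `K` -/
def IsSel (W : WeierstrassCurve ℚ) (n : ℕ) {Ω : Type} [Field Ω] [Algebra ℚ Ω]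
    (K : IntermediateField ℚ Ω) (c : K.fixingSubgroup → (W.baseChange Ω).toAffine.Point) : Prop :=
  (∀ h, n • c h = 0) ∧
  (∀ g h, c (g * h) = c g + ptMap W g.1.toAlgHom (c h)) ∧
  IsLocallyConstant c ∧
  (∀ (p : ℕ) [Fact p.Prime] (ι : Ω →ₐ[ℚ] AlgebraicClosure ℚ_[p]),
    LocallyTrivial W K c ℚ_[p] (AlgebraicClosure ℚ_[p]) ι) ∧
  (∀ ι : Ω →ₐ[ℚ] ℂ, LocallyTrivial W K c ℝ ℂ ι)

/-- `c'` and `c` differ by the coboundary `h ↦ h T - T` of an `n`-torsion point `T` -/
def Cohomologous (W : WeierstrassCurve ℚ) (n : ℕ) {Ω : Type} [Field Ω] [Algebra ℚ Ω]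
    (K : IntermediateField ℚ Ω) (c c' : K.fixingSubgroup → (W.baseChange Ω).toAffine.Point) :
    Prop :=
  ∃ T : (W.baseChange Ω).toAffine.Point, n • T = 0 ∧
    ∀ h, c' h - c h = ptMap W h.1.toAlgHom T - T

/-- the set of the classes of the cocycles `c` with `IsSel W n K c`, that is, the `n`-Selmer group
of `W` over `K` (for an algebraic closure `Ω` of `ℚ`) -/
def Selmer (W : WeierstrassCurve ℚ) (n : ℕ) {Ω : Type} [Field Ω] [Algebra ℚ Ω]
    (K : IntermediateField ℚ Ω) : Type :=
  Quot (fun c c' : {c // IsSel W n K c} => Cohomologous W n K c.1 c'.1)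

end Pool.Agent.W94.F3
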