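import Mathlib

/-!
# The Eisenstein integers
-/

set_option autoImplicit false
set_option linter.unusedSectionVars false

namespace Pool.Agent.W94.F3

open QuadraticAlgebra

/-- the Eisenstein integers -/
abbrev Eis : Type := QuadraticAlgebra ℤ (-1) (-1)

namespace Eis

lemma norm_eq (x : Eis) : QuadraticAlgebra.norm x = x.re ^ 2 - x.re * x.im + x.im ^ 2 := by
  rw [QuadraticAlgebra.norm_def]; ring

lemma norm_nonneg (x : Eis) : 0 ≤ QuadraticAlgebra.norm x := by
  rw [norm_eq]
  nlinarith [sq_nonneg (x.re - x.im), sq_nonneg x.re, sq_nonneg x.im]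

lemma norm_eq_zero {x : Eis} (h : QuadraticAlgebra.norm x = 0) : x = 0 := by
  rw [norm_eq] at h
  have h1 : x.im = 0 := by nlinarith [sq_nonneg (2 * x.re - x.im), sq_nonneg x.im]
  have h2 : x.re = 0 := by rw [h1] at h; nlinarith
  ext
  · exact h2
  · exact h1

lemma norm_pos {x : Eis} (h : x ≠ 0) : 0 < QuadraticAlgebra.norm x :=
  lt_of_le_of_ne (norm_nonneg x) fun h' => h (norm_eq_zero h'.symm)

instance : IsDomain Eis := by
  have : NoZeroDivisors Eis := ⟨fun {a b} h => by
    have := congrArg QuadraticAlgebra.norm h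
    rw [map_mul, QuadraticAlgebra.norm_zero] at this
    rcases mul_eq_zero.1 this with h1 | h1
    · left; exact norm_eq_zero h1
    · right; exact norm_eq_zero h1⟩
  exact NoZeroDivisors.to_isDomain _

/-- nearest integer quotient -/
def rd (c n : ℤ) : ℤ := (2 * c + n) / (2 * n)

lemma rd_spec (c n : ℤ) (hn : 0 < n) : -n ≤ 2 * (c - n * rd c n) ∧ 2 * (c - n * rd c n) ≤ n := by
  unfold rd
  have h1 := Int.emod_add_mul_ediv (2 * c + n) (2 * n)
  have h2 := Int.emod_nonneg (2 * c + n) (show 2 * n ≠ 0 by omega)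
  have h3 := Int.emod_lt_of_pos (2 * c + n) (show 0 < 2 * n by omega)
  constructor <;> nlinarith

def quo (x y : Eis) : Eis :=
  ⟨rd (x * star y).re (QuadraticAlgebra.norm y), rd (x * star y).im (QuadraticAlgebra.norm y)⟩

lemma norm_rem (x y : Eis) (hy : y ≠ 0) :
    QuadraticAlgebra.norm (x - quo x y * y) < QuadraticAlgebra.norm y := by
  have hn := norm_pos hy
  obtain ⟨n, hn'⟩ : ∃ n, n = QuadraticAlgebra.norm y := ⟨_, rfl⟩
  have h1 : (x - quo x y * y) * star y = ⟨(x * star y).re - n * rd (x * star y).re n,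
      (x * star y).im - n * rd (x * star y).im n⟩ := by
    have h2 : y * star y = ((n : ℤ) : Eis) := by
      have := QuadraticAlgebra.algebraMap_norm_eq_mul_star y
      rw [← this, hn']
      rfl
    rw [sub_mul, mul_assoc, h2]
    unfold quo
    rw [← hn']
    ext
    · simp; ring
    · simp; ring
  have h2' : ∀ e f : ℤ, QuadraticAlgebra.norm (⟨e, f⟩ : Eis) = e ^ 2 - e * f + f ^ 2 :=
    fun e f => norm_eq _
  have s1 := rd_spec (x * star y).re n (hn' ▸ hn)
  have s2 := rd_spec (x * star y).im n (hn' ▸ hn)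
  obtain ⟨e, he⟩ : ∃ e, e = (x * star y).re - n * rd (x * star y).re n := ⟨_, rfl⟩
  obtain ⟨f, hf⟩ : ∃ f, f = (x * star y).im - n * rd (x * star y).im n := ⟨_, rfl⟩
  rw [← he] at s1 h1
  rw [← hf] at s2 h1
  have h2 : QuadraticAlgebra.norm (x - quo x y * y) * n = e ^ 2 - e * f + f ^ 2 := by
    have h3 := congrArg QuadraticAlgebra.norm h1
    rw [map_mul, QuadraticAlgebra.norm_star, ← hn'] at h3
    exact h3.trans (h2' e f)
  rw [← hn'] at hn ⊢
  by_contra hcon
  push Not at hcon
  have h4 : n * n ≤ e ^ 2 - e * f + f ^ 2 := by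
    rw [← h2]
    exact mul_le_mul_of_nonneg_right hcon hn.le
  nlinarith [mul_nonneg (sub_nonneg.2 s1.1) (sub_nonneg.2 s1.2),
    mul_nonneg (sub_nonneg.2 s2.1) (sub_nonneg.2 s2.2), sq_nonneg (e + f), sq_nonneg (e - f),
    mul_pos hn hn]

noncomputable instance : EuclideanDomain Eis :=
  { (inferInstance : CommRing Eis), (inferInstance : Nontrivial Eis) with
    quotient := fun x y => if y = 0 then 0 else quo x y
    quotient_zero := fun x => by simp
    remainder := fun x y => if y = 0 then x else x - quo x y * y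
    quotient_mul_add_remainder_eq := fun x y => by
      by_cases hy : y = 0
      · simp [hy]
      · simp only [hy, if_false]
        ring
    r := fun x y => (QuadraticAlgebra.norm x).natAbs < (QuadraticAlgebra.norm y).natAbs
    r_wellFounded := (measure fun x : Eis => (QuadraticAlgebra.norm x).natAbs).wf
    remainder_lt := fun x y hy => by
      simp only [hy, if_false]
      have h1 := norm_rem x y hy
      have h2 := norm_nonneg (x - quo x y * y)
      omega
    mul_left_not_lt := fun x y hy => by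
      rw [map_mul, Int.natAbs_mul, not_lt]
      have := norm_pos hy
      exact Nat.le_mul_of_pos_right _ (by omega) }

lemma isUnit_iff {x : Eis} : IsUnit x ↔ QuadraticAlgebra.norm x = 1 := by
  rw [QuadraticAlgebra.isUnit_iff_norm_isUnit, Int.isUnit_iff]
  have := norm_nonneg x
  omega

/-- the six units -/
lemma unit_cases {x : Eis} (h : IsUnit x) :
    ∃ j : ℕ, j < 3 ∧ (x = (⟨0, 1⟩ : Eis) ^ j ∨ x = -(⟨0, 1⟩ : Eis) ^ j) := by
  rw [isUnit_iff, norm_eq] at h
  obtain ⟨a, b⟩ := x
  simp only at h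
  have h1 : -1 ≤ b := by nlinarith [sq_nonneg (2 * a - b)]
  have h2 : b ≤ 1 := by nlinarith [sq_nonneg (2 * a - b)]
  have h3 : -1 ≤ a := by nlinarith [sq_nonneg (2 * b - a)]
  have h4 : a ≤ 1 := by nlinarith [sq_nonneg (2 * b - a)]
  have e0 : (⟨0, 1⟩ : Eis) ^ 0 = ⟨1, 0⟩ := rfl
  have e1 : (⟨0, 1⟩ : Eis) ^ 1 = ⟨0, 1⟩ := by rw [pow_one]
  have e2 : (⟨0, 1⟩ : Eis) ^ 2 = ⟨-1, -1⟩ := by rw [sq]; rfl
  interval_cases a <;> interval_cases b <;> first
    | (exfalso; norm_num at h; done)
    | (refine ⟨0, by norm_num, Or.inl ?_⟩; rw [e0]; done)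
    | (refine ⟨0, by norm_num, Or.inr ?_⟩; rw [e0]; rfl)
    | (refine ⟨1, by norm_num, Or.inl ?_⟩; rw [e1]; done)
    | (refine ⟨1, by norm_num, Or.inr ?_⟩; rw [e1]; rfl)
    | (refine ⟨2, by norm_num, Or.inl ?_⟩; rw [e2]; done)
    | (refine ⟨2, by norm_num, Or.inr ?_⟩; rw [e2]; rfl)

/-- elements of prime norm are prime -/
lemma prime_of_norm {x : Eis} {p : ℤ} (hp : Prime p) (h : QuadraticAlgebra.norm x = p) :
    Prime x := by
  have h0 : x ≠ 0 := by
    rintro rfl
    rw [QuadraticAlgebra.norm_zero] at h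
    exact hp.ne_zero h.symm
  have hirr : Irreducible x := by
    constructor
    · intro hu
      rw [isUnit_iff, h] at hu
      exact hp.not_isUnit (by rw [hu]; exact isUnit_one)
    · intro a b hab
      have h1 : QuadraticAlgebra.norm a * QuadraticAlgebra.norm b = p := by
        rw [← map_mul, ← hab, h]
      have hirr := hp.irreducible
      rcases hirr.isUnit_or_isUnit h1.symm with h2 | h2
      · left
        exact QuadraticAlgebra.isUnit_iff_norm_isUnit.2 h2
      · right
        exact QuadraticAlgebra.isUnit_iff_norm_isUnit.2 h2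
  exact hirr.prime

end Eis

end Pool.Agent.W94.F3
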