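import Mathlib
import Pool.Agent.W94.F3.Eis

/-!
# Factorisation of Eisenstein integers
-/

set_option autoImplicit false
set_option linter.unusedSectionVars false

namespace Pool.Agent.W94.F3

namespace Eis

/-- the cube root of unity -/
abbrev om : Eis := ⟨0, 1⟩

lemma om_cube : om ^ 3 = 1 := by decide

/-- the six primes -/
def q1 : Eis := ⟨3, 2⟩
def q2 : Eis := ⟨1, -2⟩
def q3 : Eis := ⟨4, 3⟩
def q4 : Eis := ⟨1, -3⟩
def q5 : Eis := ⟨1, -5⟩
def q6 : Eis := ⟨6, 5⟩

lemma p7 : Prime (7 : ℤ) := by norm_num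
lemma p13 : Prime (13 : ℤ) := by norm_num
lemma p31 : Prime (31 : ℤ) := by norm_num

lemma pr1 : Prime q1 := prime_of_norm p7 (by decide)
lemma pr2 : Prime q2 := prime_of_norm p7 (by decide)
lemma pr3 : Prime q3 := prime_of_norm p13 (by decide)
lemma pr4 : Prime q4 := prime_of_norm p13 (by decide)
lemma pr5 : Prime q5 := prime_of_norm p31 (by decide)
lemma pr6 : Prime q6 := prime_of_norm p31 (by decide)

lemma q_prod : q1 * q2 * q3 * q4 * q5 * q6 = 2821 := by decide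

/-- all multiplicities outside `2821` are divisible by three -/
def Hyp (x : Eis) : Prop := ∀ π : Eis, Prime π → ¬ π ∣ 2821 → ∀ (m : ℕ) (y : Eis),
  x = π ^ m * y → ¬ π ∣ y → 3 ∣ m

lemma Hyp.of_mul {q y : Eis} (hq : q ∣ 2821) (h : Hyp (q * y)) : Hyp y := by
  intro π hπ h28 m y' hy hy'
  apply h π hπ h28 m (q * y')
  · rw [hy]; ring
  · intro hd
    rcases hπ.dvd_or_dvd hd with h1 | h1
    · exact h28 (h1.trans hq)
    · exact hy' h1

lemma Hyp.of_cube {q y : Eis} (hq : Prime q) (h : Hyp (q ^ 3 * y)) : Hyp y := by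
  intro π hπ h28 m y' hy hy'
  by_cases hd : π ∣ q
  · obtain ⟨u, hu⟩ := hd
    have hu1 : IsUnit u := by
      rcases hq.irreducible.isUnit_or_isUnit hu with h1 | h1
      · exact absurd h1 hπ.not_isUnit
      · exact h1
    have := h π hπ h28 (m + 3) (u ^ 3 * y') (by rw [hy, hu]; ring) (by
      intro hd
      rcases hπ.dvd_or_dvd hd with h1 | h1
      · exact hπ.not_isUnit (isUnit_of_dvd_unit (hπ.dvd_of_dvd_pow h1) hu1)
      · exact hy' h1)
    omega
  · apply h π hπ h28 m (q ^ 3 * y')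
    · rw [hy]; ring
    · intro hd'
      rcases hπ.dvd_or_dvd hd' with h1 | h1
      · exact hd (hπ.dvd_of_dvd_pow h1)
      · exact hy' h1

lemma norm_lt_of_mul {q y : Eis} (hq : Prime q) (hy : y ≠ 0) :
    (QuadraticAlgebra.norm y).natAbs < (QuadraticAlgebra.norm (q * y)).natAbs := by
  rw [map_mul, Int.natAbs_mul]
  have h1 := norm_pos hy
  have h2 := norm_pos hq.ne_zero
  have h3 : QuadraticAlgebra.norm q ≠ 1 := fun h => hq.not_isUnit (isUnit_iff.2 h)
  have h4 : 2 ≤ (QuadraticAlgebra.norm q).natAbs := by omega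
  have h5 : 1 ≤ (QuadraticAlgebra.norm y).natAbs := by omega
  nlinarith

lemma factor6 (n : ℕ) : ∀ x : Eis, (QuadraticAlgebra.norm x).natAbs = n → x ≠ 0 → Hyp x →
    ∃ (j e1 e2 e3 e4 e5 e6 : ℕ) (z : Eis), j < 3 ∧ z ≠ 0 ∧
      x = om ^ j * (q1 ^ e1 * q2 ^ e2 * q3 ^ e3 * q4 ^ e4 * q5 ^ e5 * q6 ^ e6) * z ^ 3 := by
  induction n using Nat.strong_induction_on with
  | _ n ih =>
    intro x hn hx hyp
    by_cases hu : IsUnit x
    · obtain ⟨j, hj, h | h⟩ := unit_cases hu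
      · exact ⟨j, 0, 0, 0, 0, 0, 0, 1, hj, one_ne_zero, by rw [h]; ring⟩
      · exact ⟨j, 0, 0, 0, 0, 0, 0, -1, hj, by simp, by rw [h]; ring⟩
    · obtain ⟨π, hirr, y, hy⟩ := WfDvdMonoid.exists_irreducible_factor hu hx
      have hπ := hirr.prime
      have hy0 : y ≠ 0 := by
        rintro rfl
        exact hx (by rw [hy, mul_zero])
      by_cases h28 : π ∣ 2821
      · -- `π` is associated to one of the six
        have step : ∀ q : Eis, Prime q → π ∣ q → q ∣ 2821 → ∃ y', y' ≠ 0 ∧ x = q * y' ∧ Hyp y' ∧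
            (QuadraticAlgebra.norm y').natAbs < n := by
          intro q hq hd hq28
          obtain ⟨u, hu'⟩ := hd
          have hu1 : IsUnit u := by
            rcases hq.irreducible.isUnit_or_isUnit hu' with h1 | h1
            · exact absurd h1 hπ.not_isUnit
            · exact h1
          obtain ⟨v, hv⟩ := hu1.exists_right_inv
          have e : x = q * (v * y) := by
            rw [hy, hu']
            linear_combination (-π * y) * hv
          have hvy : v * y ≠ 0 := by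
            intro h0
            rw [h0, mul_zero] at e
            exact hx e
          refine ⟨v * y, hvy, e, ?_, ?_⟩
          · rw [e] at hyp
            exact hyp.of_mul hq28
          · rw [← hn, e]
            exact norm_lt_of_mul hq hvy
        rw [← q_prod] at h28
        have d1 : q1 ∣ 2821 := by rw [← q_prod]; exact ⟨q2 * q3 * q4 * q5 * q6, by ring⟩
        have d2 : q2 ∣ 2821 := by rw [← q_prod]; exact ⟨q1 * q3 * q4 * q5 * q6, by ring⟩
        have d3 : q3 ∣ 2821 := by rw [← q_prod]; exact ⟨q1 * q2 * q4 * q5 * q6, by ring⟩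
        have d4 : q4 ∣ 2821 := by rw [← q_prod]; exact ⟨q1 * q2 * q3 * q5 * q6, by ring⟩
        have d5 : q5 ∣ 2821 := by rw [← q_prod]; exact ⟨q1 * q2 * q3 * q4 * q6, by ring⟩
        have d6 : q6 ∣ 2821 := by rw [← q_prod]; exact ⟨q1 * q2 * q3 * q4 * q5, by ring⟩
        rcases hπ.dvd_or_dvd h28 with h | h
        · rcases hπ.dvd_or_dvd h with h | h
          · rcases hπ.dvd_or_dvd h with h | h
            · rcases hπ.dvd_or_dvd h with h | h
              · rcases hπ.dvd_or_dvd h with h | h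
                · obtain ⟨y', h0, e, hy', hlt⟩ := step q1 pr1 h d1
                  obtain ⟨j, e1, e2, e3, e4, e5, e6, z, hj, hz, hh⟩ := ih _ hlt y' rfl h0 hy'
                  exact ⟨j, e1 + 1, e2, e3, e4, e5, e6, z, hj, hz, by rw [e, hh]; ring⟩
                · obtain ⟨y', h0, e, hy', hlt⟩ := step q2 pr2 h d2
                  obtain ⟨j, e1, e2, e3, e4, e5, e6, z, hj, hz, hh⟩ := ih _ hlt y' rfl h0 hy'
                  exact ⟨j, e1, e2 + 1, e3, e4, e5, e6, z, hj, hz, by rw [e, hh]; ring⟩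
              · obtain ⟨y', h0, e, hy', hlt⟩ := step q3 pr3 h d3
                obtain ⟨j, e1, e2, e3, e4, e5, e6, z, hj, hz, hh⟩ := ih _ hlt y' rfl h0 hy'
                exact ⟨j, e1, e2, e3 + 1, e4, e5, e6, z, hj, hz, by rw [e, hh]; ring⟩
            · obtain ⟨y', h0, e, hy', hlt⟩ := step q4 pr4 h d4
              obtain ⟨j, e1, e2, e3, e4, e5, e6, z, hj, hz, hh⟩ := ih _ hlt y' rfl h0 hy'
              exact ⟨j, e1, e2, e3, e4 + 1, e5, e6, z, hj, hz, by rw [e, hh]; ring⟩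
          · obtain ⟨y', h0, e, hy', hlt⟩ := step q5 pr5 h d5
            obtain ⟨j, e1, e2, e3, e4, e5, e6, z, hj, hz, hh⟩ := ih _ hlt y' rfl h0 hy'
            exact ⟨j, e1, e2, e3, e4, e5 + 1, e6, z, hj, hz, by rw [e, hh]; ring⟩
        · obtain ⟨y', h0, e, hy', hlt⟩ := step q6 pr6 h d6
          obtain ⟨j, e1, e2, e3, e4, e5, e6, z, hj, hz, hh⟩ := ih _ hlt y' rfl h0 hy'
          exact ⟨j, e1, e2, e3, e4, e5, e6 + 1, z, hj, hz, by rw [e, hh]; ring⟩
      · -- `π³` divides `x`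
        obtain ⟨y', hy', hnd⟩ := (FiniteMultiplicity.of_prime_left hπ hx).exists_eq_pow_mul_and_not_dvd
        obtain ⟨m, hm⟩ : ∃ m, m = multiplicity π x := ⟨_, rfl⟩
        rw [← hm] at hy'
        have h3 := hyp π hπ h28 m y' hy' hnd
        have hm0 : m ≠ 0 := by
          rintro rfl
          rw [pow_zero, one_mul] at hy'
          apply hnd
          rw [← hy', hy]
          exact dvd_mul_right _ _
        have e : x = π ^ 3 * (π ^ (m - 3) * y') := by
          rw [← mul_assoc, ← pow_add, show 3 + (m - 3) = m by omega]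
          exact hy'
        have hz0 : π ^ (m - 3) * y' ≠ 0 := by
          intro h0
          rw [h0, mul_zero] at e
          exact hx e
        have hlt : (QuadraticAlgebra.norm (π ^ (m - 3) * y')).natAbs < n := by
          rw [← hn, e]
          have l1 := norm_lt_of_mul hπ hz0
          have l2 := norm_lt_of_mul hπ (mul_ne_zero hπ.ne_zero hz0)
          have l3 := norm_lt_of_mul hπ (mul_ne_zero hπ.ne_zero (mul_ne_zero hπ.ne_zero hz0))
          have e5 : π ^ 3 * (π ^ (m - 3) * y') = π * (π * (π * (π ^ (m - 3) * y'))) := by ring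
          rw [e5]
          omega
        have hyp' : Hyp (π ^ (m - 3) * y') := by
          rw [e] at hyp
          exact hyp.of_cube hπ
        obtain ⟨j, e1, e2, e3, e4, e5, e6, z, hj, hz, hh⟩ := ih _ hlt _ rfl hz0 hyp'
        exact ⟨j, e1, e2, e3, e4, e5, e6, π * z, hj, mul_ne_zero hπ.ne_zero hz, by rw [e, hh]; ring⟩

/-- the products `q * conj q ^ 2` -/
def x7 : Eis := ⟨7, -14⟩
def x13 : Eis := ⟨13, -39⟩
def x31 : Eis := ⟨186, 155⟩

lemma x7_eq : x7 = q1 * q2 ^ 2 := by decide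
lemma x13_eq : x13 = q3 * q4 ^ 2 := by decide
lemma x31_eq : x31 = q5 * q6 ^ 2 := by decide

lemma cube_exponents {a b c : ℕ} {n r : ℤ} (hn : n ≠ 0)
    (h : (7 : ℤ) ^ a * 13 ^ b * 31 ^ c * n ^ 3 = r ^ 3) : 3 ∣ a ∧ 3 ∣ b ∧ 3 ∣ c := by
  have h1 := congrArg Int.natAbs h
  rw [Int.natAbs_mul, Int.natAbs_mul, Int.natAbs_mul, Int.natAbs_pow, Int.natAbs_pow,
    Int.natAbs_pow, Int.natAbs_pow, Int.natAbs_pow] at h1
  have e7 : (7 : ℤ).natAbs = 7 := rfl
  have e13 : (13 : ℤ).natAbs = 13 := rfl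
  have e31 : (31 : ℤ).natAbs = 31 := rfl
  rw [e7, e13, e31] at h1
  obtain ⟨m, hm⟩ : ∃ m, m = n.natAbs := ⟨_, rfl⟩
  obtain ⟨k, hk⟩ : ∃ k, k = r.natAbs := ⟨_, rfl⟩
  have hm0 : m ≠ 0 := by omega
  rw [← hm, ← hk] at h1
  have key : ∀ p : ℕ, a * Nat.factorization 7 p + b * Nat.factorization 13 p +
      c * Nat.factorization 31 p + 3 * m.factorization p = 3 * k.factorization p := by
    intro p
    have h2 : (7 ^ a * 13 ^ b * 31 ^ c * m ^ 3).factorization p = (k ^ 3).factorization p := by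
      rw [h1]
    rw [Nat.factorization_mul (by positivity) (by positivity),
      Nat.factorization_mul (by positivity) (by positivity),
      Nat.factorization_mul (by positivity) (by positivity)] at h2
    simp only [Nat.factorization_pow, Finsupp.add_apply, Finsupp.smul_apply, smul_eq_mul] at h2
    exact h2
  have f7 : Nat.factorization 7 = Finsupp.single 7 1 := Nat.Prime.factorization (by norm_num)
  have f13 : Nat.factorization 13 = Finsupp.single 13 1 := Nat.Prime.factorization (by norm_num)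
  have f31 : Nat.factorization 31 = Finsupp.single 31 1 := Nat.Prime.factorization (by norm_num)
  rw [f7, f13, f31] at key
  have k7 := key 7
  have k13 := key 13
  have k31 := key 31
  simp at k7 k13 k31
  refine ⟨?_, ?_, ?_⟩ <;> omega

lemma norm_q1 : QuadraticAlgebra.norm q1 = 7 := by decide
lemma norm_q2 : QuadraticAlgebra.norm q2 = 7 := by decide
lemma norm_q3 : QuadraticAlgebra.norm q3 = 13 := by decide
lemma norm_q4 : QuadraticAlgebra.norm q4 = 13 := by decide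
lemma norm_q5 : QuadraticAlgebra.norm q5 = 31 := by decide
lemma norm_q6 : QuadraticAlgebra.norm q6 = 31 := by decide
lemma norm_om : QuadraticAlgebra.norm om = 1 := by decide

lemma split_exp {e f : ℕ} (h : 3 ∣ e + f) : ∃ a k l : ℕ, a < 3 ∧ e = a + 3 * k ∧
    f + 6 = 2 * a + 3 * l := by
  refine ⟨e % 3, e / 3, (f + 6 - 2 * (e % 3)) / 3, Nat.mod_lt _ (by norm_num), ?_, ?_⟩ <;> omega

/-- the main factorisation statement -/
theorem eis_main {x : Eis} (hx : x ≠ 0) (hyp : Hyp x) {r : ℤ}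
    (hN : QuadraticAlgebra.norm x = r ^ 3) :
    ∃ (j a b c : ℕ) (z1 z2 : Eis), j < 3 ∧ a < 3 ∧ b < 3 ∧ c < 3 ∧ z1 ≠ 0 ∧ z2 ≠ 0 ∧
      x * z1 ^ 3 = om ^ j * (x7 ^ a * x13 ^ b * x31 ^ c) * z2 ^ 3 := by
  obtain ⟨j, e1, e2, e3, e4, e5, e6, z, hj, hz, h⟩ := factor6 _ x rfl hx hyp
  have hn : QuadraticAlgebra.norm z ≠ 0 := (norm_pos hz).ne'
  have h1 := congrArg QuadraticAlgebra.norm h
  simp only [map_mul, map_pow, norm_q1, norm_q2, norm_q3, norm_q4, norm_q5, norm_q6, norm_om,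
    one_pow, one_mul] at h1
  have h2 : (7 : ℤ) ^ (e1 + e2) * 13 ^ (e3 + e4) * 31 ^ (e5 + e6) *
      (QuadraticAlgebra.norm z) ^ 3 = r ^ 3 := by
    rw [← hN, h1]; ring
  obtain ⟨h7, h13, h31⟩ := cube_exponents hn h2
  obtain ⟨a, k1, l1, ha, ea, fa⟩ := split_exp h7
  obtain ⟨b, k2, l2, hb, eb, fb⟩ := split_exp h13
  obtain ⟨c, k3, l3, hc, ec, fc⟩ := split_exp h31
  refine ⟨j, a, b, c, q2 ^ 2 * q4 ^ 2 * q6 ^ 2,
    q1 ^ k1 * q2 ^ l1 * q3 ^ k2 * q4 ^ l2 * q5 ^ k3 * q6 ^ l3 * z, hj, ha, hb, hc, ?_, ?_, ?_⟩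
  · exact mul_ne_zero (mul_ne_zero (pow_ne_zero 2 pr2.ne_zero) (pow_ne_zero 2 pr4.ne_zero))
      (pow_ne_zero 2 pr6.ne_zero)
  · refine mul_ne_zero (mul_ne_zero (mul_ne_zero (mul_ne_zero (mul_ne_zero (mul_ne_zero ?_ ?_) ?_)
      ?_) ?_) ?_) hz
    · exact pow_ne_zero _ pr1.ne_zero
    · exact pow_ne_zero _ pr2.ne_zero
    · exact pow_ne_zero _ pr3.ne_zero
    · exact pow_ne_zero _ pr4.ne_zero
    · exact pow_ne_zero _ pr5.ne_zero
    · exact pow_ne_zero _ pr6.ne_zero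
  · rw [x7_eq, x13_eq, x31_eq, h, ea, eb, ec]
    have g2 : q2 ^ e2 * q2 ^ 6 = q2 ^ (2 * a) * q2 ^ (3 * l1) := by rw [← pow_add, fa, pow_add]
    have g4 : q4 ^ e4 * q4 ^ 6 = q4 ^ (2 * b) * q4 ^ (3 * l2) := by rw [← pow_add, fb, pow_add]
    have g6 : q6 ^ e6 * q6 ^ 6 = q6 ^ (2 * c) * q6 ^ (3 * l3) := by rw [← pow_add, fc, pow_add]
    calc om ^ j * (q1 ^ (a + 3 * k1) * q2 ^ e2 * q3 ^ (b + 3 * k2) * q4 ^ e4 * q5 ^ (c + 3 * k3) *
          q6 ^ e6) * z ^ 3 * (q2 ^ 2 * q4 ^ 2 * q6 ^ 2) ^ 3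
        = om ^ j * (q1 ^ (a + 3 * k1) * q3 ^ (b + 3 * k2) * q5 ^ (c + 3 * k3)) *
          (q2 ^ e2 * q2 ^ 6) * (q4 ^ e4 * q4 ^ 6) * (q6 ^ e6 * q6 ^ 6) * z ^ 3 := by ring
      _ = _ := by
        rw [g2, g4, g6]
        ring

end Eis

end Pool.Agent.W94.F3
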