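import Mathlib

/-!
# Local lemmas in an algebraic closure of `ℚ_p`
-/

set_option autoImplicit false
set_option linter.unusedSectionVars false

namespace Pool.Agent.W94.F3

section VL

variable {C : Type*} [NormedField C] [IsUltrametricDist C]

lemma norm_add_lt {a b : C} {r : ℝ} (ha : ‖a‖ < r) (hb : ‖b‖ < r) : ‖a + b‖ < r :=
  lt_of_le_of_lt (IsUltrametricDist.norm_add_le_max a b) (max_lt ha hb)

lemma norm_add_le' {a b : C} {r : ℝ} (ha : ‖a‖ ≤ r) (hb : ‖b‖ ≤ r) : ‖a + b‖ ≤ r :=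
  le_trans (IsUltrametricDist.norm_add_le_max a b) (max_le ha hb)

lemma norm_sub_lt {a b : C} {r : ℝ} (ha : ‖a‖ < r) (hb : ‖b‖ < r) : ‖a - b‖ < r := by
  rw [sub_eq_add_neg]
  exact norm_add_lt ha (by rwa [norm_neg])

lemma norm_sub_le' {a b : C} {r : ℝ} (ha : ‖a‖ ≤ r) (hb : ‖b‖ ≤ r) : ‖a - b‖ ≤ r := by
  rw [sub_eq_add_neg]
  exact norm_add_le' ha (by rwa [norm_neg])

lemma norm_eq_of_sub_lt {a b : C} (h : ‖a - b‖ < ‖b‖) : ‖a‖ = ‖b‖ := by
  have := IsUltrametricDist.norm_add_eq_max_of_norm_ne_norm (x := a - b) (y := b) h.ne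
  rw [sub_add_cancel, max_eq_right h.le] at this
  exact this

/-- the valuation lemma -/
lemma VL {A B M e k : C} (h1 : A + B = e * M - k) (h2 : A * B = M ^ 3) (he : ‖e‖ ≤ 1)
    (hk : ‖k‖ = 1) : ‖A‖ = 1 ∨ ‖A‖ = ‖M‖ ^ 3 ∨ ‖A‖ ^ 2 = ‖M‖ ^ 3 := by
  have hn : ‖A‖ * ‖B‖ = ‖M‖ ^ 3 := by rw [← norm_mul, h2, norm_pow]
  have hem : ‖e * M‖ ≤ ‖M‖ := by
    rw [norm_mul]
    exact mul_le_of_le_one_left (norm_nonneg _) he
  have key : ∀ A B : C, A + B = e * M - k → ‖A‖ * ‖B‖ = ‖M‖ ^ 3 → ‖B‖ < ‖A‖ → ‖A‖ = 1 := by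
    intro A B h1 hn hlt
    have h3 : ‖A‖ = ‖e * M - k‖ := by
      rw [← h1]
      have := IsUltrametricDist.norm_add_eq_max_of_norm_ne_norm (x := A) (y := B) hlt.ne'
      rw [this, max_eq_left hlt.le]
    rcases lt_trichotomy ‖A‖ 1 with h | h | h
    · exfalso
      have hM : ‖M‖ < 1 := by
        by_contra hM
        push Not at hM
        have : (1 : ℝ) ≤ ‖M‖ ^ 3 := one_le_pow₀ hM
        nlinarith [norm_nonneg A, norm_nonneg B]
      have : ‖k‖ < 1 := by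
        have e1 : k = e * M - (A + B) := by rw [h1]; ring
        rw [e1]
        exact norm_sub_lt (lt_of_le_of_lt hem hM) (norm_add_lt h (hlt.trans h))
      exact absurd hk this.ne
    · exact h
    · exfalso
      have h4 : ‖A‖ ≤ ‖M‖ := by
        by_contra h4
        push Not at h4
        have : ‖e * M - k‖ < ‖A‖ := norm_sub_lt (lt_of_le_of_lt hem h4) (by rw [hk]; exact h)
        exact absurd h3 this.ne'
      have h5 : ‖A‖ ^ 3 ≤ ‖M‖ ^ 3 := pow_le_pow_left₀ (norm_nonneg _) h4 3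
      have h6 : ‖A‖ * ‖B‖ < ‖A‖ * ‖A‖ := by
        apply mul_lt_mul_of_pos_left hlt
        linarith
      nlinarith
  rcases lt_trichotomy ‖A‖ ‖B‖ with h | h | h
  · right; left
    have hB := key B A (by rw [add_comm]; exact h1) (by rw [mul_comm]; exact hn) h
    rw [hB, mul_one] at hn
    exact hn
  · right; right
    rw [sq]
    nth_rewrite 2 [h]
    exact hn
  · left
    exact key A B h1 hn h

end VL

section P

variable {p : ℕ} [hp : Fact p.Prime]

/-- the algebraic closure of `ℚ_p` -/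
abbrev Cp (p : ℕ) [Fact p.Prime] : Type := PadicAlgCl p

/-- the local Galois group -/
abbrev Gp (p : ℕ) [Fact p.Prime] : Type := Cp p ≃ₐ[ℚ_[p]] Cp p

lemma norm_gal (t : Gp p) (c : Cp p) : ‖t c‖ = ‖c‖ := (spectralNorm_eq_of_equiv t c).symm

lemma fixed_mem {c : Cp p} (h : ∀ t : Gp p, t c = c) : ∃ q : ℚ_[p], algebraMap ℚ_[p] (Cp p) q = c :=
  (InfiniteGalois.mem_range_algebraMap_iff_fixed c).2 h

/-- powers of `p` -/
def PZ (p : ℕ) (x : ℝ) : Prop := ∃ n : ℤ, x = (p : ℝ) ^ n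

lemma PZ.mul {x y : ℝ} (hx : PZ p x) (hy : PZ p y) : PZ p (x * y) := by
  obtain ⟨n, rfl⟩ := hx
  obtain ⟨m, rfl⟩ := hy
  exact ⟨n + m, by rw [zpow_add₀ (by exact_mod_cast hp.1.ne_zero)]⟩

lemma PZ.div {x y : ℝ} (hx : PZ p x) (hy : PZ p y) : PZ p (x / y) := by
  obtain ⟨n, rfl⟩ := hx
  obtain ⟨m, rfl⟩ := hy
  exact ⟨n - m, by rw [zpow_sub₀ (by exact_mod_cast hp.1.ne_zero)]⟩

lemma PZ.one : PZ p 1 := ⟨0, by simp⟩

lemma PZ.max {x y : ℝ} (hx : PZ p x ∨ x = 0) (hy : PZ p y ∨ y = 0) :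
    PZ p (Max.max x y) ∨ Max.max x y = 0 := by
  rcases max_cases x y with ⟨h, -⟩ | ⟨h, -⟩ <;> rw [h]
  · exact hx
  · exact hy

lemma PZ_of_padic {q : ℚ_[p]} (hq : q ≠ 0) : PZ p ‖algebraMap ℚ_[p] (Cp p) q‖ := by
  have := PadicAlgCl.norm_extends p q
  rw [this]
  exact ⟨_, Padic.norm_eq_zpow_neg_valuation hq⟩

lemma PZ_of_fixed {c : Cp p} (h : ∀ t : Gp p, t c = c) : PZ p ‖c‖ ∨ ‖c‖ = 0 := by
  obtain ⟨q, rfl⟩ := fixed_mem h
  by_cases hq : q = 0
  · right; rw [hq]; simp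
  · left; exact PZ_of_padic hq


lemma norm_int (n : ℤ) : ‖(n : Cp p)‖ = ‖(n : ℚ_[p])‖ := by
  have := PadicAlgCl.norm_extends p (n : ℚ_[p])
  rw [map_intCast] at this
  exact this

lemma norm_int_le (n : ℤ) : ‖(n : Cp p)‖ ≤ 1 := by
  rw [norm_int]
  exact Padic.norm_int_le_one n

lemma norm_int_lt_iff (n : ℤ) : ‖(n : Cp p)‖ < 1 ↔ (p : ℤ) ∣ n := by
  rw [norm_int]
  exact Padic.norm_intCast_lt_one_iff

lemma norm_int_eq_one {n : ℤ} (h : ¬ (p : ℤ) ∣ n) : ‖(n : Cp p)‖ = 1 := by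
  rw [← norm_int_lt_iff] at h
  exact le_antisymm (norm_int_le n) (not_lt.1 h)

lemma norm_p : ‖((p : ℤ) : Cp p)‖ = (p : ℝ)⁻¹ := by
  rw [norm_int]
  simp

lemma one_lt_p : (1 : ℝ) < p := by exact_mod_cast hp.1.one_lt

lemma norm_w {w : Cp p} (hw : w ^ 2 + w + 1 = 0) : ‖w‖ = 1 := by
  have hw3 : w ^ 3 = 1 := by linear_combination (w - 1) * hw
  have : ‖w‖ ^ 3 = 1 := by rw [← norm_pow, hw3, norm_one]
  exact (pow_eq_one_iff_of_nonneg (norm_nonneg _) (by norm_num)).1 this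

lemma norm_three (h3 : p ≠ 3) : ‖(3 : Cp p)‖ = 1 := by
  have := norm_int_eq_one (p := p) (n := 3) (by
    intro h
    have h' : p ∣ 3 := by exact_mod_cast h
    rcases (Nat.dvd_prime Nat.prime_three).1 h' with h1 | h1
    · exact hp.1.one_lt.ne' h1
    · exact h3 h1)
  exact_mod_cast this

lemma norm_w_sub (h3 : p ≠ 3) {w : Cp p} (hw : w ^ 2 + w + 1 = 0) : ‖w - w ^ 2‖ = 1 := by
  have h : (w - w ^ 2) ^ 2 = -3 := by
    linear_combination (w ^ 2 - 3 * w + 3) * hw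
  have h' : ‖w - w ^ 2‖ ^ 2 = 1 := by rw [← norm_pow, h, norm_neg, norm_three h3]
  exact (pow_eq_one_iff_of_nonneg (norm_nonneg _) (by norm_num)).1 h'

lemma norm_w_sub_one (h3 : p ≠ 3) {w : Cp p} (hw : w ^ 2 + w + 1 = 0) : ‖w - 1‖ = 1 := by
  have h := norm_w_sub h3 hw
  have e : w - w ^ 2 = -(w * (w - 1)) := by ring
  rw [e, norm_neg, norm_mul, norm_w hw, one_mul] at h
  exact h

lemma cube_eq_iff {w a b : Cp p} (hw : w ^ 2 + w + 1 = 0) (h : a ^ 3 = b ^ 3) :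
    a = b ∨ a = w * b ∨ a = w ^ 2 * b := by
  have : (a - b) * ((a - w * b) * (a - w ^ 2 * b)) = 0 := by
    have hw3 : w ^ 3 = 1 := by linear_combination (w - 1) * hw
    linear_combination h - (a ^ 2 * b - a * b ^ 2) * hw + (a * b ^ 2 - b ^ 3) * hw3
  rcases mul_eq_zero.1 this with h1 | h1
  · left; exact sub_eq_zero.1 h1
  · rcases mul_eq_zero.1 h1 with h2 | h2
    · right; left; exact sub_eq_zero.1 h2
    · right; right; exact sub_eq_zero.1 h2

lemma gal_w {w : Cp p} (hw : w ^ 2 + w + 1 = 0) (t : Gp p) : t w = w ∨ t w = w ^ 2 := by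
  have h : (t w) ^ 2 + t w + 1 = 0 := by
    have := congrArg t hw
    simpa using this
  have : (t w - w) * (t w - w ^ 2) = 0 := by
    have hw3 : w ^ 3 = 1 := by linear_combination (w - 1) * hw
    linear_combination h + hw3 - t w * hw
  rcases mul_eq_zero.1 this with h1 | h1
  · left; exact sub_eq_zero.1 h1
  · right; exact sub_eq_zero.1 h1

lemma norm_max_of {a b c : Cp p} (ha : ‖a‖ ≤ ‖c‖) (hb : ‖b‖ ≤ ‖c‖) (h : ‖c‖ ≤ max ‖a‖ ‖b‖) :
    ‖c‖ = max ‖a‖ ‖b‖ := le_antisymm h (max_le ha hb)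

/-- the value group of `ℚ_p(ω)` -/
lemma stage1 (h3 : p ≠ 3) {w : Cp p} (hw : w ^ 2 + w + 1 = 0) {c : Cp p}
    (hc : ∀ t : Gp p, t w = w → t c = c) : PZ p ‖c‖ ∨ ‖c‖ = 0 := by
  by_cases hall : ∀ t : Gp p, t w = w
  · exact PZ_of_fixed fun t => hc t (hall t)
  · push Not at hall
    obtain ⟨r, hr⟩ := hall
    have hr2 : r w = w ^ 2 := (gal_w hw r).resolve_left hr
    have hw3 : w ^ 3 = 1 := by linear_combination (w - 1) * hw
    have hrr : r (w ^ 2) = w := by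
      rw [map_pow, hr2]
      linear_combination w * hw3
    have h1 : ∀ t : Gp p, t w = w → t (r c) = r c := by
      intro t ht
      have e : (r⁻¹ * t * r) c = c := by
        apply hc
        rw [AlgEquiv.mul_apply, AlgEquiv.mul_apply, hr2, map_pow, ht, ← hr2]
        exact r.symm_apply_apply w
      rw [AlgEquiv.mul_apply, AlgEquiv.mul_apply] at e
      calc t (r c) = r (r⁻¹ (t (r c))) := (r.apply_symm_apply _).symm
        _ = r c := by rw [e]
    have h2 : ∀ t : Gp p, t w = w ^ 2 → t c = r c ∧ t (r c) = c := by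
      intro t ht
      constructor
      · have e : (r⁻¹ * t) c = c := by
          apply hc
          rw [AlgEquiv.mul_apply, ht, ← hr2]
          exact r.symm_apply_apply w
        rw [AlgEquiv.mul_apply] at e
        calc t c = r (r⁻¹ (t c)) := (r.apply_symm_apply _).symm
          _ = r c := by rw [e]
      · have e : (t * r) c = c := by
          apply hc
          rw [AlgEquiv.mul_apply, hr2, map_pow, ht]
          linear_combination w * hw3
        exact e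
    have ha : PZ p ‖c + r c‖ ∨ ‖c + r c‖ = 0 := by
      apply PZ_of_fixed
      intro t
      rcases gal_w hw t with ht | ht
      · rw [map_add, hc t ht, h1 t ht]
      · rw [map_add, (h2 t ht).1, (h2 t ht).2, add_comm]
    have hb : PZ p ‖w * c + w ^ 2 * r c‖ ∨ ‖w * c + w ^ 2 * r c‖ = 0 := by
      apply PZ_of_fixed
      intro t
      rcases gal_w hw t with ht | ht
      · rw [map_add, map_mul, map_mul, hc t ht, h1 t ht, map_pow, ht]
      · rw [map_add, map_mul, map_mul, (h2 t ht).1, (h2 t ht).2, map_pow, ht]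
        linear_combination w * c * hw3
    have hn : ‖r c‖ = ‖c‖ := norm_gal r c
    have hwn := norm_w hw
    have ha' : ‖c + r c‖ ≤ ‖c‖ := norm_add_le' le_rfl hn.le
    have hb' : ‖w * c + w ^ 2 * r c‖ ≤ ‖c‖ := by
      apply norm_add_le'
      · rw [norm_mul, hwn, one_mul]
      · rw [norm_mul, norm_pow, hwn, one_pow, one_mul, hn]
    have hcc : ‖c‖ ≤ max ‖c + r c‖ ‖w * c + w ^ 2 * r c‖ := by
      have e : (w - w ^ 2) * c = (w * c + w ^ 2 * r c) - w ^ 2 * (c + r c) := by ring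
      have e2 : ‖c‖ = ‖(w - w ^ 2) * c‖ := by rw [norm_mul, norm_w_sub h3 hw, one_mul]
      rw [e2, e]
      apply norm_sub_le'
      · exact le_max_right _ _
      · rw [norm_mul, norm_pow, hwn, one_pow, one_mul]
        exact le_max_left _ _
    rw [norm_max_of ha' hb' hcc]
    exact PZ.max ha hb

/-- Lagrange resolvents -/
lemma LR {w η c : Cp p} (hw : w ^ 2 + w + 1 = 0) (h0 : η ≠ 0)
    (hη : ∀ t : Gp p, t w = w → t (η ^ 3) = η ^ 3) (s : Gp p) (hs : s w = w) (hsη : s η = w * η)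
    (hc : ∀ t : Gp p, t w = w → t η = η → t c = c) :
    ∃ d₀ d₁ d₂ : Cp p, (∀ t : Gp p, t w = w → t d₀ = d₀) ∧ (∀ t : Gp p, t w = w → t d₁ = d₁) ∧
      (∀ t : Gp p, t w = w → t d₂ = d₂) ∧ c = d₀ + d₁ * η + d₂ * η ^ 2 ∧
      (p ≠ 3 → ‖d₀‖ ≤ ‖c‖ ∧ ‖d₁ * η‖ ≤ ‖c‖ ∧ ‖d₂ * η ^ 2‖ ≤ ‖c‖) := by
  have hw3 : w ^ 3 = 1 := by linear_combination (w - 1) * hw
  have hsw : ∀ j : ℕ, (s ^ j) w = w := by
    intro j
    induction j with
    | zero => rfl
    | succ j ih => rw [pow_succ, AlgEquiv.mul_apply, hs, ih]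
  have hse : ∀ j : ℕ, (s ^ j) η = w ^ j * η := by
    intro j
    induction j with
    | zero => rw [pow_zero, pow_zero, one_mul]; rfl
    | succ j ih => rw [pow_succ, AlgEquiv.mul_apply, hsη, map_mul, hsw, ih, pow_succ]; ring
  have key : ∀ (t : Gp p) (i j : ℕ), t w = w → t η = w ^ i * η →
      t ((s ^ j) c) = (s ^ (i + j)) c := by
    intro t i j ht htη
    have e : ((s ^ (i + j))⁻¹ * t * s ^ j) c = c := by
      apply hc
      · rw [AlgEquiv.mul_apply, AlgEquiv.mul_apply, hsw, ht]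
        nth_rewrite 1 [← hsw (i + j)]
        exact (s ^ (i + j)).symm_apply_apply w
      · rw [AlgEquiv.mul_apply, AlgEquiv.mul_apply, hse, map_mul, map_pow, ht, htη]
        have : w ^ j * (w ^ i * η) = (s ^ (i + j)) η := by rw [hse]; ring
        rw [this]
        exact (s ^ (i + j)).symm_apply_apply η
    rw [AlgEquiv.mul_apply, AlgEquiv.mul_apply] at e
    calc t ((s ^ j) c) = (s ^ (i + j)) ((s ^ (i + j))⁻¹ (t ((s ^ j) c))) :=
          ((s ^ (i + j)).apply_symm_apply _).symm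
      _ = (s ^ (i + j)) c := by rw [e]
  have hs3 : (s ^ 3) c = c := by
    apply hc
    · exact hsw 3
    · rw [hse, hw3, one_mul]
  obtain ⟨c1, hc1⟩ : ∃ c1, c1 = (s ^ 1) c := ⟨_, rfl⟩
  obtain ⟨c2, hc2⟩ : ∃ c2, c2 = (s ^ 2) c := ⟨_, rfl⟩
  have hs4 : (s ^ 4) c = c1 := by
    rw [hc1, show 4 = 1 + 3 from rfl, pow_add, AlgEquiv.mul_apply, hs3]
  have hcase : ∀ t : Gp p, t w = w →
      (t η = η ∧ t c = c ∧ t c1 = c1 ∧ t c2 = c2) ∨
      (t η = w * η ∧ t c = c1 ∧ t c1 = c2 ∧ t c2 = c) ∨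
      (t η = w ^ 2 * η ∧ t c = c2 ∧ t c1 = c ∧ t c2 = c1) := by
    intro t ht
    have h3 : (t η) ^ 3 = η ^ 3 := by rw [← map_pow, hη t ht]
    rcases cube_eq_iff hw h3 with h | h | h
    · left
      have h' : t η = w ^ 0 * η := by rw [h, pow_zero, one_mul]
      refine ⟨h, ?_, ?_, ?_⟩
      · have := key t 0 0 ht h'
        simpa using this
      · have := key t 0 1 ht h'
        rw [zero_add, ← hc1] at this
        exact this
      · have := key t 0 2 ht h'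
        rw [zero_add, ← hc2] at this
        exact this
    · right; left
      have h' : t η = w ^ 1 * η := by rw [h, pow_one]
      refine ⟨h, ?_, ?_, ?_⟩
      · have := key t 1 0 ht h'
        rw [pow_zero, ← hc1] at this
        exact this
      · have := key t 1 1 ht h'
        rw [← hc1, show 1 + 1 = 2 from rfl, ← hc2] at this
        exact this
      · have := key t 1 2 ht h'
        rw [show 1 + 2 = 3 from rfl, ← hc2, hs3] at this
        exact this
    · right; right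
      refine ⟨h, ?_, ?_, ?_⟩
      · have := key t 2 0 ht h
        rw [pow_zero, show 2 + 0 = 2 from rfl, ← hc2] at this
        exact this
      · have := key t 2 1 ht h
        rw [← hc1, show 2 + 1 = 3 from rfl, hs3] at this
        exact this
      · have := key t 2 2 ht h
        rw [show 2 + 2 = 4 from rfl, ← hc2, hs4] at this
        exact this
  have hn1 : ‖c1‖ = ‖c‖ := by rw [hc1]; exact norm_gal _ c
  have hn2 : ‖c2‖ = ‖c‖ := by rw [hc2]; exact norm_gal _ c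
  have h3' : (3 : Cp p) ≠ 0 := by norm_num
  have hw0 : w ≠ 0 := by
    rintro rfl
    norm_num at hw
  have hwt : ∀ t : Gp p, t w = w → t (w ^ 2) = w ^ 2 := fun t ht => by rw [map_pow, ht]
  refine ⟨(c + c1 + c2) / 3, (c + w ^ 2 * c1 + w * c2) / (3 * η),
    (c + w * c1 + w ^ 2 * c2) / (3 * η ^ 2), ?_, ?_, ?_, ?_, ?_⟩
  · intro t ht
    rw [map_div₀, map_add, map_add, map_ofNat]
    rcases hcase t ht with ⟨-, e0, e1, e2⟩ | ⟨-, e0, e1, e2⟩ | ⟨-, e0, e1, e2⟩
    · rw [e0, e1, e2]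
    · rw [e0, e1, e2]
      ring
    · rw [e0, e1, e2]
      ring
  · intro t ht
    rw [map_div₀, map_add, map_add, map_mul, map_mul, map_mul, hwt t ht, ht, map_ofNat]
    rcases hcase t ht with ⟨e, e0, e1, e2⟩ | ⟨e, e0, e1, e2⟩ | ⟨e, e0, e1, e2⟩
    · rw [e0, e1, e2, e]
    · rw [e0, e1, e2, e, div_eq_div_iff (mul_ne_zero h3' (mul_ne_zero hw0 h0))
        (mul_ne_zero h3' h0)]
      linear_combination (-3 * η * c1) * hw3
    · rw [e0, e1, e2, e, div_eq_div_iff (mul_ne_zero h3' (mul_ne_zero (pow_ne_zero 2 hw0) h0))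
        (mul_ne_zero h3' h0)]
      linear_combination (-3 * η * c2 - 3 * η * w * c1) * hw3
  · intro t ht
    rw [map_div₀, map_add, map_add, map_mul, map_mul, map_mul, hwt t ht, ht, map_ofNat, map_pow]
    rcases hcase t ht with ⟨e, e0, e1, e2⟩ | ⟨e, e0, e1, e2⟩ | ⟨e, e0, e1, e2⟩
    · rw [e0, e1, e2, e]
    · rw [e0, e1, e2, e, div_eq_div_iff (mul_ne_zero h3' (pow_ne_zero 2 (mul_ne_zero hw0 h0)))
        (mul_ne_zero h3' (pow_ne_zero 2 h0))]
      linear_combination (-3 * η ^ 2 * c1 - 3 * η ^ 2 * w * c2) * hw3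
    · rw [e0, e1, e2, e, div_eq_div_iff
        (mul_ne_zero h3' (pow_ne_zero 2 (mul_ne_zero (pow_ne_zero 2 hw0) h0)))
        (mul_ne_zero h3' (pow_ne_zero 2 h0))]
      linear_combination (-3 * η ^ 2 * w * c - 3 * η ^ 2 * w ^ 2 * c1 -
        3 * η ^ 2 * c2 * (w ^ 3 + 1)) * hw3
  · field_simp
    linear_combination (-(c1 + c2)) * hw
  · intro hp3
    have hwn := norm_w hw
    have h3n := norm_three hp3
    have e1 : (c + w ^ 2 * c1 + w * c2) / (3 * η) * η = (c + w ^ 2 * c1 + w * c2) / 3 := by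
      field_simp
    have e2 : (c + w * c1 + w ^ 2 * c2) / (3 * η ^ 2) * η ^ 2 = (c + w * c1 + w ^ 2 * c2) / 3 := by
      field_simp
    rw [e1, e2, norm_div, norm_div, norm_div, h3n, div_one, div_one, div_one]
    refine ⟨?_, ?_, ?_⟩
    · exact norm_add_le' (norm_add_le' le_rfl hn1.le) hn2.le
    · refine norm_add_le' (norm_add_le' le_rfl ?_) ?_
      · rw [norm_mul, norm_pow, hwn, one_pow, one_mul, hn1]
      · rw [norm_mul, hwn, one_mul, hn2]
    · refine norm_add_le' (norm_add_le' le_rfl ?_) ?_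
      · rw [norm_mul, hwn, one_mul, hn1]
      · rw [norm_mul, norm_pow, hwn, one_pow, one_mul, hn2]


lemma exists_sigma {w η : Cp p} (hw : w ^ 2 + w + 1 = 0)
    (hη : ∀ t : Gp p, t w = w → t (η ^ 3) = η ^ 3) (hne : ¬ ∀ t : Gp p, t w = w → t η = η) :
    ∃ s : Gp p, s w = w ∧ s η = w * η := by
  have hw3 : w ^ 3 = 1 := by linear_combination (w - 1) * hw
  push Not at hne
  obtain ⟨t, ht, hte⟩ := hne
  have h3 : (t η) ^ 3 = η ^ 3 := by rw [← map_pow, hη t ht]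
  rcases cube_eq_iff hw h3 with h | h | h
  · exact absurd h hte
  · exact ⟨t, ht, h⟩
  · refine ⟨t * t, ?_, ?_⟩
    · rw [AlgEquiv.mul_apply, ht, ht]
    · rw [AlgEquiv.mul_apply, h, map_mul, map_pow, ht, h]
      linear_combination w * η * hw3

lemma norm_three_le {a b c : Cp p} {d : Cp p} (h : d = a + b + c) (ha : ‖a‖ ≤ ‖d‖)
    (hb : ‖b‖ ≤ ‖d‖) (hc : ‖c‖ ≤ ‖d‖) : ‖d‖ = max (max ‖a‖ ‖b‖) ‖c‖ := by
  apply le_antisymm
  · rw [h]
    exact le_trans (IsUltrametricDist.norm_add_le_max _ _)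
      (max_le_max_right _ (IsUltrametricDist.norm_add_le_max _ _))
  · exact max_le (max_le ha hb) hc

/-- the value group of `ℚ_p(ω, η)` in the unramified case -/
lemma VG (h3 : p ≠ 3) {w η c : Cp p} (hw : w ^ 2 + w + 1 = 0) (h1 : ‖η‖ = 1)
    (hη : ∀ t : Gp p, t w = w → t (η ^ 3) = η ^ 3)
    (hc : ∀ t : Gp p, t w = w → t η = η → t c = c) : PZ p ‖c‖ ∨ ‖c‖ = 0 := by
  have h0 : η ≠ 0 := by
    rintro rfl
    rw [norm_zero] at h1
    exact zero_ne_one h1
  by_cases hall : ∀ t : Gp p, t w = w → t η = η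
  · exact stage1 h3 hw fun t ht => hc t ht (hall t ht)
  · obtain ⟨s, hs, hsη⟩ := exists_sigma hw hη hall
    obtain ⟨d₀, d₁, d₂, hd0, hd1, hd2, he, hn⟩ := LR hw h0 hη s hs hsη hc
    obtain ⟨n0, n1, n2⟩ := hn h3
    rw [norm_three_le he n0 n1 n2, norm_mul, norm_mul, norm_pow, h1, one_pow, mul_one, mul_one]
    exact PZ.max (PZ.max (stage1 h3 hw hd0) (stage1 h3 hw hd1)) (stage1 h3 hw hd2)

/-- `ω ∈ ℚ_p` if there is an integer root modulo `p` -/
lemma w_fixed (h3 : p ≠ 3) {w : Cp p} (hw : w ^ 2 + w + 1 = 0) (n : ℤ)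
    (hn : (p : ℤ) ∣ n ^ 2 + n + 1) (t : Gp p) : t w = w := by
  rcases gal_w hw t with h | h
  · exact h
  · exfalso
    have hw3 : w ^ 3 = 1 := by linear_combination (w - 1) * hw
    have e : ((n : Cp p) - w) * ((n : Cp p) - w ^ 2) = ((n ^ 2 + n + 1 : ℤ) : Cp p) := by
      push_cast
      linear_combination hw3 - (n : Cp p) * hw
    have h1 : ‖(n : Cp p) - w ^ 2‖ = ‖(n : Cp p) - w‖ := by
      rw [← norm_gal t ((n : Cp p) - w), map_sub, map_intCast, h]
    have h2 : ‖(n : Cp p) - w‖ < 1 := by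
      by_contra h2
      push Not at h2
      have h4 := (norm_int_lt_iff (p := p) _).2 hn
      rw [← e, norm_mul, h1] at h4
      nlinarith
    have h5 : ‖w - w ^ 2‖ < 1 := by
      have e2 : w - w ^ 2 = ((n : Cp p) - w ^ 2) - ((n : Cp p) - w) := by ring
      rw [e2]
      exact norm_sub_lt (by rw [h1]; exact h2) h2
    rw [norm_w_sub h3 hw] at h5
    exact lt_irrefl _ h5

/-- cube roots of elements close to one -/
lemma cube_root_near (h3 : p ≠ 3) {w : Cp p} (hw : w ^ 2 + w + 1 = 0) {c : Cp p}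
    (hc : ‖c - 1‖ < 1) : ∃ r : Cp p, r ^ 3 = c ∧ ‖r - 1‖ < 1 ∧ ∀ t : Gp p, t c = c → t r = r := by
  have hw3 : w ^ 3 = 1 := by linear_combination (w - 1) * hw
  obtain ⟨r, hr⟩ := IsAlgClosed.exists_pow_nat_eq c (n := 3) (by norm_num)
  have hprod : (r - 1) * ((r - w) * (r - w ^ 2)) = c - 1 := by
    rw [← hr]
    linear_combination (-r ^ 2 + r) * hw + (r - 1) * hw3
  have hex : ∃ r : Cp p, r ^ 3 = c ∧ ‖r - 1‖ < 1 := by
    by_contra hno
    push Not at hno
    have hwn := norm_w hw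
    have g1 := hno r hr
    have g2 := hno (w ^ 2 * r) (by rw [mul_pow, hr]; linear_combination c * (w ^ 3 + 1) * hw3)
    have g3 := hno (w * r) (by rw [mul_pow, hr]; linear_combination c * hw3)
    have e2 : ‖r - w‖ = ‖w ^ 2 * r - 1‖ := by
      have : w ^ 2 * r - 1 = w ^ 2 * (r - w) := by linear_combination hw3
      rw [this, norm_mul, norm_pow, hwn, one_pow, one_mul]
    have e3 : ‖r - w ^ 2‖ = ‖w * r - 1‖ := by
      have : w * r - 1 = w * (r - w ^ 2) := by linear_combination hw3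
      rw [this, norm_mul, hwn, one_mul]
    rw [← hprod, norm_mul, norm_mul, e2, e3] at hc
    have : 1 ≤ ‖r - 1‖ * (‖w ^ 2 * r - 1‖ * ‖w * r - 1‖) := by
      apply one_le_mul_of_one_le_of_one_le g1
      exact one_le_mul_of_one_le_of_one_le g2 g3
    linarith
  obtain ⟨r, hr, hr1⟩ := hex
  refine ⟨r, hr, hr1, fun t ht => ?_⟩
  have h4 : (t r) ^ 3 = r ^ 3 := by rw [← map_pow, hr, ht]
  have h5 : ‖t r - 1‖ < 1 := by
    have : t r - 1 = t (r - 1) := by rw [map_sub, map_one]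
    rw [this, norm_gal]
    exact hr1
  have h6 : ‖t r - r‖ < 1 := by
    have : t r - r = (t r - 1) - (r - 1) := by ring
    rw [this]
    exact norm_sub_lt h5 hr1
  have hrn : ‖r‖ = 1 := by
    have := norm_eq_of_sub_lt (a := r) (b := 1) (by rwa [norm_one])
    rwa [norm_one] at this
  rcases cube_eq_iff hw h4 with h | h | h
  · exact h
  · exfalso
    have e : t r - r = (w - 1) * r := by rw [h]; ring
    rw [e, norm_mul, hrn, norm_w_sub_one h3 hw, mul_one] at h6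
    exact lt_irrefl _ h6
  · exfalso
    have e : t r - r = -(w ^ 2 * (w - 1) * r) := by rw [h]; linear_combination r * hw3
    rw [e, norm_neg, norm_mul, norm_mul, norm_pow, norm_w hw, one_pow, one_mul, hrn,
      norm_w_sub_one h3 hw, mul_one] at h6
    exact lt_irrefl _ h6

/-- residues in `ℚ_p` -/
lemma residue_fixed {c : Cp p} (hc : ∀ t : Gp p, t c = c) (h1 : ‖c‖ ≤ 1) :
    ∃ n : ℤ, ‖c - n‖ < 1 := by
  obtain ⟨q, rfl⟩ := fixed_mem hc
  have hq : ‖q‖ ≤ 1 := by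
    rw [← PadicAlgCl.norm_extends p q]
    exact h1
  obtain ⟨z, hz⟩ : ∃ z : ℤ_[p], (z : ℚ_[p]) = q := ⟨⟨q, hq⟩, rfl⟩
  obtain ⟨n, -, hn⟩ := PadicInt.exists_mem_range z
  refine ⟨n, ?_⟩
  have hn' : ‖z - n‖ < 1 := PadicInt.mem_nonunits.1 ((IsLocalRing.mem_maximalIdeal _).1 hn)
  rw [PadicInt.norm_def, PadicInt.coe_sub, PadicInt.coe_natCast, hz] at hn'
  have e : algebraMap ℚ_[p] (Cp p) q - ((n : ℤ) : Cp p) = algebraMap ℚ_[p] (Cp p) (q - n) := by
    rw [map_sub, map_natCast, Int.cast_natCast]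
  rw [e]
  have h := PadicAlgCl.norm_extends p (q - n)
  rw [h]
  exact hn'

end P

end Pool.Agent.W94.F3
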