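import Mathlib
import Pool.Agent.W94.F3.Eis2
import Pool.Agent.W94.F3.Local

/-!
# Cubes in `ℚ_2(ω)` and `ℚ_3(ω)`
-/

set_option autoImplicit false
set_option linter.unusedSectionVars false

namespace Pool.Agent.W94.F3

open Eis

set_option maxRecDepth 100000 in
lemma fin_check : ∀ j a b c : Fin 3,
    ((om ^ (j : ℕ) * (x7 ^ (a : ℕ) * x13 ^ (b : ℕ) * x31 ^ (c : ℕ))).re % 2 = 1 ∧
     (om ^ (j : ℕ) * (x7 ^ (a : ℕ) * x13 ^ (b : ℕ) * x31 ^ (c : ℕ))).im % 2 = 0) →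
    (((om ^ (j : ℕ) * (x7 ^ (a : ℕ) * x13 ^ (b : ℕ) * x31 ^ (c : ℕ))).re % 9 = 1 ∨
      (om ^ (j : ℕ) * (x7 ^ (a : ℕ) * x13 ^ (b : ℕ) * x31 ^ (c : ℕ))).re % 9 = 8) ∧
     (om ^ (j : ℕ) * (x7 ^ (a : ℕ) * x13 ^ (b : ℕ) * x31 ^ (c : ℕ))).im % 9 = 0) →
    j = 0 ∧ a = b ∧ b = c := by
  decide


lemma zmod2_cube : ∀ A B : ZMod (2 ^ 1), (A ^ 3 + B ^ 3 - 3 * A * B ^ 2) ^ 2 -
    (A ^ 3 + B ^ 3 - 3 * A * B ^ 2) * (3 * A ^ 2 * B - 3 * A * B ^ 2) +
    (3 * A ^ 2 * B - 3 * A * B ^ 2) ^ 2 ≠ 0 →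
    A ^ 3 + B ^ 3 - 3 * A * B ^ 2 = 1 ∧ 3 * A ^ 2 * B - 3 * A * B ^ 2 = 0 := by decide

lemma zmod9_cube : ∀ A B : ZMod (3 ^ 2), ((A ^ 3 + B ^ 3 - 3 * A * B ^ 2) ^ 2 -
    (A ^ 3 + B ^ 3 - 3 * A * B ^ 2) * (3 * A ^ 2 * B - 3 * A * B ^ 2) +
    (3 * A ^ 2 * B - 3 * A * B ^ 2) ^ 2) * 3 ≠ 0 →
    (A ^ 3 + B ^ 3 - 3 * A * B ^ 2 = 1 ∨ A ^ 3 + B ^ 3 - 3 * A * B ^ 2 = 8) ∧
    3 * A ^ 2 * B - 3 * A * B ^ 2 = 0 := by decide

lemma zmod2_aux : ∀ n : ZMod 2, n ^ 2 + n + 1 ≠ 0 := by decide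

variable {p : ℕ} [hp : Fact p.Prime]

lemma norm_alg (q : ℚ_[p]) : ‖algebraMap ℚ_[p] (Cp p) q‖ = ‖q‖ := PadicAlgCl.norm_extends p q

/-- `ω` is not in `ℚ_2`, `ℚ_3` -/
lemma w_not_fixed (hp23 : p = 2 ∨ p = 3) {w : Cp p} (hw : w ^ 2 + w + 1 = 0) :
    ∃ r : Gp p, r w = w ^ 2 := by
  by_contra hno
  push Not at hno
  have hall : ∀ t : Gp p, t w = w := fun t => (gal_w hw t).resolve_right (hno t)
  rcases hp23 with rfl | rfl
  · obtain ⟨n, hn⟩ := residue_fixed hall (norm_w hw).le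
    have h1 : ‖((n ^ 2 + n + 1 : ℤ) : Cp 2)‖ < 1 := by
      have e : ((n ^ 2 + n + 1 : ℤ) : Cp 2) = -((w - n) * (w + n + 1)) := by
        push_cast
        linear_combination hw
      rw [e, norm_neg, norm_mul]
      refine lt_of_le_of_lt (mul_le_of_le_one_right (_root_.norm_nonneg _) ?_) hn
      refine norm_add_le' (norm_add_le' (norm_w hw).le (norm_int_le n)) ?_
      rw [norm_one]
    rw [norm_int_lt_iff] at h1
    apply zmod2_aux (n : ZMod 2)
    have := (ZMod.intCast_zmod_eq_zero_iff_dvd (n ^ 2 + n + 1) 2).2 (by exact_mod_cast h1)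
    push_cast at this
    exact this
  · have h1 : ∀ t : Gp 3, t (w - 1) = w - 1 := fun t => by rw [map_sub, map_one, hall]
    have h2 : (w - 1) ^ 2 = -(3 * w) := by linear_combination hw
    have h3 : ‖w - 1‖ ^ 2 = (3 : ℝ)⁻¹ := by
      rw [← norm_pow, h2, norm_neg, norm_mul, norm_w hw, mul_one]
      have := norm_p (p := 3)
      exact_mod_cast this
    rcases PZ_of_fixed h1 with ⟨n, hn⟩ | h0
    · rw [hn, ← zpow_natCast, ← zpow_mul, show ((3 : ℝ)⁻¹) = ((3 : ℕ) : ℝ) ^ (-1 : ℤ) by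
        rw [zpow_neg_one]; norm_num] at h3
      have := zpow_right_injective₀ (a := ((3 : ℕ) : ℝ)) (by norm_num) (by norm_num) h3
      omega
    · rw [h0] at h3
      norm_num at h3

lemma coord {w : Cp p} (hp23 : p = 2 ∨ p = 3) (hw : w ^ 2 + w + 1 = 0) {c : Cp p}
    (hc : ∀ t : Gp p, t w = w → t c = c) (h1 : ‖c‖ = 1) :
    ∃ A B : ℤ_[p], c = algebraMap ℚ_[p] (Cp p) (A : ℚ_[p]) +
      algebraMap ℚ_[p] (Cp p) (B : ℚ_[p]) * w := by
  have hw3 : w ^ 3 = 1 := by linear_combination (w - 1) * hw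
  obtain ⟨r, hr2⟩ := w_not_fixed hp23 hw
  have hrr : r (w ^ 2) = w := by
    rw [map_pow, hr2]
    linear_combination w * hw3
  have h1' : ∀ t : Gp p, t w = w → t (r c) = r c := by
    intro t ht
    have e : (r⁻¹ * t * r) c = c := by
      apply hc
      rw [AlgEquiv.mul_apply, AlgEquiv.mul_apply, hr2, map_pow, ht, ← hr2]
      exact r.symm_apply_apply w
    rw [AlgEquiv.mul_apply, AlgEquiv.mul_apply] at e
    calc t (r c) = r (r⁻¹ (t (r c))) := (r.apply_symm_apply _).symm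
      _ = r c := by rw [e]
  have h2 : ∀ t : Gp p, t w = w ^ 2 → t c = r c ∧ t (r c) = c := by
    intro t ht
    constructor
    · have e : (r⁻¹ * t) c = c := by
        apply hc
        rw [AlgEquiv.mul_apply, ht, ← hr2]
        exact r.symm_apply_apply w
      rw [AlgEquiv.mul_apply] at e
      calc t c = r (r⁻¹ (t c)) := (r.apply_symm_apply _).symm
        _ = r c := by rw [e]
    · have e : (t * r) c = c := by
        apply hc
        rw [AlgEquiv.mul_apply, hr2, map_pow, ht]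
        linear_combination w * hw3
      exact e
  have ha : ∀ t : Gp p, t (c + r c) = c + r c := by
    intro t
    rcases gal_w hw t with ht | ht
    · rw [map_add, hc t ht, h1' t ht]
    · rw [map_add, (h2 t ht).1, (h2 t ht).2, add_comm]
  have hb : ∀ t : Gp p, t (w * c + w ^ 2 * r c) = w * c + w ^ 2 * r c := by
    intro t
    rcases gal_w hw t with ht | ht
    · rw [map_add, map_mul, map_mul, hc t ht, h1' t ht, map_pow, ht]
    · rw [map_add, map_mul, map_mul, (h2 t ht).1, (h2 t ht).2, map_pow, ht]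
      linear_combination w * c * hw3
  have hN : ∀ t : Gp p, t (c * r c) = c * r c := by
    intro t
    rcases gal_w hw t with ht | ht
    · rw [map_mul, hc t ht, h1' t ht]
    · rw [map_mul, (h2 t ht).1, (h2 t ht).2, mul_comm]
  obtain ⟨a, ea⟩ := fixed_mem ha
  obtain ⟨b, eb⟩ := fixed_mem hb
  obtain ⟨N, eN⟩ := fixed_mem hN
  have hn : ‖r c‖ = 1 := by rw [norm_gal, h1]
  have na : ‖a‖ ≤ 1 := by
    rw [← norm_alg, ea]
    exact norm_add_le' h1.le hn.le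
  have nb : ‖b‖ ≤ 1 := by
    rw [← norm_alg, eb]
    apply norm_add_le'
    · rw [norm_mul, norm_w hw, one_mul, h1]
    · rw [norm_mul, norm_pow, norm_w hw, one_pow, one_mul, hn]
  have nN : ‖N‖ ≤ 1 := by
    rw [← norm_alg, eN, norm_mul, h1, hn, one_mul]
  obtain ⟨A, eA⟩ : ∃ A : ℚ_[p], A = (a - b) / 3 := ⟨_, rfl⟩
  obtain ⟨B, eB⟩ : ∃ B : ℚ_[p], B = -(a + 2 * b) / 3 := ⟨_, rfl⟩
  have h3 : (3 : ℚ_[p]) ≠ 0 := by norm_num
  have h3' : (3 : Cp p) ≠ 0 := by norm_num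
  have hrep : c = algebraMap ℚ_[p] (Cp p) A + algebraMap ℚ_[p] (Cp p) B * w := by
    rw [eA, eB, map_div₀, map_div₀, map_neg, map_add, map_sub, map_mul, map_ofNat, map_ofNat, ea,
      eb]
    field_simp
    linear_combination (2 * c + (r c) * (2 * w - 1)) * hw
  have hAB : ‖A‖ ≤ 1 ∧ ‖B‖ ≤ 1 := by
    have key : 3 * B ^ 2 = 4 * N - a ^ 2 := by
      have : algebraMap ℚ_[p] (Cp p) (3 * B ^ 2) = algebraMap ℚ_[p] (Cp p) (4 * N - a ^ 2) := by
        rw [eB, map_mul, map_pow, map_div₀, map_neg, map_add, map_sub, map_mul, map_mul, map_pow,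
          map_ofNat, map_ofNat, map_ofNat, ea, eb, eN]
        field_simp
        linear_combination (2 * r c * ((c + r c + 2 * w * (c + r c * w)) +
          (1 + 2 * w) * (c - r c)) + 4 * (c - r c) ^ 2) * hw
      exact (algebraMap ℚ_[p] (Cp p)).injective this
    rcases hp23 with rfl | rfl
    · have n3 : ‖(3 : ℚ_[2])‖ = 1 := by
        have := norm_three (p := 2) (by norm_num)
        rw [← map_ofNat (algebraMap ℚ_[2] (Cp 2)), norm_alg] at this
        exact this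
      have n2 : ‖(2 : ℚ_[2])‖ ≤ 1 := by
        have := Padic.norm_int_le_one (p := 2) 2
        exact_mod_cast this
      constructor
      · rw [eA, norm_div, n3, div_one]
        exact norm_sub_le' na nb
      · rw [eB, norm_div, n3, div_one, norm_neg]
        refine norm_add_le' na ?_
        rw [norm_mul]
        exact mul_le_one₀ n2 (_root_.norm_nonneg _) nb
    · have n3 : ‖(3 : ℚ_[3])‖ = (3 : ℝ)⁻¹ := by
        have := Padic.norm_p (p := 3)
        exact_mod_cast this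
      have n2 : ‖(2 : ℚ_[3])‖ = 1 := by
        have := (Padic.norm_intCast_eq_one_iff (p := 3) (z := 2)).2 (by decide)
        exact_mod_cast this
      have n4 : ‖(4 : ℚ_[3])‖ ≤ 1 := by
        have := Padic.norm_int_le_one (p := 3) 4
        exact_mod_cast this
      have hB2 : (3 : ℝ)⁻¹ * ‖B‖ ^ 2 ≤ 1 := by
        rw [← n3, ← norm_pow, ← norm_mul, key]
        refine norm_sub_le' ?_ ?_
        · rw [norm_mul]
          exact mul_le_one₀ n4 (_root_.norm_nonneg _) nN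
        · rw [norm_pow]
          exact pow_le_one₀ (_root_.norm_nonneg _) na
      have hB1 : ‖B‖ ≤ 1 := by
        by_cases hB0 : B = 0
        · rw [hB0, norm_zero]; exact zero_le_one
        · have h5 := Padic.norm_eq_zpow_neg_valuation hB0
          by_contra hcon
          push Not at hcon
          have h6 : 1 ≤ -B.valuation := by
            by_contra h7
            push Not at h7
            have h8 : -B.valuation ≤ 0 := by omega
            rw [h5] at hcon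
            have := zpow_le_one_of_nonpos₀ (a := ((3 : ℕ) : ℝ)) (by norm_num) h8
            linarith
          have h9 : (3 : ℝ) ≤ ‖B‖ := by
            rw [h5]
            calc (3 : ℝ) = ((3 : ℕ) : ℝ) ^ (1 : ℤ) := by norm_num
              _ ≤ _ := zpow_le_zpow_right₀ (by norm_num) h6
          nlinarith
      refine ⟨?_, hB1⟩
      have e : 2 * A = a + B := by
        rw [eA, eB]; ring
      have : ‖2 * A‖ ≤ 1 := by
        rw [e]
        exact norm_add_le' na hB1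
      rwa [norm_mul, n2, one_mul] at this
  exact ⟨⟨A, hAB.1⟩, ⟨B, hAB.2⟩, hrep⟩


/-- the value of an Eisenstein integer -/
def ev {R : Type*} [CommRing R] (w : R) (X : Eis) : R := (X.re : R) + (X.im : R) * w

lemma ev_norm {R : Type*} [CommRing R] {w : R} (hw : w ^ 2 + w + 1 = 0) (X : Eis) :
    ev w X * ev (w ^ 2) X = ((QuadraticAlgebra.norm X : ℤ) : R) := by
  rw [Eis.norm_eq]
  unfold ev
  push_cast
  linear_combination ((X.re : R) * X.im + (X.im : R) ^ 2 * (w - 1)) * hw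

lemma norm_ev_le {w : Cp p} (hw : w ^ 2 + w + 1 = 0) (X : Eis) : ‖ev w X‖ ≤ 1 := by
  unfold ev
  refine norm_add_le' (norm_int_le _) ?_
  rw [norm_mul, norm_w hw, mul_one]
  exact norm_int_le _

lemma norm_ev_eq_one {w : Cp p} (hw : w ^ 2 + w + 1 = 0) {X : Eis}
    (hX : ¬ (p : ℤ) ∣ QuadraticAlgebra.norm X) : ‖ev w X‖ = 1 := by
  have hw' : (w ^ 2) ^ 2 + w ^ 2 + 1 = 0 := by
    linear_combination (w ^ 2 - w + 1) * hw
  have h1 := norm_ev_le hw X
  have h2 := norm_ev_le hw' X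
  have h3 := congrArg norm (ev_norm hw X)
  rw [norm_mul, norm_int_eq_one hX] at h3
  refine le_antisymm h1 ?_
  by_contra hcon
  push Not at hcon
  nlinarith [_root_.norm_nonneg (ev w X), _root_.norm_nonneg (ev (w ^ 2) X)]

lemma cube_coords (hp23 : p = 2 ∨ p = 3) {w c : Cp p} (hw : w ^ 2 + w + 1 = 0)
    (hc : ∀ t : Gp p, t w = w → t c = c) {X : Eis} (hX : ¬ (p : ℤ) ∣ QuadraticAlgebra.norm X)
    (h : c ^ 3 = ev w X) : ∃ A B : ℤ_[p], (X.re : ℤ_[p]) = A ^ 3 + B ^ 3 - 3 * A * B ^ 2 ∧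
      (X.im : ℤ_[p]) = 3 * A ^ 2 * B - 3 * A * B ^ 2 := by
  have h1 : ‖c‖ = 1 := by
    have h2 : ‖c‖ ^ 3 = 1 := by rw [← norm_pow, h, norm_ev_eq_one hw hX]
    exact (pow_eq_one_iff_of_nonneg (_root_.norm_nonneg _) (by norm_num)).1 h2
  obtain ⟨A, B, hAB⟩ := coord hp23 hw hc h1
  obtain ⟨r, hr⟩ := w_not_fixed hp23 hw
  obtain ⟨C, hC⟩ : ∃ C : ℤ_[p], C = A ^ 3 + B ^ 3 - 3 * A * B ^ 2 - X.re := ⟨_, rfl⟩
  obtain ⟨D, hD⟩ : ∃ D : ℤ_[p], D = 3 * A ^ 2 * B - 3 * A * B ^ 2 - X.im := ⟨_, rfl⟩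
  have e1 : algebraMap ℚ_[p] (Cp p) (C : ℚ_[p]) + algebraMap ℚ_[p] (Cp p) (D : ℚ_[p]) * w = 0 := by
    have hC' : (C : ℚ_[p]) = (A : ℚ_[p]) ^ 3 + (B : ℚ_[p]) ^ 3 - 3 * A * B ^ 2 - X.re := by
      rw [hC]; norm_cast
    have hD' : (D : ℚ_[p]) = 3 * (A : ℚ_[p]) ^ 2 * B - 3 * A * B ^ 2 - X.im := by
      rw [hD]; norm_cast
    rw [hC', hD']
    simp only [map_sub, map_add, map_mul, map_pow, map_ofNat, map_intCast]
    have h3 := h
    rw [hAB] at h3
    unfold ev at h3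
    obtain ⟨a, ha⟩ : ∃ a, a = algebraMap ℚ_[p] (Cp p) (A : ℚ_[p]) := ⟨_, rfl⟩
    obtain ⟨b, hb⟩ : ∃ b, b = algebraMap ℚ_[p] (Cp p) (B : ℚ_[p]) := ⟨_, rfl⟩
    rw [← ha, ← hb] at h3 ⊢
    linear_combination h3 - (3 * a * b ^ 2 + b ^ 3 * (w - 1)) * hw
  have e2 : algebraMap ℚ_[p] (Cp p) (C : ℚ_[p]) +
      algebraMap ℚ_[p] (Cp p) (D : ℚ_[p]) * w ^ 2 = 0 := by
    have := congrArg r e1
    rw [map_add, map_mul, hr, map_zero, r.commutes, r.commutes] at this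
    exact this
  have hww : w - w ^ 2 ≠ 0 := by
    intro h0
    have h5 : (w - w ^ 2) ^ 2 = -3 := by
      linear_combination (w ^ 2 - 3 * w + 3) * hw
    rw [h0] at h5
    norm_num at h5
  have e3 : algebraMap ℚ_[p] (Cp p) (D : ℚ_[p]) = 0 := by
    have : algebraMap ℚ_[p] (Cp p) (D : ℚ_[p]) * (w - w ^ 2) = 0 := by
      linear_combination e1 - e2
    exact (mul_eq_zero.1 this).resolve_right hww
  have e4 : algebraMap ℚ_[p] (Cp p) (C : ℚ_[p]) = 0 := by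
    rw [e3, zero_mul, add_zero] at e1
    exact e1
  have inj : ∀ Z : ℤ_[p], algebraMap ℚ_[p] (Cp p) (Z : ℚ_[p]) = 0 → Z = 0 := by
    intro Z hZ
    have := (algebraMap ℚ_[p] (Cp p)).injective (hZ.trans (map_zero _).symm)
    exact Subtype.ext this
  refine ⟨A, B, ?_, ?_⟩
  · have := inj C e4
    rw [hC] at this
    linear_combination -this
  · have := inj D e3
    rw [hD] at this
    linear_combination -this

lemma cube_mod2 {w c : Cp 2} (hw : w ^ 2 + w + 1 = 0)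
    (hc : ∀ t : Gp 2, t w = w → t c = c) {X : Eis} (hX : ¬ (2 : ℤ) ∣ QuadraticAlgebra.norm X)
    (h : c ^ 3 = ev w X) : X.re % 2 = 1 ∧ X.im % 2 = 0 := by
  obtain ⟨A, B, h1, h2⟩ := cube_coords (Or.inl rfl) hw hc (by exact_mod_cast hX) h
  have g1 := congrArg (PadicInt.toZModPow 1) h1
  have g2 := congrArg (PadicInt.toZModPow 1) h2
  simp only [map_sub, map_add, map_mul, map_pow, map_ofNat, map_intCast] at g1 g2
  have key := zmod2_cube (PadicInt.toZModPow 1 A) (PadicInt.toZModPow 1 B)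
  rw [← g1, ← g2] at key
  have hne : ((X.re : ZMod (2 ^ 1)) ^ 2 - (X.re : ZMod (2 ^ 1)) * (X.im : ZMod (2 ^ 1)) +
      (X.im : ZMod (2 ^ 1)) ^ 2) ≠ 0 := by
    intro h0
    apply hX
    rw [Eis.norm_eq]
    have : ((X.re ^ 2 - X.re * X.im + X.im ^ 2 : ℤ) : ZMod (2 ^ 1)) = 0 := by
      push_cast
      exact h0
    have := (ZMod.intCast_zmod_eq_zero_iff_dvd _ (2 ^ 1)).1 this
    exact_mod_cast this
  obtain ⟨k1, k2⟩ := key hne
  have m1 : (((X.re - 1 : ℤ)) : ZMod (2 ^ 1)) = 0 := by push_cast; rw [k1]; ring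
  have m1' := (ZMod.intCast_zmod_eq_zero_iff_dvd _ (2 ^ 1)).1 m1
  have m2' := (ZMod.intCast_zmod_eq_zero_iff_dvd _ (2 ^ 1)).1 k2
  norm_num at m1' m2'
  omega

lemma cube_mod9 {w c : Cp 3} (hw : w ^ 2 + w + 1 = 0)
    (hc : ∀ t : Gp 3, t w = w → t c = c) {X : Eis} (hX : ¬ (3 : ℤ) ∣ QuadraticAlgebra.norm X)
    (h : c ^ 3 = ev w X) : (X.re % 9 = 1 ∨ X.re % 9 = 8) ∧ X.im % 9 = 0 := by
  obtain ⟨A, B, h1, h2⟩ := cube_coords (Or.inr rfl) hw hc (by exact_mod_cast hX) h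
  have g1 := congrArg (PadicInt.toZModPow 2) h1
  have g2 := congrArg (PadicInt.toZModPow 2) h2
  simp only [map_sub, map_add, map_mul, map_pow, map_ofNat, map_intCast] at g1 g2
  have key := zmod9_cube (PadicInt.toZModPow 2 A) (PadicInt.toZModPow 2 B)
  rw [← g1, ← g2] at key
  have hne : ((X.re : ZMod (3 ^ 2)) ^ 2 - (X.re : ZMod (3 ^ 2)) * (X.im : ZMod (3 ^ 2)) +
      (X.im : ZMod (3 ^ 2)) ^ 2) * 3 ≠ 0 := by
    intro h0
    apply hX
    rw [Eis.norm_eq]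
    have : (((X.re ^ 2 - X.re * X.im + X.im ^ 2) * 3 : ℤ) : ZMod (3 ^ 2)) = 0 := by
      push_cast
      exact h0
    have := (ZMod.intCast_zmod_eq_zero_iff_dvd _ (3 ^ 2)).1 this
    norm_num at this
    omega
  obtain ⟨k1, k2⟩ := key hne
  have m2' := (ZMod.intCast_zmod_eq_zero_iff_dvd _ (3 ^ 2)).1 k2
  norm_num at m2'
  refine ⟨?_, by omega⟩
  rcases k1 with k1 | k1
  · left
    have m1 : (((X.re - 1 : ℤ)) : ZMod (3 ^ 2)) = 0 := by push_cast; rw [k1]; ring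
    have m1' := (ZMod.intCast_zmod_eq_zero_iff_dvd _ (3 ^ 2)).1 m1
    norm_num at m1'
    omega
  · right
    have m1 : (((X.re - 8 : ℤ)) : ZMod (3 ^ 2)) = 0 := by push_cast; rw [k1]; ring
    have m1' := (ZMod.intCast_zmod_eq_zero_iff_dvd _ (3 ^ 2)).1 m1
    norm_num at m1'
    omega

end Pool.Agent.W94.F3
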