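import Mathlib
import Pool.Agent.W94.F3.Loc23

/-!
# A local criterion for the hypothesis on multiplicities
-/

set_option autoImplicit false
set_option linter.unusedSectionVars false

namespace Pool.Agent.W94.F3

open Eis

section ev

variable {R : Type*} [CommRing R] {w : R}

lemma ev_mul (hw : w ^ 2 + w + 1 = 0) (X Y : Eis) : ev w (X * Y) = ev w X * ev w Y := by
  unfold ev
  simp only [QuadraticAlgebra.re_mul, QuadraticAlgebra.im_mul]
  push_cast
  linear_combination (-(X.im : R) * Y.im) * hw

lemma ev_one : ev w 1 = 1 := by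
  have h1 : (1 : Eis).re = 1 := rfl
  have h2 : (1 : Eis).im = 0 := rfl
  unfold ev
  rw [h1, h2, Int.cast_one, Int.cast_zero, zero_mul, add_zero]

lemma ev_add (X Y : Eis) : ev w (X + Y) = ev w X + ev w Y := by
  unfold ev
  simp only [QuadraticAlgebra.re_add, QuadraticAlgebra.im_add]
  push_cast
  ring

lemma ev_pow (hw : w ^ 2 + w + 1 = 0) (X : Eis) (n : ℕ) : ev w (X ^ n) = ev w X ^ n := by
  induction n with
  | zero => rw [pow_zero, pow_zero, ev_one]
  | succ n ih => rw [pow_succ, ev_mul hw, ih, pow_succ]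

lemma star_eq (X : Eis) : star X = ⟨X.re - X.im, -X.im⟩ := by
  ext <;> simp
  ring

lemma ev_star (hw : w ^ 2 + w + 1 = 0) (X : Eis) : ev w (star X) = ev (w ^ 2) X := by
  rw [star_eq]
  unfold ev
  push_cast
  linear_combination (-(X.im : R)) * hw

end ev

lemma pow_eq_of_mul {M : Type*} [CommRing M] [IsDomain M] {π : M} (hπ : Prime π) {a b : ℕ}
    {A B : M} (h : π ^ a * A = π ^ b * B) (hA : ¬ π ∣ A) (hB : ¬ π ∣ B) : a = b := by
  rcases lt_trichotomy a b with hab | hab | hab
  · exfalso
    apply hA
    obtain ⟨k, rfl⟩ := Nat.exists_eq_add_of_lt hab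
    have : A = π ^ (k + 1) * B := by
      apply mul_left_cancel₀ (pow_ne_zero a hπ.ne_zero)
      rw [h]
      ring
    rw [this, pow_succ]
    exact ⟨π ^ k * B, by ring⟩
  · exact hab
  · exfalso
    apply hB
    obtain ⟨k, rfl⟩ := Nat.exists_eq_add_of_lt hab
    have : B = π ^ (k + 1) * A := by
      apply mul_left_cancel₀ (pow_ne_zero b hπ.ne_zero)
      rw [← h]
      ring
    rw [this, pow_succ]
    exact ⟨π ^ k * A, by ring⟩

lemma star_dvd {x y : Eis} (h : x ∣ y) : star x ∣ star y := by
  obtain ⟨z, rfl⟩ := h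
  exact ⟨star z, by rw [star_mul, mul_comm]⟩

lemma exists_rat_prime {π : Eis} (hπ : Prime π) (n : ℕ) (hn : n ≠ 0) (h : π ∣ (n : Eis)) :
    ∃ p : ℕ, p.Prime ∧ π ∣ (p : Eis) := by
  induction n using Nat.strong_induction_on with
  | _ n ih =>
    by_cases h1 : n = 1
    · exfalso
      rw [h1, Nat.cast_one] at h
      exact hπ.not_isUnit (isUnit_of_dvd_one h)
    · obtain ⟨p, hp, q, hq⟩ := Nat.exists_prime_and_dvd h1
      rw [hq, Nat.cast_mul] at h
      rcases hπ.dvd_or_dvd h with h2 | h2
      · exact ⟨p, hp, h2⟩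
      · have hq0 : q ≠ 0 := by
          rintro rfl
          exact hn (by rw [hq, mul_zero])
        have hlt : q < n := by
          rw [hq]
          have := hp.two_le
          have := Nat.pos_of_ne_zero hq0
          nlinarith
        exact ih q hlt hq0 h2

lemma norm_mul_star (x : Eis) : x * star x = ((QuadraticAlgebra.norm x : ℤ) : Eis) := by
  have := QuadraticAlgebra.algebraMap_norm_eq_mul_star x
  rw [← this]
  rfl

theorem hyp_of {X : Eis} (hX : X ≠ 0) {r : ℤ} (hN : QuadraticAlgebra.norm X = r ^ 3)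
    (hloc : ∀ (p : ℕ) [Fact p.Prime], p ≠ 3 → ¬ (p : ℤ) ∣ 847 → ¬ (p : ℤ) ∣ 2821 →
      ∀ w : Cp p, w ^ 2 + w + 1 = 0 → ∃ n : ℤ, ‖ev w X‖ = ((p : ℝ) ^ n) ^ 3) : Hyp X := by
  intro π hπ h28 m Y hY hnd
  have hsπ : Prime (star π) := by
    have h0 : star π ≠ 0 := by
      intro h
      apply hπ.ne_zero
      rw [← star_star π, h, star_zero]
    refine ⟨h0, ?_, ?_⟩
    · intro hu
      apply hπ.not_isUnit
      rw [QuadraticAlgebra.isUnit_iff_norm_isUnit, QuadraticAlgebra.norm_star] at hu
      exact QuadraticAlgebra.isUnit_iff_norm_isUnit.2 hu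
    · intro a b hab
      have h1 := star_dvd hab
      rw [star_star, star_mul] at h1
      rcases hπ.dvd_or_dvd h1 with h2 | h2
      · right
        have := star_dvd h2
        rwa [star_star] at this
      · left
        have := star_dvd h2
        rwa [star_star] at this
  by_cases hd : π ∣ star π
  · obtain ⟨u, hu⟩ := hd
    have hu1 : IsUnit u := by
      rcases hsπ.irreducible.isUnit_or_isUnit hu with h1 | h1
      · exact absurd h1 hπ.not_isUnit
      · exact h1
    have hr0 : (r : Eis) ≠ 0 := by
      intro h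
      have h1 : r = 0 := by
        have := congrArg QuadraticAlgebra.re h
        simpa using this
      rw [h1] at hN
      have := norm_pos hX
      rw [hN] at this
      norm_num at this
    obtain ⟨s, hs, hns⟩ := (FiniteMultiplicity.of_prime_left hπ hr0).exists_eq_pow_mul_and_not_dvd
    obtain ⟨k, hk⟩ : ∃ k, k = multiplicity π (r : Eis) := ⟨_, rfl⟩
    rw [← hk] at hs
    have h1 : π ^ (2 * m) * (u ^ m * (Y * star Y)) = π ^ (3 * k) * s ^ 3 := by
      have h2 := norm_mul_star X
      rw [hN, Int.cast_pow, hs, hY, star_mul, star_pow, hu] at h2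
      calc _ = π ^ m * Y * (star Y * (π * u) ^ m) := by ring
        _ = (π ^ k * s) ^ 3 := h2
        _ = _ := by ring
    have h3 := pow_eq_of_mul hπ h1 (by
      intro h
      rcases hπ.dvd_or_dvd h with h4 | h4
      · exact hπ.not_isUnit (isUnit_of_dvd_unit (hπ.dvd_of_dvd_pow h4) hu1)
      · rcases hπ.dvd_or_dvd h4 with h5 | h5
        · exact hnd h5
        · apply hnd
          have := star_dvd h5
          rw [star_star] at this
          exact (Dvd.intro u hu.symm).trans this) (by
      intro h
      exact hns (hπ.dvd_of_dvd_pow h))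
    omega
  · -- a split prime
    have hN0 := norm_pos hπ.ne_zero
    obtain ⟨N, hN'⟩ : ∃ N, N = QuadraticAlgebra.norm π := ⟨_, rfl⟩
    have hns := norm_mul_star π
    rw [← hN'] at hns hN0
    obtain ⟨p, hp, hpd⟩ := exists_rat_prime hπ N.natAbs (by omega) (by
      have : ((N.natAbs : ℕ) : Eis) = ((N : ℤ) : Eis) := by
        rw [← Int.cast_natCast, Int.natAbs_of_nonneg hN0.le]
      rw [this, ← hns]
      exact dvd_mul_right _ _)
    have hfact : Fact p.Prime := ⟨hp⟩
    have hNp : N = p := by
      obtain ⟨c, hc⟩ := hpd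
      have h1 : star π ∣ π * c := by
        rw [← hc]
        have := star_dvd (Dvd.intro c hc.symm)
        have e : star ((p : ℕ) : Eis) = ((p : ℕ) : Eis) := star_natCast p
        rw [e] at this
        exact this
      have h2 : ¬ star π ∣ π := by
        intro h
        apply hd
        have := star_dvd h
        rwa [star_star] at this
      obtain ⟨d, hd'⟩ := (hsπ.dvd_or_dvd h1).resolve_left h2
      rw [hd', ← mul_assoc, hns] at hc
      have h3 := congrArg QuadraticAlgebra.re hc
      have h4 : (p : ℤ) = N * d.re := by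
        simpa using h3
      have hpZ : Prime (p : ℤ) := Nat.prime_iff_prime_int.1 hp
      have h5 : N.natAbs ∣ p := by
        have : N ∣ (p : ℤ) := Dvd.intro _ h4.symm
        exact Int.natAbs_dvd_natAbs.2 this |>.trans (by rw [Int.natAbs_natCast])
      rcases (Nat.dvd_prime hp).1 h5 with h6 | h6
      · exfalso
        apply hπ.not_isUnit
        rw [isUnit_iff, ← hN']
        omega
      · omega
    have hpd2 : ¬ (p : ℤ) ∣ 2821 := by
      intro h
      apply h28
      refine hpd.trans ?_
      obtain ⟨k, hk⟩ := h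
      refine ⟨(k : Eis), ?_⟩
      have := congrArg (Int.cast : ℤ → Eis) hk
      push_cast at this
      exact this
    have hp3 : p ≠ 3 := by
      rintro rfl
      apply hd
      have h1 : π ∣ (⟨1, 2⟩ : Eis) := by
        have h2 : π ∣ (⟨1, 2⟩ : Eis) ^ 2 := by
          have h3 : (⟨1, 2⟩ : Eis) ^ 2 = -((3 : ℕ) : Eis) := by decide
          rw [h3]
          exact hpd.neg_right
        exact hπ.dvd_of_dvd_pow h2
      have h3 : star π = π - (π.im : Eis) * ⟨1, 2⟩ := by
        rw [star_eq]
        ext
        · simp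
        · simp
          ring
      rw [h3]
      exact dvd_sub (dvd_refl _) (h1.mul_left _)
    have hp847 : ¬ (p : ℤ) ∣ 847 := by
      intro h
      have h' : p ∣ 7 * (11 * 11) := by exact_mod_cast h
      have h11 : p = 11 → False := by
        intro h
        rw [hN', norm_eq, h] at hNp
        have key : ∀ a b : ZMod 3, a ^ 2 - a * b + b ^ 2 ≠ 11 := by decide
        apply key π.re π.im
        have := congrArg (Int.cast : ℤ → ZMod 3) hNp
        push_cast at this
        exact this
      rcases (hp.dvd_mul).1 h' with h | h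
      · have := (Nat.prime_dvd_prime_iff_eq hp (by norm_num)).1 h
        apply hpd2
        rw [this]
        norm_num
      · rcases (hp.dvd_mul).1 h with h | h
        · exact h11 ((Nat.prime_dvd_prime_iff_eq hp (by norm_num)).1 h)
        · exact h11 ((Nat.prime_dvd_prime_iff_eq hp (by norm_num)).1 h)
    -- a place where `π` is small
    obtain ⟨w, hw, hsmall⟩ : ∃ w : Cp p, w ^ 2 + w + 1 = 0 ∧ ‖ev w π‖ < 1 := by
      obtain ⟨w, hw⟩ : ∃ w : Cp p, w ^ 2 + w + 1 = 0 := by
        obtain ⟨s, hs⟩ := IsAlgClosed.exists_pow_nat_eq (-3 : Cp p) (n := 2) (by norm_num)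
        exact ⟨(-1 + s) / 2, by linear_combination hs / 4⟩
      have h1 := congrArg norm (ev_norm hw π)
      rw [norm_mul, ← hN', hNp, norm_p] at h1
      have h2 : ((p : ℝ))⁻¹ < 1 := inv_lt_one_of_one_lt₀ one_lt_p
      by_cases h3 : ‖ev w π‖ < 1
      · exact ⟨w, hw, h3⟩
      · refine ⟨w ^ 2, by linear_combination (w ^ 2 - w + 1) * hw, ?_⟩
        push Not at h3
        by_contra h4
        push Not at h4
        nlinarith
    have hunit : ∀ Z : Eis, ¬ π ∣ Z → ‖ev w Z‖ = 1 := by
      intro Z hZ
      obtain ⟨a, b, hab⟩ := (hπ.irreducible.coprime_iff_not_dvd).2 hZ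
      have h1 := congrArg (ev w) hab
      rw [ev_add, ev_mul hw, ev_mul hw, ev_one] at h1
      refine le_antisymm (norm_ev_le hw Z) ?_
      by_contra hlt
      push Not at hlt
      have h2 : ‖(1 : Cp p)‖ < 1 := by
        rw [← h1]
        refine norm_add_lt ?_ ?_
        · rw [norm_mul]
          exact lt_of_le_of_lt (mul_le_of_le_one_left (_root_.norm_nonneg _) (norm_ev_le hw a))
            hsmall
        · rw [norm_mul]
          exact lt_of_le_of_lt (mul_le_of_le_one_left (_root_.norm_nonneg _) (norm_ev_le hw b)) hlt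
      rw [norm_one] at h2
      exact lt_irrefl _ h2
    have hπn : ‖ev w π‖ = (p : ℝ)⁻¹ := by
      have h1 := congrArg norm (ev_norm hw π)
      rw [norm_mul, ← hN', hNp, norm_p, ← ev_star hw, hunit _ hd, mul_one] at h1
      exact h1
    obtain ⟨n, hn⟩ := hloc p hp3 hp847 hpd2 w hw
    rw [hY, ev_mul hw, ev_pow hw, norm_mul, norm_pow, hπn, hunit Y hnd, mul_one, inv_pow,
      ← zpow_natCast, ← zpow_natCast, ← zpow_neg, ← zpow_mul] at hn
    have := zpow_right_injective₀ (a := (p : ℝ)) (by exact_mod_cast hp.pos) (by exact_mod_cast hp.one_lt.ne') hn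
    push_cast at this
    omega

end Pool.Agent.W94.F3
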