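import Mathlib

/-!
# Extension of cocycles from a normal subgroup of index three
-/

set_option autoImplicit false

namespace Pool.Agent.W94.F3

variable {G A : Type*} [Group G] [AddCommGroup A] [DistribMulAction G A]

/-- partial sums -/
def Bs (s : G) (b : A) : ℕ → A
  | 0 => 0
  | i + 1 => b + s • Bs s b i

lemma Bs_add (s : G) (b : A) (i j : ℕ) : Bs s b (i + j) = Bs s b i + s ^ i • Bs s b j := by
  induction i with
  | zero => simp [Bs]
  | succ i ih =>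
    rw [show i + 1 + j = (i + j) + 1 by ring, Bs, Bs, ih, smul_add, pow_succ', mul_smul, add_assoc]

theorem ext_cocycle (N : Subgroup G) (s : G) (hN : ∀ n, n ∈ N → s * n * s⁻¹ ∈ N)
    (hs3 : s ^ 3 ∈ N) (hi : ∀ g : G, ∃ i : ℕ, g * (s ^ i)⁻¹ ∈ N)
    (h3 : ∀ i : ℕ, s ^ i ∈ N → 3 ∣ i) (ξ : G → A)
    (hξ : ∀ g ∈ N, ∀ h ∈ N, ξ (g * h) = ξ g + g • ξ h) (b : A)
    (hb : ∀ n ∈ N, s • ξ n = ξ (s * n * s⁻¹) + (s * n * s⁻¹) • b - b)
    (hob : ξ (s ^ 3) = b + s • b + s ^ 2 • b) :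
    ∃ Ξ : G → A, (∀ g h, Ξ (g * h) = Ξ g + g • Ξ h) ∧ (∀ n ∈ N, Ξ n = ξ n) ∧
      ∀ g, ∃ n ∈ N, ∃ i : ℕ, Ξ g = ξ n + n • Bs s b i := by
  classical
  have hξ1 : ξ 1 = 0 := by
    have := hξ 1 N.one_mem 1 N.one_mem
    rw [mul_one, one_smul] at this
    simpa using this
  have hNi : ∀ (i : ℕ) (n : G), n ∈ N → s ^ i * n * (s ^ i)⁻¹ ∈ N := by
    intro i
    induction i with
    | zero => intro n hn; simpa using hn
    | succ i ih =>
      intro n hn
      have e : s ^ (i + 1) * n * (s ^ (i + 1))⁻¹ = s * (s ^ i * n * (s ^ i)⁻¹) * s⁻¹ := by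
        rw [pow_succ']
        group
      rw [e]
      exact hN _ (ih n hn)
  have hconj : ∀ (i : ℕ) (n : G), n ∈ N → ξ (s ^ i * n * (s ^ i)⁻¹) =
      s ^ i • ξ n + Bs s b i - (s ^ i * n * (s ^ i)⁻¹) • Bs s b i := by
    intro i
    induction i with
    | zero => intro n hn; simp [Bs]
    | succ i ih =>
      intro n hn
      have hm := hNi i n hn
      obtain ⟨m, hm'⟩ : ∃ m, m = s ^ i * n * (s ^ i)⁻¹ := ⟨_, rfl⟩
      have e : s ^ (i + 1) * n * (s ^ (i + 1))⁻¹ = s * m * s⁻¹ := by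
        rw [pow_succ', hm']
        group
      have h4 := hb m (by rw [hm']; exact hm)
      have h5 := ih n hn
      rw [← hm'] at h5
      rw [e]
      have h6 : ξ (s * m * s⁻¹) = s • ξ m + b - (s * m * s⁻¹) • b := by
        rw [h4]; abel
      rw [h6, h5, Bs, smul_sub, smul_add, ← mul_smul, ← pow_succ', smul_add, ← mul_smul,
        ← mul_smul]
      have e2 : s * m * s⁻¹ * s = s * m := by group
      rw [e2]
      abel
  -- the candidates
  have hper : ∀ (g : G) (i : ℕ), g * (s ^ i)⁻¹ ∈ N →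
      ξ (g * (s ^ (i + 3))⁻¹) + (g * (s ^ (i + 3))⁻¹) • Bs s b (i + 3) =
      ξ (g * (s ^ i)⁻¹) + (g * (s ^ i)⁻¹) • Bs s b i := by
    intro g i hg
    obtain ⟨n, hn⟩ : ∃ n, n = g * (s ^ i)⁻¹ := ⟨_, rfl⟩
    rw [← hn] at hg ⊢
    have e : g * (s ^ (i + 3))⁻¹ = n * (s ^ 3)⁻¹ := by
      rw [hn, pow_add]
      rw [mul_inv_rev, ← mul_assoc]
      have : (s ^ 3)⁻¹ * (s ^ i)⁻¹ = (s ^ i)⁻¹ * (s ^ 3)⁻¹ := by
        rw [← mul_inv_rev, ← mul_inv_rev, ← pow_add, ← pow_add, add_comm]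
      rw [mul_assoc, this, ← mul_assoc]
    have h4 : ξ (s ^ 3)⁻¹ = -((s ^ 3)⁻¹ • ξ (s ^ 3)) := by
      have := hξ (s ^ 3)⁻¹ (N.inv_mem hs3) (s ^ 3) hs3
      rw [inv_mul_cancel, hξ1] at this
      exact eq_neg_of_add_eq_zero_left this.symm
    have h5 : Bs s b 3 = ξ (s ^ 3) := by
      rw [hob]
      simp only [Bs, smul_zero, add_zero, smul_add, ← mul_smul, sq]
      abel
    rw [e, hξ n hg _ (N.inv_mem hs3), h4, add_comm i 3, Bs_add, h5, smul_neg, ← mul_smul,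
      smul_add, ← mul_smul]
    have e3 : n * (s ^ 3)⁻¹ * s ^ 3 = n := by group
    rw [e3]
    abel
  have hper' : ∀ (k : ℕ) (g : G) (i : ℕ), g * (s ^ i)⁻¹ ∈ N →
      ξ (g * (s ^ (i + 3 * k))⁻¹) + (g * (s ^ (i + 3 * k))⁻¹) • Bs s b (i + 3 * k) =
      ξ (g * (s ^ i)⁻¹) + (g * (s ^ i)⁻¹) • Bs s b i := by
    intro k
    induction k with
    | zero => intro g i _; simp
    | succ k ih =>
      intro g i hg
      have h4 : g * (s ^ (i + 3 * k))⁻¹ ∈ N := by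
        have e : g * (s ^ (i + 3 * k))⁻¹ = g * (s ^ i)⁻¹ * ((s ^ 3) ^ k)⁻¹ := by
          rw [← pow_mul, mul_assoc, ← mul_inv_rev, ← pow_add, add_comm i]
        rw [e]
        exact N.mul_mem hg (N.inv_mem (N.pow_mem hs3 k))
      have := hper g (i + 3 * k) h4
      rw [show i + 3 * (k + 1) = i + 3 * k + 3 by ring, this, ih g i hg]
  let Ξ : G → A := fun g => ξ (g * (s ^ (hi g).choose)⁻¹) +
    (g * (s ^ (hi g).choose)⁻¹) • Bs s b (hi g).choose
  have hΞ : ∀ (g : G) (i : ℕ), g * (s ^ i)⁻¹ ∈ N →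
      Ξ g = ξ (g * (s ^ i)⁻¹) + (g * (s ^ i)⁻¹) • Bs s b i := by
    intro g i hg
    have hj := (hi g).choose_spec
    obtain ⟨j, hj'⟩ : ∃ j, j = (hi g).choose := ⟨_, rfl⟩
    have h4 : Ξ g = ξ (g * (s ^ j)⁻¹) + (g * (s ^ j)⁻¹) • Bs s b j := by
      rw [hj']
    rw [← hj'] at hj
    rw [h4]
    rcases le_total i j with hij | hij
    · obtain ⟨k, rfl⟩ := Nat.exists_eq_add_of_le hij
      have h5 : s ^ k ∈ N := by
        have e : s ^ k = (g * (s ^ (i + k))⁻¹)⁻¹ * (g * (s ^ i)⁻¹) := by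
          rw [mul_inv_rev, inv_inv, pow_add]
          have : s ^ i * s ^ k = s ^ k * s ^ i := by rw [← pow_add, ← pow_add, add_comm]
          rw [this]
          group
        rw [e]
        exact N.mul_mem (N.inv_mem hj) hg
      obtain ⟨l, rfl⟩ := h3 k h5
      exact hper' l g i hg
    · obtain ⟨k, rfl⟩ := Nat.exists_eq_add_of_le hij
      have h5 : s ^ k ∈ N := by
        have e : s ^ k = (g * (s ^ (j + k))⁻¹)⁻¹ * (g * (s ^ j)⁻¹) := by
          rw [mul_inv_rev, inv_inv, pow_add]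
          have : s ^ j * s ^ k = s ^ k * s ^ j := by rw [← pow_add, ← pow_add, add_comm]
          rw [this]
          group
        rw [e]
        exact N.mul_mem (N.inv_mem hg) hj
      obtain ⟨l, rfl⟩ := h3 k h5
      exact (hper' l g j hj).symm
  refine ⟨Ξ, ?_, ?_, fun g => ⟨_, (hi g).choose_spec, _, rfl⟩⟩
  · intro g h
    obtain ⟨i, hg⟩ := hi g
    obtain ⟨j, hh⟩ := hi h
    obtain ⟨n, hn⟩ : ∃ n, n = g * (s ^ i)⁻¹ := ⟨_, rfl⟩
    obtain ⟨m, hm⟩ : ∃ m, m = h * (s ^ j)⁻¹ := ⟨_, rfl⟩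
    rw [← hn] at hg
    rw [← hm] at hh
    have eg : g = n * s ^ i := by rw [hn]; group
    have eh : h = m * s ^ j := by rw [hm]; group
    have hc := hNi i m hh
    have e1 : g * h * (s ^ (i + j))⁻¹ = n * (s ^ i * m * (s ^ i)⁻¹) := by
      rw [eg, eh, add_comm i j, pow_add]
      group
    rw [hΞ (g * h) (i + j) (by rw [e1]; exact N.mul_mem hg hc), e1, hΞ g i (by rw [← hn]; exact hg),
      hΞ h j (by rw [← hm]; exact hh), ← hn, ← hm, hξ n hg _ hc, hconj i m hh, Bs_add]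
    rw [smul_sub, smul_add, smul_add, smul_add, eg]
    simp only [← mul_smul]
    have e2 : n * (s ^ i * m * (s ^ i)⁻¹) * s ^ i = n * s ^ i * m := by group
    rw [e2]
    abel
  · intro n hn
    have := hΞ n 0 (by simpa using hn)
    rw [this]
    simp [Bs]

end Pool.Agent.W94.F3
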