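import Mathlib

/-!
# An algebraic closure of `ℚ`
-/

set_option autoImplicit false

namespace Pool.Agent.W94.F3

/-- an algebraic closure of `ℚ` -/
abbrev Qbar : Type := AlgebraicClosure ℚ

end Pool.Agent.W94.F3
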