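import Mathlib
import Pool.Agent.W94.F3.Base

/-!
# Hilbert's theorem 90 for subgroups of the absolute Galois group
-/

set_option autoImplicit false
set_option linter.unusedSectionVars false

namespace Pool.Agent.W94.F3

open scoped Classical

/-- the absolute Galois group -/
abbrev GQ : Type := Qbar ≃ₐ[ℚ] Qbar

/-- agreement on a finite extension -/
def FixM (M : IntermediateField ℚ Qbar) (g : GQ) : Prop := ∀ x ∈ M, g x = x

lemma H90 (H : Subgroup GQ) (f : GQ → Qbar) (h0 : ∀ g ∈ H, f g ≠ 0)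
    (h1 : ∀ g ∈ H, ∀ h ∈ H, f (g * h) = f g * g (f h)) (M : IntermediateField ℚ Qbar)
    [FiniteDimensional ℚ M] (h2 : ∀ g ∈ H, FixM M g → f g = 1) :
    ∃ t : Qbar, t ≠ 0 ∧ ∀ g ∈ H, g t = f g * t := by
  have hfin : Finite (M →ₐ[ℚ] Qbar) := inferInstance
  have : Fintype (M →ₐ[ℚ] Qbar) := Fintype.ofFinite _
  -- the coefficient
  let S : (M →ₐ[ℚ] Qbar) → Prop := fun σ => ∃ g ∈ H, ∀ x : M, σ x = g x
  let F : (M →ₐ[ℚ] Qbar) → Qbar := fun σ => if h : S σ then (f h.choose)⁻¹ else 0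
  have hwd : ∀ g ∈ H, ∀ h ∈ H, (∀ x : M, g x = h x) → f g = f h := by
    intro g hg h hh hgh
    have e : FixM M (g⁻¹ * h) := by
      intro x hx
      rw [AlgEquiv.mul_apply, ← hgh ⟨x, hx⟩]
      exact g.symm_apply_apply x
    have e2 := h2 _ (H.mul_mem (H.inv_mem hg) hh) e
    have e3 := h1 g hg (g⁻¹ * h) (H.mul_mem (H.inv_mem hg) hh)
    rw [mul_inv_cancel_left, e2, map_one, mul_one] at e3
    exact e3.symm
  have hF : ∀ σ, ∀ g ∈ H, (∀ x : M, σ x = g x) → F σ = (f g)⁻¹ := by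
    intro σ g hg hσ
    have hS : S σ := ⟨g, hg, hσ⟩
    have h3 : F σ = (f hS.choose)⁻¹ := dif_pos hS
    rw [h3]
    congr 1
    exact hwd _ hS.choose_spec.1 _ hg (fun x => by rw [← hS.choose_spec.2, hσ])
  have hF0 : ∀ σ, ¬ S σ → F σ = 0 := fun σ h => dif_neg h
  have hex : ∃ z : M, ∑ σ : M →ₐ[ℚ] Qbar, F σ * σ z ≠ 0 := by
    by_contra hno
    push Not at hno
    have hli := linearIndependent_algHom_toLinearMap ℚ M Qbar
    rw [Fintype.linearIndependent_iff] at hli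
    have h3 := hli F (by
      ext z
      simp only [LinearMap.coe_sum, Finset.sum_apply, LinearMap.smul_apply, AlgHom.toLinearMap_apply,
        smul_eq_mul, LinearMap.zero_apply]
      exact hno z) M.val
    have h4 := hF M.val 1 H.one_mem (fun x => rfl)
    rw [h4] at h3
    exact h0 1 H.one_mem (inv_eq_zero.1 h3)
  obtain ⟨z, hz⟩ := hex
  refine ⟨_, hz, fun g hg => ?_⟩
  let φ : (M →ₐ[ℚ] Qbar) ≃ (M →ₐ[ℚ] Qbar) :=
    { toFun := fun σ => g.toAlgHom.comp σ
      invFun := fun σ => (g⁻¹ : GQ).toAlgHom.comp σ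
      left_inv := fun σ => by
        ext x
        exact g.symm_apply_apply (σ x)
      right_inv := fun σ => by
        ext x
        exact g.apply_symm_apply (σ x) }
  have hφ : ∀ σ x, φ σ x = g (σ x) := fun σ x => rfl
  have key : ∀ σ, g (F σ) = f g * F (φ σ) := by
    intro σ
    by_cases hS : S σ
    · obtain ⟨h, hh, hσ⟩ := hS
      rw [hF σ h hh hσ, hF (φ σ) (g * h) (H.mul_mem hg hh)
        (fun x => by rw [hφ, hσ, AlgEquiv.mul_apply]), h1 g hg h hh, mul_inv, map_inv₀]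
      have := h0 g hg
      field_simp
    · rw [hF0 σ hS, map_zero, hF0 (φ σ), mul_zero]
      rintro ⟨h, hh, hσ⟩
      apply hS
      refine ⟨g⁻¹ * h, H.mul_mem (H.inv_mem hg) hh, fun x => ?_⟩
      rw [AlgEquiv.mul_apply, ← hσ x, hφ]
      exact (g.symm_apply_apply _).symm
  rw [map_sum, Finset.mul_sum, ← Equiv.sum_comp φ (fun σ => f g * (F σ * σ z))]
  refine Finset.sum_congr rfl fun σ _ => ?_
  rw [map_mul, key, hφ]
  ring

end Pool.Agent.W94.F3
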