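import Mathlib

/-!
# The elliptic curve `y² = x³ - 23 x² + 1408 x`
-/

set_option autoImplicit false
set_option linter.unusedSectionVars false

namespace Pool.Agent.W94.F3

open WeierstrassCurve WeierstrassCurve.Affine

/-- the curve `y² = x³ - 23 x² + 1408 x` -/
def W : WeierstrassCurve ℚ := ⟨0, -23, 0, 1408, 0⟩

lemma W_Δ : W.Δ ≠ 0 := by
  simp only [W, WeierstrassCurve.Δ, WeierstrassCurve.b₂, WeierstrassCurve.b₄, WeierstrassCurve.b₆,
    WeierstrassCurve.b₈]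
  norm_num

instance : W.IsElliptic := ⟨isUnit_iff_ne_zero.2 W_Δ⟩

section L

variable {L : Type*} [Field L] [Algebra ℚ L] [DecidableEq L]

/-- the affine equation -/
def OnE (x y : L) : Prop := y ^ 2 = x ^ 3 - 23 * x ^ 2 + 1408 * x

omit [DecidableEq L] in
lemma a₁ : (W⁄L).a₁ = 0 := by simp [W, WeierstrassCurve.baseChange]
omit [DecidableEq L] in
lemma a₂ : (W⁄L).a₂ = -23 := by simp [W, WeierstrassCurve.baseChange]
omit [DecidableEq L] in
lemma a₃ : (W⁄L).a₃ = 0 := by simp [W, WeierstrassCurve.baseChange]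
omit [DecidableEq L] in
lemma a₄ : (W⁄L).a₄ = 1408 := by simp [W, WeierstrassCurve.baseChange]
omit [DecidableEq L] in
lemma a₆ : (W⁄L).a₆ = 0 := by simp [W, WeierstrassCurve.baseChange]

omit [DecidableEq L] in
lemma equation_iff' (x y : L) : (W⁄L).Equation x y ↔ OnE x y := by
  rw [Affine.equation_iff, a₁, a₂, a₃, a₄, a₆, OnE]
  constructor <;> intro h <;> linear_combination h

omit [DecidableEq L] in
lemma isEll : (W⁄L).IsElliptic := by
  show (W.map (algebraMap ℚ L)).IsElliptic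
  infer_instance

omit [DecidableEq L] in
lemma nonsing {x y : L} (h : OnE x y) : (W⁄L).Nonsingular x y := by
  have := isEll (L := L)
  rw [← Affine.equation_iff_nonsingular]
  exact (equation_iff' x y).2 h

omit [DecidableEq L] in
lemma onE_of_nonsing {x y : L} (h : (W⁄L).Nonsingular x y) : OnE x y :=
  (equation_iff' x y).1 h.1

/-- affine points -/
def pt (x y : L) (h : OnE x y) : (W⁄L).Point := .some x y (nonsing h)

omit [DecidableEq L] in
lemma pt_ne_zero {x y : L} (h : OnE x y) : pt x y h ≠ 0 := by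
  intro h'
  exact Point.some_ne_zero _ h'

omit [DecidableEq L] in
lemma pt_congr {x y x' y' : L} (h : OnE x y) (hx : x = x') (hy : y = y') :
    ∃ h' : OnE x' y', pt x y h = pt x' y' h' := by
  subst hx hy
  exact ⟨h, rfl⟩

omit [DecidableEq L] in
lemma pt_inj {x y x' y' : L} {h : OnE x y} {h' : OnE x' y'} :
    pt x y h = pt x' y' h' ↔ x = x' ∧ y = y' := by
  constructor
  · intro h1
    have := Point.some.inj h1
    exact this
  · rintro ⟨rfl, rfl⟩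
    rfl

omit [DecidableEq L] in
lemma exists_pt (R : (W⁄L).Point) : R = 0 ∨ ∃ x y, ∃ h : OnE x y, R = pt x y h := by
  rcases R with _ | ⟨x, y, h⟩
  · left; rfl
  · right; exact ⟨x, y, onE_of_nonsing h, rfl⟩

omit [DecidableEq L] in
lemma onE_neg {x y : L} (h : OnE x y) : OnE x (-y) := by
  unfold OnE at *
  rw [neg_sq, h]

lemma neg_pt {x y : L} (h : OnE x y) : -pt x y h = pt x (-y) (onE_neg h) := by
  unfold pt
  rw [Point.neg_some, Point.some.injEq]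
  refine ⟨rfl, ?_⟩
  simp only [Affine.negY, a₁, a₃]
  ring

lemma add_pt {x₁ y₁ x₂ y₂ : L} (h₁ : OnE x₁ y₁) (h₂ : OnE x₂ y₂) (hx : x₁ ≠ x₂) (l x₃ y₃ : L)
    (hl : l * (x₁ - x₂) = y₁ - y₂) (hx₃ : x₃ = l ^ 2 + 23 - x₁ - x₂)
    (hy₃ : y₃ = -(l * (x₃ - x₁) + y₁)) :
    ∃ h₃ : OnE x₃ y₃, pt x₁ y₁ h₁ + pt x₂ y₂ h₂ = pt x₃ y₃ h₃ := by
  have hs : (W⁄L).slope x₁ x₂ y₁ y₂ = l := by
    rw [Affine.slope_of_X_ne hx, div_eq_iff (sub_ne_zero.2 hx), hl]
  have hadd := Point.add_of_X_ne (W := W⁄L) (h₁ := nonsing h₁) (h₂ := nonsing h₂) hx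
  have hX : (W⁄L).addX x₁ x₂ ((W⁄L).slope x₁ x₂ y₁ y₂) = x₃ := by
    rw [hs, Affine.addX, a₁, a₂, hx₃]; ring
  have hY : (W⁄L).addY x₁ x₂ y₁ ((W⁄L).slope x₁ x₂ y₁ y₂) = y₃ := by
    rw [Affine.addY, Affine.negAddY, Affine.negY, hX, hs, a₁, a₃, hy₃]; ring
  have hn : (W⁄L).Nonsingular x₃ y₃ := by
    rw [← hX, ← hY]
    exact Affine.nonsingular_add (nonsing h₁) (nonsing h₂) (fun h => hx h.1)
  refine ⟨onE_of_nonsing hn, ?_⟩
  unfold pt
  rw [hadd, Point.some.injEq]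
  exact ⟨hX, hY⟩

lemma dbl_pt {x₁ y₁ : L} (h₁ : OnE x₁ y₁) (hy : y₁ ≠ 0) (l x₃ y₃ : L)
    (hl : l * (2 * y₁) = 3 * x₁ ^ 2 - 46 * x₁ + 1408) (hx₃ : x₃ = l ^ 2 + 23 - 2 * x₁)
    (hy₃ : y₃ = -(l * (x₃ - x₁) + y₁)) :
    ∃ h₃ : OnE x₃ y₃, pt x₁ y₁ h₁ + pt x₁ y₁ h₁ = pt x₃ y₃ h₃ := by
  have : CharZero L := algebraRat.charZero L
  have hyn : y₁ ≠ (W⁄L).negY x₁ y₁ := by
    rw [Affine.negY, a₁, a₃]
    intro h
    apply hy
    have : (2 : L) * y₁ = 0 := by linear_combination h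
    simpa using this
  have hs : (W⁄L).slope x₁ x₁ y₁ y₁ = l := by
    rw [Affine.slope_of_Y_ne rfl hyn, Affine.negY, a₁, a₃, a₂, a₄, div_eq_iff]
    · linear_combination -hl
    · intro h
      apply hy
      have : (2 : L) * y₁ = 0 := by linear_combination h
      simpa using this
  have hadd := Point.add_self_of_Y_ne (W := W⁄L) (h₁ := nonsing h₁) hyn
  have hX : (W⁄L).addX x₁ x₁ ((W⁄L).slope x₁ x₁ y₁ y₁) = x₃ := by
    rw [hs, Affine.addX, a₁, a₂, hx₃]; ring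
  have hY : (W⁄L).addY x₁ x₁ y₁ ((W⁄L).slope x₁ x₁ y₁ y₁) = y₃ := by
    rw [Affine.addY, Affine.negAddY, Affine.negY, hX, hs, a₁, a₃, hy₃]; ring
  have hn : (W⁄L).Nonsingular x₃ y₃ := by
    rw [← hX, ← hY]
    exact Affine.nonsingular_add (nonsing h₁) (nonsing h₁) (fun h => hyn h.2)
  refine ⟨onE_of_nonsing hn, ?_⟩
  unfold pt
  rw [hadd, Point.some.injEq]
  exact ⟨hX, hY⟩

end L

end Pool.Agent.W94.F3
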