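import Mathlib
import Pool.Agent.W94.F3.Curve

/-!
# A parametrisation of the curve by the plane cubic `A³ + B³ = 15 A B + 847`
-/

set_option autoImplicit false
set_option linter.unusedSectionVars false

namespace Pool.Agent.W94.F3

section L

variable {L : Type*} [Field L] [Algebra ℚ L] [DecidableEq L]

def QX (w A B : L) : L := 16 * (w * A + w ^ 2 * B - 22) / (5 + w * A + w ^ 2 * B)
def QY (w A B : L) : L := 144 * ((1 - w ^ 2) * A + (1 - w) * B) / (5 + w * A + w ^ 2 * B)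
def Rel (A B : L) : Prop := A ^ 3 + B ^ 3 = 15 * A * B + 847

lemma natCast_ne (n : ℕ) (hn : n ≠ 0) : (n : L) ≠ 0 := by
  have : CharZero L := algebraRat.charZero L
  exact_mod_cast hn

lemma rel_prod {w A B : L} (hw : w ^ 2 + w + 1 = 0) (h : Rel A B) :
    (5 + A + B) * (5 + w * A + w ^ 2 * B) * (5 + w ^ 2 * A + w * B) = 972 := by
  unfold Rel at h
  grind

lemma n972 : (972 : L) ≠ 0 := by exact_mod_cast natCast_ne (L := L) 972 (by norm_num)
lemma n432 : (432 : L) ≠ 0 := by exact_mod_cast natCast_ne (L := L) 432 (by norm_num)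
lemma n2 : (2 : L) ≠ 0 := by exact_mod_cast natCast_ne (L := L) 2 (by norm_num)
lemma n3 : (3 : L) ≠ 0 := by exact_mod_cast natCast_ne (L := L) 3 (by norm_num)
lemma n9 : (9 : L) ≠ 0 := by exact_mod_cast natCast_ne (L := L) 9 (by norm_num)
lemma n144 : (144 : L) ≠ 0 := by exact_mod_cast natCast_ne (L := L) 144 (by norm_num)
lemma n288 : (288 : L) ≠ 0 := by exact_mod_cast natCast_ne (L := L) 288 (by norm_num)
lemma n847 : (847 : L) ≠ 0 := by exact_mod_cast natCast_ne (L := L) 847 (by norm_num)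

lemma rel_D {w A B : L} (hw : w ^ 2 + w + 1 = 0) (h : Rel A B) :
    5 + w * A + w ^ 2 * B ≠ 0 := by
  intro h0
  have := rel_prod hw h
  rw [h0] at this
  simp only [mul_zero, zero_mul] at this
  exact n972 this.symm

lemma rel_D0 {w A B : L} (hw : w ^ 2 + w + 1 = 0) (h : Rel A B) :
    5 + A + B ≠ 0 := by
  intro h0
  have := rel_prod hw h
  rw [h0] at this
  simp only [zero_mul] at this
  exact n972 this.symm

lemma rel_D2 {w A B : L} (hw : w ^ 2 + w + 1 = 0) (h : Rel A B) :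
    5 + w ^ 2 * A + w * B ≠ 0 := by
  intro h0
  have := rel_prod hw h
  rw [h0] at this
  simp only [mul_zero] at this
  exact n972 this.symm

lemma onE_Q {w A B : L} (hw : w ^ 2 + w + 1 = 0) (h : Rel A B) :
    OnE (QX w A B) (QY w A B) := by
  have hD := rel_D hw h
  unfold OnE QX QY Rel at *
  field_simp
  grind

/-- the point with parameters `A, B` -/
def Q (w A B : L) (hw : w ^ 2 + w + 1 = 0) (h : Rel A B) : (WeierstrassCurve.baseChange W L).toAffine.Point :=
  pt (QX w A B) (QY w A B) (onE_Q hw h)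

def g1 (w x y : L) : L := -((1 - w) * y + w ^ 2 * (5 * x + 352)) / (2 * (x - 16))
def g2 (w x y : L) : L := -((1 - w ^ 2) * y + w * (5 * x + 352)) / (2 * (x - 16))

lemma rel_g {w x y : L} (hw : w ^ 2 + w + 1 = 0) (h : OnE x y) (hx : x ≠ 16) :
    Rel (g1 w x y) (g2 w x y) := by
  have hx' : x - 16 ≠ 0 := sub_ne_zero.2 hx
  have h2 := n2 (L := L)
  unfold Rel g1 g2 OnE at *
  field_simp
  grind

lemma D_g {w x y : L} (hw : w ^ 2 + w + 1 = 0) (hx : x ≠ 16) :
    (5 + w * (g1 w x y) + w ^ 2 * (g2 w x y)) * (16 - x) = 432 := by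
  have hx' : x - 16 ≠ 0 := sub_ne_zero.2 hx
  have h2 := n2 (L := L)
  unfold g1 g2
  field_simp
  grind

lemma QX_g {w x y : L} (hw : w ^ 2 + w + 1 = 0) (h : OnE x y) (hx : x ≠ 16) :
    QX w (g1 w x y) (g2 w x y) = x := by
  have hD := rel_D hw (rel_g hw h hx)
  have h3 := D_g (y := y) hw hx
  unfold QX
  rw [div_eq_iff hD]
  linear_combination h3

lemma QY_g {w x y : L} (hw : w ^ 2 + w + 1 = 0) (h : OnE x y) (hx : x ≠ 16) :
    QY w (g1 w x y) (g2 w x y) = y := by
  have hD := rel_D hw (rel_g hw h hx)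
  have hx' : x - 16 ≠ 0 := sub_ne_zero.2 hx
  have h2 := n2 (L := L)
  unfold QY
  rw [div_eq_iff hD]
  unfold g1 g2
  field_simp
  grind

lemma QX_sub {w A B : L} (hw : w ^ 2 + w + 1 = 0) (h : Rel A B) :
    QX w A B - 16 = -432 / (5 + w * A + w ^ 2 * B) := by
  have hD := rel_D hw h
  unfold QX
  field_simp
  ring

lemma QX_ne {w A B : L} (hw : w ^ 2 + w + 1 = 0) (h : Rel A B) : QX w A B ≠ 16 := by
  intro h0
  have := QX_sub hw h
  rw [h0, sub_self, eq_comm, div_eq_zero_iff] at this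
  rcases this with h | h'
  · exact n432 (neg_eq_zero.1 h)
  · exact rel_D hw h h'

lemma g1_Q {w A B : L} (hw : w ^ 2 + w + 1 = 0) (h : Rel A B) :
    g1 w (QX w A B) (QY w A B) = A := by
  have hD := rel_D hw h
  have h2 := n2 (L := L)
  have h3 := n432 (L := L)
  have h4 := QX_sub hw h
  unfold g1
  rw [h4]
  unfold QX QY
  field_simp
  grind

lemma g2_Q {w A B : L} (hw : w ^ 2 + w + 1 = 0) (h : Rel A B) :
    g2 w (QX w A B) (QY w A B) = B := by
  have hD := rel_D hw h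
  have h2 := n2 (L := L)
  have h3 := n432 (L := L)
  have h4 := QX_sub hw h
  unfold g2
  rw [h4]
  unfold QX QY
  field_simp
  grind


lemma onE_P : OnE (16 : L) 144 := by
  unfold OnE
  norm_num

/-- the point of order three -/
def P3 : (WeierstrassCurve.baseChange W L).toAffine.Point := pt 16 144 onE_P

lemma rel_rot {w A B : L} (hw : w ^ 2 + w + 1 = 0) (h : Rel A B) : Rel (w * A) (w ^ 2 * B) := by
  unfold Rel at *
  grind

lemma Q_add_P {w A B : L} (hw : w ^ 2 + w + 1 = 0) (h : Rel A B) :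
    Q w A B hw h + P3 = Q w (w * A) (w ^ 2 * B) hw (rel_rot hw h) := by
  have hD := rel_D hw h
  have hD0 := rel_D0 hw h
  have hD2 := rel_D2 hw h
  have hw3 : w ^ 3 = 1 := by linear_combination (w - 1) * hw
  have e1 : w * (w * A) = w ^ 2 * A := by ring
  have e2 : w ^ 2 * (w ^ 2 * B) = w * B := by linear_combination w * B * hw3
  have hx := QX_ne hw h
  have hx' : QX w A B - 16 ≠ 0 := sub_ne_zero.2 hx
  have h3 := n432 (L := L)
  have hs := QX_sub hw h
  obtain ⟨h3, e⟩ := add_pt (onE_Q hw h) onE_P hx ((QY w A B - 144) / (QX w A B - 16))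
    (QX w (w * A) (w ^ 2 * B)) (QY w (w * A) (w ^ 2 * B)) (div_mul_cancel₀ _ hx') (by
      rw [hs]
      unfold QX QY
      rw [e1, e2]
      unfold Rel at h
      clear hs hx hx' e1 e2
      field_simp
      clear hD hD0 hD2 h3
      grind) (by
      rw [hs]
      unfold QX QY
      rw [e1, e2]
      unfold Rel at h
      clear hs hx hx' e1 e2
      field_simp
      clear hD hD0 hD2 h3
      grind)
  exact e


lemma rel_neg {w A B : L} (hw : w ^ 2 + w + 1 = 0) (h : Rel A B) : Rel (w * B) (w ^ 2 * A) := by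
  unfold Rel at *
  grind

lemma neg_Q {w A B : L} (hw : w ^ 2 + w + 1 = 0) (h : Rel A B) :
    -Q w A B hw h = Q w (w * B) (w ^ 2 * A) hw (rel_neg hw h) := by
  have hD := rel_D hw h
  have hw3 : w ^ 3 = 1 := by linear_combination (w - 1) * hw
  have e1 : w * (w * B) = w ^ 2 * B := by ring
  have e2 : w ^ 2 * (w ^ 2 * A) = w * A := by linear_combination w * A * hw3
  unfold Q
  rw [neg_pt, pt_inj]
  unfold QX QY
  rw [e1, e2, add_right_comm 5 (w ^ 2 * B) (w * A)]
  constructor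
  · field_simp
    ring
  · field_simp
    clear hD
    grind

lemma rel_T {d : L} (hd : d ^ 3 = -847) : Rel 0 (-d) := by
  unfold Rel
  linear_combination -hd

lemma rel_add_T {w A B d : L} (hw : w ^ 2 + w + 1 = 0) (h : Rel A B) (hd : d ^ 3 = -847)
    (hB : B ≠ 0) : Rel (w * d ^ 2 / B) (w ^ 2 * d * A / B) := by
  unfold Rel at *
  have hw3 : w ^ 3 = 1 := by linear_combination (w - 1) * hw
  field_simp
  grind

lemma Q_inj {w A B A' B' : L} (hw : w ^ 2 + w + 1 = 0) (h : Rel A B) (h' : Rel A' B') :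
    Q w A B hw h = Q w A' B' hw h' ↔ A = A' ∧ B = B' := by
  constructor
  · intro e
    unfold Q at e
    rw [pt_inj] at e
    constructor
    · rw [← g1_Q hw h, ← g1_Q hw h', e.1, e.2]
    · rw [← g2_Q hw h, ← g2_Q hw h', e.1, e.2]
  · rintro ⟨rfl, rfl⟩
    rfl

lemma eq_or_neg_of_x_eq {x y x' y' : L} (h : OnE x y) (h' : OnE x' y') (hx : x = x') :
    pt x y h = pt x' y' h' ∨ pt x y h = -pt x' y' h' := by
  subst hx
  rw [neg_pt, pt_inj, pt_inj]
  have : (y - y') * (y + y') = 0 := by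
    unfold OnE at *
    linear_combination h - h'
  rcases mul_eq_zero.1 this with h1 | h1
  · left; exact ⟨rfl, sub_eq_zero.1 h1⟩
  · right; exact ⟨rfl, eq_neg_of_add_eq_zero_left h1⟩

set_option maxRecDepth 20000 in
lemma Q_add_T {w A B d : L} (hw : w ^ 2 + w + 1 = 0) (h : Rel A B) (hd : d ^ 3 = -847)
    (hA : A ≠ 0) (hB : B ≠ 0) :
    Q w A B hw h + Q w 0 (-d) hw (rel_T hd) =
      Q w (w * d ^ 2 / B) (w ^ 2 * d * A / B) hw (rel_add_T hw h hd hB) := by
  have hw3 : w ^ 3 = 1 := by linear_combination (w - 1) * hw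
  have hx : QX w A B ≠ QX w 0 (-d) := by
    intro e
    rcases eq_or_neg_of_x_eq (onE_Q hw h) (onE_Q hw (rel_T hd)) e with h1 | h1
    · exact hA ((Q_inj hw h (rel_T hd)).1 h1).1
    · have h2 : Q w A B hw h = -Q w 0 (-d) hw (rel_T hd) := h1
      rw [neg_Q, Q_inj] at h2
      apply hB
      rw [h2.2, mul_zero]
  have hx' : QX w A B - QX w 0 (-d) ≠ 0 := sub_ne_zero.2 hx
  have hD := rel_D hw h
  have hDT : 5 + w * 0 + w ^ 2 * (-d) ≠ 0 := rel_D hw (rel_T hd)
  have hDT' : 5 - w ^ 2 * d ≠ 0 := by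
    intro h0
    apply hDT
    linear_combination h0
  have hDR : 5 + w * (w * d ^ 2 / B) + w ^ 2 * (w ^ 2 * d * A / B) ≠ 0 :=
    rel_D hw (rel_add_T hw h hd hB)
  have hDR' : 5 * B + w ^ 2 * d ^ 2 + w * d * A ≠ 0 := by
    intro h0
    apply hDR
    field_simp
    linear_combination h0 + w * d * A * hw3
  have hQT : QX w 0 (-d) = 16 * (- w ^ 2 * d - 22) / (5 - w ^ 2 * d) := by
    unfold QX
    congr 1 <;> ring
  have hQTy : QY w 0 (-d) = 144 * (- (1 - w) * d) / (5 - w ^ 2 * d) := by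
    unfold QY
    congr 1 <;> ring
  have hQR : QX w (w * d ^ 2 / B) (w ^ 2 * d * A / B) =
      16 * (w ^ 2 * d ^ 2 + w * d * A - 22 * B) / (5 * B + w ^ 2 * d ^ 2 + w * d * A) := by
    unfold QX
    rw [div_eq_div_iff hDR hDR']
    field_simp
    clear * - hw hw3
    grind
  have hQRy : QY w (w * d ^ 2 / B) (w ^ 2 * d * A / B) =
      144 * ((1 - w ^ 2) * w * d ^ 2 + (1 - w) * w ^ 2 * d * A) /
        (5 * B + w ^ 2 * d ^ 2 + w * d * A) := by
    unfold QY
    rw [div_eq_div_iff hDR hDR']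
    field_simp
    clear * - hw hw3
    grind
  have hsub : QX w A B - QX w 0 (-d) =
      432 * (w * A + w ^ 2 * B + w ^ 2 * d) / ((5 + w * A + w ^ 2 * B) * (5 - w ^ 2 * d)) := by
    rw [hQT]
    unfold QX
    field_simp
    ring
  have hC : w * A + w ^ 2 * B + w ^ 2 * d ≠ 0 := by
    intro h0
    apply hx'
    rw [hsub, h0]
    simp
  have h3 := n432 (L := L)
  obtain ⟨D1, hD1⟩ : ∃ D1, D1 = 5 + w * A + w ^ 2 * B := ⟨_, rfl⟩
  obtain ⟨DT, hDTe⟩ : ∃ DT, DT = 5 - w ^ 2 * d := ⟨_, rfl⟩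
  obtain ⟨DR, hDRe⟩ : ∃ DR, DR = 5 * B + w ^ 2 * d ^ 2 + w * d * A := ⟨_, rfl⟩
  obtain ⟨C, hCe⟩ : ∃ C, C = w * A + w ^ 2 * B + w ^ 2 * d := ⟨_, rfl⟩
  obtain ⟨h3, e⟩ := add_pt (onE_Q hw h) (onE_Q hw (rel_T hd)) hx
    ((QY w A B - QY w 0 (-d)) / (QX w A B - QX w 0 (-d)))
    (QX w (w * d ^ 2 / B) (w ^ 2 * d * A / B)) (QY w (w * d ^ 2 / B) (w ^ 2 * d * A / B))
    (div_mul_cancel₀ _ hx') (by
      rw [hsub, hQR, hQT, hQTy]
      unfold QX QY
      unfold Rel at h
      rw [← hD1, ← hDTe, ← hDRe, ← hCe]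
      rw [← hD1] at hD
      rw [← hDTe] at hDT'
      rw [← hDRe] at hDR'
      rw [← hCe] at hC
      clear hx hx' hDT hDR hQR hQRy hQT hQTy hsub
      field_simp
      clear * - hw hw3 h hd hD1 hDTe hDRe hCe
      subst hD1 hDTe hDRe hCe
      grind) (by
      rw [hsub, hQR, hQRy, hQTy]
      unfold QX QY
      unfold Rel at h
      rw [← hD1, ← hDTe, ← hDRe, ← hCe]
      rw [← hD1] at hD
      rw [← hDTe] at hDT'
      rw [← hDRe] at hDR'
      rw [← hCe] at hC
      clear hx hx' hDT hDR hQR hQRy hQT hQTy hsub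
      field_simp
      clear * - hw hw3 h hd hD1 hDTe hDRe hCe
      subst hD1 hDTe hDRe hCe
      grind)
  exact e

end L
end Pool.Agent.W94.F3
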