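import Mathlib
import Pool.Agent.W94.F3.Curve

/-!
# Multiplication by three on `y² = x³ - 23 x² + 1408 x`
-/

set_option autoImplicit false
set_option linter.unusedSectionVars false

namespace Pool.Agent.W94.F3

section L

variable {L : Type*} [Field L] [Algebra ℚ L] [DecidableEq L]

def pa (x : L) : L := (x - 16) * (5 * (x - 16) ^ 3 + 1296 * (x - 16) ^ 2 + 14400 * (x - 16) + 414720)
def pb (x : L) : L := (x - 16) ^ 3 - 2880 * (x - 16) - 165888
def psi (x : L) : L := (x - 16) * (3 * (x - 16) ^ 3 + 100 * (x - 16) ^ 2 + 8640 * (x - 16) + 248832)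
def Hp (x y : L) : L := -(pa x + y * pb x) / psi x
def Hm (x y : L) : L := -(pa x - y * pb x) / psi x

lemma psi_eq {x y : L} (h : OnE x y) :
    psi x = 4 * y ^ 2 * (3 * x - 23) - (3 * x ^ 2 - 46 * x + 1408) ^ 2 := by
  unfold OnE at h
  rw [h]
  unfold psi
  ring

lemma Hp_mul_Hm {x y : L} (h : OnE x y) :
    Hp x y * Hm x y = (pa x ^ 2 - (x ^ 3 - 23 * x ^ 2 + 1408 * x) * pb x ^ 2) / psi x ^ 2 := by
  unfold Hp Hm
  rw [div_mul_div_comm, ← sq]
  congr 1
  unfold OnE at h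
  rw [← h]
  ring

lemma H_rel {x y : L} (h : OnE x y) (hp : psi x ≠ 0) :
    Hp x y ^ 3 + Hm x y ^ 3 = 10 * Hp x y * Hm x y - 288 := by
  have h1 := Hp_mul_Hm h
  rw [mul_assoc, h1]
  unfold Hp Hm
  rw [div_pow, div_pow, ← add_div, ← mul_div_assoc, div_sub' (pow_ne_zero 2 hp), div_eq_div_iff
    (pow_ne_zero 3 hp) (pow_ne_zero 2 hp)]
  have h2 : (-(pa x + y * pb x)) ^ 3 + (-(pa x - y * pb x)) ^ 3 =
      -(2 * pa x ^ 3 + 6 * pa x * pb x ^ 2 * (x ^ 3 - 23 * x ^ 2 + 1408 * x)) := by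
    unfold OnE at h
    rw [← h]
    ring
  rw [h2]
  unfold pa pb psi
  ring

lemma triple_x {x y : L} (h : OnE x y) (hp : psi x ≠ 0) :
    x + 8 * y ^ 2 * (8 * y ^ 4 - (3 * x ^ 2 - 46 * x + 1408) * psi x) / psi x ^ 2 =
      16 - Hp x y * Hm x y := by
  rw [Hp_mul_Hm h]
  have h4 : y ^ 4 = (x ^ 3 - 23 * x ^ 2 + 1408 * x) ^ 2 := by
    unfold OnE at h
    rw [← h]
    ring
  rw [h4]
  unfold OnE at h
  rw [h]
  field_simp
  unfold pa pb psi
  ring

lemma Hp_cube_sub {x y : L} (h : OnE x y) :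
    Hp x y ^ 3 - Hm x y ^ 3 =
      -2 * y * (3 * pa x ^ 2 * pb x + (x ^ 3 - 23 * x ^ 2 + 1408 * x) * pb x ^ 3) / psi x ^ 3 := by
  unfold Hp Hm
  rw [div_pow, div_pow, ← sub_div]
  congr 1
  unfold OnE at h
  rw [← h]
  ring

lemma triple_y {x y : L} (h : OnE x y) (hp : psi x ≠ 0) :
    -y - 4 * y * (8 * y ^ 4 - (3 * x ^ 2 - 46 * x + 1408) * psi x) *
      (16 * y ^ 4 - (3 * x ^ 2 - 46 * x + 1408) * psi x) / psi x ^ 3 =
      (Hm x y ^ 3 - Hp x y ^ 3) / 2 := by
  have : CharZero L := algebraRat.charZero L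
  rw [← neg_sub (Hp x y ^ 3) (Hm x y ^ 3), Hp_cube_sub h]
  have h4 : y ^ 4 = (x ^ 3 - 23 * x ^ 2 + 1408 * x) ^ 2 := by
    unfold OnE at h
    rw [← h]
    ring
  rw [h4]
  field_simp
  unfold pa pb psi
  ring


lemma y_ne_or {x y : L} (h : OnE x y) (hy : y = 0) : 3 * x ^ 2 - 46 * x + 1408 ≠ 0 := by
  have : CharZero L := algebraRat.charZero L
  intro h0
  unfold OnE at h
  rw [hy] at h
  have key : (0 : L) = 10117021696 := by
    clear * - h h0 this
    grind
  exact absurd key (by norm_num)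

lemma psi_ne_of_y {x y : L} (h : OnE x y) (hy : y = 0) : psi x ≠ 0 := by
  rw [psi_eq h, hy]
  have := y_ne_or h hy
  intro h0
  apply this
  have h1 : (3 * x ^ 2 - 46 * x + 1408) ^ 2 = 0 := by linear_combination -h0
  simpa using h1

/-- the tripling formula -/
lemma triple {x y : L} (h : OnE x y) (hp : psi x ≠ 0) :
    ∃ h₃ : OnE (16 - Hp x y * Hm x y) ((Hm x y ^ 3 - Hp x y ^ 3) / 2),
      3 • pt x y h = pt (16 - Hp x y * Hm x y) ((Hm x y ^ 3 - Hp x y ^ 3) / 2) h₃ := by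
  have : CharZero L := algebraRat.charZero L
  by_cases hy : y = 0
  · have e1 : 16 - Hp x y * Hm x y = x := by
      rw [← triple_x h hp, hy]
      simp
    have e2 : (Hm x y ^ 3 - Hp x y ^ 3) / 2 = y := by
      rw [← triple_y h hp, hy]
      simp
    have hneg : pt x y h = -pt x y h := by
      rw [neg_pt, pt_inj]
      exact ⟨rfl, by rw [hy, neg_zero]⟩
    have h2 : 3 • pt x y h = pt x y h := by
      rw [succ_nsmul, two_nsmul]
      nth_rewrite 1 [hneg]
      rw [neg_add_cancel, zero_add]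
    rw [h2]
    exact pt_congr h e1.symm e2.symm
  · obtain ⟨m, hm⟩ : ∃ m, m = (3 * x ^ 2 - 46 * x + 1408) / (2 * y) := ⟨_, rfl⟩
    obtain ⟨h2, e2⟩ := dbl_pt h hy m (m ^ 2 + 23 - 2 * x) (-(m * ((m ^ 2 + 23 - 2 * x) - x) + y))
      (by rw [hm]; field_simp) rfl rfl
    have hsub : (m ^ 2 + 23 - 2 * x) - x = -psi x / (4 * y ^ 2) := by
      rw [psi_eq h, hm]
      field_simp
      ring
    have hx : m ^ 2 + 23 - 2 * x ≠ x := by
      intro h0
      rw [h0, sub_self, eq_comm, div_eq_zero_iff] at hsub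
      rcases hsub with h1 | h1
      · exact hp (neg_eq_zero.1 h1)
      · have : y ^ 2 = 0 := by linear_combination h1 / 4
        exact hy (by simpa using this)
    obtain ⟨n, hn⟩ : ∃ n, n = -m + 8 * y ^ 3 / psi x := ⟨_, rfl⟩
    obtain ⟨h3, e3⟩ := add_pt h2 h hx n (16 - Hp x y * Hm x y) ((Hm x y ^ 3 - Hp x y ^ 3) / 2) (by
        rw [hsub, hn]
        field_simp
        ring) (by
        rw [← triple_x h hp, hn]
        have h5 : m ^ 2 + 23 - 2 * x = x + -psi x / (4 * y ^ 2) := by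
          rw [← hsub]; ring
        rw [h5]
        have h6 : m ^ 2 = 3 * x - 23 + -psi x / (4 * y ^ 2) := by
          rw [← hsub]; ring
        have h7 : (-m + 8 * y ^ 3 / psi x) ^ 2 = m ^ 2 - 2 * m * (8 * y ^ 3 / psi x) +
          (8 * y ^ 3 / psi x) ^ 2 := by ring
        rw [h7, h6, hm]
        field_simp
        ring) (by
        rw [← triple_x h hp, ← triple_y h hp, hsub, hn]
        have h5 : m ^ 2 + 23 - 2 * x = x + -psi x / (4 * y ^ 2) := by
          rw [← hsub]; ring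
        rw [h5]
        rw [hm]
        field_simp
        ring)
    refine ⟨h3, ?_⟩
    rw [succ_nsmul, two_nsmul, e2, e3]

lemma dbl_of_psi {x y : L} (h : OnE x y) (hp : psi x = 0) : 3 • pt x y h = 0 := by
  have : CharZero L := algebraRat.charZero L
  have hy : y ≠ 0 := fun hy => psi_ne_of_y h hy hp
  obtain ⟨m, hm⟩ : ∃ m, m = (3 * x ^ 2 - 46 * x + 1408) / (2 * y) := ⟨_, rfl⟩
  have hsub : (m ^ 2 + 23 - 2 * x) - x = -psi x / (4 * y ^ 2) := by
    rw [psi_eq h, hm]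
    field_simp
    ring
  rw [hp, neg_zero, zero_div] at hsub
  obtain ⟨h2, e2⟩ := dbl_pt h hy m x (-y)
      (by rw [hm]; field_simp) (by linear_combination -hsub) (by ring)
  rw [succ_nsmul, two_nsmul, e2]
  have : pt x (-y) h2 = -pt x y h := by rw [neg_pt]
  rw [this, neg_add_cancel]

lemma three_smul_pt {x y : L} (h : OnE x y) : 3 • pt x y h = 0 ↔ psi x = 0 := by
  constructor
  · intro h0
    by_contra hp
    obtain ⟨h3, e⟩ := triple h hp
    rw [h0] at e
    exact pt_ne_zero h3 e.symm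
  · exact dbl_of_psi h

end L
end Pool.Agent.W94.F3
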