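import Mathlib
import Pool.Agent.W94.F3.Par
import Pool.Agent.W94.F3.Triple

/-!
# The three-torsion and the character `eps`
-/

set_option autoImplicit false
set_option linter.unusedSectionVars false

namespace Pool.Agent.W94.F3

section L

variable {L : Type*} [Field L] [Algebra ℚ L] [DecidableEq L]

lemma psi_Q {w A B : L} (hw : w ^ 2 + w + 1 = 0) (h : Rel A B) :
    psi (QX w A B) = 4 * (QX w A B - 16) ^ 3 * (A * B) := by
  have hD := rel_D hw h
  obtain ⟨D1, hD1⟩ : ∃ D1, D1 = 5 + w * A + w ^ 2 * B := ⟨_, rfl⟩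
  unfold psi
  rw [QX_sub hw h, ← hD1]
  rw [← hD1] at hD
  unfold Rel at h
  field_simp
  clear hD
  subst hD1
  grind

set_option maxRecDepth 20000 in
lemma Hp_Q {w A B : L} (hw : w ^ 2 + w + 1 = 0) (h : Rel A B) (hA : A ≠ 0) (hB : B ≠ 0) :
    Hp (QX w A B) (QY w A B) = 2 * (w * A ^ 3 + w ^ 2 * B ^ 3 - 847) / (9 * (A * B)) := by
  have : CharZero L := algebraRat.charZero L
  have hD := rel_D hw h
  have h4 := n432 (L := L)
  have h9 := n9 (L := L)
  obtain ⟨D1, hD1⟩ : ∃ D1, D1 = 5 + w * A + w ^ 2 * B := ⟨_, rfl⟩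
  unfold Hp
  rw [psi_Q hw h]
  unfold pa pb
  rw [QX_sub hw h]
  unfold QY
  rw [← hD1]
  rw [← hD1] at hD
  unfold Rel at h
  field_simp
  clear hD hA hB h4 h9 this
  subst hD1
  grind

set_option maxRecDepth 20000 in
lemma Hm_Q {w A B : L} (hw : w ^ 2 + w + 1 = 0) (h : Rel A B) (hA : A ≠ 0) (hB : B ≠ 0) :
    Hm (QX w A B) (QY w A B) = 2 * (w ^ 2 * A ^ 3 + w * B ^ 3 - 847) / (9 * (A * B)) := by
  have : CharZero L := algebraRat.charZero L
  have hD := rel_D hw h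
  have h4 := n432 (L := L)
  have h9 := n9 (L := L)
  obtain ⟨D1, hD1⟩ : ∃ D1, D1 = 5 + w * A + w ^ 2 * B := ⟨_, rfl⟩
  unfold Hm
  rw [psi_Q hw h]
  unfold pa pb
  rw [QX_sub hw h]
  unfold QY
  rw [← hD1]
  rw [← hD1] at hD
  unfold Rel at h
  field_simp
  clear hD hA hB h4 h9 this
  subst hD1
  grind


/-- the group of points -/
abbrev Pt (L : Type*) [Field L] [Algebra ℚ L] : Type _ :=
  (WeierstrassCurve.baseChange W L).toAffine.Point

def HP (R : Pt L) : L := match R with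
  | .zero => 0
  | .some x y _ => Hp x y

def HM (R : Pt L) : L := match R with
  | .zero => 0
  | .some x y _ => Hm x y

lemma HP_pt {x y : L} (h : OnE x y) : HP (pt x y h) = Hp x y := rfl
lemma HM_pt {x y : L} (h : OnE x y) : HM (pt x y h) = Hm x y := rfl

lemma triple' {R : Pt L} (hR : 3 • R ≠ 0) :
    ∃ h₃ : OnE (16 - HP R * HM R) ((HM R ^ 3 - HP R ^ 3) / 2),
      3 • R = pt (16 - HP R * HM R) ((HM R ^ 3 - HP R ^ 3) / 2) h₃ := by
  rcases exists_pt R with rfl | ⟨x, y, h, rfl⟩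
  · exact absurd (nsmul_zero 3) hR
  · rw [Ne, three_smul_pt] at hR
    exact triple h hR

lemma H_rel' {R : Pt L} (hR : 3 • R ≠ 0) : HP R ^ 3 + HM R ^ 3 = 10 * HP R * HM R - 288 := by
  rcases exists_pt R with rfl | ⟨x, y, h, rfl⟩
  · exact absurd (nsmul_zero 3) hR
  · rw [Ne, three_smul_pt] at hR
    exact H_rel h hR

lemma exists_Q {w : L} (hw : w ^ 2 + w + 1 = 0) {R : Pt L} (hR : 3 • R ≠ 0) :
    ∃ A B, ∃ h : Rel A B, A ≠ 0 ∧ B ≠ 0 ∧ R = Q w A B hw h := by
  rcases exists_pt R with rfl | ⟨x, y, h, rfl⟩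
  · exact absurd (nsmul_zero 3) hR
  · rw [Ne, three_smul_pt] at hR
    have hx : x ≠ 16 := by
      rintro rfl
      apply hR
      unfold psi
      ring
    have hr := rel_g hw h hx
    have e : pt x y h = Q w _ _ hw hr := by
      unfold Q
      rw [pt_inj]
      exact ⟨(QX_g hw h hx).symm, (QY_g hw h hx).symm⟩
    refine ⟨_, _, hr, ?_, ?_, e⟩
    · intro h0
      apply hR
      have := psi_Q hw hr
      rw [QX_g hw h hx, h0] at this
      rw [this]
      ring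
    · intro h0
      apply hR
      have := psi_Q hw hr
      rw [QX_g hw h hx, h0] at this
      rw [this]
      ring

lemma Q_tors {w A B : L} (hw : w ^ 2 + w + 1 = 0) (h : Rel A B) :
    3 • Q w A B hw h = 0 ↔ A = 0 ∨ B = 0 := by
  unfold Q
  rw [three_smul_pt, psi_Q hw h]
  have : CharZero L := algebraRat.charZero L
  have hx := QX_ne hw h
  have hx' : QX w A B - 16 ≠ 0 := sub_ne_zero.2 hx
  simp [hx']

lemma three_P : 3 • (P3 : Pt L) = 0 := by
  unfold P3
  rw [three_smul_pt]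
  unfold psi
  ring

/-- the second generator of the three-torsion -/
def T1 (w d : L) (hw : w ^ 2 + w + 1 = 0) (hd : d ^ 3 = -847) : Pt L := Q w 0 (-d) hw (rel_T hd)

lemma three_T {w d : L} (hw : w ^ 2 + w + 1 = 0) (hd : d ^ 3 = -847) : 3 • T1 w d hw hd = 0 := by
  unfold T1
  rw [Q_tors]
  left
  rfl

lemma HP_Q {w A B : L} (hw : w ^ 2 + w + 1 = 0) (h : Rel A B) (hA : A ≠ 0) (hB : B ≠ 0) :
    HP (Q w A B hw h) = 2 * (w * A ^ 3 + w ^ 2 * B ^ 3 - 847) / (9 * (A * B)) := Hp_Q hw h hA hB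

lemma HM_Q {w A B : L} (hw : w ^ 2 + w + 1 = 0) (h : Rel A B) (hA : A ≠ 0) (hB : B ≠ 0) :
    HM (Q w A B hw h) = 2 * (w ^ 2 * A ^ 3 + w * B ^ 3 - 847) / (9 * (A * B)) := Hm_Q hw h hA hB

lemma w_ne {w : L} (hw : w ^ 2 + w + 1 = 0) : w ≠ 0 := by
  rintro rfl
  simp at hw

lemma H_add_P {w : L} (hw : w ^ 2 + w + 1 = 0) {R : Pt L} (hR : 3 • R ≠ 0) :
    HP (R + P3) = HP R ∧ HM (R + P3) = HM R := by
  obtain ⟨A, B, h, hA, hB, rfl⟩ := exists_Q hw hR
  have hw0 := w_ne hw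
  have hw3 : w ^ 3 = 1 := by linear_combination (w - 1) * hw
  have e1 : w * A * (w ^ 2 * B) = A * B := by linear_combination A * B * hw3
  have e2 : (w * A) ^ 3 = A ^ 3 := by linear_combination A ^ 3 * hw3
  have e3 : (w ^ 2 * B) ^ 3 = B ^ 3 := by linear_combination B ^ 3 * (w ^ 3 + 1) * hw3
  rw [Q_add_P, HP_Q hw _ (mul_ne_zero hw0 hA) (mul_ne_zero (pow_ne_zero 2 hw0) hB),
    HM_Q hw _ (mul_ne_zero hw0 hA) (mul_ne_zero (pow_ne_zero 2 hw0) hB), HP_Q hw h hA hB,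
    HM_Q hw h hA hB, e1, e2, e3]
  exact ⟨rfl, rfl⟩

lemma H_add_T {w d : L} (hw : w ^ 2 + w + 1 = 0) (hd : d ^ 3 = -847) {R : Pt L} (hR : 3 • R ≠ 0) :
    HP (R + T1 w d hw hd) = w * HP R ∧ HM (R + T1 w d hw hd) = w ^ 2 * HM R := by
  have : CharZero L := algebraRat.charZero L
  obtain ⟨A, B, h, hA, hB, rfl⟩ := exists_Q hw hR
  have hw0 := w_ne hw
  have hw3 : w ^ 3 = 1 := by linear_combination (w - 1) * hw
  have hd0 : d ≠ 0 := by
    rintro rfl
    norm_num at hd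
  have hA' : w * d ^ 2 / B ≠ 0 := by positivity
  have hB' : w ^ 2 * d * A / B ≠ 0 := by positivity
  unfold T1
  rw [Q_add_T hw h hd hA hB, HP_Q hw _ hA' hB', HM_Q hw _ hA' hB', HP_Q hw h hA hB,
    HM_Q hw h hA hB]
  constructor
  · field_simp
    clear * - hw hd hw3
    grind
  · field_simp
    clear * - hw hd hw3
    grind


lemma onE_T2 : OnE (0 : L) 0 := by
  unfold OnE
  norm_num

/-- the rational point of order two -/
def T2 : Pt L := pt 0 0 onE_T2

lemma neg_T2 : -(T2 : Pt L) = T2 := by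
  unfold T2
  rw [neg_pt, pt_inj]
  exact ⟨rfl, neg_zero⟩

lemma two_T2 : (2 : ℕ) • (T2 : Pt L) = 0 := by
  rw [two_nsmul]
  nth_rewrite 1 [← neg_T2]
  rw [neg_add_cancel]

lemma three_T2 : 3 • (T2 : Pt L) = T2 := by
  rw [succ_nsmul, two_T2, zero_add]

lemma T2_ne : (T2 : Pt L) ≠ 0 := pt_ne_zero _

lemma three_T2_ne : 3 • (T2 : Pt L) ≠ 0 := by
  rw [three_T2]
  exact T2_ne

lemma HP_T2 : HP (T2 : Pt L) = -4 := by
  have : CharZero L := algebraRat.charZero L
  unfold T2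
  rw [HP_pt]
  unfold Hp pa pb psi
  norm_num

lemma HM_T2 : HM (T2 : Pt L) = -4 := by
  have : CharZero L := algebraRat.charZero L
  unfold T2
  rw [HM_pt]
  unfold Hm pa pb psi
  norm_num

/-- the character of the three-torsion with kernel generated by `P3` -/
def eps (T : Pt L) : L := -HP (T2 + T) / 4

/-- `T` multiplies `HP` by `z` -/
def EpsRel (T : Pt L) (z : L) : Prop :=
  ∀ R : Pt L, 3 • R ≠ 0 → HP (R + T) = z * HP R ∧ HM (R + T) = z ^ 2 * HM R

lemma EpsRel.eps_eq {T : Pt L} {z : L} (h : EpsRel T z) : eps T = z := by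
  have : CharZero L := algebraRat.charZero L
  unfold eps
  rw [(h T2 three_T2_ne).1, HP_T2]
  ring

lemma EpsRel.add {T T' : Pt L} {z z' : L} (h : EpsRel T z) (h' : EpsRel T' z') (hT : 3 • T = 0) :
    EpsRel (T + T') (z * z') := by
  intro R hR
  have hR' : 3 • (R + T) ≠ 0 := by rwa [nsmul_add, hT, add_zero]
  have h1 := h R hR
  have h2 := h' (R + T) hR'
  rw [← add_assoc, h2.1, h2.2, h1.1, h1.2]
  constructor <;> ring

lemma epsRel_zero : EpsRel (0 : Pt L) 1 := by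
  intro R hR
  rw [add_zero]
  constructor <;> ring

lemma epsRel_P {w : L} (hw : w ^ 2 + w + 1 = 0) : EpsRel (P3 : Pt L) 1 := by
  intro R hR
  have := H_add_P hw hR
  rw [this.1, this.2]
  constructor <;> ring

lemma epsRel_T {w d : L} (hw : w ^ 2 + w + 1 = 0) (hd : d ^ 3 = -847) :
    EpsRel (T1 w d hw hd) w := fun _ hR => H_add_T hw hd hR

lemma EpsRel.nsmul {T : Pt L} {z : L} (h : EpsRel T z) (hT : 3 • T = 0) (n : ℕ) :
    EpsRel (n • T) (z ^ n) := by
  induction n with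
  | zero => rw [zero_smul, pow_zero]; exact epsRel_zero
  | succ n ih =>
    rw [succ_nsmul, pow_succ]
    refine ih.add h ?_
    rw [smul_comm, hT, smul_zero]

lemma epsRel_comb {w d : L} (hw : w ^ 2 + w + 1 = 0) (hd : d ^ 3 = -847) (i j : ℕ) :
    EpsRel (i • P3 + j • T1 w d hw hd) (w ^ j) := by
  have h1 := (epsRel_P hw).nsmul three_P i
  have h2 := (epsRel_T hw hd).nsmul (three_T hw hd) j
  have h3 := h1.add h2 (by rw [smul_comm, three_P, smul_zero])
  rwa [one_pow, one_mul] at h3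

lemma T1_sub_P {w : L} (hw : w ^ 2 + w + 1 = 0) (B : L) (hB : Rel 0 B) :
    Q w 0 B hw hB + P3 = Q w 0 (w ^ 2 * B) hw (by
      have hw3 : w ^ 3 = 1 := by linear_combination (w - 1) * hw
      unfold Rel at *
      linear_combination hB + B ^ 3 * (w ^ 3 + 1) * hw3) := by
  rw [Q_add_P hw hB, Q_inj]
  exact ⟨mul_zero _, rfl⟩

lemma cube_roots {w a b : L} (hw : w ^ 2 + w + 1 = 0) (h : a ^ 3 = b ^ 3) :
    a = b ∨ a = w * b ∨ a = w ^ 2 * b := by
  have : (a - b) * ((a - w * b) * (a - w ^ 2 * b)) = 0 := by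
    have hw3 : w ^ 3 = 1 := by linear_combination (w - 1) * hw
    linear_combination h - (a ^ 2 * b - a * b ^ 2) * hw + (a * b ^ 2 - b ^ 3) * hw3
  rcases mul_eq_zero.1 this with h1 | h1
  · left; exact sub_eq_zero.1 h1
  · rcases mul_eq_zero.1 h1 with h2 | h2
    · right; left; exact sub_eq_zero.1 h2
    · right; right; exact sub_eq_zero.1 h2

lemma tors_Q0 {w d : L} (hw : w ^ 2 + w + 1 = 0) (hd : d ^ 3 = -847) (B : L) (hB : Rel 0 B) :
    ∃ i : ℕ, Q w 0 B hw hB = i • P3 + T1 w d hw hd := by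
  have hw3 : w ^ 3 = 1 := by linear_combination (w - 1) * hw
  have h0 : B ^ 3 = (-d) ^ 3 := by
    unfold Rel at hB
    linear_combination hB + hd
  have key : ∀ i : ℕ, ∀ h', Q w 0 (w ^ (2 * i) * (-d)) hw h' = i • P3 + T1 w d hw hd := by
    intro i
    induction i with
    | zero =>
      intro h'
      rw [zero_smul, zero_add]
      unfold T1
      rw [Q_inj]
      exact ⟨rfl, by simp⟩
    | succ i ih =>
      intro h'
      have hr : Rel 0 (w ^ (2 * i) * (-d)) := by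
        unfold Rel
        have : (w ^ (2 * i)) ^ 3 = 1 := by rw [← pow_mul, mul_comm, pow_mul, hw3, one_pow]
        linear_combination (-d) ^ 3 * this - hd
      rw [succ_nsmul, add_right_comm, ← ih hr, T1_sub_P hw, Q_inj]
      refine ⟨rfl, ?_⟩
      ring
  rcases cube_roots hw h0 with h1 | h1 | h1
  · refine ⟨0, ?_⟩
    rw [← key 0 (by rw [mul_zero, pow_zero, one_mul]; exact rel_T hd), Q_inj]
    refine ⟨rfl, ?_⟩
    rw [h1]; ring
  · have e : w ^ (2 * 2) * (-d) = B := by rw [h1]; linear_combination (-d) * w * hw3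
    refine ⟨2, ?_⟩
    rw [← key 2 (by rw [e]; exact hB), Q_inj]
    exact ⟨rfl, e.symm⟩
  · have e : w ^ (2 * 1) * (-d) = B := by rw [h1]
    refine ⟨1, ?_⟩
    rw [← key 1 (by rw [e]; exact hB), Q_inj]
    exact ⟨rfl, e.symm⟩

/-- the three-torsion is generated by `P3` and `T1` -/
lemma tors_eq {w d : L} (hw : w ^ 2 + w + 1 = 0) (hd : d ^ 3 = -847) {T : Pt L} (hT : 3 • T = 0) :
    ∃ i j : ℕ, T = i • P3 + j • T1 w d hw hd := by
  have hneg : ∀ S : Pt L, 3 • S = 0 → -S = 2 • S := by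
    intro S hS
    rw [neg_eq_iff_add_eq_zero, ← hS]
    abel
  rcases exists_pt T with rfl | ⟨x, y, h, rfl⟩
  · exact ⟨0, 0, by simp⟩
  · by_cases hx : x = 16
    · rcases eq_or_neg_of_x_eq h onE_P hx with h1 | h1
      · exact ⟨1, 0, by rw [one_smul, zero_smul, add_zero]; exact h1⟩
      · refine ⟨2, 0, ?_⟩
        rw [zero_smul, add_zero, ← hneg _ three_P]
        exact h1
    · have hr := rel_g hw h hx
      have e : pt x y h = Q w _ _ hw hr := by
        unfold Q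
        rw [pt_inj]
        exact ⟨(QX_g hw h hx).symm, (QY_g hw h hx).symm⟩
      rw [e] at hT ⊢
      rcases (Q_tors hw hr).1 hT with h0 | h0
      · have h2 : Rel 0 (g2 w x y) := by rw [h0] at hr; exact hr
        obtain ⟨i, hi⟩ := tors_Q0 hw hd _ h2
        refine ⟨i, 1, ?_⟩
        rw [one_smul, ← hi, Q_inj]
        exact ⟨h0, rfl⟩
      · have h2 : Rel 0 (w ^ 2 * g1 w x y) := by
          have := rel_neg hw hr
          rw [h0, mul_zero] at this
          exact this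
        have e2 : -Q w _ _ hw hr = Q w 0 (w ^ 2 * g1 w x y) hw h2 := by
          rw [neg_Q, Q_inj]
          exact ⟨by rw [h0, mul_zero], rfl⟩
        obtain ⟨i, hi⟩ := tors_Q0 hw hd _ h2
        refine ⟨2 * i, 2, ?_⟩
        rw [← neg_neg (Q w _ _ hw hr), e2, hi, neg_add, hneg _ (three_T hw hd),
          hneg (i • P3) (by rw [smul_comm, three_P, smul_zero]), mul_smul]

lemma eps_spec {w d : L} (hw : w ^ 2 + w + 1 = 0) (hd : d ^ 3 = -847) {T : Pt L}
    (hT : 3 • T = 0) : EpsRel T (eps T) ∧ eps T ^ 3 = 1 := by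
  have hw3 : w ^ 3 = 1 := by linear_combination (w - 1) * hw
  obtain ⟨i, j, rfl⟩ := tors_eq hw hd hT
  have h := epsRel_comb hw hd i j
  rw [h.eps_eq]
  exact ⟨h, by rw [← pow_mul, mul_comm, pow_mul, hw3, one_pow]⟩

lemma eps_add {w d : L} (hw : w ^ 2 + w + 1 = 0) (hd : d ^ 3 = -847) {T T' : Pt L}
    (hT : 3 • T = 0) (hT' : 3 • T' = 0) : eps (T + T') = eps T * eps T' :=
  ((eps_spec hw hd hT).1.add (eps_spec hw hd hT').1 hT).eps_eq

lemma eps_comb {w d : L} (hw : w ^ 2 + w + 1 = 0) (hd : d ^ 3 = -847) (i j : ℕ) :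
    eps (i • P3 + j • T1 w d hw hd) = w ^ j := (epsRel_comb hw hd i j).eps_eq

lemma w_pow_eq_one {w : L} (hw : w ^ 2 + w + 1 = 0) {j : ℕ} (hj : w ^ j = 1) : 3 ∣ j := by
  have : CharZero L := algebraRat.charZero L
  have hw3 : w ^ 3 = 1 := by linear_combination (w - 1) * hw
  have hw1 : w ≠ 1 := by
    rintro rfl
    norm_num at hw
  have := orderOf_eq_prime (p := 3) hw3 hw1
  rw [← this]
  exact orderOf_dvd_of_pow_eq_one hj

lemma eps_eq_one {w d : L} (hw : w ^ 2 + w + 1 = 0) (hd : d ^ 3 = -847) {T : Pt L}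
    (hT : 3 • T = 0) (h : eps T = 1) : ∃ i : ℕ, T = i • P3 := by
  obtain ⟨i, j, rfl⟩ := tors_eq hw hd hT
  rw [eps_comb] at h
  obtain ⟨k, rfl⟩ := w_pow_eq_one hw h
  refine ⟨i, ?_⟩
  rw [mul_comm, mul_smul, three_T, smul_zero, add_zero]

end L
end Pool.Agent.W94.F3
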