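import Mathlib
import Pool.Agent.W94.F3.Eps

/-!
# Maps between fields and divisibility by three
-/

set_option autoImplicit false
set_option linter.unusedSectionVars false

namespace Pool.Agent.W94.F3

section L

variable {L : Type*} [Field L] [Algebra ℚ L] [DecidableEq L]

lemma comb_eq_zero {w d : L} (hw : w ^ 2 + w + 1 = 0) (hd : d ^ 3 = -847) {i j : ℕ}
    (h : i • (P3 : Pt L) + j • T1 w d hw hd = 0) : 3 ∣ i ∧ 3 ∣ j := by
  have h1 := eps_comb hw hd i j
  rw [h, epsRel_zero.eps_eq] at h1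
  have hj := w_pow_eq_one hw h1.symm
  refine ⟨?_, hj⟩
  obtain ⟨k, rfl⟩ := hj
  rw [mul_comm, mul_smul, three_T, smul_zero, add_zero] at h
  have ho : addOrderOf (P3 : Pt L) = 3 := addOrderOf_eq_prime three_P (pt_ne_zero _)
  rw [← ho]
  exact addOrderOf_dvd_of_nsmul_eq_zero h

lemma T1_shift {w d : L} (hw : w ^ 2 + w + 1 = 0) (hd : d ^ 3 = -847)
    (hd' : (w * d) ^ 3 = -847) :
    T1 w (w * d) hw hd' + P3 = T1 w d hw hd := by
  have hw3 : w ^ 3 = 1 := by linear_combination (w - 1) * hw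
  unfold T1
  rw [T1_sub_P hw, Q_inj]
  refine ⟨rfl, ?_⟩
  linear_combination -d * hw3

/-- the curve has points with prescribed `HP, HM` -/
lemma exists_H (hc : ∀ a : L, ∃ b, b ^ 3 = a) {w : L} (hw : w ^ 2 + w + 1 = 0) (a b : L)
    (hab : a ^ 3 + b ^ 3 = 10 * a * b - 288) : ∃ R : Pt L, 3 • R ≠ 0 ∧ HP R = a ∧ HM R = b := by
  have : CharZero L := algebraRat.charZero L
  have hw3 : w ^ 3 = 1 := by linear_combination (w - 1) * hw
  have hprod : (10 + 3 * a + 3 * b) * ((10 + 3 * w ^ 2 * a + 3 * w * b) *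
      (10 + 3 * w * a + 3 * w ^ 2 * b)) = -6776 := by
    clear hc
    grind
  have h0 : 10 + 3 * a + 3 * b ≠ 0 := by
    intro h; rw [h, zero_mul] at hprod; norm_num at hprod
  have h12 : (10 + 3 * w ^ 2 * a + 3 * w * b) * (10 + 3 * w * a + 3 * w ^ 2 * b) ≠ 0 := by
    intro h; rw [h, mul_zero] at hprod; norm_num at hprod
  have h1 := left_ne_zero_of_mul h12
  have h2 := right_ne_zero_of_mul h12
  obtain ⟨M, hM⟩ : ∃ M, M = -1694 / (10 + 3 * a + 3 * b) := ⟨_, rfl⟩
  have hM0 : M ≠ 0 := by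
    rw [hM]
    exact div_ne_zero (by norm_num) h0
  have hM1 : M * (10 + 3 * a + 3 * b) = -1694 := by rw [hM]; field_simp
  obtain ⟨A, hA⟩ := hc (M * (10 + 3 * w ^ 2 * a + 3 * w * b) / 2)
  have hA0 : A ≠ 0 := by
    intro h
    rw [h] at hA
    have : M * (10 + 3 * w ^ 2 * a + 3 * w * b) = 0 := by
      rw [zero_pow (by norm_num)] at hA
      field_simp at hA
      linear_combination -hA
    exact mul_ne_zero hM0 h1 this
  have hB : (M / A) ^ 3 = M * (10 + 3 * w * a + 3 * w ^ 2 * b) / 2 := by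
    have hXY : (10 + 3 * w ^ 2 * a + 3 * w * b) * (10 + 3 * w * a + 3 * w ^ 2 * b) = 4 * M := by
      apply mul_left_cancel₀ h0
      linear_combination hprod - 4 * hM1
    rw [div_pow, hA, div_eq_iff (div_ne_zero (mul_ne_zero hM0 h1) two_ne_zero)]
    linear_combination -(M ^ 2 / 4) * hXY
  have hrel : Rel A (M / A) := by
    unfold Rel
    rw [hA, hB]
    field_simp
    linear_combination -3 * hM1 * 0 + (1 : L) * (3 * (a + b) * M * hw) - hM1
  have hB0 : M / A ≠ 0 := div_ne_zero hM0 hA0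
  have hAB : A * (M / A) = M := by field_simp
  refine ⟨Q w A (M / A) hw hrel, ?_, ?_, ?_⟩
  · rw [Ne, Q_tors]
    push Not
    exact ⟨hA0, hB0⟩
  · rw [HP_Q hw hrel hA0 hB0, hA, hB, hAB]
    field_simp
    clear * - hw hM1
    grind
  · rw [HM_Q hw hrel hA0 hB0, hA, hB, hAB]
    field_simp
    clear * - hw hM1
    grind


/-- divisibility by three -/
lemma exists_third (hc : ∀ a : L, ∃ b, b ^ 3 = a) {w : L} (hw : w ^ 2 + w + 1 = 0) (S : Pt L) :
    ∃ R : Pt L, 3 • R = S := by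
  have : CharZero L := algebraRat.charZero L
  rcases exists_pt S with rfl | ⟨X, Y, h, rfl⟩
  · exact ⟨0, nsmul_zero 3⟩
  · have hXY : (X - 16) ^ 3 = (Y - (5 * X + 64)) * (Y + (5 * X + 64)) := by
      unfold OnE at h
      linear_combination -h
    obtain ⟨a, b, hb, hab, ha⟩ : ∃ a b : L, b ^ 3 = Y - (5 * X + 64) ∧ a * b = 16 - X ∧
        a ^ 3 = -(Y + (5 * X + 64)) := by
      by_cases h0 : Y - (5 * X + 64) = 0
      · have hX : X - 16 = 0 := by
          rw [h0, zero_mul] at hXY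
          simpa using hXY
        obtain ⟨a, ha⟩ := hc (-(Y + (5 * X + 64)))
        refine ⟨a, 0, by rw [h0]; simp, ?_, ha⟩
        linear_combination hX
      · obtain ⟨b, hb⟩ := hc (Y - (5 * X + 64))
        have hb0 : b ≠ 0 := by
          rintro rfl
          apply h0
          rw [← hb]
          simp
        refine ⟨(16 - X) / b, b, hb, by field_simp, ?_⟩
        rw [div_pow, hb, div_eq_iff h0]
        linear_combination -hXY
    obtain ⟨R, hR, hRa, hRb⟩ := exists_H hc hw a b (by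
      linear_combination ha + hb - 10 * hab)
    obtain ⟨h3, e⟩ := triple' hR
    refine ⟨R, ?_⟩
    rw [e, pt_inj, hRa, hRb]
    constructor
    · linear_combination -hab
    · rw [ha, hb]
      ring

lemma three_smul_congr {R R' : Pt L} (hR : 3 • R ≠ 0) (hR' : 3 • R' ≠ 0) {z : L} (hz : z ^ 3 = 1)
    (h1 : HP R' = z * HP R) (h2 : HM R' = z ^ 2 * HM R) : 3 • R = 3 • R' := by
  obtain ⟨h3, e⟩ := triple' hR
  obtain ⟨h3', e'⟩ := triple' hR'
  rw [e, e', pt_inj, h1, h2]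
  constructor
  · linear_combination (-(HP R * HM R)) * (-hz)
  · linear_combination (-(HM R ^ 3 * (z ^ 3 + 1) - HP R ^ 3) / 2) * hz

end L

section Map

variable {L L' : Type*} [Field L] [Algebra ℚ L] [DecidableEq L] [Field L'] [Algebra ℚ L']
  [DecidableEq L']

/-- the map on points -/
noncomputable def pm (f : L →ₐ[ℚ] L') : Pt L →+ Pt L' :=
  WeierstrassCurve.Affine.Point.map (W' := W) f

omit [DecidableEq L] [DecidableEq L'] in
lemma onE_map (f : L →ₐ[ℚ] L') {x y : L} (h : OnE x y) : OnE (f x) (f y) := by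
  unfold OnE at *
  have := congrArg f h
  simpa [map_ofNat] using this

lemma pm_pt (f : L →ₐ[ℚ] L') {x y : L} (h : OnE x y) :
    pm f (pt x y h) = pt (f x) (f y) (onE_map f h) := rfl

lemma pm_zero (f : L →ₐ[ℚ] L') : pm f (0 : Pt L) = 0 := map_zero _

lemma HP_pm (f : L →ₐ[ℚ] L') (R : Pt L) : HP (pm f R) = f (HP R) := by
  rcases exists_pt R with rfl | ⟨x, y, h, rfl⟩
  · rw [pm_zero]
    exact (map_zero f).symm
  · rw [pm_pt, HP_pt, HP_pt]
    simp [Hp, pa, pb, psi, map_ofNat]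

lemma HM_pm (f : L →ₐ[ℚ] L') (R : Pt L) : HM (pm f R) = f (HM R) := by
  rcases exists_pt R with rfl | ⟨x, y, h, rfl⟩
  · rw [pm_zero]
    exact (map_zero f).symm
  · rw [pm_pt, HM_pt, HM_pt]
    simp [Hm, pa, pb, psi, map_ofNat]

lemma pm_P3 (f : L →ₐ[ℚ] L') : pm f P3 = P3 := by
  unfold P3
  rw [pm_pt, pt_inj]
  simp [map_ofNat]

lemma pm_T2 (f : L →ₐ[ℚ] L') : pm f T2 = T2 := by
  unfold T2
  rw [pm_pt, pt_inj]
  simp

lemma eps_pm (f : L →ₐ[ℚ] L') (T : Pt L) : eps (pm f T) = f (eps T) := by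
  unfold eps
  rw [← pm_T2 f, ← map_add, HP_pm]
  simp [map_ofNat]

omit [DecidableEq L] [DecidableEq L'] in
lemma rel_map (f : L →ₐ[ℚ] L') {A B : L} (h : Rel A B) : Rel (f A) (f B) := by
  unfold Rel at *
  have := congrArg f h
  simpa [map_ofNat] using this

omit [DecidableEq L] [DecidableEq L'] in
lemma w_map (f : L →ₐ[ℚ] L') {w : L} (hw : w ^ 2 + w + 1 = 0) : (f w) ^ 2 + f w + 1 = 0 := by
  have := congrArg f hw
  simpa [map_ofNat] using this

lemma pm_Q (f : L →ₐ[ℚ] L') {w A B : L} (hw : w ^ 2 + w + 1 = 0) (h : Rel A B) :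
    pm f (Q w A B hw h) = Q (f w) (f A) (f B) (w_map f hw) (rel_map f h) := by
  unfold Q
  rw [pm_pt, pt_inj]
  simp [QX, QY, map_ofNat]

lemma pm_T1 (f : L →ₐ[ℚ] L') {w d : L} (hw : w ^ 2 + w + 1 = 0) (hd : d ^ 3 = -847) :
    pm f (T1 w d hw hd) = T1 (f w) (f d) (w_map f hw) (by rw [← map_pow, hd]; simp [map_ofNat]) := by
  unfold T1
  rw [pm_Q, Q_inj]
  simp

lemma pm_comp {L'' : Type*} [Field L''] [Algebra ℚ L''] [DecidableEq L''] (g : L' →ₐ[ℚ] L'')
    (f : L →ₐ[ℚ] L') (R : Pt L) : pm g (pm f R) = pm (g.comp f) R := by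
  rcases exists_pt R with rfl | ⟨x, y, h, rfl⟩
  · rw [pm_zero, pm_zero, pm_zero]
  · rfl

lemma pm_inj (f : L →ₐ[ℚ] L') : Function.Injective (pm f) := by
  intro R S h
  rcases exists_pt R with rfl | ⟨x, y, h1, rfl⟩ <;> rcases exists_pt S with rfl | ⟨x', y', h2, rfl⟩
  · rfl
  · rw [pm_zero, pm_pt] at h
    exact absurd h.symm (pt_ne_zero _)
  · rw [pm_zero, pm_pt] at h
    exact absurd h (pt_ne_zero _)
  · rw [pm_pt, pm_pt, pt_inj] at h
    rw [pt_inj]
    exact ⟨f.injective h.1, f.injective h.2⟩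

end Map

end Pool.Agent.W94.F3
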