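import Mathlib
import Pool.Agent.W94.F3.H90
import Pool.Agent.W94.F3.Maps

/-!
# The cyclic cubic field
-/

set_option autoImplicit false
set_option linter.unusedSectionVars false

namespace Pool.Agent.W94.F3

open scoped Classical

lemma exists_w : ∃ w : Qbar, w ^ 2 + w + 1 = 0 := by
  obtain ⟨s, hs⟩ := IsAlgClosed.exists_pow_nat_eq (-3 : Qbar) (n := 2) (by norm_num)
  exact ⟨(-1 + s) / 2, by linear_combination hs / 4⟩

/-- a primitive cube root of unity -/
noncomputable def gw : Qbar := exists_w.choose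
lemma hgw : gw ^ 2 + gw + 1 = 0 := exists_w.choose_spec
lemma gw3 : gw ^ 3 = 1 := by linear_combination (gw - 1) * hgw
lemma gw_ne : gw ≠ 0 := w_ne hgw

lemma exists_e : ∃ e : Qbar, e ^ 3 = 2821 * (61 + 36 * gw) :=
  IsAlgClosed.exists_pow_nat_eq _ (by norm_num)
/-- the Kummer generator -/
noncomputable def ge : Qbar := exists_e.choose
lemma hge : ge ^ 3 = 2821 * (61 + 36 * gw) := exists_e.choose_spec

lemma exists_d : ∃ d : Qbar, d ^ 3 = -847 := IsAlgClosed.exists_pow_nat_eq _ (by norm_num)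
/-- a cube root of `-847` -/
noncomputable def gd : Qbar := exists_d.choose
lemma hgd : gd ^ 3 = -847 := exists_d.choose_spec

lemma norm_al : (61 + 36 * gw) * (61 + 36 * gw ^ 2) = 2821 := by
  linear_combination (1296 * gw + 900) * hgw

lemma ge_ne : ge ≠ 0 := by
  intro h
  have h1 := hge
  rw [h, zero_pow (by norm_num)] at h1
  have h2 : (61 + 36 * gw : Qbar) = 0 := by
    rcases mul_eq_zero.1 h1.symm with h3 | h3
    · norm_num at h3
    · exact h3
  have h3 := norm_al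
  rw [h2, zero_mul] at h3
  norm_num at h3

/-- the conjugates of the generator -/
noncomputable def gu (i : ℕ) : Qbar := gw ^ i * ge + gw ^ (2 * i) * (2821 / ge)

lemma gu_add_three (i : ℕ) : gu (i + 3) = gu i := by
  unfold gu
  have h := gw3
  have e1 : gw ^ (i + 3) = gw ^ i := by rw [pow_add, h, mul_one]
  have e2 : gw ^ (2 * (i + 3)) = gw ^ (2 * i) := by
    rw [show 2 * (i + 3) = 2 * i + 3 + 3 by ring, pow_add, pow_add, h, mul_one, mul_one]
  rw [e1, e2]

lemma gu_add_mul (i k : ℕ) : gu (i + 3 * k) = gu i := by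
  induction k with
  | zero => rfl
  | succ k ih => rw [show i + 3 * (k + 1) = i + 3 * k + 3 by ring, gu_add_three, ih]

lemma gu_mod {i j : ℕ} (h : i % 3 = j % 3) : gu i = gu j := by
  rw [← Nat.mod_add_div i 3, ← Nat.mod_add_div j 3, gu_add_mul, gu_add_mul, h]

lemma gu_sum : gu 0 + gu 1 + gu 2 = 0 := by
  unfold gu
  linear_combination ge * hgw + (2821 / ge) * (hgw + gw * gw3)

lemma ge_cube_inv : (2821 / ge) ^ 3 = 2821 * (61 + 36 * gw ^ 2) := by
  have h := hge
  have h0 := ge_ne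
  rw [div_pow, div_eq_iff (pow_ne_zero 3 h0), h]
  linear_combination (-2821 ^ 2 : Qbar) * norm_al

lemma gu_quad : gu 0 * gu 1 + gu 1 * gu 2 + gu 2 * gu 0 = -8463 := by
  have h0 := ge_ne
  have h3 := gw3
  have hw := hgw
  unfold gu
  obtain ⟨z, hz⟩ : ∃ z, z = 2821 / ge := ⟨_, rfl⟩
  have hez : ge * z = 2821 := by rw [hz]; field_simp
  rw [← hz]
  clear hz
  grind

lemma gu_prod : gu 0 * gu 1 * gu 2 = 242606 := by
  have h0 := ge_ne
  have h3 := gw3
  have hw := hgw
  have hc := ge_cube_inv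
  have hg := hge
  unfold gu
  obtain ⟨z, hz⟩ : ∃ z, z = 2821 / ge := ⟨_, rfl⟩
  have hez : ge * z = 2821 := by rw [hz]; field_simp
  rw [← hz] at hc ⊢
  clear hz
  grind

lemma gu_root (i : ℕ) : gu i ^ 3 - 8463 * gu i - 242606 = 0 := by
  have key : ∀ x, (x - gu 0) * (x - gu 1) * (x - gu 2) = x ^ 3 - 8463 * x - 242606 := by
    intro x
    linear_combination (-x ^ 2) * gu_sum + x * gu_quad - gu_prod
  rw [← key]
  rcases (show i % 3 = 0 ∨ i % 3 = 1 ∨ i % 3 = 2 by omega) with h | h | h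
  · rw [gu_mod (i := i) (j := 0) (by omega)]; ring
  · rw [gu_mod (i := i) (j := 1) (by omega)]; ring
  · rw [gu_mod (i := i) (j := 2) (by omega)]; ring

lemma gal_gw (g : GQ) : g gw = gw ∨ g gw = gw ^ 2 := by
  have h : (g gw) ^ 2 + g gw + 1 = 0 := by
    have := congrArg g hgw
    simpa using this
  have : (g gw - gw) * (g gw - gw ^ 2) = 0 := by
    linear_combination h + gw3 - g gw * hgw
  rcases mul_eq_zero.1 this with h1 | h1
  · left; exact sub_eq_zero.1 h1
  · right; exact sub_eq_zero.1 h1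

lemma gal_ge1 (g : GQ) (hg : g gw = gw) : ∃ i : ℕ, g ge = gw ^ i * ge := by
  have h : (g ge) ^ 3 = ge ^ 3 := by
    rw [← map_pow, hge]
    simp [map_ofNat, hg]
  rcases cube_roots hgw h with h1 | h1 | h1
  · exact ⟨0, by rw [h1]; ring⟩
  · exact ⟨1, by rw [h1]; ring⟩
  · exact ⟨2, h1⟩

lemma gal_ge2 (g : GQ) (hg : g gw = gw ^ 2) : ∃ i : ℕ, g ge = gw ^ i * (2821 / ge) := by
  have h : (g ge) ^ 3 = (2821 / ge) ^ 3 := by
    rw [← map_pow, hge, ge_cube_inv]
    simp [map_ofNat, hg]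
  rcases cube_roots hgw h with h1 | h1 | h1
  · exact ⟨0, by rw [h1]; ring⟩
  · exact ⟨1, by rw [h1]; ring⟩
  · exact ⟨2, h1⟩

/-- the Galois group acts by translations on the conjugates -/
lemma gal_gu (g : GQ) : ∃ i : ℕ, ∀ j, g (gu j) = gu (j + i) := by
  have h3 := gw3
  have h0 := ge_ne
  rcases gal_gw g with hg | hg
  · obtain ⟨i, hi⟩ := gal_ge1 g hg
    refine ⟨i, fun j => ?_⟩
    unfold gu
    rw [map_add, map_mul, map_mul, map_pow, map_pow, map_div₀, hg, hi, map_ofNat]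
    have hwi : gw ^ i ≠ 0 := pow_ne_zero _ gw_ne
    have e : (2821 : Qbar) / (gw ^ i * ge) = gw ^ (2 * i) * (2821 / ge) := by
      have h4 : gw ^ (2 * i) * gw ^ i = 1 := by rw [← pow_add, show 2 * i + i = 3 * i by ring, pow_mul, h3, one_pow]
      field_simp
      linear_combination (-1 : Qbar) * h4
    rw [e]
    ring
  · obtain ⟨i, hi⟩ := gal_ge2 g hg
    refine ⟨2 * i, fun j => ?_⟩
    unfold gu
    rw [map_add, map_mul, map_mul, map_pow, map_pow, map_div₀, hg, hi, map_ofNat]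
    have hwi : gw ^ i ≠ 0 := pow_ne_zero _ gw_ne
    have h4 : gw ^ (2 * i) * gw ^ i = 1 := by
      rw [← pow_add, show 2 * i + i = 3 * i by ring, pow_mul, h3, one_pow]
    have e : (2821 : Qbar) / (gw ^ i * (2821 / ge)) = gw ^ (2 * i) * ge := by
      field_simp
      linear_combination (-1 : Qbar) * h4
    rw [e, ← pow_mul, ← pow_mul]
    have e1 : gw ^ (2 * (2 * j)) = gw ^ j := by
      rw [show 2 * (2 * j) = 3 * j + j by ring, pow_add, pow_mul, h3, one_pow, one_mul]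
    have e2 : gw ^ (2 * (j + 2 * i)) = gw ^ (2 * j) * gw ^ i := by
      rw [show 2 * (j + 2 * i) = 2 * j + (3 * i + i) by ring, pow_add, pow_add, pow_mul gw 3, h3,
        one_pow, one_mul]
    rw [e1, e2, pow_add]
    ring


lemma gu_prod_diff : (gu 0 - gu 1) * (gu 1 - gu 2) * (gu 2 - gu 0) = 914004 := by
  have h0 := ge_ne
  have h3 := gw3
  have hw := hgw
  have hc := ge_cube_inv
  have hg := hge
  unfold gu
  obtain ⟨z, hz⟩ : ∃ z, z = 2821 / ge := ⟨_, rfl⟩
  have hez : ge * z = 2821 := by rw [hz]; field_simp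
  rw [← hz] at hc ⊢
  clear hz
  grind

lemma gu_ne {i j : ℕ} (h : gu i = gu j) : i % 3 = j % 3 := by
  have h0 : gu 0 - gu 1 ≠ 0 := by
    intro h; have := gu_prod_diff; rw [h] at this; norm_num at this
  have h1 : gu 1 - gu 2 ≠ 0 := by
    intro h; have := gu_prod_diff; rw [h] at this; norm_num at this
  have h2 : gu 2 - gu 0 ≠ 0 := by
    intro h; have := gu_prod_diff; rw [h] at this; norm_num at this
  rw [gu_mod (i := i) (j := i % 3) (by omega), gu_mod (i := j) (j := j % 3) (by omega)] at h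
  have hi : i % 3 < 3 := Nat.mod_lt _ (by norm_num)
  have hj : j % 3 < 3 := Nat.mod_lt _ (by norm_num)
  obtain ⟨a, ha⟩ : ∃ a, a = i % 3 := ⟨_, rfl⟩
  obtain ⟨b, hb⟩ : ∃ b, b = j % 3 := ⟨_, rfl⟩
  rw [← ha, ← hb] at h ⊢
  rw [← ha] at hi
  rw [← hb] at hj
  interval_cases a <;> interval_cases b <;> first | rfl | (exfalso; first
    | exact h0 (sub_eq_zero.2 h) | exact h1 (sub_eq_zero.2 h) | exact h2 (sub_eq_zero.2 h)
    | exact h0 (sub_eq_zero.2 h.symm) | exact h1 (sub_eq_zero.2 h.symm)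
    | exact h2 (sub_eq_zero.2 h.symm))

/-- the cyclic cubic field -/
noncomputable def K : IntermediateField ℚ Qbar := IntermediateField.adjoin ℚ {gu 0}

lemma gu0_mem : gu 0 ∈ K := IntermediateField.mem_adjoin_simple_self ℚ _

lemma gu1_mem : gu 1 ∈ K := by
  have h0 := gu0_mem
  have hA : (3 * gu 0 ^ 2 - 8463 : Qbar) = (gu 0 - gu 1) * (gu 0 - gu 2) := by
    linear_combination (2 * gu 0 : Qbar) * gu_sum - gu_quad
  have hne : (3 * gu 0 ^ 2 - 8463 : Qbar) ≠ 0 := by
    rw [hA]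
    intro h
    have h1 := gu_prod_diff
    have h2 : (gu 0 - gu 1) * (gu 1 - gu 2) * (gu 2 - gu 0) = 0 := by
      linear_combination (-(gu 1 - gu 2)) * h
    rw [h2] at h1
    norm_num at h1
  have hX : 914004 / (3 * gu 0 ^ 2 - 8463) = -gu 0 - 2 * gu 1 := by
    rw [div_eq_iff hne, hA]
    linear_combination (gu 0 - gu 1) * (gu 0 - gu 2) * gu_sum - gu_prod_diff
  have e : gu 1 = (-gu 0 - 914004 / (3 * gu 0 ^ 2 - 8463)) / 2 := by
    rw [hX]; ring
  rw [e]
  have h2 : (2 : Qbar) ∈ K := by simp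
  have h3 : (3 : Qbar) ∈ K := by simp
  have h4 : (8463 : Qbar) ∈ K := by simp
  have h5 : (914004 : Qbar) ∈ K := by simp
  exact K.div_mem (K.sub_mem (K.neg_mem h0) (K.div_mem h5 (K.sub_mem (K.mul_mem h3
    (pow_mem h0 2)) h4))) h2

lemma gu_mem (i : ℕ) : gu i ∈ K := by
  rcases (show i % 3 = 0 ∨ i % 3 = 1 ∨ i % 3 = 2 by omega) with h | h | h
  · rw [gu_mod (i := i) (j := 0) (by omega)]; exact gu0_mem
  · rw [gu_mod (i := i) (j := 1) (by omega)]; exact gu1_mem
  · rw [gu_mod (i := i) (j := 2) (by omega)]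
    have e : gu 2 = -gu 0 - gu 1 := by linear_combination gu_sum
    rw [e]
    exact K.sub_mem (K.neg_mem gu0_mem) gu1_mem

lemma mem_fixing {g : GQ} : g ∈ K.fixingSubgroup ↔ g (gu 0) = gu 0 := by
  rw [IntermediateField.mem_fixingSubgroup_iff]
  constructor
  · intro h
    exact h _ gu0_mem
  · intro h x hx
    unfold K at hx
    induction hx using IntermediateField.adjoin_induction with
    | mem x hx =>
      rw [Set.mem_singleton_iff] at hx
      rw [hx, h]
    | algebraMap x => exact g.commutes x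
    | add x y _ _ h1 h2 => rw [map_add, h1, h2]
    | inv x _ h1 => rw [map_inv₀, h1]
    | mul x y _ _ h1 h2 => rw [map_mul, h1, h2]

/-- the subgroup -/
noncomputable abbrev NK : Subgroup GQ := K.fixingSubgroup

lemma NK_all {g : GQ} (hg : g ∈ NK) (j : ℕ) : g (gu j) = gu j := by
  obtain ⟨i, hi⟩ := gal_gu g
  have h0 := mem_fixing.1 hg
  rw [hi 0, zero_add] at h0
  have h1 := gu_ne h0
  rw [hi j]
  exact gu_mod (by omega)

lemma NK_normal (s n : GQ) (hn : n ∈ NK) : s * n * s⁻¹ ∈ NK := by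
  rw [mem_fixing, AlgEquiv.mul_apply, AlgEquiv.mul_apply]
  obtain ⟨i, hi⟩ := gal_gu s⁻¹
  rw [hi 0, NK_all hn, ← hi 0]
  exact s.apply_symm_apply _

lemma cube_mem (s : GQ) : s ^ 3 ∈ NK := by
  obtain ⟨i, hi⟩ := gal_gu s
  rw [mem_fixing, pow_succ, pow_succ, pow_one, AlgEquiv.mul_apply, AlgEquiv.mul_apply, hi, hi, hi]
  exact gu_mod (by omega)

lemma pow_gu (s : GQ) {i : ℕ} (hi : ∀ j, s (gu j) = gu (j + i)) (k j : ℕ) :
    (s ^ k) (gu j) = gu (j + k * i) := by
  induction k generalizing j with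
  | zero => simp
  | succ k ih => rw [pow_succ, AlgEquiv.mul_apply, hi, ih]; congr 1; ring

lemma exists_pow_mem {s : GQ} (hs : s ∉ NK) (g : GQ) : ∃ i : ℕ, g * (s ^ i)⁻¹ ∈ NK := by
  obtain ⟨a, ha⟩ := gal_gu s
  obtain ⟨b, hb⟩ := gal_gu g
  have ha3 : a % 3 ≠ 0 := by
    intro h
    apply hs
    rw [mem_fixing, ha]
    exact gu_mod (by omega)
  obtain ⟨k, hk⟩ : ∃ k, (k * a) % 3 = b % 3 := by
    rcases (show a % 3 = 1 ∨ a % 3 = 2 by omega) with h | h
    · exact ⟨b, by rw [Nat.mul_mod, h]; omega⟩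
    · exact ⟨2 * b, by rw [Nat.mul_mod, h]; omega⟩
  refine ⟨k, ?_⟩
  rw [mem_fixing, AlgEquiv.mul_apply]
  have h1 : (s ^ k)⁻¹ (gu b) = gu 0 := by
    have h2 : (s ^ k) (gu 0) = gu b := by
      rw [pow_gu s ha]
      exact gu_mod (by omega)
    rw [← h2]
    exact (s ^ k).symm_apply_apply _
  obtain ⟨c, hc⟩ := gal_gu (s ^ k)⁻¹
  have h3 : (b + c) % 3 = 0 % 3 := gu_ne (by rw [← hc, h1])
  rw [hc, hb]
  exact gu_mod (by omega)

lemma pow_mem_dvd {s : GQ} (hs : s ∉ NK) {i : ℕ} (hi : s ^ i ∈ NK) : 3 ∣ i := by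
  obtain ⟨a, ha⟩ := gal_gu s
  have ha3 : a % 3 ≠ 0 := by
    intro h
    apply hs
    rw [mem_fixing, ha]
    exact gu_mod (by omega)
  rw [mem_fixing, pow_gu s ha] at hi
  have h3 := gu_ne hi
  have h4 : 3 ∣ i * a := by omega
  rcases (Nat.prime_three.dvd_mul).1 h4 with h5 | h5
  · exact h5
  · omega

lemma mem_NK_iff_of_w {g : GQ} (hg : g gw = gw) : g ∈ NK ↔ g ge = ge := by
  obtain ⟨i, hi⟩ := gal_ge1 g hg
  constructor
  · intro h
    have h1 := NK_all h 0
    have h2 := NK_all h 1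
    unfold gu at h1 h2
    simp only [pow_zero, mul_zero, one_mul, mul_one, pow_one, map_add, map_mul, map_pow, hg] at h1 h2
    have h3 : (gw - gw ^ 2) * (g ge - ge) = 0 := by
      linear_combination h2 - gw ^ 2 * h1
    rcases mul_eq_zero.1 h3 with h4 | h4
    · exfalso
      have h5 : (gw - gw ^ 2) ^ 2 = -3 := by
        linear_combination (gw ^ 2 - 3 * gw + 3) * hgw
      rw [h4] at h5
      norm_num at h5
    · exact sub_eq_zero.1 h4
  · intro h
    rw [mem_fixing]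
    unfold gu
    simp only [pow_zero, mul_zero, one_mul, map_add, map_div₀, map_ofNat, h]

end Pool.Agent.W94.F3
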