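import Mathlib
import Pool.Agent.W94.F3.Local

/-!
# Totally ramified cubic extensions of `ℚ_p`
-/

set_option autoImplicit false
set_option linter.unusedSectionVars false

namespace Pool.Agent.W94.F3

variable {p : ℕ} [hp : Fact p.Prime]

/-- `ℚ_p(η)` is a totally ramified cyclic cubic extension -/
structure TotRam (p : ℕ) [hp : Fact p.Prime] (w η : Cp p) : Prop where
  h3 : p ≠ 3
  hw : w ^ 2 + w + 1 = 0
  wf : ∀ t : Gp p, t w = w
  ef : ∀ t : Gp p, t (η ^ 3) = η ^ 3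
  e : ∃ e : ℤ, ‖η‖ ^ 3 = (p : ℝ) ^ e ∧ ¬ (3 : ℤ) ∣ e

/-- `c` lies in `ℚ_p(η)` -/
def InF (η c : Cp p) : Prop := ∀ t : Gp p, t η = η → t c = c

lemma InF.add {η a b : Cp p} (ha : InF η a) (hb : InF η b) : InF η (a + b) := fun t ht => by
  rw [map_add, ha t ht, hb t ht]
lemma InF.sub {η a b : Cp p} (ha : InF η a) (hb : InF η b) : InF η (a - b) := fun t ht => by
  rw [map_sub, ha t ht, hb t ht]
lemma InF.mul {η a b : Cp p} (ha : InF η a) (hb : InF η b) : InF η (a * b) := fun t ht => by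
  rw [map_mul, ha t ht, hb t ht]
lemma InF.div {η a b : Cp p} (ha : InF η a) (hb : InF η b) : InF η (a / b) := fun t ht => by
  rw [map_div₀, ha t ht, hb t ht]
lemma InF.pow {η a : Cp p} (ha : InF η a) (n : ℕ) : InF η (a ^ n) := fun t ht => by
  rw [map_pow, ha t ht]
lemma InF.int {η : Cp p} (n : ℤ) : InF η (n : Cp p) := fun t _ => map_intCast t n
lemma InF.self {η : Cp p} : InF η η := fun _ ht => ht

lemma p_zpow_inj {a b : ℤ} (h : (p : ℝ) ^ a = (p : ℝ) ^ b) : a = b :=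
  zpow_right_injective₀ (by exact_mod_cast hp.1.pos) (by exact_mod_cast hp.1.one_lt.ne') h

namespace TotRam

variable {w η : Cp p} (H : TotRam p w η)

include H

lemma ne_zero : η ≠ 0 := by
  rintro rfl
  obtain ⟨e, he, -⟩ := H.e
  rw [norm_zero, zero_pow (by norm_num)] at he
  exact (zpow_ne_zero e (by exact_mod_cast hp.1.ne_zero : (p : ℝ) ≠ 0)) he.symm

lemma not_fixed : ¬ ∀ t : Gp p, t w = w → t η = η := by
  intro h
  have h' : ∀ t : Gp p, t η = η := fun t => h t (H.wf t)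
  obtain ⟨e, he, h3⟩ := H.e
  rcases PZ_of_fixed h' with ⟨n, hn⟩ | h0
  · rw [hn, ← zpow_natCast, ← zpow_mul] at he
    have := p_zpow_inj he
    exact h3 ⟨n, by rw [← this]; push_cast; ring⟩
  · exact H.ne_zero (norm_eq_zero.1 h0)

lemma sigma : ∃ s : Gp p, s η = w * η := by
  obtain ⟨s, -, hs⟩ := exists_sigma H.hw (fun t _ => H.ef t) H.not_fixed
  exact ⟨s, hs⟩

lemma rep {c : Cp p} (hc : InF η c) : ∃ d₀ d₁ d₂ : Cp p, (∀ t : Gp p, t d₀ = d₀) ∧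
    (∀ t : Gp p, t d₁ = d₁) ∧ (∀ t : Gp p, t d₂ = d₂) ∧ c = d₀ + d₁ * η + d₂ * η ^ 2 ∧
      ‖d₀‖ ≤ ‖c‖ ∧ ‖d₁ * η‖ ≤ ‖c‖ ∧ ‖d₂ * η ^ 2‖ ≤ ‖c‖ := by
  obtain ⟨s, hs⟩ := H.sigma
  obtain ⟨d₀, d₁, d₂, h0, h1, h2, he, hn⟩ := LR H.hw H.ne_zero (fun t _ => H.ef t) s (H.wf s) hs
    (fun t _ h => hc t h)
  exact ⟨d₀, d₁, d₂, fun t => h0 t (H.wf t), fun t => h1 t (H.wf t), fun t => h2 t (H.wf t), he,
    hn H.h3⟩

lemma norm_ne_one {d : Cp p} (hd : ∀ t : Gp p, t d = d) {j : ℕ} (hj : ¬ 3 ∣ j) {n : ℤ} :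
    ‖d * η ^ j‖ ≠ (p : ℝ) ^ n := by
  intro h
  have hp0 : (p : ℝ) ≠ 0 := by exact_mod_cast hp.1.ne_zero
  obtain ⟨e, he, h3⟩ := H.e
  rcases PZ_of_fixed hd with ⟨m, hm⟩ | h0
  · rw [norm_mul, norm_pow, hm] at h
    have h4 : ((p : ℝ) ^ m * ‖η‖ ^ j) ^ 3 = ((p : ℝ) ^ n) ^ 3 := by rw [h]
    rw [mul_pow, ← pow_mul, mul_comm j 3, pow_mul, he, ← zpow_natCast, ← zpow_natCast,
      ← zpow_natCast, ← zpow_mul, ← zpow_mul, ← zpow_mul, ← zpow_add₀ hp0] at h4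
    have h5 := p_zpow_inj h4
    push_cast at h5
    have h6 : (3 : ℤ) ∣ e * j := ⟨n - m, by linarith⟩
    rcases (Int.prime_three.dvd_or_dvd h6) with h7 | h7
    · exact h3 h7
    · exact hj (by exact_mod_cast h7)
  · rw [norm_mul, h0, zero_mul] at h
    exact (zpow_ne_zero n hp0) h.symm

lemma residue {c : Cp p} (hc : InF η c) (h1 : ‖c‖ ≤ 1) : ∃ n : ℤ, ‖c - n‖ < 1 := by
  obtain ⟨d₀, d₁, d₂, f0, f1, f2, he, n0, n1, n2⟩ := H.rep hc
  obtain ⟨n, hn⟩ := residue_fixed f0 (n0.trans h1)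
  refine ⟨n, ?_⟩
  have e : c - n = (d₀ - n) + (d₁ * η + d₂ * η ^ 2) := by rw [he]; ring
  rw [e]
  refine norm_add_lt hn (norm_add_lt ?_ ?_)
  · refine lt_of_le_of_ne (n1.trans h1) ?_
    have := H.norm_ne_one f1 (j := 1) (by norm_num) (n := 0)
    rwa [pow_one, zpow_zero] at this
  · refine lt_of_le_of_ne (n2.trans h1) ?_
    have := H.norm_ne_one f2 (j := 2) (by norm_num) (n := 0)
    rwa [zpow_zero] at this

/-- normalisation to norm one -/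
lemma norm_form {c : Cp p} (hc : InF η c) (h0 : c ≠ 0) :
    ∃ (k : ℕ) (m : ℤ), k < 3 ∧ ‖c‖ = ‖η‖ ^ k * (p : ℝ) ^ m := by
  obtain ⟨d₀, d₁, d₂, f0, f1, f2, he, n0, n1, n2⟩ := H.rep hc
  have h := norm_three_le he n0 n1 n2
  have hc0 : ‖c‖ ≠ 0 := norm_ne_zero_iff.2 h0
  rcases max_cases (max ‖d₀‖ ‖d₁ * η‖) ‖d₂ * η ^ 2‖ with ⟨h1, -⟩ | ⟨h1, -⟩
  · rw [h1] at h
    rcases max_cases ‖d₀‖ ‖d₁ * η‖ with ⟨h2, -⟩ | ⟨h2, -⟩
    · rw [h2] at h
      rcases PZ_of_fixed f0 with ⟨m, hm⟩ | h3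
      · exact ⟨0, m, by norm_num, by rw [h, hm, pow_zero, one_mul]⟩
      · exact absurd (h.trans h3) hc0
    · rw [h2] at h
      rcases PZ_of_fixed f1 with ⟨m, hm⟩ | h3
      · exact ⟨1, m, by norm_num, by rw [h, norm_mul, hm, pow_one, mul_comm]⟩
      · rw [norm_mul, h3, zero_mul] at h
        exact absurd h hc0
  · rw [h1] at h
    rcases PZ_of_fixed f2 with ⟨m, hm⟩ | h3
    · exact ⟨2, m, by norm_num, by rw [h, norm_mul, norm_pow, hm, mul_comm]⟩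
    · rw [norm_mul, h3, zero_mul] at h
      exact absurd h hc0

/-- eigenvectors -/
lemma eigen {c : Cp p} (hc : InF η c) (s : Gp p) (hs : s η = w * η) (j : ℕ)
    (hj : s c = w ^ j * c) : ∃ d : Cp p, (∀ t : Gp p, t d = d) ∧ c = d * η ^ j := by
  have h0 := H.ne_zero
  have hw0 : w ≠ 0 := by
    rintro rfl
    have := H.hw
    norm_num at this
  refine ⟨c / η ^ j, ?_, by field_simp⟩
  have hsi : ∀ i : ℕ, (s ^ i) η = w ^ i * η := by
    intro i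
    induction i with
    | zero => rw [pow_zero, pow_zero, one_mul]; rfl
    | succ i ih => rw [pow_succ, AlgEquiv.mul_apply, hs, map_mul, H.wf, ih, pow_succ]; ring
  have hsc : ∀ i : ℕ, (s ^ i) c = (w ^ j) ^ i * c := by
    intro i
    induction i with
    | zero => rw [pow_zero, pow_zero, one_mul]; rfl
    | succ i ih => rw [pow_succ, AlgEquiv.mul_apply, hj, map_mul, map_pow, H.wf, ih, pow_succ]; ring
  intro t
  have key : ∀ i : ℕ, t η = w ^ i * η → t (c / η ^ j) = c / η ^ j := by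
    intro i hi
    have h1 : ((s ^ i)⁻¹ * t) c = c := by
      apply hc
      rw [AlgEquiv.mul_apply, hi, ← hsi i]
      exact (s ^ i).symm_apply_apply η
    have h2 : t c = (w ^ j) ^ i * c := by
      rw [← hsc i]
      rw [AlgEquiv.mul_apply] at h1
      calc t c = (s ^ i) ((s ^ i)⁻¹ (t c)) := ((s ^ i).apply_symm_apply _).symm
        _ = (s ^ i) c := by rw [h1]
    rw [map_div₀, map_pow, h2, hi, mul_pow, ← pow_mul, ← pow_mul, mul_comm i j,
      mul_div_mul_left _ _ (pow_ne_zero _ hw0)]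
  have h3 : (t η) ^ 3 = η ^ 3 := by rw [← map_pow, H.ef]
  rcases cube_eq_iff H.hw h3 with h | h | h
  · exact key 0 (by rw [h, pow_zero, one_mul])
  · exact key 1 (by rw [h, pow_one])
  · exact key 2 h

/-- a criterion for cubes -/
lemma cube_of_near {c : Cp p} (hc : InF η c) (n : ℤ) (hn : ¬ (p : ℤ) ∣ n)
    (h : ‖c - (n : Cp p) ^ 3‖ < 1) : ∃ r, InF η r ∧ r ^ 3 = c := by
  have hn1 := norm_int_eq_one hn
  have hn0 : (n : Cp p) ≠ 0 := by
    intro h0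
    rw [h0, norm_zero] at hn1
    exact zero_ne_one hn1
  have h1 : ‖c / (n : Cp p) ^ 3 - 1‖ < 1 := by
    have e : c / (n : Cp p) ^ 3 - 1 = (c - (n : Cp p) ^ 3) / (n : Cp p) ^ 3 := by field_simp
    rw [e, norm_div, norm_pow, hn1, one_pow, div_one]
    exact h
  obtain ⟨r, hr, -, hrf⟩ := cube_root_near H.h3 H.hw h1
  refine ⟨r * n, ?_, ?_⟩
  · intro t ht
    rw [map_mul, map_intCast, hrf t]
    rw [map_div₀, map_pow, map_intCast, hc t ht]
  · rw [mul_pow, hr]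
    field_simp

end TotRam

end Pool.Agent.W94.F3
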