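import Mathlib
import Pool.Agent.W94.F3.TotRam
import Pool.Agent.W94.F3.Maps

/-!
# Local lemmas for the curve
-/

set_option autoImplicit false
set_option linter.unusedSectionVars false

namespace Pool.Agent.W94.F3

open scoped Classical

instance fact7 : Fact (Nat.Prime 7) := ⟨by norm_num⟩
instance fact13 : Fact (Nat.Prime 13) := ⟨by norm_num⟩
instance fact31 : Fact (Nat.Prime 31) := ⟨by norm_num⟩

variable {p : ℕ} [hp : Fact p.Prime]

/-- the local Galois action on points -/
noncomputable def lact (t : Gp p) : Pt (Cp p) →+ Pt (Cp p) := pm (t.toAlgHom.restrictScalars ℚ)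

lemma lact_P3 (t : Gp p) : lact t P3 = P3 := pm_P3 _
lemma lact_T2 (t : Gp p) : lact t T2 = T2 := pm_T2 _
lemma lact_HP (t : Gp p) (R : Pt (Cp p)) : HP (lact t R) = t (HP R) := HP_pm _ R
lemma lact_HM (t : Gp p) (R : Pt (Cp p)) : HM (lact t R) = t (HM R) := HM_pm _ R
lemma lact_mul (s t : Gp p) (R : Pt (Cp p)) : lact (s * t) R = lact s (lact t R) := by
  unfold lact
  rw [pm_comp]
  rfl
lemma lact_one (R : Pt (Cp p)) : lact (1 : Gp p) R = R := by
  rcases exists_pt R with rfl | ⟨x, y, h, rfl⟩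
  · exact map_zero _
  · rfl
lemma lact_pt (t : Gp p) {x y : Cp p} (h : OnE x y) :
    ∃ h', lact t (pt x y h) = pt (t x) (t y) h' :=
  ⟨onE_map (t.toAlgHom.restrictScalars ℚ) h, rfl⟩
lemma lact_Q (t : Gp p) {w A B : Cp p} (hw : w ^ 2 + w + 1 = 0) (ht : t w = w) (h : Rel A B) :
    ∃ h', lact t (Q w A B hw h) = Q w (t A) (t B) hw h' := by
  have hr : Rel (t A) (t B) := rel_map (t.toAlgHom.restrictScalars ℚ) h
  refine ⟨hr, ?_⟩
  have e := pm_Q (t.toAlgHom.restrictScalars ℚ) hw h
  have e2 : ∀ (w' : Cp p) (hw' : w' ^ 2 + w' + 1 = 0), w' = w →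
      Q w' (t A) (t B) hw' hr = Q w (t A) (t B) hw hr := by
    rintro w' hw' rfl
    rfl
  exact e.trans (e2 _ _ ht)

/-- norms of `HP` and of the parameters -/
lemma norm_PZ {a b e k : Cp p} (h : a ^ 3 + b ^ 3 = e * (a * b) - k) (he : ‖e‖ ≤ 1)
    (hk : ‖k‖ = 1) (ha : a ≠ 0) (hA : PZ p ‖a ^ 3‖ ∨ ‖a ^ 3‖ = 0)
    (hM : PZ p ‖a * b‖ ∨ ‖a * b‖ = 0) : PZ p ‖a‖ := by
  have hpos : 0 < ‖a‖ := norm_pos_iff.2 ha
  rcases VL h (by ring : a ^ 3 * b ^ 3 = (a * b) ^ 3) he hk with h1 | h1 | h1
  · have : ‖a‖ = 1 := by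
      rw [norm_pow] at h1
      exact (pow_eq_one_iff_of_nonneg (norm_nonneg _) (by norm_num)).1 h1
    rw [this]
    exact PZ.one
  · rw [norm_pow] at h1
    have : ‖a‖ = ‖a * b‖ := (pow_left_inj₀ (norm_nonneg _) (norm_nonneg _) (by norm_num)).1 h1
    rw [← this] at hM
    rcases hM with h2 | h2
    · exact h2
    · exact absurd h2 hpos.ne'
  · have h2 : ‖a ^ 3‖ ≠ 0 := by
      rw [norm_pow]
      positivity
    have hA' := hA.resolve_right h2
    rcases hM with h3 | h3
    · have e1 : ‖a‖ = ‖a ^ 3‖ / ‖a * b‖ := by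
        rw [eq_div_iff (by
          obtain ⟨n, hn⟩ := h3
          rw [hn]
          exact zpow_ne_zero _ (by exact_mod_cast hp.1.ne_zero))]
        rw [norm_pow, ← pow_mul] at h1
        have h4 : ‖a * b‖ = ‖a‖ ^ 2 := by
          have h5 : (‖a‖ ^ 2) ^ 3 = ‖a * b‖ ^ 3 := by rw [← pow_mul]; exact h1
          exact ((pow_left_inj₀ (by positivity) (norm_nonneg _) (by norm_num)).1 h5).symm
        rw [h4, norm_pow]
        ring
      rw [e1]
      exact hA'.div h3
    · rw [h3] at h1
      exfalso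
      rw [norm_pow] at h1
      have : 0 < (‖a‖ ^ 3) ^ 2 := by positivity
      rw [h1] at this
      norm_num at this

/-- cubes in `ℚ_7(η)` -/
lemma L7 {w η : Cp 7} (H : TotRam 7 w η) {a b M : Cp 7} (ha : InF η a) (hb : InF η b)
    (hM : InF η M) (h1 : a + b = 10 * M - 288) (h2 : a * b = M ^ 3) (h0 : a ≠ 0) :
    ∃ r, InF η r ∧ r ^ 3 = a := by
  have hk : ‖(288 : Cp 7)‖ = 1 := by
    have := norm_int_eq_one (p := 7) (n := 288) (by norm_num)
    exact_mod_cast this
  have he : ‖(10 : Cp 7)‖ ≤ 1 := by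
    have := norm_int_le (p := 7) 10
    exact_mod_cast this
  have h289 : ‖(287 : Cp 7)‖ < 1 := by
    have := (norm_int_lt_iff (p := 7) 287).2 (by norm_num)
    exact_mod_cast this
  have hn : ‖a‖ * ‖b‖ = ‖M‖ ^ 3 := by rw [← norm_mul, h2, norm_pow]
  have heM : ‖10 * M‖ ≤ ‖M‖ := by
    rw [norm_mul]
    exact mul_le_of_le_one_left (norm_nonneg _) he
  have hapos : 0 < ‖a‖ := norm_pos_iff.2 h0
  -- if `b` is a small and `M` small then `a` is close to `-1`
  have near : ∀ a b : Cp 7, InF η a → a + b = 10 * M - 288 → ‖b‖ < 1 → ‖M‖ < 1 →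
      ∃ r, InF η r ∧ r ^ 3 = a := by
    intro a b ha h1 hb hM
    refine H.cube_of_near ha (-1) (by norm_num) ?_
    have e : a - ((-1 : ℤ) : Cp 7) ^ 3 = 10 * M - 287 - b := by
      push_cast
      linear_combination h1
    rw [e]
    exact norm_sub_lt (norm_sub_lt (lt_of_le_of_lt heM hM) h289) hb
  have hunit : ‖a‖ = 1 → ∃ r, InF η r ∧ r ^ 3 = a := by
    intro ha1
    rw [ha1, one_mul] at hn
    rcases lt_trichotomy ‖M‖ 1 with hM1 | hM1 | hM1
    · have hb1 : ‖b‖ < 1 := by
        rw [hn]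
        exact pow_lt_one₀ (norm_nonneg _) hM1 (by norm_num)
      exact near a b ha h1 hb1 hM1
    · rw [hM1, one_pow] at hn
      obtain ⟨α, hα⟩ := H.residue ha ha1.le
      obtain ⟨β, hβ⟩ := H.residue hb hn.le
      obtain ⟨μ, hμ⟩ := H.residue hM hM1.le
      have c1 : ‖((α + β - 10 * μ + 288 : ℤ) : Cp 7)‖ < 1 := by
        have e : ((α + β - 10 * μ + 288 : ℤ) : Cp 7) = 10 * (M - μ) - (a - α) - (b - β) := by
          push_cast
          linear_combination h1
        rw [e]
        refine norm_sub_lt (norm_sub_lt ?_ hα) hβ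
        rw [norm_mul]
        exact lt_of_le_of_lt (mul_le_of_le_one_left (norm_nonneg _) he) hμ
      have c2 : ‖((α * β - μ ^ 3 : ℤ) : Cp 7)‖ < 1 := by
        have e : ((α * β - μ ^ 3 : ℤ) : Cp 7) = (M - μ) * (M ^ 2 + M * μ + μ ^ 2) -
            (a - α) * b - (b - β) * α := by
          push_cast
          linear_combination h2
        rw [e]
        have hμ' : ‖(μ : Cp 7)‖ ≤ 1 := norm_int_le μ
        have hα' : ‖(α : Cp 7)‖ ≤ 1 := norm_int_le α
        refine norm_sub_lt (norm_sub_lt ?_ ?_) ?_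
        · rw [norm_mul]
          refine lt_of_le_of_lt (mul_le_of_le_one_right (norm_nonneg _) ?_) hμ
          refine norm_add_le' (norm_add_le' ?_ ?_) ?_
          · rw [norm_pow, hM1, one_pow]
          · rw [norm_mul, hM1, one_mul]
            exact hμ'
          · rw [norm_pow]
            exact pow_le_one₀ (norm_nonneg _) hμ'
        · rw [norm_mul, hn, mul_one]
          exact hα
        · rw [norm_mul]
          exact lt_of_le_of_lt (mul_le_of_le_one_right (norm_nonneg _) hα') hβ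
      have c3 : ¬ (7 : ℤ) ∣ α := by
        intro h7
        have h8 := (norm_int_lt_iff (p := 7) α).2 h7
        have : ‖a‖ < 1 := by
          have e : a = (a - α) + α := by ring
          rw [e]
          exact norm_add_lt hα h8
        rw [ha1] at this
        exact lt_irrefl _ this
      rw [norm_int_lt_iff] at c1 c2
      have key : ∀ α β μ : ZMod 7, α + β - 10 * μ + 288 = 0 → α * β - μ ^ 3 = 0 → α ≠ 0 →
          α = 1 ∨ α = -1 := by decide
      have k1 : ((α + β - 10 * μ + 288 : ℤ) : ZMod 7) = 0 :=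
        (ZMod.intCast_zmod_eq_zero_iff_dvd _ 7).2 (by exact_mod_cast c1)
      have k2 : ((α * β - μ ^ 3 : ℤ) : ZMod 7) = 0 :=
        (ZMod.intCast_zmod_eq_zero_iff_dvd _ 7).2 (by exact_mod_cast c2)
      have k3 : ((α : ℤ) : ZMod 7) ≠ 0 := by
        intro h
        exact c3 (by exact_mod_cast (ZMod.intCast_zmod_eq_zero_iff_dvd _ 7).1 h)
      push_cast at k1 k2
      rcases key _ _ _ k1 k2 k3 with h | h
      · refine H.cube_of_near ha 1 (by norm_num) ?_
        have h9 : (7 : ℤ) ∣ α - 1 := by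
          have : ((α - 1 : ℤ) : ZMod 7) = 0 := by push_cast; rw [h]; ring
          exact_mod_cast (ZMod.intCast_zmod_eq_zero_iff_dvd _ 7).1 this
        have h10 := (norm_int_lt_iff (p := 7) (α - 1)).2 h9
        have e : a - ((1 : ℤ) : Cp 7) ^ 3 = (a - α) + ((α - 1 : ℤ) : Cp 7) := by
          push_cast; ring
        rw [e]
        exact norm_add_lt hα h10
      · refine H.cube_of_near ha (-1) (by norm_num) ?_
        have h9 : (7 : ℤ) ∣ α + 1 := by
          have : ((α + 1 : ℤ) : ZMod 7) = 0 := by push_cast; rw [h]; ring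
          exact_mod_cast (ZMod.intCast_zmod_eq_zero_iff_dvd _ 7).1 this
        have h10 := (norm_int_lt_iff (p := 7) (α + 1)).2 h9
        have e : a - ((-1 : ℤ) : Cp 7) ^ 3 = (a - α) + ((α + 1 : ℤ) : Cp 7) := by
          push_cast; ring
        rw [e]
        exact norm_add_lt hα h10
    · exfalso
      have hb1 : ‖b‖ ≤ ‖M‖ := by
        have e : b = 10 * M - 288 - a := by linear_combination h1
        rw [e]
        exact norm_sub_le' (norm_sub_le' heM (by rw [hk]; exact hM1.le)) (by rw [ha1]; exact hM1.le)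
      rw [hn] at hb1
      nlinarith [sq_nonneg (‖M‖ - 1)]
  rcases VL h1 h2 he hk with h | h | h
  · exact hunit h
  · have hM0 : M ≠ 0 := by
      rintro rfl
      rw [norm_zero, zero_pow (by norm_num)] at h
      exact hapos.ne' h
    have hb1 : ‖b‖ = 1 := by
      rw [← h] at hn
      exact mul_left_cancel₀ hapos.ne' (by rw [hn, mul_one])
    rcases lt_trichotomy ‖a‖ 1 with ha1 | ha1 | ha1
    · have hM1 : ‖M‖ < 1 := by
        by_contra hM1
        push Not at hM1
        have : (1 : ℝ) ≤ ‖M‖ ^ 3 := one_le_pow₀ hM1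
        linarith
      obtain ⟨r, hr, hrb⟩ := near b a hb (by rw [add_comm]; exact h1) ha1 hM1
      have hb0 : b ≠ 0 := by
        intro h'
        rw [h', norm_zero] at hb1
        exact zero_ne_one hb1
      refine ⟨M / r, hM.div hr, ?_⟩
      rw [div_pow, hrb, ← h2]
      field_simp
    · exact hunit ha1
    · exfalso
      have hM1 : 1 < ‖M‖ := by
        by_contra hM1
        push Not at hM1
        have : ‖M‖ ^ 3 ≤ 1 := pow_le_one₀ (norm_nonneg _) hM1
        linarith
      have hlt : ‖M‖ < ‖a‖ := by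
        rw [h]
        nlinarith [sq_nonneg (‖M‖ - 1)]
      have e : a = 10 * M - 288 - b := by linear_combination h1
      have : ‖a‖ ≤ ‖M‖ := by
        rw [e]
        exact norm_sub_le' (norm_sub_le' heM (by rw [hk]; exact hM1.le)) (by rw [hb1]; exact hM1.le)
      linarith
  · have hab : ‖a‖ = ‖b‖ := by
      rw [← h, sq] at hn
      exact (mul_left_cancel₀ hapos.ne' hn).symm
    rcases lt_trichotomy ‖a‖ 1 with ha1 | ha1 | ha1
    · exfalso
      have hM1 : ‖M‖ < 1 := by
        by_contra hM1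
        push Not at hM1
        have : (1 : ℝ) ≤ ‖M‖ ^ 3 := one_le_pow₀ hM1
        nlinarith
      have e : (288 : Cp 7) = 10 * M - a - b := by linear_combination h1
      have : ‖(288 : Cp 7)‖ < 1 := by
        rw [e]
        exact norm_sub_lt (norm_sub_lt (lt_of_le_of_lt heM hM1) ha1) (by rw [← hab]; exact ha1)
      rw [hk] at this
      exact lt_irrefl _ this
    · exact hunit ha1
    · have hMa : ‖M‖ < ‖a‖ := by
        by_contra hMa
        push Not at hMa
        have h5 : ‖a‖ ^ 3 ≤ ‖M‖ ^ 3 := pow_le_pow_left₀ (norm_nonneg _) hMa 3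
        rw [← h] at h5
        nlinarith [pow_pos hapos 2]
      have hq : ‖-(b / a) - ((1 : ℤ) : Cp 7) ^ 3‖ < 1 := by
        have e : -(b / a) - ((1 : ℤ) : Cp 7) ^ 3 = -((10 * M - 288) / a) := by
          rw [← h1]
          push_cast
          field_simp
          ring
        rw [e, norm_neg, norm_div, div_lt_one hapos]
        exact norm_sub_lt (lt_of_le_of_lt heM hMa) (by rw [hk]; exact ha1)
      obtain ⟨r, hr, hr3⟩ := H.cube_of_near (c := -(b / a)) (by
        intro t ht
        rw [map_neg, map_div₀, ha t ht, hb t ht]) 1 (by norm_num) hq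
      have hb0 : b ≠ 0 := by
        intro h'
        rw [h', norm_zero] at hab
        exact hapos.ne' hab
      have hr0 : r ≠ 0 := by
        rintro rfl
        have : b / a = 0 := by linear_combination hr3
        rcases div_eq_zero_iff.1 this with h' | h'
        · exact hb0 h'
        · exact h0 h'
      refine ⟨(M / r) ^ 2 / a, ((hM.div hr).pow 2).div ha, ?_⟩
      rw [div_pow, ← pow_mul, mul_comm 2 3, pow_mul, div_pow, ← h2, hr3]
      field_simp

end Pool.Agent.W94.F3
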