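import Mathlib
import Pool.Agent.W94.F3.Local2

/-!
# Local lemmas for the curve, continued
-/

set_option autoImplicit false
set_option linter.unusedSectionVars false

namespace Pool.Agent.W94.F3

open scoped Classical

variable {p : ℕ} [hp : Fact p.Prime]

/-- the point of order three is not of the form `s Z - Z` with `Z` over a totally ramified cubic
extension -/
lemma L13 {w η : Cp p} (H : TotRam p w η) (h847 : ¬ (p : ℤ) ∣ 847) (s : Gp p) (hs : s η = w * η)
    (Z : Pt (Cp p)) (hZ : ∀ t : Gp p, t η = η → lact t Z = Z) :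
    lact s Z ≠ Z + P3 ∧ lact s Z ≠ Z + P3 + P3 := by
  have hw := H.hw
  have hw3 : w ^ 3 = 1 := by linear_combination (w - 1) * hw
  have key : ∀ Z : Pt (Cp p), 3 • Z ≠ 0 → (∀ t : Gp p, t η = η → lact t Z = Z) →
      ∀ i j : ℕ, ¬ 3 ∣ i → ¬ 3 ∣ j → (∀ A B : Cp p, ∀ h : Rel A B, Z = Q w A B hw h →
      lact s Z = Z + P3 ∨ lact s Z = Z + P3 + P3 → s A = w ^ i * A ∧ s B = w ^ j * B) →
      ¬ (lact s Z = Z + P3 ∨ lact s Z = Z + P3 + P3) := by
    intro Z h3 hZ i j hi hj hs' hcon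
    obtain ⟨A, B, h, hA, hB, hQ⟩ := exists_Q hw h3
    have hAF : InF η A := by
      intro t ht
      obtain ⟨h', e⟩ := lact_Q t hw (H.wf t) h
      rw [← hQ, hZ t ht, hQ, Q_inj] at e
      exact e.1.symm
    have hBF : InF η B := by
      intro t ht
      obtain ⟨h', e⟩ := lact_Q t hw (H.wf t) h
      rw [← hQ, hZ t ht, hQ, Q_inj] at e
      exact e.2.symm
    obtain ⟨hsA, hsB⟩ := hs' A B h hQ hcon
    obtain ⟨d, hd, hdA⟩ := H.eigen hAF s hs i hsA
    obtain ⟨d', hd', hdB⟩ := H.eigen hBF s hs j hsB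
    have nA : ∀ n : ℤ, ‖A‖ ≠ (p : ℝ) ^ n := by
      intro n
      rw [hdA]
      exact H.norm_ne_one hd hi
    have nB : ∀ n : ℤ, ‖B‖ ≠ (p : ℝ) ^ n := by
      intro n
      rw [hdB]
      exact H.norm_ne_one hd' hj
    have hk : ‖(-847 : Cp p)‖ = 1 := by
      have := norm_int_eq_one (p := p) (n := -847) (by rwa [Int.dvd_neg])
      exact_mod_cast this
    have he : ‖(15 : Cp p)‖ ≤ 1 := by
      have := norm_int_le (p := p) 15
      exact_mod_cast this
    have hA' : 0 < ‖A‖ := norm_pos_iff.2 hA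
    have hB' : 0 < ‖B‖ := norm_pos_iff.2 hB
    have hrel : A ^ 3 + B ^ 3 = 15 * (A * B) - (-847) := by
      unfold Rel at h
      linear_combination h
    have one_of : ∀ x : Cp p, ‖x‖ ^ 3 = 1 → ‖x‖ = (p : ℝ) ^ (0 : ℤ) := by
      intro x hx
      rw [zpow_zero]
      exact (pow_eq_one_iff_of_nonneg (norm_nonneg _) (by norm_num)).1 hx
    rcases VL hrel (by ring : A ^ 3 * B ^ 3 = (A * B) ^ 3) he hk with h1 | h1 | h1
    · rw [norm_pow] at h1
      exact nA 0 (one_of A h1)
    · rw [norm_pow, norm_mul, mul_pow] at h1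
      have h2 : ‖B‖ ^ 3 = 1 := by
        have h3 : 0 < ‖A‖ ^ 3 := by positivity
        have := mul_left_cancel₀ h3.ne' (by rw [mul_one]; exact h1.symm : ‖A‖ ^ 3 * ‖B‖ ^ 3 = ‖A‖ ^ 3 * 1)
        exact this
      exact nB 0 (one_of B h2)
    · rw [norm_pow, norm_mul, mul_pow, sq] at h1
      have h3 : 0 < ‖A‖ ^ 3 := by positivity
      have h2 : ‖A‖ ^ 3 = ‖B‖ ^ 3 := mul_left_cancel₀ h3.ne' h1
      have h4 : ‖A‖ = ‖B‖ := (pow_left_inj₀ (norm_nonneg _) (norm_nonneg _) (by norm_num)).1 h2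
      -- `‖A‖ = ‖B‖`, the relation for the valuations
      have hAB : 15 * (A * B) = A ^ 3 + B ^ 3 - 847 := by linear_combination -hrel
      have hd2 : ∀ t : Gp p, t (d ^ 2) = d ^ 2 := fun t => by rw [map_pow, hd]
      have hi2 : ¬ 3 ∣ i * 2 := by
        intro h5
        rcases (Nat.prime_three.dvd_mul).1 h5 with h6 | h6
        · exact hi h6
        · norm_num at h6
      have h5 : ‖A ^ 2‖ = ‖A * B‖ := by rw [norm_pow, norm_mul, ← h4, sq]
      -- `A * B` is fixed by everything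
      have hABf : s (A * B) = w ^ (i + j) * (A * B) := by
        rw [map_mul, hsA, hsB]; ring
      by_cases hij : 3 ∣ i + j
      · obtain ⟨k, hk'⟩ := hij
        have hABf' : s (A * B) = w ^ 0 * (A * B) := by
          rw [hABf, hk', pow_mul, hw3, one_pow, pow_zero]
        obtain ⟨d'', hd'', e''⟩ := H.eigen (hAF.mul hBF) s hs 0 hABf'
        rw [pow_zero, mul_one] at e''
        rcases PZ_of_fixed hd'' with ⟨n, hn⟩ | hn
        · rw [e'', hn, hdA, mul_pow, ← pow_mul] at h5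
          exact H.norm_ne_one hd2 hi2 h5
        · rw [← e'', norm_mul] at hn
          have : 0 < ‖A‖ * ‖B‖ := by positivity
          exact this.ne' hn
      · -- then `i = j` modulo three and this is impossible because `s` fixes the relation
        have h7 : s (A ^ 3 + B ^ 3 - 847) = A ^ 3 + B ^ 3 - 847 := by
          rw [map_sub, map_add, map_pow, map_pow, hsA, hsB, map_ofNat, mul_pow, mul_pow, ← pow_mul,
            ← pow_mul, mul_comm i 3, mul_comm j 3, pow_mul, pow_mul, hw3, one_pow, one_pow,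
            one_mul, one_mul]
        rw [← hAB, map_mul, map_ofNat, hABf] at h7
        have h15 : (15 : Cp p) ≠ 0 := by norm_num
        have h8 : w ^ (i + j) = 1 := by
          have h9 := mul_left_cancel₀ h15 h7
          have h10 : (w ^ (i + j) - 1) * (A * B) = 0 := by linear_combination h9
          rcases mul_eq_zero.1 h10 with h11 | h11
          · exact sub_eq_zero.1 h11
          · exact absurd h11 (mul_ne_zero hA hB)
        exact hij (w_pow_eq_one hw h8)
  have hP : lact s P3 = P3 := lact_P3 s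
  have aux : ∀ Z : Pt (Cp p), 3 • Z ≠ 0 → (∀ t : Gp p, t η = η → lact t Z = Z) →
      lact s Z ≠ Z + P3 ∧ lact s Z ≠ Z + P3 + P3 := by
    intro Z h3 hZ
    constructor
    · intro hc
      refine key Z h3 hZ 1 2 (by norm_num) (by norm_num) ?_ (Or.inl hc)
      intro A B h hQ _
      obtain ⟨h', e⟩ := lact_Q s hw (H.wf s) h
      rw [← hQ, hc, hQ, Q_add_P, Q_inj] at e
      exact ⟨by rw [pow_one]; exact e.1.symm, e.2.symm⟩
    · intro hc
      refine key Z h3 hZ 2 1 (by norm_num) (by norm_num) ?_ (Or.inr hc)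
      intro A B h hQ _
      obtain ⟨h', e⟩ := lact_Q s hw (H.wf s) h
      rw [← hQ, hc, hQ, Q_add_P, Q_add_P, Q_inj] at e
      refine ⟨?_, ?_⟩
      · rw [← e.1]; ring
      · rw [← e.2]; linear_combination (w * B) * hw3
  by_cases h3 : 3 • Z = 0
  · have h3' : 3 • (Z + T2) ≠ 0 := by
      rw [nsmul_add, h3, zero_add]
      exact three_T2_ne
    have hZ' : ∀ t : Gp p, t η = η → lact t (Z + T2) = Z + T2 := by
      intro t ht
      rw [map_add, hZ t ht, lact_T2]
    have := aux (Z + T2) h3' hZ'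
    rw [map_add, lact_T2] at this
    constructor
    · intro h
      apply this.1
      rw [h]; abel
    · intro h
      apply this.2
      rw [h]; abel
  · exact aux Z h3 hZ


/-- the norms of `5 + w ^ i A + w ^ (2 i) B` -/
lemma x_sub (w A B : Cp p) (hw : w ^ 2 + w + 1 = 0) (h : Rel A B) :
    ‖QX w A B - 16‖ * ‖5 + w * A + w ^ 2 * B‖ = ‖(432 : Cp p)‖ := by
  rw [QX_sub hw h, norm_div, norm_neg]
  have := norm_ne_zero_iff.2 (rel_D hw h)
  field_simp

/-- at the primes dividing `6` the point of order three is not of the form `t R - R` -/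
lemma L23 (hp23 : p = 2 ∨ p = 3) {w : Cp p} (hw : w ^ 2 + w + 1 = 0) (t : Gp p) (R : Pt (Cp p)) :
    lact t R ≠ R + P3 := by
  have hw3 : w ^ 3 = 1 := by linear_combination (w - 1) * hw
  have aux : ∀ R : Pt (Cp p), 3 • R ≠ 0 → lact t R ≠ R + P3 := by
    intro R h3 hc
    obtain ⟨A, B, h, hA, hB, rfl⟩ := exists_Q hw h3
    have hr1 := rel_rot hw h
    have hr2 := rel_rot hw hr1
    have e1 : lact t (Q w A B hw h) = Q w (w * A) (w ^ 2 * B) hw hr1 := by rw [hc, Q_add_P]
    have e2 : lact (t * t) (Q w A B hw h) = Q w (w * (w * A)) (w ^ 2 * (w ^ 2 * B)) hw hr2 := by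
      rw [lact_mul, hc, map_add, lact_P3, hc, Q_add_P, Q_add_P]
    have n1 : ‖QX w (w * A) (w ^ 2 * B) - 16‖ = ‖QX w A B - 16‖ := by
      obtain ⟨h', e⟩ := lact_pt t (onE_Q hw h)
      have e3 := e.symm.trans e1
      unfold Q at e3
      rw [pt_inj] at e3
      rw [← e3.1, ← norm_gal t (QX w A B - 16), map_sub, map_ofNat]
    have n2 : ‖QX w (w * (w * A)) (w ^ 2 * (w ^ 2 * B)) - 16‖ = ‖QX w A B - 16‖ := by
      obtain ⟨h', e⟩ := lact_pt (t * t) (onE_Q hw h)
      have e3 := e.symm.trans e2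
      unfold Q at e3
      rw [pt_inj] at e3
      rw [← e3.1, ← norm_gal (t * t) (QX w A B - 16), map_sub, map_ofNat]
    have x0 := x_sub w A B hw h
    have x1 := x_sub w _ _ hw hr1
    have x2 := x_sub w _ _ hw hr2
    rw [n1, show w * (w * A) = w ^ 2 * A by ring,
      show w ^ 2 * (w ^ 2 * B) = w * B by linear_combination w * B * hw3] at x1
    rw [n2, show w * (w * (w * A)) = A by linear_combination A * hw3,
      show w ^ 2 * (w ^ 2 * (w ^ 2 * B)) = B by linear_combination B * (w ^ 3 + 1) * hw3] at x2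
    have hx0 : ‖QX w A B - 16‖ ≠ 0 := by
      rw [norm_ne_zero_iff, sub_ne_zero]
      exact QX_ne hw h
    have y1 : ‖5 + w ^ 2 * A + w * B‖ = ‖5 + w * A + w ^ 2 * B‖ :=
      mul_left_cancel₀ hx0 (x1.trans x0.symm)
    have y2 : ‖5 + A + B‖ = ‖5 + w * A + w ^ 2 * B‖ := mul_left_cancel₀ hx0 (x2.trans x0.symm)
    have hprod := congrArg norm (rel_prod hw h)
    rw [norm_mul, norm_mul, y1, y2] at hprod
    have hsum : ‖(15 : Cp p)‖ ≤ ‖5 + w * A + w ^ 2 * B‖ := by
      have e : (15 : Cp p) = (5 + A + B) + (5 + w * A + w ^ 2 * B) + (5 + w ^ 2 * A + w * B) := by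
        linear_combination -(A + B) * hw
      rw [e]
      exact norm_add_le' (norm_add_le' y2.le le_rfl) y1.le
    have hs3 : ‖(15 : Cp p)‖ ^ 3 ≤ ‖(972 : Cp p)‖ := by
      rw [← hprod]
      calc ‖(15 : Cp p)‖ ^ 3 ≤ ‖5 + w * A + w ^ 2 * B‖ ^ 3 :=
            pow_le_pow_left₀ (norm_nonneg _) hsum 3
        _ = _ := by ring
    rcases hp23 with rfl | rfl
    · have e15 : ‖(15 : Cp 2)‖ = 1 := by
        have := norm_int_eq_one (p := 2) (n := 15) (by norm_num)
        exact_mod_cast this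
      have e972 : ‖(972 : Cp 2)‖ < 1 := by
        have := (norm_int_lt_iff (p := 2) 972).2 (by norm_num)
        exact_mod_cast this
      rw [e15, one_pow] at hs3
      linarith
    · have e3 : ‖(3 : Cp 3)‖ = (3 : ℝ)⁻¹ := by
        have := norm_p (p := 3)
        exact_mod_cast this
      have e5 : ‖(5 : Cp 3)‖ = 1 := by
        have := norm_int_eq_one (p := 3) (n := 5) (by norm_num)
        exact_mod_cast this
      have e4 : ‖(4 : Cp 3)‖ = 1 := by
        have := norm_int_eq_one (p := 3) (n := 4) (by norm_num)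
        exact_mod_cast this
      have e15 : (15 : Cp 3) = 5 * 3 := by norm_num
      have e972 : (972 : Cp 3) = 4 * 3 ^ 5 := by norm_num
      rw [e15, e972, norm_mul, norm_mul, norm_pow, e3, e4, e5] at hs3
      norm_num at hs3
  by_cases h3 : 3 • R = 0
  · have h3' : 3 • (R + T2) ≠ 0 := by
      rw [nsmul_add, h3, zero_add]
      exact three_T2_ne
    intro hc
    apply aux (R + T2) h3'
    rw [map_add, hc, lact_T2]
    abel
  · exact aux R h3

/-- a cyclic cubic field with these data splits completely at `2` and `3` -/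
lemma Lsplit (hp23 : p = 2 ∨ p = 3) {u v z : Cp p} (hs : u + v + z = 0)
    (hq : u * v + v * z + z * u = -8463) (hprod : u * v * z = 242606) (t : Gp p)
    (h1 : t u = v) (h2 : t v = z) : False := by
  have key : ∀ a : ℤ, ‖((3 * a ^ 2 - 8463 : ℤ) : Cp p)‖ ^ 3 ≤
      ‖((a ^ 3 - 8463 * a - 242606 : ℤ) : Cp p)‖ ^ 2 := by
    intro a
    have n1 : ‖(a : Cp p) - v‖ = ‖(a : Cp p) - u‖ := by
      rw [← norm_gal t ((a : Cp p) - u), map_sub, h1, map_intCast]
    have n2 : ‖(a : Cp p) - z‖ = ‖(a : Cp p) - u‖ := by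
      rw [← n1, ← norm_gal t ((a : Cp p) - v), map_sub, h2, map_intCast]
    have e1 : ((a ^ 3 - 8463 * a - 242606 : ℤ) : Cp p) =
        ((a : Cp p) - u) * ((a : Cp p) - v) * ((a : Cp p) - z) := by
      push_cast
      linear_combination (a : Cp p) ^ 2 * hs - (a : Cp p) * hq + hprod
    have e2 : ((3 * a ^ 2 - 8463 : ℤ) : Cp p) =
        ((a : Cp p) - u) * ((a : Cp p) - v) + ((a : Cp p) - v) * ((a : Cp p) - z) +
        ((a : Cp p) - z) * ((a : Cp p) - u) := by
      push_cast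
      linear_combination (2 * (a : Cp p)) * hs - hq
    have n3 : ‖((3 * a ^ 2 - 8463 : ℤ) : Cp p)‖ ≤ ‖(a : Cp p) - u‖ ^ 2 := by
      rw [e2]
      refine norm_add_le' (norm_add_le' ?_ ?_) ?_
      · rw [norm_mul, n1, sq]
      · rw [norm_mul, n1, n2, sq]
      · rw [norm_mul, n2, sq]
    rw [e1, norm_mul, norm_mul, n1, n2]
    calc _ ≤ (‖(a : Cp p) - u‖ ^ 2) ^ 3 := pow_le_pow_left₀ (norm_nonneg _) n3 3
      _ = _ := by ring
  rcases hp23 with rfl | rfl
  · have k := key 0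
    have e1 : ‖((3 * 0 ^ 2 - 8463 : ℤ) : Cp 2)‖ = 1 := norm_int_eq_one (by norm_num)
    have e2 : ‖((0 ^ 3 - 8463 * 0 - 242606 : ℤ) : Cp 2)‖ < 1 :=
      (norm_int_lt_iff (p := 2) _).2 (by norm_num)
    rw [e1, one_pow] at k
    nlinarith [norm_nonneg ((0 ^ 3 - 8463 * 0 - 242606 : ℤ) : Cp 2)]
  · have k := key 5
    have e3 : ‖(3 : Cp 3)‖ = (3 : ℝ)⁻¹ := by
      have := norm_p (p := 3)
      exact_mod_cast this
    have e1 : ((3 * 5 ^ 2 - 8463 : ℤ) : Cp 3) = ((-932 : ℤ) : Cp 3) * 3 ^ 2 := by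
      push_cast; norm_num
    have e2 : ((5 ^ 3 - 8463 * 5 - 242606 : ℤ) : Cp 3) = ((-1172 : ℤ) : Cp 3) * 3 ^ 5 := by
      push_cast; norm_num
    have f1 : ‖((-932 : ℤ) : Cp 3)‖ = 1 := norm_int_eq_one (by norm_num)
    have f2 : ‖((-1172 : ℤ) : Cp 3)‖ = 1 := norm_int_eq_one (by norm_num)
    rw [e1, e2, norm_mul, norm_mul, f1, f2, norm_pow, norm_pow, e3] at k
    norm_num at k

end Pool.Agent.W94.F3
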