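import Mathlib
import Pool.Agent.W94.F3.Fld
import Pool.Agent.W94.F3.Local3
import Pool.Agent.W94.F3.Ext
import Pool.Agent.W94.F3.Loc23

/-!
# The Galois action on points and the restriction maps
-/

set_option autoImplicit false
set_option linter.unusedSectionVars false

namespace Pool.Agent.W94.F3

open scoped Classical

instance instAlgQbar : Algebra.IsAlgebraic ℚ Qbar := by
  have h : (DivisionRing.toRatAlgebra : Algebra ℚ Qbar) =
    @AlgebraicClosure.instAlgebra ℚ _ ℚ _ _ := Subsingleton.elim _ _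
  rw [h]
  exact AlgebraicClosure.isAlgebraic ℚ

instance instClosQbar : IsAlgClosure ℚ Qbar := ⟨inferInstance, inferInstance⟩
instance instNormQbar : Normal ℚ Qbar := IsAlgClosure.normal ℚ Qbar

/-- Galois action -/
noncomputable instance instActPt : DistribMulAction GQ (Pt Qbar) where
  smul g R := pm g.toAlgHom R
  one_smul R := by
    change pm (1 : GQ).toAlgHom R = R
    rcases exists_pt R with rfl | ⟨x, y, h, rfl⟩
    · exact pm_zero _
    · rfl
  mul_smul g h R := by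
    change pm (g * h).toAlgHom R = pm g.toAlgHom (pm h.toAlgHom R)
    rw [pm_comp]
    rfl
  smul_zero g := pm_zero _
  smul_add g R S := map_add _ R S

lemma smul_def (g : GQ) (R : Pt Qbar) : g • R = pm g.toAlgHom R := rfl

lemma smul_P3 (g : GQ) : g • (P3 : Pt Qbar) = P3 := pm_P3 _
lemma smul_T2 (g : GQ) : g • (T2 : Pt Qbar) = T2 := pm_T2 _
lemma HP_smul (g : GQ) (R : Pt Qbar) : HP (g • R) = g (HP R) := HP_pm _ R
lemma HM_smul (g : GQ) (R : Pt Qbar) : HM (g • R) = g (HM R) := HM_pm _ R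
lemma eps_smul (g : GQ) (R : Pt Qbar) : eps (g • R) = g (eps R) := eps_pm _ R

lemma three_smul_g (g : GQ) {R : Pt Qbar} (h : 3 • R = 0) : 3 • (g • R) = 0 := by
  rw [smul_def, ← map_nsmul, h, pm_zero]

lemma pm_nsmul_comm {L L' : Type*} [Field L] [Algebra ℚ L] [DecidableEq L] [Field L']
    [Algebra ℚ L'] [DecidableEq L'] (f : L →ₐ[ℚ] L') (n : ℕ) (R : Pt L) :
    pm f (n • R) = n • pm f R := map_nsmul _ _ _

/-- the action on `T1` -/
lemma smul_T1 (g : GQ) (hg : g gw = gw) : ∃ k : ℕ, g gd = gw ^ k * gd ∧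
    g • T1 gw gd hgw hgd + k • P3 = T1 gw gd hgw hgd := by
  have h : (g gd) ^ 3 = gd ^ 3 := by
    rw [← map_pow, hgd]
    simp [map_ofNat]
  have key : ∀ (w' d' : Qbar) (hw' : w' ^ 2 + w' + 1 = 0) (hd' : d' ^ 3 = -847), w' = gw →
      ∀ (hd'' : d' ^ 3 = -847), T1 w' d' hw' hd' = T1 gw d' hgw hd'' := by
    rintro w' d' hw' hd' rfl hd''
    rfl
  have e0 : g • T1 gw gd hgw hgd = T1 (g gw) (g gd) (w_map g.toAlgHom hgw) (by
      rw [← map_pow, hgd]; simp [map_ofNat]) := pm_T1 g.toAlgHom hgw hgd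
  have hgd3 : (g gd) ^ 3 = -847 := by rw [h, hgd]
  have e1 := e0.trans (key _ _ _ _ hg hgd3)
  have key2 : ∀ (d' : Qbar) (hd' : d' ^ 3 = -847) (d'' : Qbar) (hd'' : d'' ^ 3 = -847),
      d' = d'' → T1 gw d' hgw hd' = T1 gw d'' hgw hd'' := by
    rintro d' hd' d'' hd'' rfl
    rfl
  have h1 : (gw * gd) ^ 3 = -847 := by rw [mul_pow, gw3, one_mul, hgd]
  have h2 : (gw * (gw * gd)) ^ 3 = -847 := by rw [mul_pow, gw3, one_mul, h1]
  rcases cube_roots hgw h with h3 | h3 | h3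
  · refine ⟨0, by rw [h3]; ring, ?_⟩
    rw [e1, zero_smul, add_zero, key2 _ _ _ hgd h3]
  · refine ⟨1, by rw [h3]; ring, ?_⟩
    rw [e1, one_smul, key2 _ _ _ h1 h3, T1_shift hgw hgd h1]
  · refine ⟨2, h3, ?_⟩
    rw [e1, two_smul, key2 _ _ _ h2 (by rw [h3]; ring), ← add_assoc, T1_shift hgw h1 h2,
      T1_shift hgw hgd h1]

section res

variable {p : ℕ} [hp : Fact p.Prime]

lemma exists_res (ι : Qbar →ₐ[ℚ] Cp p) (t : Gp p) : ∃ g : GQ, ∀ z, ι (g z) = t (ι z) := by
  let _ : Algebra Qbar (Cp p) := ι.toRingHom.toAlgebra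
  have : IsScalarTower ℚ Qbar (Cp p) := IsScalarTower.of_algebraMap_eq fun x => by
    exact (ι.commutes x).symm
  exact ⟨(t.restrictScalars ℚ).restrictNormal Qbar,
    fun z => AlgEquiv.restrictNormal_commutes (t.restrictScalars ℚ) Qbar z⟩

/-- the restriction of a local automorphism -/
noncomputable def res (ι : Qbar →ₐ[ℚ] Cp p) (t : Gp p) : GQ := (exists_res ι t).choose

lemma res_spec (ι : Qbar →ₐ[ℚ] Cp p) (t : Gp p) (z : Qbar) : ι (res ι t z) = t (ι z) :=
  (exists_res ι t).choose_spec z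

lemma res_unique {ι : Qbar →ₐ[ℚ] Cp p} {t : Gp p} {g : GQ} (h : ∀ z, ι (g z) = t (ι z)) :
    g = res ι t := by
  apply AlgEquiv.ext
  intro z
  have : ι (g z) = ι (res ι t z) := by rw [h, res_spec]
  exact ι.injective this

lemma res_mul (ι : Qbar →ₐ[ℚ] Cp p) (s t : Gp p) : res ι (s * t) = res ι s * res ι t := by
  symm
  apply res_unique
  intro z
  rw [AlgEquiv.mul_apply, res_spec, res_spec, AlgEquiv.mul_apply]

lemma res_one (ι : Qbar →ₐ[ℚ] Cp p) : res ι (1 : Gp p) = 1 := by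
  symm
  apply res_unique
  intro z
  rfl

lemma res_inv (ι : Qbar →ₐ[ℚ] Cp p) (t : Gp p) : res ι t⁻¹ = (res ι t)⁻¹ := by
  rw [eq_inv_iff_mul_eq_one, ← res_mul, inv_mul_cancel, res_one]

lemma pm_res (ι : Qbar →ₐ[ℚ] Cp p) (t : Gp p) (R : Pt Qbar) :
    pm ι (res ι t • R) = lact t (pm ι R) := by
  rw [smul_def]
  unfold lact
  rw [pm_comp, pm_comp]
  have e : ι.comp (res ι t).toAlgHom = (AlgHom.restrictScalars ℚ t.toAlgHom).comp ι := by
    apply AlgHom.ext
    intro z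
    exact res_spec ι t z
  rw [e]

/-- precomposition with a global automorphism -/
lemma res_comp (ι : Qbar →ₐ[ℚ] Cp p) (s : GQ) (t : Gp p) :
    res (ι.comp s.toAlgHom) t = s⁻¹ * res ι t * s := by
  symm
  apply res_unique
  intro z
  change ι (s ((s⁻¹ * res ι t * s) z)) = t (ι (s z))
  rw [AlgEquiv.mul_apply, AlgEquiv.mul_apply]
  have : s (s⁻¹ (res ι t (s z))) = res ι t (s z) := s.apply_symm_apply _
  rw [this, res_spec]

end res

/-- a cocycle on `H` with values in the points of order three -/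
structure Coc (H : Subgroup GQ) (c : GQ → Pt Qbar) : Prop where
  tors : ∀ h ∈ H, 3 • c h = 0
  mul : ∀ g ∈ H, ∀ h ∈ H, c (g * h) = c g + g • c h
  cont : ∃ M : IntermediateField ℚ Qbar, FiniteDimensional ℚ M ∧ ∀ h ∈ H, FixM M h → c h = 0

/-- locally trivial classes -/
def LocAt (c : GQ → Pt Qbar) : Prop := ∀ (p : ℕ) [Fact p.Prime] (ι : Qbar →ₐ[ℚ] Cp p),
  ∃ R : Pt (Cp p), ∀ t : Gp p, res ι t ∈ NK → pm ι (c (res ι t)) = lact t R - R

lemma Coc.one {H : Subgroup GQ} {c : GQ → Pt Qbar} (h : Coc H c) : c 1 = 0 := by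
  have := h.mul 1 H.one_mem 1 H.one_mem
  rw [mul_one, one_smul] at this
  simpa using this

lemma Coc.mono {H H' : Subgroup GQ} {c : GQ → Pt Qbar} (h : Coc H c) (hH : H' ≤ H) : Coc H' c :=
  ⟨fun g hg => h.tors g (hH hg), fun g hg g' hg' => h.mul g (hH hg) g' (hH hg'), by
    obtain ⟨M, hM, h1⟩ := h.cont
    exact ⟨M, hM, fun g hg => h1 g (hH hg)⟩⟩

/-- a point has coordinates in a finite extension -/
lemma exists_fix (R : Pt Qbar) : ∃ M : IntermediateField ℚ Qbar, FiniteDimensional ℚ M ∧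
    ∀ h : GQ, FixM M h → h • R = R := by
  rcases exists_pt R with rfl | ⟨x, y, hxy, rfl⟩
  · exact ⟨⊥, inferInstance, fun h _ => smul_zero h⟩
  · refine ⟨IntermediateField.adjoin ℚ {x, y}, ?_, ?_⟩
    · apply IntermediateField.finiteDimensional_adjoin
      intro z _
      exact Algebra.IsIntegral.isIntegral z
    · intro h hh
      rw [smul_def, pm_pt, pt_inj]
      exact ⟨hh x (IntermediateField.subset_adjoin ℚ _ (by simp)),
        hh y (IntermediateField.subset_adjoin ℚ _ (by simp))⟩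

lemma FixM.mono {M M' : IntermediateField ℚ Qbar} {g : GQ} (h : FixM M' g) (hM : M ≤ M') :
    FixM M g := fun x hx => h x (hM hx)

/-- the cocycle `h ↦ h R - R` -/
lemma coc_of_pt (H : Subgroup GQ) (R : Pt Qbar) (hR : ∀ g : GQ, 3 • (g • R - R) = 0) :
    Coc H (fun h => h • R - R) := by
  refine ⟨fun h _ => hR h, ?_, ?_⟩
  · intro g _ h _
    rw [mul_smul, smul_sub]
    abel
  · obtain ⟨M, hM, h1⟩ := exists_fix R
    refine ⟨M, hM, fun h _ hh => ?_⟩
    rw [h1 h hh, sub_self]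

lemma loc_of_pt (R : Pt Qbar) : LocAt (fun h => h • R - R) := by
  intro p _ ι
  refine ⟨pm ι R, fun t _ => ?_⟩
  rw [map_sub, pm_res]

lemma Coc.add {H : Subgroup GQ} {c c' : GQ → Pt Qbar} (h : Coc H c) (h' : Coc H c') :
    Coc H (fun g => c g + c' g) := by
  refine ⟨fun g hg => ?_, fun g hg g' hg' => ?_, ?_⟩
  · rw [smul_add, h.tors g hg, h'.tors g hg, add_zero]
  · rw [h.mul g hg g' hg', h'.mul g hg g' hg', smul_add]
    abel
  · obtain ⟨M, hM, h1⟩ := h.cont
    obtain ⟨M', hM', h1'⟩ := h'.cont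
    refine ⟨M ⊔ M', inferInstance, fun g hg hgM => ?_⟩
    rw [h1 g hg (hgM.mono le_sup_left), h1' g hg (hgM.mono le_sup_right), add_zero]

lemma Coc.neg {H : Subgroup GQ} {c : GQ → Pt Qbar} (h : Coc H c) :
    Coc H (fun g => -c g) := by
  refine ⟨fun g hg => ?_, fun g hg g' hg' => ?_, ?_⟩
  · rw [smul_neg, h.tors g hg, neg_zero]
  · rw [h.mul g hg g' hg', smul_neg]
    abel
  · obtain ⟨M, hM, h1⟩ := h.cont
    refine ⟨M, hM, fun g hg hgM => ?_⟩
    rw [h1 g hg hgM, neg_zero]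

lemma LocAt.add {c c' : GQ → Pt Qbar} (h : LocAt c) (h' : LocAt c') :
    LocAt (fun g => c g + c' g) := by
  intro p _ ι
  obtain ⟨R, hR⟩ := h p ι
  obtain ⟨R', hR'⟩ := h' p ι
  refine ⟨R + R', fun t ht => ?_⟩
  rw [map_add, hR t ht, hR' t ht, map_add]
  abel

lemma LocAt.neg {c : GQ → Pt Qbar} (h : LocAt c) : LocAt (fun g => -c g) := by
  intro p _ ι
  obtain ⟨R, hR⟩ := h p ι
  refine ⟨-R, fun t ht => ?_⟩
  rw [map_neg, hR t ht, map_neg]
  abel

lemma Coc.nsmul {H : Subgroup GQ} {c : GQ → Pt Qbar} (h : Coc H c) (n : ℕ) :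
    Coc H (fun g => n • c g) := by
  induction n with
  | zero =>
    refine ⟨fun g _ => by simp, fun g _ g' _ => by simp, ⟨⊥, inferInstance, fun g _ _ => by simp⟩⟩
  | succ n ih =>
    have := ih.add h
    simpa [succ_nsmul] using this

lemma LocAt.nsmul {c : GQ → Pt Qbar} (h : LocAt c) (n : ℕ) : LocAt (fun g => n • c g) := by
  induction n with
  | zero =>
    intro p _ ι
    exact ⟨0, fun t _ => by simp⟩
  | succ n ih =>
    have := ih.add h
    simpa [succ_nsmul] using this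

/-- the twist by `s` -/
lemma Coc.twist {c : GQ → Pt Qbar} (h : Coc NK c) (s : GQ) :
    Coc NK (fun g => s • c (s⁻¹ * g * s)) := by
  have hs : ∀ g ∈ NK, s⁻¹ * g * s ∈ NK := fun g hg => by
    have := NK_normal s⁻¹ g hg
    rwa [inv_inv] at this
  refine ⟨fun g hg => ?_, fun g hg g' hg' => ?_, ?_⟩
  · exact three_smul_g s (h.tors _ (hs g hg))
  · have e : s⁻¹ * (g * g') * s = (s⁻¹ * g * s) * (s⁻¹ * g' * s) := by group
    rw [e, h.mul _ (hs g hg) _ (hs g' hg'), smul_add, ← mul_smul, ← mul_smul]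
    congr 2
    group
  · obtain ⟨M, hM, h1⟩ := h.cont
    refine ⟨M.map s.toAlgHom, ?_, fun g hg hgM => ?_⟩
    · exact (IntermediateField.intermediateFieldMap s M).toLinearEquiv.finiteDimensional
    · rw [h1 _ (hs g hg), smul_zero]
      intro x hx
      rw [AlgEquiv.mul_apply, AlgEquiv.mul_apply, hgM (s x) ⟨x, hx, rfl⟩]
      exact s.symm_apply_apply x

lemma LocAt.twist {c : GQ → Pt Qbar} (h : LocAt c) (s : GQ) :
    LocAt (fun g => s • c (s⁻¹ * g * s)) := by
  intro p _ ι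
  obtain ⟨R, hR⟩ := h p (ι.comp s.toAlgHom)
  refine ⟨R, fun t ht => ?_⟩
  have h1 : res (ι.comp s.toAlgHom) t ∈ NK := by
    rw [res_comp]
    have := NK_normal s⁻¹ _ ht
    rwa [inv_inv] at this
  rw [← hR t h1, res_comp]
  change pm ι (pm s.toAlgHom _) = _
  rw [pm_comp]

end Pool.Agent.W94.F3
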