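import Mathlib
import Pool.Agent.W94.F3.Setup

/-!
# The first step: descent of classes to the rational numbers
-/

set_option autoImplicit false
set_option linter.unusedSectionVars false

namespace Pool.Agent.W94.F3

open scoped Classical

lemma Qbar_cube (a : Qbar) : ∃ b : Qbar, b ^ 3 = a := IsAlgClosed.exists_pow_nat_eq a (by norm_num)

lemma eps_zero {L : Type*} [Field L] [Algebra ℚ L] [DecidableEq L] : eps (0 : Pt L) = 1 :=
  epsRel_zero.eps_eq

lemma eps_cube {T : Pt Qbar} (hT : 3 • T = 0) : eps T ^ 3 = 1 := (eps_spec hgw hgd hT).2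

lemma eps_ne {T : Pt Qbar} (hT : 3 • T = 0) : eps T ≠ 0 := by
  intro h
  have := eps_cube hT
  rw [h] at this
  norm_num at this

lemma eps_addQ {T T' : Pt Qbar} (hT : 3 • T = 0) (hT' : 3 • T' = 0) :
    eps (T + T') = eps T * eps T' := eps_add hgw hgd hT hT'

lemma tors_neg {A : Type*} [AddCommGroup A] {T : A} (hT : 3 • T = 0) : 3 • (-T) = 0 := by
  rw [smul_neg, hT, neg_zero]

lemma tors_add {A : Type*} [AddCommGroup A] {T T' : A} (hT : 3 • T = 0) (hT' : 3 • T' = 0) :
    3 • (T + T') = 0 := by rw [smul_add, hT, hT', add_zero]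

lemma tors_sub {A : Type*} [AddCommGroup A] {T T' : A} (hT : 3 • T = 0) (hT' : 3 • T' = 0) :
    3 • (T - T') = 0 := by rw [smul_sub, hT, hT', sub_zero]

lemma tors_nsmul {A : Type*} [AddCommGroup A] {T : A} (hT : 3 • T = 0) (n : ℕ) :
    3 • (n • T) = 0 := by rw [smul_comm, hT, smul_zero]

lemma eps_negQ {T : Pt Qbar} (hT : 3 • T = 0) : eps (-T) = (eps T)⁻¹ := by
  rw [← mul_eq_one_iff_eq_inv₀ (eps_ne hT), ← eps_addQ (tors_neg hT) hT, neg_add_cancel, eps_zero]

lemma eps_subQ {T T' : Pt Qbar} (hT : 3 • T = 0) (hT' : 3 • T' = 0) :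
    eps (T - T') = eps T / eps T' := by
  rw [sub_eq_add_neg, eps_addQ hT (tors_neg hT'), eps_negQ hT', div_eq_mul_inv]

lemma eps_nsmulQ {T : Pt Qbar} (hT : 3 • T = 0) (n : ℕ) : eps (n • T) = eps T ^ n := by
  induction n with
  | zero => rw [zero_smul, pow_zero, eps_zero]
  | succ n ih => rw [succ_nsmul, eps_addQ (tors_nsmul hT n) hT, ih, pow_succ]

lemma exists_RP : ∃ R : Pt Qbar, 3 • R ≠ 0 ∧ HP R ^ 3 = -1296 ∧ HM R ^ 3 = 288 ∧
    HP R * HM R = -72 := by
  obtain ⟨a, ha⟩ := Qbar_cube (-1296)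
  have ha0 : a ≠ 0 := by
    rintro rfl
    norm_num at ha
  have hb : (-72 / a) ^ 3 = 288 := by
    rw [div_pow, ha]; norm_num
  obtain ⟨R, h1, h2, h3⟩ := exists_H Qbar_cube hgw a (-72 / a) (by
    rw [ha, hb]
    field_simp
    norm_num)
  refine ⟨R, h1, by rw [h2, ha], by rw [h3, hb], by rw [h2, h3]; field_simp⟩

/-- a third of the point `(88, 792)` -/
noncomputable def RP : Pt Qbar := exists_RP.choose
/-- the Kummer generator of its class -/
noncomputable def tP : Qbar := HP RP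
lemma tP3 : tP ^ 3 = -1296 := exists_RP.choose_spec.2.1
lemma tP_ne : tP ≠ 0 := by
  intro h
  have := tP3
  rw [h] at this
  norm_num at this

lemma onE_PS {L : Type*} [Field L] : OnE (88 : L) 792 := by
  unfold OnE
  norm_num

/-- the point `(88, 792)` -/
def PS {L : Type*} [Field L] [Algebra ℚ L] [DecidableEq L] : Pt L := pt 88 792 onE_PS

lemma three_RP : 3 • RP = PS := by
  obtain ⟨h3, e⟩ := triple' (R := RP) exists_RP.choose_spec.1
  have h1 := exists_RP.choose_spec.2.1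
  have h2 := exists_RP.choose_spec.2.2.1
  have h4 := exists_RP.choose_spec.2.2.2
  change HP RP ^ 3 = _ at h1
  change HM RP ^ 3 = _ at h2
  change HP RP * HM RP = _ at h4
  rw [e]
  unfold PS
  rw [pt_inj, h1, h2, h4]
  norm_num

lemma smul_PS (g : GQ) : g • (PS : Pt Qbar) = PS := by
  unfold PS
  rw [smul_def, pm_pt, pt_inj]
  simp [map_ofNat]

/-- the Kummer class of `(88, 792)` -/
noncomputable def cP (h : GQ) : Pt Qbar := h • RP - RP

lemma cP_tors (g : GQ) : 3 • cP g = 0 := by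
  unfold cP
  rw [smul_sub, smul_comm, three_RP, smul_PS, sub_self]

lemma cP_coc (H : Subgroup GQ) : Coc H cP := coc_of_pt H RP cP_tors

lemma cP_loc : LocAt cP := loc_of_pt RP

lemma cP_mul (g h : GQ) : cP (g * h) = cP g + g • cP h := by
  unfold cP
  rw [mul_smul, smul_sub]
  abel

lemma gal_tP (g : GQ) : g tP = eps (cP g) * tP := by
  have h := (eps_spec hgw hgd (cP_tors g)).1 RP exists_RP.choose_spec.1
  have e : RP + cP g = g • RP := by
    unfold cP
    abel
  rw [e, HP_smul] at h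
  exact h.1

lemma exists_t {H : Subgroup GQ} {c : GQ → Pt Qbar} (hc : Coc H c) :
    ∃ t : Qbar, t ≠ 0 ∧ ∀ g ∈ H, g t = eps (c g) * t := by
  obtain ⟨M, hM, h1⟩ := hc.cont
  apply H90 H (fun g => eps (c g)) _ _ M
  · intro g hg hgM
    rw [h1 g hg hgM, eps_zero]
  · intro g hg
    exact eps_ne (hc.tors g hg)
  · intro g hg h hh
    rw [hc.mul g hg h hh, eps_addQ (hc.tors g hg) (three_smul_g g (hc.tors h hh)), eps_smul]

lemma exists_rho : ∃ ρ : GQ, ρ gw = gw ^ 2 := by
  by_contra hno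
  push Not at hno
  have h : ∀ g : GQ, g gw = gw := fun g => (gal_gw g).resolve_right (hno g)
  obtain ⟨q, hq⟩ := (InfiniteGalois.mem_range_algebraMap_iff_fixed (k := ℚ) (K := Qbar) gw).2 h
  have h1 := hgw
  rw [← hq] at h1
  have h2 : q ^ 2 + q + 1 = 0 := by
    have : algebraMap ℚ Qbar (q ^ 2 + q + 1) = algebraMap ℚ Qbar 0 := by
      rw [map_add, map_add, map_pow, map_one, map_zero]
      exact h1
    exact (algebraMap ℚ Qbar).injective this
  nlinarith [sq_nonneg (2 * q + 1)]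

lemma one_of_cube {x : Qbar} (h3 : x ^ 3 = 1) (hx : ∀ g : GQ, g x = x) : x = 1 := by
  obtain ⟨ρ, hρ⟩ := exists_rho
  have hw3 := gw3
  have hw1 : gw ≠ 1 := by
    intro h
    have := hgw
    rw [h] at this
    norm_num at this
  have hne : gw ^ 2 ≠ gw := by
    intro h
    apply hw1
    have h' : gw * (gw - 1) = 0 := by linear_combination h
    rcases mul_eq_zero.1 h' with h1 | h1
    · exact absurd h1 gw_ne
    · exact sub_eq_zero.1 h1
  rcases cube_roots hgw (a := x) (b := 1) (by rw [h3, one_pow]) with h | h | h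
  · exact h
  · exfalso
    rw [mul_one] at h
    have := hx ρ
    rw [h, hρ] at this
    exact hne this
  · exfalso
    rw [mul_one] at h
    have := hx ρ
    rw [h, map_pow, hρ] at this
    apply hne
    rw [← this]
    linear_combination gw * gw3

lemma fixed_all {s : GQ} (hs : s ∉ NK) {x : Qbar} (h1 : ∀ g ∈ NK, g x = x) (h2 : s x = x) :
    ∀ g : GQ, g x = x := by
  intro g
  obtain ⟨i, hi⟩ := exists_pow_mem hs g
  have h3 : ∀ j : ℕ, (s ^ j) x = x := by
    intro j
    induction j with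
    | zero => rfl
    | succ j ih => rw [pow_succ, AlgEquiv.mul_apply, h2, ih]
  have h4 := h1 _ hi
  have e : g = g * (s ^ i)⁻¹ * s ^ i := by group
  rw [e, AlgEquiv.mul_apply, h3, h4]

lemma conj_apply (g s : GQ) (x : Qbar) : g (s x) = s ((s⁻¹ * g * s) x) := by
  rw [← AlgEquiv.mul_apply, ← AlgEquiv.mul_apply]
  congr 1
  group

lemma conj_mem (s : GQ) {g : GQ} (hg : g ∈ NK) : s⁻¹ * g * s ∈ NK := by
  have := NK_normal s⁻¹ g hg
  rwa [inv_inv] at this

lemma map_ne {s : GQ} {x : Qbar} (h : x ≠ 0) : s x ≠ 0 := by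
  rw [Ne, EmbeddingLike.map_eq_zero_iff]
  exact h

lemma stepB1 {c : GQ → Pt Qbar} (hc : Coc NK c) {s : GQ} (hs : s ∉ NK) (k : ℕ) (b : Pt Qbar)
    (hb3 : 3 • b = 0)
    (h : ∀ g ∈ NK, s • c (s⁻¹ * g * s) - c g = k • cP g + (g • b - b)) :
    ∃ m : Qbar, (∀ g ∈ NK, g m = m) ∧ m * s m * s (s m) * (-1296) ^ k = 1 := by
  obtain ⟨t, ht0, ht⟩ := exists_t hc
  have hb0 := eps_ne hb3
  have htP := tP_ne
  obtain ⟨m, hm⟩ : ∃ m, m = s t / (t * tP ^ k * eps b) := ⟨_, rfl⟩
  have hmg : ∀ g ∈ NK, g m = m := by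
    intro g hg
    rw [hm]
    have e1 : g (s t) = eps (c g) * eps (cP g) ^ k * (g (eps b) / eps b) * s t := by
      have e3 : s • c (s⁻¹ * g * s) = c g + (k • cP g + (g • b - b)) := by
        rw [← h g hg]
        abel
      rw [conj_apply, ht _ (conj_mem s hg), map_mul, ← eps_smul, e3, eps_addQ (hc.tors g hg)
        (tors_add (tors_nsmul (cP_tors g) k) (tors_sub (three_smul_g g hb3) hb3)), eps_addQ
        (tors_nsmul (cP_tors g) k) (tors_sub (three_smul_g g hb3) hb3), eps_nsmulQ (cP_tors g),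
        eps_subQ (three_smul_g g hb3) hb3, eps_smul]
      ring
    have hc0 := eps_ne (hc.tors g hg)
    have hP0 := eps_ne (cP_tors g)
    have hgb : g (eps b) ≠ 0 := map_ne hb0
    rw [map_div₀, map_mul, map_mul, map_pow, e1, ht g hg, gal_tP]
    field_simp
    ring
  refine ⟨m, hmg, ?_⟩
  have hs3 := cube_mem s
  have hs3' : ∀ x : Qbar, (s ^ 3) x = s (s (s x)) := fun x => rfl
  have hfix : ∀ g : GQ, g (m * s m * s (s m) * (-1296) ^ k) = m * s m * s (s m) * (-1296) ^ k := by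
    apply fixed_all hs
    · intro g hg
      have k1 : ∀ g ∈ NK, g (s m) = s m := by
        intro g hg
        rw [conj_apply, hmg _ (conj_mem s hg)]
      have k2 : g (s (s m)) = s (s m) := by
        rw [conj_apply, k1 _ (conj_mem s hg)]
      rw [map_mul, map_mul, map_mul, hmg g hg, k1 g hg, k2, map_pow, map_neg, map_ofNat]
    · have k3 : s (s (s m)) = m := by rw [← hs3', hmg _ hs3]
      rw [map_mul, map_mul, map_mul, k3, map_pow, map_neg, map_ofNat]
      ring
  apply one_of_cube _ hfix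
  have hst : s (s (s t)) = eps (c (s ^ 3)) * t := by rw [← hs3', ht _ hs3]
  have hst0 : s t ≠ 0 := map_ne ht0
  have hst1 : s (s t) ≠ 0 := map_ne hst0
  have z1 : eps (c (s ^ 3)) ^ 3 = 1 := eps_cube (hc.tors _ hs3)
  have z2 : eps b ^ 3 = 1 := eps_cube hb3
  have z3 : (s (eps b)) ^ 3 = 1 := by rw [← map_pow, z2, map_one]
  have z4 : (s (s (eps b))) ^ 3 = 1 := by rw [← map_pow, z3, map_one]
  have z5 : tP ^ 3 = -1296 := tP3
  have z6 : (s tP) ^ 3 = -1296 := by rw [← map_pow, z5, map_neg, map_ofNat]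
  have z7 : (s (s tP)) ^ 3 = -1296 := by rw [← map_pow, z6, map_neg, map_ofNat]
  have n1 : s (eps b) ≠ 0 := map_ne hb0
  have n2 : s (s (eps b)) ≠ 0 := map_ne n1
  have n3 : s tP ≠ 0 := map_ne htP
  have n4 : s (s tP) ≠ 0 := map_ne n3
  have e4 : m * s m * s (s m) = eps (c (s ^ 3)) /
      ((tP * s tP * s (s tP)) ^ k * (eps b * s (eps b) * s (s (eps b)))) := by
    rw [hm]
    simp only [map_div₀, map_mul, map_pow]
    rw [hst]
    field_simp
    ring
  have n5 : ((-1296 : Qbar)) ^ k ≠ 0 := pow_ne_zero _ (by norm_num)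
  have e5 : ((tP * s tP * s (s tP)) ^ k) ^ 3 = ((-1296) ^ k) ^ 3 := by
    rw [← pow_mul, mul_comm k 3, pow_mul, mul_pow (tP * s tP), mul_pow tP, z5, z6, z7, ← pow_mul,
      mul_comm k 3, pow_mul]
    ring
  rw [e4, mul_pow, div_pow, z1, mul_pow, e5, mul_pow (eps b * s (eps b)), mul_pow (eps b), z2, z3,
      z4]
  field_simp

end Pool.Agent.W94.F3
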