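import Mathlib
import Pool.Agent.W94.F3.Main1

/-!
# Descent of classes to the rational numbers, continued
-/

set_option autoImplicit false
set_option linter.unusedSectionVars false

namespace Pool.Agent.W94.F3

open scoped Classical

variable {p : ℕ} [hp : Fact p.Prime]

lemma hiw (ι : Qbar →ₐ[ℚ] Cp p) : (ι gw) ^ 2 + ι gw + 1 = 0 := w_map ι hgw

lemma hie (ι : Qbar →ₐ[ℚ] Cp p) : (ι ge) ^ 3 = 2821 * (61 + 36 * ι gw) := by
  rw [← map_pow, hge]
  simp [map_ofNat]

lemma hid (ι : Qbar →ₐ[ℚ] Cp p) : (ι gd) ^ 3 = -847 := by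
  rw [← map_pow, hgd]
  simp [map_ofNat]

lemma w_fixed' (hp3 : p = 7 ∨ p = 13 ∨ p = 31) (ι : Qbar →ₐ[ℚ] Cp p) (t : Gp p) :
    t (ι gw) = ι gw := by
  rcases hp3 with rfl | rfl | rfl
  · exact w_fixed (by norm_num) (hiw ι) 2 (by norm_num) t
  · exact w_fixed (by norm_num) (hiw ι) 3 (by norm_num) t
  · exact w_fixed (by norm_num) (hiw ι) 5 (by norm_num) t

lemma norm_2821 (hp3 : p = 7 ∨ p = 13 ∨ p = 31) : ‖(2821 : Cp p)‖ = (p : ℝ)⁻¹ := by
  have key : ∀ (m : ℤ), (2821 : ℤ) = p * m → ¬ (p : ℤ) ∣ m → ‖(2821 : Cp p)‖ = (p : ℝ)⁻¹ := by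
    intro m h1 h2
    have e : (2821 : Cp p) = ((p : ℤ) : Cp p) * (m : Cp p) := by
      rw [← Int.cast_mul, ← h1]; norm_num
    rw [e, norm_mul, norm_p, norm_int_eq_one h2, mul_one]
  rcases hp3 with rfl | rfl | rfl
  · exact key 403 (by norm_num) (by norm_num)
  · exact key 217 (by norm_num) (by norm_num)
  · exact key 91 (by norm_num) (by norm_num)

lemma totram (hp3 : p = 7 ∨ p = 13 ∨ p = 31) (ι : Qbar →ₐ[ℚ] Cp p) :
    TotRam p (ι gw) (ι ge) := by
  have hw := hiw ι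
  have hwf := w_fixed' hp3 ι
  have hp0 : (p : ℝ) ≠ 0 := by exact_mod_cast hp.1.ne_zero
  refine ⟨by rcases hp3 with rfl | rfl | rfl <;> norm_num, hw, hwf, ?_, ?_⟩
  · intro t
    rw [hie, map_mul, map_add, map_mul, hwf, map_ofNat, map_ofNat, map_ofNat]
  · obtain ⟨a, ha⟩ : ∃ a, a = 61 + 36 * ι gw := ⟨_, rfl⟩
    obtain ⟨b, hb⟩ : ∃ b, b = 61 + 36 * (ι gw) ^ 2 := ⟨_, rfl⟩
    have hab : a * b = 2821 := by
      rw [ha, hb]
      linear_combination (1296 * ι gw + 900) * hw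
    have ha1 : ‖a‖ ≤ 1 := by
      rw [ha]
      refine norm_add_le' ?_ ?_
      · have := norm_int_le (p := p) 61; exact_mod_cast this
      · rw [norm_mul, norm_w hw, mul_one]
        have := norm_int_le (p := p) 36; exact_mod_cast this
    have hb1 : ‖b‖ ≤ 1 := by
      rw [hb]
      refine norm_add_le' ?_ ?_
      · have := norm_int_le (p := p) 61; exact_mod_cast this
      · rw [norm_mul, norm_pow, norm_w hw, one_pow, mul_one]
        have := norm_int_le (p := p) 36; exact_mod_cast this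
    have hn := congrArg norm hab
    rw [norm_mul, norm_2821 hp3] at hn
    have haf : ∀ t : Gp p, t a = a := by
      intro t
      rw [ha, map_add, map_mul, hwf, map_ofNat, map_ofNat]
    rcases PZ_of_fixed haf with ⟨n, hn'⟩ | h0
    · have h1 : n ≤ 0 := by
        by_contra h
        push Not at h
        have : (1 : ℝ) < (p : ℝ) ^ n := one_lt_zpow₀ one_lt_p h
        rw [hn'] at ha1
        linarith
      have h2 : -1 ≤ n := by
        by_contra h
        push Not at h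
        have h3 : ‖a‖ < (p : ℝ)⁻¹ := by
          rw [hn', ← zpow_neg_one]
          exact zpow_lt_zpow_right₀ one_lt_p h
        have h4 : ‖a‖ * ‖b‖ ≤ ‖a‖ := mul_le_of_le_one_right (norm_nonneg _) hb1
        rw [hn] at h4
        linarith
      refine ⟨n - 1, ?_, ?_⟩
      · rw [← norm_pow, hie, norm_mul, norm_2821 hp3, ← ha, hn', zpow_sub₀ hp0, zpow_one]
        ring
      · omega
    · rw [h0, zero_mul] at hn
      exact absurd hn.symm (inv_ne_zero hp0)

/-- the restriction lies in `NK` -/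
lemma res_mem_iff (hp3 : p = 7 ∨ p = 13 ∨ p = 31) (ι : Qbar →ₐ[ℚ] Cp p) (t : Gp p) :
    res ι t ∈ NK ↔ t (ι ge) = ι ge := by
  have hw : res ι t gw = gw := by
    have : ι (res ι t gw) = ι gw := by rw [res_spec, w_fixed' hp3]
    exact ι.injective this
  rw [mem_NK_iff_of_w hw, ← res_spec]
  exact ⟨fun h => by rw [h], fun h => ι.injective h⟩

lemma exists_tau (hp3 : p = 7 ∨ p = 13 ∨ p = 31) (ι : Qbar →ₐ[ℚ] Cp p) :
    ∃ τ : Gp p, τ (ι ge) = ι gw * ι ge ∧ res ι τ ∉ NK := by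
  have H := totram hp3 ι
  obtain ⟨τ, hτ⟩ := H.sigma
  refine ⟨τ, hτ, ?_⟩
  rw [res_mem_iff hp3, hτ]
  intro h
  have h0 := H.ne_zero
  have h1 : ι gw = 1 := by
    have : (ι gw - 1) * ι ge = 0 := by linear_combination h
    rcases mul_eq_zero.1 this with h2 | h2
    · exact sub_eq_zero.1 h2
    · exact absurd h2 h0
  have h2 := hiw ι
  rw [h1] at h2
  norm_num at h2

/-- an element of `K` -/
lemma inF_of_NK (hp3 : p = 7 ∨ p = 13 ∨ p = 31) (ι : Qbar →ₐ[ℚ] Cp p) {m : Qbar}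
    (hm : ∀ g ∈ NK, g m = m) : InF (ι ge) (ι m) := by
  intro t ht
  rw [← res_spec, hm _ ((res_mem_iff hp3 ι t).2 ht)]

lemma zmod13 : ∀ (n : ZMod 13) (k : Fin 6), n ^ 3 * 4 ^ (k : ℕ) = 1 → (k : ℕ) % 3 = 0 := by decide

lemma stepB1' (ι : Qbar →ₐ[ℚ] Cp 13) {m : Qbar} (hm : ∀ g ∈ NK, g m = m) (τ : Gp 13) {k : ℕ}
    (h : m * res ι τ m * res ι τ (res ι τ m) * (-1296) ^ k = 1) : 3 ∣ k := by
  have H := totram (Or.inr (Or.inl rfl)) ι
  have hF := inF_of_NK (Or.inr (Or.inl rfl)) ι hm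
  have h1 := congrArg ι h
  rw [map_mul, map_mul, map_mul, res_spec, res_spec, res_spec, map_pow, map_neg, map_ofNat,
    map_one] at h1
  have n1 : ‖(1296 : Cp 13)‖ = 1 := by
    have := norm_int_eq_one (p := 13) (n := 1296) (by norm_num)
    exact_mod_cast this
  have hn := congrArg norm h1
  rw [norm_mul, norm_mul, norm_mul, norm_gal, norm_gal, norm_gal, norm_pow, norm_neg, n1, one_pow,
    mul_one, norm_one] at hn
  have hn1 : ‖ι m‖ = 1 := by
    have : ‖ι m‖ ^ 3 = 1 := by rw [← hn]; ring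
    exact (pow_eq_one_iff_of_nonneg (norm_nonneg _) (by norm_num)).1 this
  obtain ⟨n, hn2⟩ := H.residue hF hn1.le
  obtain ⟨a, ha⟩ : ∃ a, a = ι m := ⟨_, rfl⟩
  rw [← ha] at h1 hn1 hn2
  have g1 : ‖τ a - n‖ < 1 := by
    have : τ a - n = τ (a - n) := by rw [map_sub, map_intCast]
    rw [this, norm_gal]
    exact hn2
  have g2 : ‖τ (τ a) - n‖ < 1 := by
    have : τ (τ a) - n = τ (τ a - n) := by rw [map_sub, map_intCast]
    rw [this, norm_gal]
    exact g1
  have g3 : ‖a * τ a * τ (τ a) - (n : Cp 13) ^ 3‖ < 1 := by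
    have e : a * τ a * τ (τ a) - (n : Cp 13) ^ 3 = (a - n) * (τ a * τ (τ a)) +
        ((τ a - n) * (n * τ (τ a)) + (τ (τ a) - n) * (n ^ 2)) := by ring
    rw [e]
    refine norm_add_lt ?_ (norm_add_lt ?_ ?_)
    · rw [norm_mul, norm_mul, norm_gal, norm_gal, norm_gal, hn1, mul_one, mul_one]
      exact hn2
    · rw [norm_mul, norm_mul, norm_gal, norm_gal, hn1, mul_one]
      exact lt_of_le_of_lt (mul_le_of_le_one_right (norm_nonneg _) (norm_int_le n)) g1
    · rw [norm_mul, norm_pow]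
      exact lt_of_le_of_lt (mul_le_of_le_one_right (norm_nonneg _)
        (pow_le_one₀ (norm_nonneg _) (norm_int_le n))) g2
  have g4 : ‖((1 - n ^ 3 * (-1296) ^ k : ℤ) : Cp 13)‖ < 1 := by
    have e : ((1 - n ^ 3 * (-1296) ^ k : ℤ) : Cp 13) =
        (a * τ a * τ (τ a) - (n : Cp 13) ^ 3) * (-1296) ^ k := by
      push_cast
      linear_combination -h1
    rw [e, norm_mul, norm_pow, norm_neg, n1, one_pow, mul_one]
    exact g3
  rw [norm_int_lt_iff] at g4
  have g5 := (ZMod.intCast_zmod_eq_zero_iff_dvd (1 - n ^ 3 * (-1296) ^ k) 13).2 g4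
  push_cast at g5
  have e4 : (-1296 : ZMod 13) = 4 := by decide
  rw [e4] at g5
  have e5 : (4 : ZMod 13) ^ k = 4 ^ (k % 6) := by
    have e6 : (4 : ZMod 13) ^ 6 = 1 := by decide
    conv_lhs => rw [← Nat.div_add_mod k 6, pow_add, pow_mul, e6, one_pow, one_mul]
  rw [e5] at g5
  have g6 := zmod13 (n : ZMod 13) ⟨k % 6, Nat.mod_lt _ (by norm_num)⟩ (sub_eq_zero.1 g5).symm
  simp only at g6
  omega

/-- an element moving `gd` -/
lemma exists_move (ι : Qbar →ₐ[ℚ] Cp 13) : ∃ g ∈ NK, g gw = gw ∧ g gd = gw * gd := by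
  have H := totram (Or.inr (Or.inl rfl)) ι
  have hw := hiw ι
  have hwf := w_fixed' (Or.inr (Or.inl rfl)) ι
  have hd := hid ι
  have hd1 : ‖ι gd‖ = 1 := by
    have h1 := congrArg norm hd
    rw [norm_pow, norm_neg] at h1
    have n1 : ‖(847 : Cp 13)‖ = 1 := by
      have := norm_int_eq_one (p := 13) (n := 847) (by norm_num)
      exact_mod_cast this
    rw [n1] at h1
    exact (pow_eq_one_iff_of_nonneg (norm_nonneg _) (by norm_num)).1 h1
  have hex : ∃ t : Gp 13, t (ι ge) = ι ge ∧ t (ι gd) ≠ ι gd := by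
    by_contra hno
    push Not at hno
    have hF : InF (ι ge) (ι gd) := hno
    obtain ⟨n, hn⟩ := H.residue hF hd1.le
    have g4 : ‖((n ^ 3 + 847 : ℤ) : Cp 13)‖ < 1 := by
      have e : ((n ^ 3 + 847 : ℤ) : Cp 13) =
          -((ι gd - n) * ((ι gd) ^ 2 + (ι gd * n + n ^ 2))) := by
        push_cast
        linear_combination hd
      rw [e, norm_neg, norm_mul]
      refine lt_of_le_of_lt (mul_le_of_le_one_right (norm_nonneg _) ?_) hn
      refine norm_add_le' ?_ (norm_add_le' ?_ ?_)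
      · rw [norm_pow, hd1, one_pow]
      · rw [norm_mul, hd1, one_mul]
        exact norm_int_le n
      · rw [norm_pow]
        exact pow_le_one₀ (norm_nonneg _) (norm_int_le n)
    rw [norm_int_lt_iff] at g4
    have g5 := (ZMod.intCast_zmod_eq_zero_iff_dvd (n ^ 3 + 847) 13).2 g4
    push_cast at g5
    have key : ∀ n : ZMod 13, n ^ 3 + 847 ≠ 0 := by decide
    exact key _ g5
  obtain ⟨t, ht, hne⟩ := hex
  have ht3 : (t (ι gd)) ^ 3 = (ι gd) ^ 3 := by rw [← map_pow, hd, map_neg, map_ofNat]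
  have hw3 : (ι gw) ^ 3 = 1 := by rw [← map_pow, gw3, map_one]
  have mk : ∀ t : Gp 13, t (ι ge) = ι ge → t (ι gd) = ι gw * ι gd →
      ∃ g ∈ NK, g gw = gw ∧ g gd = gw * gd := by
    intro t ht htd
    refine ⟨res ι t, (res_mem_iff (Or.inr (Or.inl rfl)) ι t).2 ht, ?_, ?_⟩
    · have : ι (res ι t gw) = ι gw := by rw [res_spec, hwf]
      exact ι.injective this
    · have : ι (res ι t gd) = ι (gw * gd) := by rw [res_spec, htd, map_mul]
      exact ι.injective this
  rcases cube_eq_iff hw ht3 with h | h | h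
  · exact absurd h hne
  · exact mk t ht h
  · refine mk (t * t) (by rw [AlgEquiv.mul_apply, ht, ht]) ?_
    rw [AlgEquiv.mul_apply, h, map_mul, map_pow, hwf, h]
    linear_combination (ι gw * ι gd) * hw3

/-- fixed torsion points -/
lemma tors_fixed (ι : Qbar →ₐ[ℚ] Cp 13) {T : Pt Qbar} (hT : 3 • T = 0)
    (h : ∀ g ∈ NK, g • T = T) : ∃ i : ℕ, T = i • P3 := by
  obtain ⟨g, hg, hgw', hgd'⟩ := exists_move ι
  obtain ⟨i, j, rfl⟩ := tors_eq hgw hgd hT
  obtain ⟨k, hk1, hk2⟩ := smul_T1 g hgw'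
  have hk3 : (k + 2) % 3 = 0 := by
    have h1 : gw ^ (k + 2) = 1 := by
      have h2 : gw ^ k * gd = gw * gd := by rw [← hk1, hgd']
      have hd0 : gd ≠ 0 := by
        intro h0
        have := hgd
        rw [h0] at this
        norm_num at this
      have h3 : gw ^ k = gw := mul_right_cancel₀ hd0 h2
      rw [pow_add, h3]
      linear_combination gw3
    have := w_pow_eq_one hgw h1
    omega
  have h1 := h g hg
  rw [smul_add, smul_comm g i, smul_comm g j, smul_P3] at h1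
  have h2 : g • T1 gw gd hgw hgd = T1 gw gd hgw hgd - k • P3 := by
    rw [eq_sub_iff_add_eq]
    exact hk2
  rw [h2, smul_sub, ← mul_smul] at h1
  have h3 : (j * k) • (P3 : Pt Qbar) = 0 := by
    have h4 : i • (P3 : Pt Qbar) + (j • T1 gw gd hgw hgd - (j * k) • P3) =
      i • P3 + j • T1 gw gd hgw hgd := h1
    have h5 := add_left_cancel h4
    exact sub_eq_self.1 h5
  have h4 : 3 ∣ j * k := by
    have ho : addOrderOf (P3 : Pt Qbar) = 3 := addOrderOf_eq_prime three_P (pt_ne_zero _)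
    rw [← ho]
    exact addOrderOf_dvd_of_nsmul_eq_zero h3
  have h5 : 3 ∣ j := by
    rcases (Nat.prime_three.dvd_mul).1 h4 with h6 | h6
    · exact h6
    · omega
  obtain ⟨l, rfl⟩ := h5
  refine ⟨i, ?_⟩
  rw [mul_comm 3 l, mul_smul, three_T, smul_zero, add_zero]

lemma P3_cases {L : Type*} [Field L] [Algebra ℚ L] [DecidableEq L] (i : ℕ) :
    i • (P3 : Pt L) = 0 ∨ i • (P3 : Pt L) = P3 ∨ i • (P3 : Pt L) = P3 + P3 := by
  have h3 : 3 • (P3 : Pt L) = 0 := three_P
  have h : i • (P3 : Pt L) = (i % 3) • P3 := by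
    conv_lhs => rw [← Nat.div_add_mod i 3, add_smul, mul_comm, mul_smul, h3, smul_zero, zero_add]
  rw [h]
  have : i % 3 < 3 := Nat.mod_lt _ (by norm_num)
  obtain ⟨r, hr⟩ : ∃ r, r = i % 3 := ⟨_, rfl⟩
  rw [← hr] at this ⊢
  interval_cases r
  · left; exact zero_smul _ _
  · right; left; exact one_smul _ _
  · right; right; exact two_smul _ _

end Pool.Agent.W94.F3
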