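import Mathlib
import Pool.Agent.W94.F3.Main2

/-!
# Extension of classes to the absolute Galois group of `ℚ`
-/

set_option autoImplicit false
set_option linter.unusedSectionVars false

namespace Pool.Agent.W94.F3

open scoped Classical

section grp

variable {G : Type*} [Group G]

lemma grp1 (s n : G) : s * (s * (s * n * s⁻¹) * s⁻¹) * s⁻¹ = s ^ 3 * n * (s ^ 3)⁻¹ := by
  simp only [pow_succ, pow_zero, one_mul]
  group
lemma grp2 (s n : G) : s * (s * (s * n * s⁻¹)) = (s ^ 3 * n * (s ^ 3)⁻¹) * s ^ 2 := by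
  simp only [pow_succ, pow_zero, one_mul]
  group
lemma grp3 (s n : G) : s * (s * (s * n * s⁻¹) * s⁻¹) = (s ^ 3 * n * (s ^ 3)⁻¹) * s := by
  simp only [pow_succ, pow_zero, one_mul]
  group
lemma grp4 (s : G) : s * (s * s) = s ^ 3 := by
  simp only [pow_succ, pow_zero, one_mul]
  group
lemma grp5 (s : G) : s * s = s ^ 2 := (sq s).symm
lemma grp6 (s g : G) : g * s ^ 3 = s ^ 3 * (s⁻¹ * (s⁻¹ * (s⁻¹ * g * s) * s) * s) := by
  simp only [pow_succ, pow_zero, one_mul]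
  group
lemma grp7 (s g : G) : g = s ^ 3 * (s⁻¹ * (s⁻¹ * (s⁻¹ * g * s) * s) * s) * (s ^ 3)⁻¹ := by
  simp only [pow_succ, pow_zero, one_mul]
  group
lemma grp8 (s : G) : s ^ 3 = s * s * s := by
  simp only [pow_succ, pow_zero, one_mul]

end grp

lemma stepB2 {c : GQ → Pt Qbar} (hc : Coc NK c) (hl : LocAt c) (ι : Qbar →ₐ[ℚ] Cp 13) (τ : Gp 13)
    (hτ : τ (ι ge) = ι gw * ι ge) (b : Pt Qbar) (hb3 : 3 • b = 0)
    (h : ∀ g ∈ NK, res ι τ • c ((res ι τ)⁻¹ * g * res ι τ) - c g = g • b - b) :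
    c ((res ι τ) ^ 3) = b + res ι τ • b + (res ι τ) ^ 2 • b := by
  have H := totram (Or.inr (Or.inl rfl)) ι
  have hwf := w_fixed' (Or.inr (Or.inl rfl)) ι
  obtain ⟨s, hs⟩ : ∃ s, s = res ι τ := ⟨_, rfl⟩
  rw [← hs] at h ⊢
  have hs3 := cube_mem s
  -- conjugation formula
  have hb : ∀ g ∈ NK, c (s * g * s⁻¹) = s • c g + b - (s * g * s⁻¹) • b := by
    intro g hg
    have h1 := h _ (NK_normal s g hg)
    have e : s⁻¹ * (s * g * s⁻¹) * s = g := by group
    rw [e] at h1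
    have : s • c g - c (s * g * s⁻¹) = (s * g * s⁻¹) • b - b := h1
    have h2 : c (s * g * s⁻¹) = s • c g - ((s * g * s⁻¹) • b - b) := by rw [← this]; abel
    rw [h2]
    abel
  obtain ⟨ob, hob⟩ : ∃ ob, ob = c (s ^ 3) - (b + s • b + s ^ 2 • b) := ⟨_, rfl⟩
  have hob3 : 3 • ob = 0 := by
    rw [hob]
    exact tors_sub (hc.tors _ hs3) (tors_add (tors_add hb3 (three_smul_g s hb3))
      (three_smul_g _ hb3))
  have hobf : ∀ g ∈ NK, g • ob = ob := by
    intro g hg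
    -- write `g = s³ n s⁻³`
    obtain ⟨n, hn⟩ : ∃ n, n = s⁻¹ * (s⁻¹ * (s⁻¹ * g * s) * s) * s := ⟨_, rfl⟩
    have hnN : n ∈ NK := by rw [hn]; exact conj_mem s (conj_mem s (conj_mem s hg))
    have e1 : g = s ^ 3 * n * (s ^ 3)⁻¹ := by
      rw [hn]; exact grp7 s g
    have h1 := hb n hnN
    have h2 := hb _ (NK_normal s n hnN)
    have h3 := hb _ (NK_normal s _ (NK_normal s n hnN))
    have e2 : s * (s * (s * n * s⁻¹) * s⁻¹) * s⁻¹ = g := by
      rw [e1]; exact grp1 s n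
    rw [e2] at h3
    rw [h2, h1] at h3
    have h4 : c g = c (s ^ 3) + s ^ 3 • c n - g • c (s ^ 3) := by
      have h5 := hc.mul _ hg _ hs3
      have e3 : g * s ^ 3 = s ^ 3 * n := by rw [e1]; group
      rw [e3, hc.mul _ hs3 _ hnN] at h5
      rw [h5]
      abel
    rw [h4] at h3
    simp only [smul_add, smul_sub, ← mul_smul] at h3
    have e4 : s * (s * (s * n * s⁻¹)) = g * s ^ 2 := by rw [e1]; exact grp2 s n
    have e5 : s * (s * (s * n * s⁻¹) * s⁻¹) = g * s := by rw [e1]; exact grp3 s n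
    have e6 : s * (s * s) = s ^ 3 := grp4 s
    have e7 : s * s = s ^ 2 := grp5 s
    rw [e4, e5, e6, e7] at h3
    rw [hob, smul_sub, smul_add, smul_add, ← mul_smul, ← mul_smul]
    have h6 : g • c (s ^ 3) = c (s ^ 3) + s ^ 3 • c n -
        (s ^ 3 • c n + s ^ 2 • b - (g * s ^ 2) • b + s • b - (g * s) • b + b - g • b) := by
      have h7 : s ^ 3 • c n + s ^ 2 • b - (g * s ^ 2) • b + (s • b - (g * s) • b) + b - g • b =
          s ^ 3 • c n + s ^ 2 • b - (g * s ^ 2) • b + s • b - (g * s) • b + b - g • b := by abel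
      rw [← h7]
      first
        | (rw [show s ^ 3 • c n + s ^ 2 • b - (g * s ^ 2) • b + (s • b - (g * s) • b) + b - g • b =
            c (s ^ 3) + s ^ 3 • c n - g • c (s ^ 3) from by rw [h3]; abel]; abel)
    rw [h6]
    abel
  obtain ⟨i, hi⟩ := tors_fixed ι hob3 hobf
  -- the local computation
  obtain ⟨R, hR⟩ := hl 13 ι
  obtain ⟨β, hβ⟩ : ∃ β, β = pm ι b := ⟨_, rfl⟩
  have hτi : ∀ X : Pt (Cp 13), lact τ (lact τ⁻¹ X) = X := by
    intro X
    rw [← lact_mul, mul_inv_cancel, lact_one]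
  have hV : ∀ t : Gp 13, t (ι ge) = ι ge →
      lact t (lact τ R - R - β) = lact τ R - R - β := by
    intro t ht
    have htN := (res_mem_iff (Or.inr (Or.inl rfl)) ι t).2 ht
    have h1 := h _ htN
    have e1 : s⁻¹ * res ι t * s = res ι (τ⁻¹ * t * τ) := by
      rw [res_mul, res_mul, res_inv, hs]
    have h2 : res ι (τ⁻¹ * t * τ) ∈ NK := by
      rw [← e1]
      exact conj_mem s htN
    have h3 := congrArg (pm ι) h1
    rw [map_sub, map_sub, e1, hs, pm_res, pm_res, hR _ h2, hR _ htN, map_sub, lact_mul, lact_mul,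
      hτi, ← hβ] at h3
    rw [map_sub, map_sub]
    have h4 : lact t (lact τ R) = lact τ R + (lact t R - R) + (lact t β - β) := by
      rw [← h3]; abel
    rw [h4]
    abel
  have hS : ∀ t : Gp 13, t (ι ge) = ι ge → lact t (3 • R) = 3 • R := by
    intro t ht
    have htN := (res_mem_iff (Or.inr (Or.inl rfl)) ι t).2 ht
    have h1 := hR t htN
    have h2 : 3 • (lact t R - R) = 0 := by
      rw [← h1, ← map_nsmul, hc.tors _ htN, pm_zero]
    rw [map_nsmul]
    rw [smul_sub] at h2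
    exact sub_eq_zero.1 h2
  have hconj : ∀ t : Gp 13, t (ι ge) = ι ge → (τ⁻¹ * t * τ) (ι ge) = ι ge := by
    intro t ht
    rw [AlgEquiv.mul_apply, AlgEquiv.mul_apply, hτ, map_mul, hwf, ht, ← hτ]
    exact τ.symm_apply_apply _
  have hfix : ∀ X : Pt (Cp 13), (∀ t : Gp 13, t (ι ge) = ι ge → lact t X = X) →
      ∀ t : Gp 13, t (ι ge) = ι ge → lact t (lact τ X) = lact τ X := by
    intro X hX t ht
    have h1 := hX _ (hconj t ht)
    have h2 := congrArg (lact τ) h1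
    rw [lact_mul, lact_mul, hτi] at h2
    exact h2
  obtain ⟨V, hVd⟩ : ∃ V, V = lact τ R - R - β := ⟨_, rfl⟩
  rw [← hVd] at hV
  obtain ⟨S, hSd⟩ : ∃ S, S = 3 • R := ⟨_, rfl⟩
  rw [← hSd] at hS
  have hZ : ∀ t : Gp 13, t (ι ge) = ι ge →
      lact t (lact τ V - V + lact τ S) = lact τ V - V + lact τ S := by
    intro t ht
    rw [map_add, map_sub, hfix V hV t ht, hV t ht, hfix S hS t ht]
  have hL := L13 H (by norm_num) τ hτ _ hZ
  have hβ3 : 3 • β = 0 := by rw [hβ, ← map_nsmul, hb3, pm_zero]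
  have hkey : pm ι ob = lact τ (lact τ V - V + lact τ S) - (lact τ V - V + lact τ S) := by
    have e1 : s ^ 3 = res ι (τ * τ * τ) := by rw [res_mul, res_mul, hs]; exact grp8 _
    have e2 : s ^ 2 = res ι (τ * τ) := by rw [res_mul, hs]; exact (grp5 _).symm
    have h5 : res ι (τ * τ * τ) ∈ NK := by rw [← e1]; exact hs3
    rw [hob, map_sub, map_add, map_add, e1, hR _ h5, e2, hs, pm_res, pm_res, ← hβ, lact_mul,
      lact_mul, lact_mul]
    have e3 : lact τ R = V + R + β := by rw [hVd]; abel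
    have e4 : lact τ S = S + 3 • V := by
      rw [hSd, map_nsmul, e3, smul_add, smul_add, hβ3]
      abel
    have e5 : lact τ V - V + lact τ S = lact τ V + 2 • V + S := by
      rw [e4]
      abel
    rw [e5, map_add, map_add, map_nsmul, e4, e3]
    simp only [map_add]
    rw [e3]
    simp only [map_add]
    rw [e3]
    rw [hSd]
    abel
  rcases P3_cases (L := Qbar) i with h0 | h0 | h0
  · rw [h0] at hi
    rw [hi] at hob
    have : c (s ^ 3) = (c (s ^ 3) - (b + s • b + s ^ 2 • b)) + (b + s • b + s ^ 2 • b) := by abel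
    rw [this, ← hob, zero_add]
  · exfalso
    apply hL.1
    rw [hi, h0, pm_P3] at hkey
    rw [hkey]
    abel
  · exfalso
    apply hL.2
    rw [hi, h0, map_add, pm_P3] at hkey
    rw [add_assoc, hkey]
    abel

instance finK : FiniteDimensional ℚ K := by
  unfold K
  apply IntermediateField.finiteDimensional_adjoin
  intro z _
  exact Algebra.IsIntegral.isIntegral z

lemma FixM_K {g : GQ} (h : FixM K g) : g ∈ NK := mem_fixing.2 (h _ gu0_mem)

lemma Bs_tors {s : GQ} {b : Pt Qbar} (hb : 3 • b = 0) (i : ℕ) : 3 • Bs s b i = 0 := by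
  induction i with
  | zero => exact smul_zero 3
  | succ i ih =>
    unfold Bs
    exact tors_add hb (three_smul_g s ih)

lemma stepB3 {c : GQ → Pt Qbar} (hc : Coc NK c) (hl : LocAt c) {s : GQ} (hs : s ∉ NK)
    (b : Pt Qbar) (hb3 : 3 • b = 0)
    (h : ∀ g ∈ NK, s • c (s⁻¹ * g * s) - c g = g • b - b)
    (hob : c (s ^ 3) = b + s • b + s ^ 2 • b) :
    ∃ Ξ : GQ → Pt Qbar, Coc ⊤ Ξ ∧ LocAt Ξ ∧ ∀ n ∈ NK, Ξ n = c n := by
  obtain ⟨Ξ, h1, h2, h3⟩ := ext_cocycle NK s (fun n hn => NK_normal s n hn) (cube_mem s)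
    (exists_pow_mem hs) (fun i hi => pow_mem_dvd hs hi) c (fun g hg h hh => hc.mul g hg h hh) b
    (by
      intro n hn
      have h1 := h _ (NK_normal s n hn)
      have e : s⁻¹ * (s * n * s⁻¹) * s = n := by group
      rw [e] at h1
      have : s • c n = c (s * n * s⁻¹) + ((s * n * s⁻¹) • b - b) := by rw [← h1]; abel
      rw [this]
      abel) hob
  refine ⟨Ξ, ⟨?_, fun g _ h _ => h1 g h, ?_⟩, ?_, h2⟩
  · intro g _
    obtain ⟨n, hn, i, hi⟩ := h3 g
    rw [hi]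
    exact tors_add (hc.tors n hn) (three_smul_g n (Bs_tors hb3 i))
  · obtain ⟨M, hM, h4⟩ := hc.cont
    refine ⟨M ⊔ K, inferInstance, fun g _ hg => ?_⟩
    have hgN := FixM_K (hg.mono le_sup_right)
    rw [h2 g hgN]
    exact h4 g hgN (hg.mono le_sup_left)
  · intro p _ ι
    obtain ⟨R, hR⟩ := hl p ι
    refine ⟨R, fun t ht => ?_⟩
    rw [h2 _ ht]
    exact hR t ht

/-- the classes which are combinations of the class of `(88, 792)` and coboundaries -/
def InA (c : GQ → Pt Qbar) : Prop := ∃ (k : ℕ) (T : Pt Qbar), 3 • T = 0 ∧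
  ∀ h ∈ NK, c h = k • cP h + (h • T - T)

lemma exists_iota (p : ℕ) [Fact p.Prime] : Nonempty (Qbar →ₐ[ℚ] Cp p) := ⟨IsAlgClosed.lift⟩

/-- Nakayama's argument -/
lemma nakayama (main : ∀ Ξ : GQ → Pt Qbar, Coc ⊤ Ξ → LocAt Ξ → InA Ξ) {c : GQ → Pt Qbar}
    (hc : Coc NK c) (hl : LocAt c) : InA c := by
  obtain ⟨ι⟩ := exists_iota 13
  obtain ⟨τ, hτ, hτN⟩ := exists_tau (Or.inr (Or.inl rfl)) ι
  obtain ⟨s, hs⟩ : ∃ s, s = res ι τ := ⟨_, rfl⟩
  -- one step
  have one : ∀ c : GQ → Pt Qbar, Coc NK c → LocAt c →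
      InA (fun g => s • c (s⁻¹ * g * s) - c g) → InA c := by
    intro c hc hl hA
    obtain ⟨k, b, hb3, h⟩ := hA
    have hk : 3 ∣ k := by
      obtain ⟨m, hm, hmk⟩ := stepB1 hc (s := s) (by rw [hs]; exact hτN) k b hb3 h
      rw [hs] at hmk
      exact stepB1' ι hm τ hmk
    have h' : ∀ g ∈ NK, s • c (s⁻¹ * g * s) - c g = g • b - b := by
      intro g hg
      have h1 : k • cP g = 0 := by
        obtain ⟨l, rfl⟩ := hk
        rw [mul_comm, mul_smul, cP_tors, smul_zero]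
      have h2 := h g hg
      rw [h1, zero_add] at h2
      exact h2
    have hob : c (s ^ 3) = b + s • b + s ^ 2 • b := by
      subst hs
      exact stepB2 hc hl ι τ hτ b hb3 h'
    obtain ⟨Ξ, h1, h2, h3⟩ := stepB3 hc hl (by rw [hs]; exact hτN) b hb3 h' hob
    obtain ⟨k', T, hT, h4⟩ := main Ξ h1 h2
    exact ⟨k', T, hT, fun g hg => by rw [← h3 g hg, h4 g hg]⟩
  -- the operator `D`
  let D : (GQ → Pt Qbar) → (GQ → Pt Qbar) := fun c g => s • c (s⁻¹ * g * s) - c g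
  have hD : ∀ c : GQ → Pt Qbar, Coc NK c → LocAt c → Coc NK (D c) ∧ LocAt (D c) := by
    intro c hc hl
    constructor
    · have := (hc.twist s).add hc.neg
      have e : (fun g => s • c (s⁻¹ * g * s) + -c g) = D c := by
        funext g
        change _ = s • c (s⁻¹ * g * s) - c g
        rw [sub_eq_add_neg]
      rwa [e] at this
    · have := (hl.twist s).add hl.neg
      have e : (fun g => s • c (s⁻¹ * g * s) + -c g) = D c := by
        funext g
        change _ = s • c (s⁻¹ * g * s) - c g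
        rw [sub_eq_add_neg]
      rwa [e] at this
  obtain ⟨hc1, hl1⟩ := hD c hc hl
  obtain ⟨hc2, hl2⟩ := hD _ hc1 hl1
  refine one c hc hl (one _ hc1 hl1 (one _ hc2 hl2 ?_))
  -- the third iterate is a coboundary
  refine ⟨0, c (s ^ 3), hc.tors _ (cube_mem s), fun g hg => ?_⟩
  rw [zero_smul, zero_add]
  change s • (s • (s • c (s⁻¹ * (s⁻¹ * (s⁻¹ * g * s) * s) * s) - c (s⁻¹ * (s⁻¹ * g * s) * s)) -
    (s • c (s⁻¹ * (s⁻¹ * g * s) * s) - c (s⁻¹ * g * s))) -
    (s • (s • c (s⁻¹ * (s⁻¹ * g * s) * s) - c (s⁻¹ * g * s)) -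
    (s • c (s⁻¹ * g * s) - c g)) = _
  have hg1 := conj_mem s hg
  have hg2 := conj_mem s hg1
  have hg3 := conj_mem s hg2
  have t1 := three_smul_g s (hc.tors _ hg1)
  have t2 := three_smul_g s (three_smul_g s (hc.tors _ hg2))
  have e3 : s • s • s • c (s⁻¹ * (s⁻¹ * (s⁻¹ * g * s) * s) * s) = c g + g • c (s ^ 3) - c (s ^ 3) := by
    have h5 := hc.mul _ hg _ (cube_mem s)
    have h6 := hc.mul _ (cube_mem s) _ hg3
    have e : g * s ^ 3 = s ^ 3 * (s⁻¹ * (s⁻¹ * (s⁻¹ * g * s) * s) * s) := grp6 s g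
    rw [e] at h5
    rw [h5] at h6
    have e7 : s • s • s • c (s⁻¹ * (s⁻¹ * (s⁻¹ * g * s) * s) * s) =
        s ^ 3 • c (s⁻¹ * (s⁻¹ * (s⁻¹ * g * s) * s) * s) := by
      rw [← mul_smul, ← mul_smul]
      congr 1
    rw [e7]
    have h8 : s ^ 3 • c (s⁻¹ * (s⁻¹ * (s⁻¹ * g * s) * s) * s) = c (s ^ 3) +
        s ^ 3 • c (s⁻¹ * (s⁻¹ * (s⁻¹ * g * s) * s) * s) - c (s ^ 3) := by abel
    rw [h8, ← h6]
  simp only [smul_sub]
  rw [e3]
  obtain ⟨X, hX⟩ : ∃ X, X = s • c (s⁻¹ * g * s) := ⟨_, rfl⟩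
  obtain ⟨Y, hY⟩ : ∃ Y, Y = s • s • c (s⁻¹ * (s⁻¹ * g * s) * s) := ⟨_, rfl⟩
  rw [← hX] at t1 ⊢
  rw [← hY] at t2 ⊢
  have t3 : c g + g • c (s ^ 3) - c (s ^ 3) - Y - (Y - X) - (Y - X - (X - c g)) =
      g • c (s ^ 3) - c (s ^ 3) - 3 • Y + 3 • X := by abel
  rw [t3, t1, t2]
  abel

end Pool.Agent.W94.F3
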