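import Mathlib
import Pool.Agent.W94.F3.Main3

/-!
# The Kummer generator of a class over `ℚ`
-/

set_option autoImplicit false
set_option linter.unusedSectionVars false

namespace Pool.Agent.W94.F3

open scoped Classical

section local1

variable {p : ℕ} [hp : Fact p.Prime]

lemma HP_zero_congr {L : Type*} [Field L] [Algebra ℚ L] [DecidableEq L] {R R' : Pt L}
    (h3 : 3 • R ≠ 0) (h3' : 3 • R' ≠ 0) (h : HP R = 0) (h' : HP R' = 0) : 3 • R = 3 • R' := by
  have e1 := H_rel' h3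
  have e2 := H_rel' h3'
  obtain ⟨a1, a2⟩ := triple' h3
  obtain ⟨b1, b2⟩ := triple' h3'
  rw [h] at e1
  rw [h'] at e2
  have e3 : HM R ^ 3 = HM R' ^ 3 := by linear_combination e1 - e2
  rw [a2, b2, pt_inj, h, h', e3]
  constructor
  · ring
  · rfl

lemma HP_zero_ne {L : Type*} [Field L] [Algebra ℚ L] [DecidableEq L] {R : Pt L}
    (h3 : 3 • R ≠ 0) (h : HP R = 0) : 3 • R ≠ T2 := by
  have : CharZero L := algebraRat.charZero L
  obtain ⟨a1, a2⟩ := triple' h3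
  rw [a2]
  unfold T2
  rw [Ne, pt_inj, h]
  rintro ⟨h1, -⟩
  norm_num at h1

lemma good_R {Ξ : GQ → Pt Qbar} (hl : LocAt Ξ) (ι : Qbar →ₐ[ℚ] Cp p) :
    ∃ R : Pt (Cp p), 3 • R ≠ 0 ∧ HP R ≠ 0 ∧
      ∀ t : Gp p, res ι t ∈ NK → pm ι (Ξ (res ι t)) = lact t R - R := by
  obtain ⟨R, hR⟩ := hl p ι
  have hR' : ∀ t : Gp p, res ι t ∈ NK → pm ι (Ξ (res ι t)) = lact t (R + T2) - (R + T2) := by
    intro t ht
    rw [hR t ht, map_add, lact_T2]
    abel
  have e3 : 3 • (R + T2) = 3 • R + T2 := by rw [nsmul_add, three_T2]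
  by_cases h3 : 3 • R = 0
  · have h3' : 3 • (R + T2) ≠ 0 := by
      rw [e3, h3, zero_add]
      exact T2_ne
    refine ⟨R + T2, h3', ?_, hR'⟩
    intro h
    apply HP_zero_ne h3' h
    rw [e3, h3, zero_add]
  · by_cases hH : HP R = 0
    · have h3' : 3 • (R + T2) ≠ 0 := by
        rw [e3]
        intro h
        apply HP_zero_ne h3 hH
        rw [eq_neg_of_add_eq_zero_left h, neg_T2]
      refine ⟨R + T2, h3', ?_, hR'⟩
      intro h
      have := HP_zero_congr h3 h3' hH h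
      rw [e3] at this
      exact T2_ne (left_eq_add.1 this)
    · exact ⟨R, h3, hH, hR⟩

lemma loc_eqv (ι : Qbar →ₐ[ℚ] Cp p) {R : Pt (Cp p)} (hR3 : 3 • R ≠ 0) {T : Pt Qbar}
    (hT : 3 • T = 0) {t' : Gp p} (h : pm ι T = lact t' R - R) :
    t' (HP R) = ι (eps T) * HP R ∧ t' (HM R) = ι (eps T) ^ 2 * HM R := by
  have h3 : 3 • pm ι T = 0 := by rw [← map_nsmul, hT, pm_zero]
  have h1 := (eps_spec (hiw ι) (hid ι) h3).1 R hR3
  have e : R + pm ι T = lact t' R := by rw [h]; abel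
  rw [e, lact_HP, lact_HM, eps_pm] at h1
  exact h1

lemma norm_ge (h28 : ¬ (p : ℤ) ∣ 2821) (ι : Qbar →ₐ[ℚ] Cp p) : ‖ι ge‖ = 1 := by
  have hw := hiw ι
  obtain ⟨a, ha⟩ : ∃ a, a = 61 + 36 * ι gw := ⟨_, rfl⟩
  obtain ⟨b, hb⟩ : ∃ b, b = 61 + 36 * (ι gw) ^ 2 := ⟨_, rfl⟩
  have hab : a * b = 2821 := by
    rw [ha, hb]
    linear_combination (1296 * ι gw + 900) * hw
  have ha1 : ‖a‖ ≤ 1 := by
    rw [ha]
    refine norm_add_le' ?_ ?_
    · have := norm_int_le (p := p) 61; exact_mod_cast this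
    · rw [norm_mul, norm_w hw, mul_one]
      have := norm_int_le (p := p) 36; exact_mod_cast this
  have hb1 : ‖b‖ ≤ 1 := by
    rw [hb]
    refine norm_add_le' ?_ ?_
    · have := norm_int_le (p := p) 61; exact_mod_cast this
    · rw [norm_mul, norm_pow, norm_w hw, one_pow, mul_one]
      have := norm_int_le (p := p) 36; exact_mod_cast this
  have h1 : ‖(2821 : Cp p)‖ = 1 := by
    have := norm_int_eq_one (p := p) (n := 2821) h28
    exact_mod_cast this
  have hn := congrArg norm hab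
  rw [norm_mul, h1] at hn
  have ha2 : ‖a‖ = 1 := by
    refine le_antisymm ha1 ?_
    calc (1 : ℝ) = ‖a‖ * ‖b‖ := hn.symm
      _ ≤ ‖a‖ := mul_le_of_le_one_right (norm_nonneg _) hb1
  have h3 : ‖ι ge‖ ^ 3 = 1 := by
    rw [← norm_pow, hie, norm_mul, h1, ← ha, ha2, mul_one]
  exact (pow_eq_one_iff_of_nonneg (norm_nonneg _) (by norm_num)).1 h3

/-- restriction of automorphisms fixing `w` and `ge` -/
lemma res_mem_of_fix (ι : Qbar →ₐ[ℚ] Cp p) {t : Gp p} (h1 : t (ι gw) = ι gw)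
    (h2 : t (ι ge) = ι ge) : res ι t gw = gw ∧ res ι t ge = ge ∧ res ι t ∈ NK := by
  have e1 : res ι t gw = gw := by
    have : ι (res ι t gw) = ι gw := by rw [res_spec, h1]
    exact ι.injective this
  have e2 : res ι t ge = ge := by
    have : ι (res ι t ge) = ι ge := by rw [res_spec, h2]
    exact ι.injective this
  exact ⟨e1, e2, (mem_NK_iff_of_w e1).2 e2⟩

lemma dvd6 (h2 : p ≠ 2) (h3 : p ≠ 3) : ¬ (p : ℤ) ∣ 288 := by
  intro h
  have h' : p ∣ 2 ^ 5 * 3 ^ 2 := by exact_mod_cast h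
  rcases (hp.1.dvd_mul).1 h' with h4 | h4
  · exact h2 ((Nat.prime_dvd_prime_iff_eq hp.1 Nat.prime_two).1 (hp.1.dvd_of_dvd_pow h4))
  · exact h3 ((Nat.prime_dvd_prime_iff_eq hp.1 Nat.prime_three).1 (hp.1.dvd_of_dvd_pow h4))

lemma stepC1 {Ξ : GQ → Pt Qbar} (hΞ : Coc ⊤ Ξ) (hl : LocAt Ξ) {t : Qbar} (ht0 : t ≠ 0)
    (ht : ∀ g : GQ, g t = eps (Ξ g) * t) (h2 : p ≠ 2) (h3 : p ≠ 3) (h28 : ¬ (p : ℤ) ∣ 2821)
    (ι : Qbar →ₐ[ℚ] Cp p) : PZ p ‖ι t‖ := by
  obtain ⟨R, hR3, hRH, hR⟩ := good_R hl ι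
  have hw := hiw ι
  have hι0 : ι t ≠ 0 := (map_ne_zero_iff ι ι.injective).2 ht0
  have he : ∀ t' : Gp p, t' (ι gw) = ι gw → t' (ι ge ^ 3) = ι ge ^ 3 := by
    intro t' ht'
    rw [hie, map_mul, map_add, map_mul, ht', map_ofNat, map_ofNat, map_ofNat]
  have key : ∀ t' : Gp p, t' (ι gw) = ι gw → t' (ι ge) = ι ge →
      ∃ z : Cp p, z ^ 3 = 1 ∧ t' (HP R) = z * HP R ∧ t' (HM R) = z ^ 2 * HM R ∧
        t' (ι t) = z * ι t := by
    intro t' h4 h5
    obtain ⟨-, -, hN⟩ := res_mem_of_fix ι h4 h5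
    have hT := hΞ.tors (res ι t') trivial
    obtain ⟨h6, h7⟩ := loc_eqv ι hR3 hT (hR t' hN)
    refine ⟨ι (eps (Ξ (res ι t'))), ?_, h6, h7, ?_⟩
    · rw [← map_pow, eps_cube hT, map_one]
    · rw [← res_spec, ht, map_mul]
  have hn := norm_ge h28 ι
  have c1 : PZ p ‖ι t / HP R‖ ∨ ‖ι t / HP R‖ = 0 := by
    apply VG h3 hw hn he
    intro t' h4 h5
    obtain ⟨z, hz, e1, e2, e3⟩ := key t' h4 h5
    have hz0 : z ≠ 0 := by
      rintro rfl
      norm_num at hz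
    rw [map_div₀, e1, e3, mul_div_mul_left _ _ hz0]
  have c1' : PZ p ‖ι t / HP R‖ := by
    rcases c1 with h | h
    · exact h
    · rw [norm_eq_zero] at h
      exact absurd h (div_ne_zero hι0 hRH)
  have c2 : PZ p ‖HP R ^ 3‖ ∨ ‖HP R ^ 3‖ = 0 := by
    apply VG h3 hw hn he
    intro t' h4 h5
    obtain ⟨z, hz, e1, e2, e3⟩ := key t' h4 h5
    rw [map_pow, e1, mul_pow, hz, one_mul]
  have c3 : PZ p ‖HP R * HM R‖ ∨ ‖HP R * HM R‖ = 0 := by
    apply VG h3 hw hn he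
    intro t' h4 h5
    obtain ⟨z, hz, e1, e2, e3⟩ := key t' h4 h5
    rw [map_mul, e1, e2]
    linear_combination (HP R * HM R) * hz
  have c4 : PZ p ‖HP R‖ := by
    apply norm_PZ (e := 10) (k := 288) (b := HM R) _ _ _ hRH c2 c3
    · have := H_rel' hR3
      linear_combination this
    · have := norm_int_le (p := p) 10
      exact_mod_cast this
    · have := norm_int_eq_one (p := p) (dvd6 h2 h3)
      exact_mod_cast this
  have := c1'.mul c4
  rwa [← norm_mul, div_mul_cancel₀ _ hRH] at this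

end local1

/-- the first coordinate of a torsion point -/
noncomputable def psiF (T : Pt Qbar) : Qbar :=
  if h : 3 • T = 0 then gw ^ (tors_eq hgw hgd h).choose else 1

lemma gw_pow_congr {i j : ℕ} (h : i % 3 = j % 3) : gw ^ i = gw ^ j := by
  rw [← Nat.div_add_mod i 3, ← Nat.div_add_mod j 3, pow_add, pow_add, pow_mul, pow_mul, gw3,
    one_pow, one_pow, h]

lemma comb_inj {i j i' j' : ℕ} (h : i • (P3 : Pt Qbar) + j • T1 gw gd hgw hgd =
    i' • P3 + j' • T1 gw gd hgw hgd) : i % 3 = i' % 3 ∧ j % 3 = j' % 3 := by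
  have h1 : (i + 2 * i') • (P3 : Pt Qbar) + (j + 2 * j') • T1 gw gd hgw hgd = 0 := by
    have e : (i + 2 * i') • (P3 : Pt Qbar) + (j + 2 * j') • T1 gw gd hgw hgd =
        (i • (P3 : Pt Qbar) + j • T1 gw gd hgw hgd) +
        2 • (i' • P3 + j' • T1 gw gd hgw hgd) := by
      rw [add_smul, add_smul, smul_add, mul_smul, mul_smul]
      abel
    rw [e, h]
    have : i' • (P3 : Pt Qbar) + j' • T1 gw gd hgw hgd +
        2 • (i' • P3 + j' • T1 gw gd hgw hgd) = 3 • (i' • P3 + j' • T1 gw gd hgw hgd) := by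
      abel
    rw [this, smul_add, smul_comm 3 i', smul_comm 3 j', three_P, three_T, smul_zero, smul_zero,
      add_zero]
  obtain ⟨h2, h3⟩ := comb_eq_zero hgw hgd h1
  omega

lemma comb_tors (i j : ℕ) : 3 • (i • (P3 : Pt Qbar) + j • T1 gw gd hgw hgd) = 0 := by
  rw [smul_add, smul_comm 3 i, smul_comm 3 j, three_P, three_T, smul_zero, smul_zero,
      add_zero]

lemma psiF_comb (i j : ℕ) : psiF (i • P3 + j • T1 gw gd hgw hgd) = gw ^ i := by
  have h := comb_tors i j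
  unfold psiF
  rw [dif_pos h]
  obtain ⟨j', hj'⟩ := (tors_eq hgw hgd h).choose_spec
  exact gw_pow_congr (comb_inj hj').1.symm

lemma psiF_add {T T' : Pt Qbar} (hT : 3 • T = 0) (hT' : 3 • T' = 0) :
    psiF (T + T') = psiF T * psiF T' := by
  obtain ⟨i, j, rfl⟩ := tors_eq hgw hgd hT
  obtain ⟨i', j', rfl⟩ := tors_eq hgw hgd hT'
  have e : i • (P3 : Pt Qbar) + j • T1 gw gd hgw hgd + (i' • P3 + j' • T1 gw gd hgw hgd) =
      (i + i') • P3 + (j + j') • T1 gw gd hgw hgd := by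
    rw [add_smul, add_smul]; abel
  rw [e, psiF_comb, psiF_comb, psiF_comb, pow_add]

lemma psiF_zero : psiF 0 = 1 := by
  have := psiF_comb 0 0
  simpa using this

lemma psiF_ne {T : Pt Qbar} (hT : 3 • T = 0) : psiF T ≠ 0 := by
  obtain ⟨i, j, rfl⟩ := tors_eq hgw hgd hT
  rw [psiF_comb]
  exact pow_ne_zero _ gw_ne

lemma psiF_fix {T : Pt Qbar} (hT : 3 • T = 0) {g : GQ} (hg : g gw = gw) : g (psiF T) = psiF T := by
  obtain ⟨i, j, rfl⟩ := tors_eq hgw hgd hT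
  rw [psiF_comb, map_pow, hg]

/-- elements fixing `gw` and `gd` act trivially on torsion -/
lemma smul_tors {T : Pt Qbar} (hT : 3 • T = 0) {g : GQ} (hg : g gw = gw) (hg' : g gd = gd) :
    g • T = T := by
  obtain ⟨i, j, rfl⟩ := tors_eq hgw hgd hT
  obtain ⟨k, hk1, hk2⟩ := smul_T1 g hg
  have hd0 : gd ≠ 0 := by
    intro h0
    have := hgd
    rw [h0] at this
    norm_num at this
  have hk : 3 ∣ k := by
    apply w_pow_eq_one hgw
    rw [hg'] at hk1
    exact mul_right_cancel₀ hd0 (by rw [one_mul]; exact hk1.symm)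
  obtain ⟨l, rfl⟩ := hk
  rw [mul_comm, mul_smul, three_P, smul_zero, add_zero] at hk2
  rw [smul_add, smul_comm g i, smul_comm g j, smul_P3, hk2]

/-- the stabiliser of `gw` and `gd` -/
def Hwd : Subgroup GQ where
  carrier := {g | g gw = gw ∧ g gd = gd}
  one_mem' := ⟨rfl, rfl⟩
  mul_mem' := by
    rintro a b ⟨h1, h2⟩ ⟨h3, h4⟩
    exact ⟨by rw [AlgEquiv.mul_apply, h3, h1], by rw [AlgEquiv.mul_apply, h4, h2]⟩
  inv_mem' := by
    rintro a ⟨h1, h2⟩
    refine ⟨?_, ?_⟩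
    · conv_lhs => rw [← h1]
      exact a.symm_apply_apply _
    · conv_lhs => rw [← h2]
      exact a.symm_apply_apply _

lemma smul_T1' {γ : GQ} (h1 : γ gw = gw) (h2 : γ gd = gw * gd) :
    γ • T1 gw gd hgw hgd + P3 = T1 gw gd hgw hgd := by
  obtain ⟨k, hk1, hk2⟩ := smul_T1 γ h1
  have hd0 : gd ≠ 0 := by
    intro h0
    have := hgd
    rw [h0] at this
    norm_num at this
  have hk : (k + 2) % 3 = 0 := by
    have h3 : gw ^ k = gw := by
      rw [h2] at hk1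
      exact (mul_right_cancel₀ hd0 hk1).symm
    have := w_pow_eq_one hgw (j := k + 2) (by rw [pow_add, h3]; linear_combination gw3)
    omega
  have e : k • (P3 : Pt Qbar) = P3 := by
    have : k = 3 * (k / 3) + 1 := by omega
    rw [this, add_smul, mul_comm, mul_smul, three_P, smul_zero, zero_add, one_smul]
  rw [e] at hk2
  exact hk2

lemma stepC0 {Ξ : GQ → Pt Qbar} (hΞ : Coc ⊤ Ξ) {t : Qbar} (ht0 : t ≠ 0)
    (ht : ∀ g : GQ, g t = eps (Ξ g) * t) {γ : GQ} (h1 : γ gw = gw) (h2 : γ gd = gw * gd) :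
    ∃ n : Qbar, (∀ h : GQ, h gw = gw → h gd = gd → h n = n) ∧ n * γ n * γ (γ n) * t ^ 3 = 1 := by
  obtain ⟨M, hM, hcont⟩ := hΞ.cont
  have hT := fun g : GQ => hΞ.tors g trivial
  have hmul := fun g h : GQ => hΞ.mul g trivial h trivial
  obtain ⟨z, hz0, hz⟩ := H90 Hwd (fun g => psiF (Ξ g)) (fun g _ => psiF_ne (hT g))
    (fun g hg h hh => by
      rw [hmul, psiF_add (hT g) (three_smul_g g (hT h)), psiF_fix (hT h) hg.1,
        smul_tors (hT h) hg.1 hg.2]) M (fun g _ hg => by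
      rw [hcont g trivial hg, psiF_zero])
  have hT1 := smul_T1' h1 h2
  have hγi : γ⁻¹ gw = gw := by
    conv_lhs => rw [← h1]
    exact γ.symm_apply_apply _
  refine ⟨γ z / (z * t), ?_, ?_⟩
  · intro h hw hd
    have hH : h ∈ Hwd := ⟨hw, hd⟩
    have hd3 : (γ⁻¹ * h * γ) gd = gd := by
      rw [AlgEquiv.mul_apply, AlgEquiv.mul_apply, h2, map_mul, hw, hd, ← h2]
      exact γ.symm_apply_apply _
    have hw3 : (γ⁻¹ * h * γ) gw = gw := by
      rw [AlgEquiv.mul_apply, AlgEquiv.mul_apply, h1, hw, hγi]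
    have hH' : γ⁻¹ * h * γ ∈ Hwd := ⟨hw3, hd3⟩
    obtain ⟨i, j, hij⟩ := tors_eq hgw hgd (hT h)
    have e1 : Ξ (γ⁻¹ * h * γ) = γ⁻¹ • Ξ h := by
      rw [mul_assoc, hmul, hmul, smul_tors (hT γ) hw hd, smul_add]
      have h3 := hmul γ⁻¹ γ
      rw [inv_mul_cancel, hΞ.one] at h3
      have h4 : γ⁻¹ • Ξ γ = -Ξ γ⁻¹ := by
        rw [eq_neg_iff_add_eq_zero, add_comm]; exact h3.symm
      rw [h4]
      abel
    have e2 : γ⁻¹ • T1 gw gd hgw hgd = T1 gw gd hgw hgd + P3 := by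
      have h5 : γ⁻¹ • (γ • T1 gw gd hgw hgd + P3) = γ⁻¹ • T1 gw gd hgw hgd := by rw [hT1]
      rw [smul_add, inv_smul_smul, smul_P3] at h5
      exact h5.symm
    have e3 : Ξ (γ⁻¹ * h * γ) = (i + j) • P3 + j • T1 gw gd hgw hgd := by
      rw [e1, hij, smul_add, smul_comm γ⁻¹ i, smul_comm γ⁻¹ j, smul_P3, e2, smul_add, add_smul]
      abel
    have e4 : h (γ z) = gw ^ (i + j) * γ z := by
      have e5 : h (γ z) = γ ((γ⁻¹ * h * γ) z) := conj_apply h γ z
      rw [e5, hz _ hH', e3, psiF_comb, map_mul, map_pow, h1]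
    have e6 : h z = gw ^ i * z := by
      rw [hz _ hH, hij, psiF_comb]
    have e7 : h t = gw ^ j * t := by
      rw [ht, hij, eps_comb]
    have hw0 := gw_ne
    rw [map_div₀, map_mul, e4, e6, e7, pow_add]
    field_simp
  · obtain ⟨i, j, hij⟩ := tors_eq hgw hgd (hT γ)
    have f1 : γ t = gw ^ j * t := by rw [ht, hij, eps_comb]
    have f2 : γ (γ t) = gw ^ j * (gw ^ j * t) := by rw [f1, map_mul, map_pow, h1, f1]
    have f3 : γ (γ (γ z)) = z := by
      have e1 : γ (γ (γ z)) = (γ ^ 3) z := rfl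
      have e2 : γ ^ 3 ∈ Hwd := by
        constructor
        · change γ (γ (γ gw)) = gw
          rw [h1, h1, h1]
        · change γ (γ (γ gd)) = gd
          rw [h2, map_mul, h1, h2, map_mul, map_mul, h1, h2]
          linear_combination gd * gw3
      have e3 : Ξ (γ ^ 3) = 0 := by
        have e4 : γ ^ 3 = γ * (γ * γ) := by rw [pow_succ, sq, mul_assoc]
        rw [e4, hmul, hmul, hij]
        have e5 : γ • T1 gw gd hgw hgd = T1 gw gd hgw hgd - P3 := by
          rw [eq_sub_iff_add_eq]; exact hT1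
        simp only [smul_add, smul_comm γ i, smul_comm γ j, smul_P3, e5, smul_sub]
        have e6 : i • (P3 : Pt Qbar) + j • T1 gw gd hgw hgd +
            (i • P3 + (j • T1 gw gd hgw hgd - j • P3) + (i • P3 + (j • T1 gw gd hgw hgd - j • P3 -
            j • P3))) = 3 • (i • P3) + 3 • (j • T1 gw gd hgw hgd) - 3 • (j • P3) := by abel
        rw [e6, smul_comm 3 i, smul_comm 3 j, smul_comm 3 j, three_P, three_T]
        simp
      rw [e1, hz _ e2, e3, psiF_zero, one_mul]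
    have g0 : γ z ≠ 0 := map_ne hz0
    have g1 : γ (γ z) ≠ 0 := map_ne g0
    have hw0 : gw ^ j ≠ 0 := pow_ne_zero _ gw_ne
    have hw3 : gw ^ j * (gw ^ j * gw ^ j) = 1 := by
      rw [← pow_add, ← pow_add, show j + (j + j) = 3 * j by ring, pow_mul, gw3, one_pow]
    rw [map_div₀, map_div₀, map_mul, map_mul, f2, f3, f1]
    field_simp
    linear_combination (-1 : Qbar) * hw3

end Pool.Agent.W94.F3
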