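import Mathlib
import Pool.Agent.W94.F3.Main4

/-!
# The Kummer generator is a multiple of the one of `(88, 792)`
-/

set_option autoImplicit false
set_option linter.unusedSectionVars false

namespace Pool.Agent.W94.F3

open scoped Classical

lemma fact_iota_gd {p : ℕ} [hp : Fact p.Prime] (h847 : ¬ (p : ℤ) ∣ 847) (ι : Qbar →ₐ[ℚ] Cp p) :
    ‖ι gd‖ = 1 := by
  have h1 := congrArg norm (hid ι)
  rw [norm_pow, norm_neg] at h1
  have n1 : ‖(847 : Cp p)‖ = 1 := by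
    have := norm_int_eq_one (p := p) (n := 847) h847
    exact_mod_cast this
  rw [n1] at h1
  exact (pow_eq_one_iff_of_nonneg (norm_nonneg _) (by norm_num)).1 h1

lemma z13 : ∀ n : ZMod 13, n ^ 3 + 847 ≠ 0 := by decide
lemma z31 : ∀ n : ZMod 31, n ^ 3 + 847 ≠ 0 := by decide

lemma stepC2 {p : ℕ} [hp : Fact p.Prime] (hp3 : p = 13 ∨ p = 31) {Ξ : GQ → Pt Qbar}
    (hΞ : Coc ⊤ Ξ) {t : Qbar} (ht0 : t ≠ 0) (ht : ∀ g : GQ, g t = eps (Ξ g) * t)
    (ι : Qbar →ₐ[ℚ] Cp p) : PZ p ‖ι t‖ := by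
  have hw := hiw ι
  have hp3' : p = 7 ∨ p = 13 ∨ p = 31 := Or.inr hp3
  have hwf := w_fixed' hp3' ι
  have h847 : ¬ (p : ℤ) ∣ 847 := by rcases hp3 with rfl | rfl <;> norm_num
  have hne3 : p ≠ 3 := by rcases hp3 with rfl | rfl <;> norm_num
  have hd1 := fact_iota_gd h847 ι
  have hdf : ∀ t' : Gp p, t' (ι gw) = ι gw → t' (ι gd ^ 3) = ι gd ^ 3 := by
    intro t' _
    rw [hid, map_neg, map_ofNat]
  have hne : ¬ ∀ t' : Gp p, t' (ι gw) = ι gw → t' (ι gd) = ι gd := by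
    intro h
    obtain ⟨n, hn⟩ := residue_fixed (fun t' => h t' (hwf t')) hd1.le
    have g4 : ‖((n ^ 3 + 847 : ℤ) : Cp p)‖ < 1 := by
      have e : ((n ^ 3 + 847 : ℤ) : Cp p) =
          -((ι gd - n) * ((ι gd) ^ 2 + (ι gd * n + n ^ 2))) := by
        push_cast
        linear_combination hid ι
      rw [e, norm_neg, norm_mul]
      refine lt_of_le_of_lt (mul_le_of_le_one_right (norm_nonneg _) ?_) hn
      refine norm_add_le' ?_ (norm_add_le' ?_ ?_)
      · rw [norm_pow, hd1, one_pow]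
      · rw [norm_mul, hd1, one_mul]
        exact norm_int_le n
      · rw [norm_pow]
        exact pow_le_one₀ (norm_nonneg _) (norm_int_le n)
    rw [norm_int_lt_iff] at g4
    have g5 := (ZMod.intCast_zmod_eq_zero_iff_dvd (n ^ 3 + 847) p).2 g4
    push_cast at g5
    rcases hp3 with rfl | rfl
    · exact z13 _ g5
    · exact z31 _ g5
  obtain ⟨t', htw, htd⟩ := exists_sigma hw hdf hne
  have hγw : res ι t' gw = gw := by
    have : ι (res ι t' gw) = ι gw := by rw [res_spec, htw]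
    exact ι.injective this
  have hγd : res ι t' gd = gw * gd := by
    have : ι (res ι t' gd) = ι (gw * gd) := by rw [res_spec, htd, map_mul]
    exact ι.injective this
  obtain ⟨n, hn, hN⟩ := stepC0 hΞ ht0 ht hγw hγd
  have h1 := congrArg norm (congrArg ι hN)
  rw [map_mul, map_mul, map_mul, res_spec, res_spec, res_spec, map_pow, map_one, norm_mul,
    norm_mul, norm_mul, norm_gal, norm_gal, norm_gal, norm_pow, norm_one] at h1
  have h2 : PZ p ‖ι n‖ ∨ ‖ι n‖ = 0 := by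
    apply VG hne3 hw hd1 hdf
    intro t'' h3 h4
    have e1 : res ι t'' gw = gw := by
      have : ι (res ι t'' gw) = ι gw := by rw [res_spec, h3]
      exact ι.injective this
    have e2 : res ι t'' gd = gd := by
      have : ι (res ι t'' gd) = ι gd := by rw [res_spec, h4]
      exact ι.injective this
    rw [← res_spec, hn _ e1 e2]
  have h3 : (‖ι n‖ * ‖ι t‖) ^ 3 = 1 := by rw [← h1]; ring
  have h4 : ‖ι n‖ * ‖ι t‖ = 1 := (pow_eq_one_iff_of_nonneg (by positivity) (by norm_num)).1 h3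
  rcases h2 with h5 | h5
  · have h6 := PZ.one.div h5
    have h7 : ‖ι t‖ = 1 / ‖ι n‖ := by
      rw [eq_div_iff (by intro h0; rw [h0, zero_mul] at h4; exact zero_ne_one h4), mul_comm, h4]
    rw [h7]
    exact h6
  · rw [h5, zero_mul] at h4
    exact absurd h4 zero_ne_one

/-- the prime seven -/
lemma stepC3' {Ξ : GQ → Pt Qbar} (hΞ : Coc ⊤ Ξ) (hl : LocAt Ξ) {t : Qbar}
    (ht : ∀ g : GQ, g t = eps (Ξ g) * t) (ι : Qbar →ₐ[ℚ] Cp 7) : InF (ι ge) (ι t) := by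
  obtain ⟨R, hR3, hRH, hR⟩ := good_R hl ι
  have H := totram (Or.inl rfl) ι
  have hw := hiw ι
  have hwf := w_fixed' (Or.inl rfl) ι
  have key : ∀ t' : Gp 7, t' (ι ge) = ι ge →
      ∃ z : Cp 7, z ^ 3 = 1 ∧ t' (HP R) = z * HP R ∧ t' (HM R) = z ^ 2 * HM R ∧
        t' (ι t) = z * ι t := by
    intro t' h5
    obtain ⟨-, -, hN⟩ := res_mem_of_fix ι (hwf t') h5
    have hT := hΞ.tors (res ι t') trivial
    obtain ⟨h6, h7⟩ := loc_eqv ι hR3 hT (hR t' hN)
    refine ⟨ι (eps (Ξ (res ι t'))), ?_, h6, h7, ?_⟩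
    · rw [← map_pow, eps_cube hT, map_one]
    · rw [← res_spec, ht, map_mul]
  have ha : InF (ι ge) (HP R ^ 3) := by
    intro t' h5
    obtain ⟨z, hz, e1, e2, e3⟩ := key t' h5
    rw [map_pow, e1, mul_pow, hz, one_mul]
  have hb : InF (ι ge) (HM R ^ 3) := by
    intro t' h5
    obtain ⟨z, hz, e1, e2, e3⟩ := key t' h5
    rw [map_pow, e2, mul_pow, ← pow_mul, mul_comm 2 3, pow_mul, hz, one_pow, one_mul]
  have hM : InF (ι ge) (HP R * HM R) := by
    intro t' h5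
    obtain ⟨z, hz, e1, e2, e3⟩ := key t' h5
    rw [map_mul, e1, e2]
    linear_combination (HP R * HM R) * hz
  obtain ⟨r, hr, hr3⟩ := L7 H ha hb hM (by
    have := H_rel' hR3
    linear_combination this) (by ring) (pow_ne_zero _ hRH)
  have hHP : InF (ι ge) (HP R) := by
    rcases cube_eq_iff hw hr3.symm with h | h | h
    · rw [h]; exact hr
    · rw [h]
      intro t' h5
      rw [map_mul, hwf, hr t' h5]
    · rw [h]
      intro t' h5
      rw [map_mul, map_pow, hwf, hr t' h5]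
  intro t' h5
  obtain ⟨z, hz, e1, e2, e3⟩ := key t' h5
  have h6 := hHP t' h5
  rw [e1] at h6
  have hz1 : z = 1 := mul_right_cancel₀ hRH (by rw [one_mul]; exact h6)
  rw [e3, hz1, one_mul]

lemma exists_iota7 : ∃ ι : Qbar →ₐ[ℚ] Cp 7, ‖ι gw - 4‖ < 1 := by
  obtain ⟨ι⟩ := exists_iota 7
  have hw := hiw ι
  have h : (ι gw - 2) * (ι gw - 4) = -(7 * (ι gw - 1)) := by
    linear_combination hw
  have h7 : ‖(7 : Cp 7)‖ < 1 := by
    have := (norm_int_lt_iff (p := 7) 7).2 (by norm_num)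
    exact_mod_cast this
  have h1 : ‖ι gw - 2‖ * ‖ι gw - 4‖ < 1 := by
    rw [← norm_mul, h, norm_neg, norm_mul]
    refine lt_of_le_of_lt (mul_le_of_le_one_right (norm_nonneg _) ?_) h7
    exact norm_sub_le' (norm_w hw).le (by rw [norm_one])
  by_cases h4 : ‖ι gw - 4‖ < 1
  · exact ⟨ι, h4⟩
  · have h2 : ‖ι gw - 2‖ < 1 := by
      by_contra h2
      push Not at h2 h4
      nlinarith
    obtain ⟨ρ, hρ⟩ := exists_rho
    refine ⟨ι.comp ρ.toAlgHom, ?_⟩
    change ‖ι (ρ gw) - 4‖ < 1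
    rw [hρ, map_pow]
    have e : (ι gw) ^ 2 - 4 = (ι gw - 2) * (ι gw + 2) := by ring
    rw [e, norm_mul]
    refine lt_of_le_of_lt (mul_le_of_le_one_right (norm_nonneg _) ?_) h2
    refine norm_add_le' (norm_w hw).le ?_
    have := norm_int_le (p := 7) 2
    exact_mod_cast this

lemma totram_d (ι : Qbar →ₐ[ℚ] Cp 7) : TotRam 7 (ι gw) (ι gd) := by
  refine ⟨by norm_num, hiw ι, w_fixed' (Or.inl rfl) ι, ?_, ?_⟩
  · intro t
    rw [hid, map_neg, map_ofNat]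
  · refine ⟨-1, ?_, by norm_num⟩
    rw [← norm_pow, hid, norm_neg]
    have e : (847 : Cp 7) = ((7 : ℤ) : Cp 7) * ((121 : ℤ) : Cp 7) := by norm_num
    have h1 := norm_p (p := 7)
    have h2 : ‖((121 : ℤ) : Cp 7)‖ = 1 := norm_int_eq_one (by norm_num)
    rw [e, norm_mul, h2, mul_one, zpow_neg_one]
    exact h1

lemma z7 : ∀ (c : ZMod 7) (j : Fin 3), (-121) ^ (j : ℕ) * c ^ 3 = 1 → j = 0 := by decide

/-- units close to integers -/
lemma near_pow {p : ℕ} [hp : Fact p.Prime] {a : Cp p} {n : ℤ} (h1 : ‖a‖ ≤ 1) (h : ‖a - n‖ < 1)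
    (k : ℕ) : ‖a ^ k - (n : Cp p) ^ k‖ < 1 := by
  induction k with
  | zero => simp
  | succ k ih =>
    have e : a ^ (k + 1) - (n : Cp p) ^ (k + 1) = (a ^ k - (n : Cp p) ^ k) * a +
        (a - n) * (n : Cp p) ^ k := by ring
    rw [e]
    refine norm_add_lt ?_ ?_
    · rw [norm_mul]
      exact lt_of_le_of_lt (mul_le_of_le_one_right (norm_nonneg _) h1) ih
    · rw [norm_mul, norm_pow]
      exact lt_of_le_of_lt (mul_le_of_le_one_right (norm_nonneg _)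
        (pow_le_one₀ (norm_nonneg _) (norm_int_le n))) h

lemma near_mul {p : ℕ} [hp : Fact p.Prime] {a b : Cp p} {n m : ℤ} (hb1 : ‖b‖ ≤ 1)
    (ha : ‖a - n‖ < 1) (hb : ‖b - m‖ < 1) : ‖a * b - ((n * m : ℤ) : Cp p)‖ < 1 := by
  have e : a * b - ((n * m : ℤ) : Cp p) = (a - n) * b + (b - m) * n := by push_cast; ring
  rw [e]
  refine norm_add_lt ?_ ?_
  · rw [norm_mul]
    exact lt_of_le_of_lt (mul_le_of_le_one_right (norm_nonneg _) hb1) ha
  · rw [norm_mul]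
    exact lt_of_le_of_lt (mul_le_of_le_one_right (norm_nonneg _) (norm_int_le n)) hb

lemma norm_seven : ‖(7 : Cp 7)‖ = (7 : ℝ)⁻¹ := by
  have := norm_p (p := 7)
  exact_mod_cast this

/-- `c = η ^ k * 7 ^ (-m) * u` -/
lemma unit_form {w η : Cp 7} (H : TotRam 7 w η) {c : Cp 7} (hc : InF η c) (h0 : c ≠ 0) :
    ∃ (k : ℕ) (m : ℤ) (u : Cp 7) (n : ℤ), k < 3 ∧ c = η ^ k * (7 : Cp 7) ^ (-m) * u ∧ ‖u‖ = 1 ∧
      ‖u - n‖ < 1 ∧ ‖c‖ = ‖η‖ ^ k * (7 : ℝ) ^ m := by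
  obtain ⟨k, m, hk, hn⟩ := H.norm_form hc h0
  have h7 : (7 : Cp 7) ≠ 0 := by norm_num
  have hη := H.ne_zero
  have hd : η ^ k * (7 : Cp 7) ^ (-m) ≠ 0 := mul_ne_zero (pow_ne_zero _ hη) (zpow_ne_zero _ h7)
  have hu1 : ‖c / (η ^ k * (7 : Cp 7) ^ (-m))‖ = 1 := by
    rw [norm_div, norm_mul, norm_pow, norm_zpow, norm_seven, hn, inv_zpow', neg_neg]
    rw [div_eq_one_iff_eq]
    · norm_num
    · have : ‖η‖ ≠ 0 := norm_ne_zero_iff.2 hη
      positivity
  have hF : InF η (c / (η ^ k * (7 : Cp 7) ^ (-m))) := by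
    intro t ht
    rw [map_div₀, map_mul, map_pow, map_zpow₀, map_ofNat, ht, hc t ht]
  obtain ⟨n, hn'⟩ := H.residue hF hu1.le
  refine ⟨k, m, _, n, hk, ?_, hu1, hn', by exact_mod_cast hn⟩
  field_simp

lemma stepC3 {Ξ : GQ → Pt Qbar} (hΞ : Coc ⊤ Ξ) (hl : LocAt Ξ) {t : Qbar} (ht0 : t ≠ 0)
    (ht : ∀ g : GQ, g t = eps (Ξ g) * t) (ι : Qbar →ₐ[ℚ] Cp 7) (h4 : ‖ι gw - 4‖ < 1) :
    PZ 7 ‖ι t‖ := by
  have hF := stepC3' hΞ hl ht ι
  have H := totram (Or.inl rfl) ι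
  have Hd := totram_d ι
  have hw := hiw ι
  have hwf := w_fixed' (Or.inl rfl) ι
  have hι0 : ι t ≠ 0 := (map_ne_zero_iff ι ι.injective).2 ht0
  obtain ⟨t', htd⟩ := Hd.sigma
  have htw := hwf t'
  have hγw : res ι t' gw = gw := by
    have : ι (res ι t' gw) = ι gw := by rw [res_spec, htw]
    exact ι.injective this
  have hγd : res ι t' gd = gw * gd := by
    have : ι (res ι t' gd) = ι (gw * gd) := by rw [res_spec, htd, map_mul]
    exact ι.injective this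
  obtain ⟨n, hn, hN⟩ := stepC0 hΞ ht0 ht hγw hγd
  have hnF : InF (ι gd) (ι n) := by
    intro t'' h4
    have e1 : res ι t'' gw = gw := by
      have : ι (res ι t'' gw) = ι gw := by rw [res_spec, hwf]
      exact ι.injective this
    have e2 : res ι t'' gd = gd := by
      have : ι (res ι t'' gd) = ι gd := by rw [res_spec, h4]
      exact ι.injective this
    rw [← res_spec, hn _ e1 e2]
  have hn0 : ι n ≠ 0 := by
    intro h0
    have h1 := congrArg ι hN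
    rw [map_mul, map_mul, map_mul, h0, zero_mul, zero_mul, zero_mul, map_one] at h1
    exact zero_ne_one h1
  obtain ⟨k, m, u, nu, hk, eu, hu1, hun, hnorm⟩ := unit_form H hF hι0
  obtain ⟨j, l, v, nv, hj, ev, hv1, hvn, hnormv⟩ := unit_form Hd hnF hn0
  have h1 := congrArg ι hN
  rw [map_mul, map_mul, map_mul, res_spec, res_spec, res_spec, map_pow, map_one, ev, eu] at h1
  have h7 : (7 : Cp 7) ≠ 0 := by norm_num
  have hw3 : (ι gw) ^ 3 = 1 := by rw [← map_pow, gw3, map_one]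
  -- the local images of `n`
  have e1 : t' (ι gd ^ j * (7 : Cp 7) ^ (-l) * v) =
      (ι gw) ^ j * (ι gd ^ j * (7 : Cp 7) ^ (-l) * t' v) := by
    rw [map_mul, map_mul, map_pow, map_zpow₀, map_ofNat, htd, mul_pow]
    ring
  have e2 : t' (t' (ι gd ^ j * (7 : Cp 7) ^ (-l) * v)) =
      (ι gw) ^ j * ((ι gw) ^ j * (ι gd ^ j * (7 : Cp 7) ^ (-l) * t' (t' v))) := by
    rw [e1, map_mul, map_mul, map_mul, map_pow, map_pow, map_zpow₀, map_ofNat, htd, mul_pow, htw]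
    ring
  rw [e2, e1] at h1
  have hθ := hie ι
  have hδ := hid ι
  obtain ⟨θ₁, hθ₁⟩ : ∃ θ₁, θ₁ = 403 * (61 + 36 * ι gw) := ⟨_, rfl⟩
  have hθ7 : (ι ge) ^ 3 = 7 * θ₁ := by rw [hθ, hθ₁]; ring
  have hδ7 : (ι gd) ^ 3 = 7 * (-121) := by rw [hδ]; norm_num
  have hw3j : (ι gw) ^ j * (ι gw) ^ j * (ι gw) ^ j = 1 := by
    rw [← pow_add, ← pow_add, show j + j + j = 3 * j by ring, pow_mul, hw3, one_pow]
  have hz1 : ((7 : Cp 7) ^ (-l)) ^ 3 = 7 ^ (-3 * l) := by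
    rw [← zpow_natCast, ← zpow_mul]
    congr 1
    push_cast
    ring
  have hz2 : ((7 : Cp 7) ^ (-m)) ^ 3 = 7 ^ (-3 * m) := by
    rw [← zpow_natCast, ← zpow_mul]
    congr 1
    push_cast
    ring
  have key : (7 : Cp 7) ^ ((j : ℤ) + k - 3 * l - 3 * m) *
      ((-121) ^ j * (θ₁ ^ k * (u ^ 3 * (v * (t' v * t' (t' v)))))) = 1 := by
    have e3 : (7 : Cp 7) ^ ((j : ℤ) + k - 3 * l - 3 * m) =
        7 ^ j * 7 ^ k * (7 ^ (-3 * l) * 7 ^ (-3 * m)) := by
      rw [← zpow_natCast, ← zpow_natCast, ← zpow_add₀ h7, ← zpow_add₀ h7, ← zpow_add₀ h7]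
      congr 1
      ring
    rw [e3, ← hz1, ← hz2]
    have e4 : (7 : Cp 7) ^ j * (-121) ^ j = ((ι gd) ^ j) ^ 3 := by
      rw [← mul_pow, ← hδ7, ← pow_mul, ← pow_mul, mul_comm]
    have e5 : (7 : Cp 7) ^ k * θ₁ ^ k = ((ι ge) ^ k) ^ 3 := by
      rw [← mul_pow, ← hθ7, ← pow_mul, ← pow_mul, mul_comm]
    calc _ = ((7 : Cp 7) ^ j * (-121) ^ j) * ((7 : Cp 7) ^ k * θ₁ ^ k) *
          (((7 : Cp 7) ^ (-l)) ^ 3 * ((7 : Cp 7) ^ (-m)) ^ 3) * (u ^ 3 * (v * (t' v * t' (t' v)))) := by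
          ring
      _ = 1 := by
        rw [e4, e5]
        rw [← h1]
        linear_combination (-(((ι gd) ^ j) ^ 3 * (((ι ge) ^ k) ^ 3 * (((7 : Cp 7) ^ (-l)) ^ 3 *
          (((7 : Cp 7) ^ (-m)) ^ 3 * (u ^ 3 * (v * (t' v * t' (t' v))))))))) * hw3j
  have hθn : ‖θ₁ - ((1 : ℤ) : Cp 7)‖ < 1 := by
    have e : θ₁ - ((1 : ℤ) : Cp 7) = 7 * 11802 + 14508 * (ι gw - 4) := by
      rw [hθ₁]; push_cast; ring
    rw [e]
    refine norm_add_lt ?_ ?_
    · rw [norm_mul, norm_seven]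
      have := norm_int_le (p := 7) 11802
      have h8 : ‖(11802 : Cp 7)‖ ≤ 1 := by exact_mod_cast this
      nlinarith [norm_nonneg (11802 : Cp 7)]
    · rw [norm_mul]
      have := norm_int_le (p := 7) 14508
      have h8 : ‖(14508 : Cp 7)‖ ≤ 1 := by exact_mod_cast this
      exact lt_of_le_of_lt (mul_le_of_le_one_left (norm_nonneg _) h8) h4
  have hθ1 : ‖θ₁‖ = 1 := by
    have := norm_eq_of_sub_lt (a := θ₁) (b := ((1 : ℤ) : Cp 7)) (by
      rw [Int.cast_one, norm_one, ← Int.cast_one (R := Cp 7)]; exact hθn)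
    rw [this, Int.cast_one, norm_one]
  have h121 : ‖(-121 : Cp 7)‖ = 1 := by
    have := norm_int_eq_one (p := 7) (n := -121) (by norm_num)
    exact_mod_cast this
  have hnk := congrArg norm key
  rw [norm_mul, norm_mul, norm_mul, norm_mul, norm_mul, norm_mul, norm_gal, norm_gal, norm_gal,
    norm_pow, norm_pow, norm_pow, h121, hθ1, hu1, hv1, norm_zpow, norm_seven, norm_one] at hnk
  simp only [one_pow, mul_one] at hnk
  have hexp : (j : ℤ) + k - 3 * l - 3 * m = 0 := by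
    rw [inv_zpow'] at hnk
    have h9 : ((7 : ℕ) : ℝ) ^ (-((j : ℤ) + k - 3 * l - 3 * m)) = ((7 : ℕ) : ℝ) ^ (0 : ℤ) := by
      rw [zpow_zero]
      exact_mod_cast hnk
    have := p_zpow_inj (p := 7) h9
    omega
  rw [hexp, zpow_zero, one_mul] at key
  -- residues
  have g1 : ‖t' v - nv‖ < 1 := by
    have : t' v - nv = t' (v - nv) := by rw [map_sub, map_intCast]
    rw [this, norm_gal]
    exact hvn
  have g2 : ‖t' (t' v) - nv‖ < 1 := by
    have : t' (t' v) - nv = t' (t' v - nv) := by rw [map_sub, map_intCast]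
    rw [this, norm_gal]
    exact g1
  have hv2 : ‖t' v‖ = 1 := by rw [norm_gal, hv1]
  have hv3 : ‖t' (t' v)‖ = 1 := by rw [norm_gal, hv2]
  have r1 := near_mul hv3.le g1 g2
  have r2 := near_mul (by rw [norm_mul, hv2, hv3, one_mul]) hvn r1
  have r3 : ‖u ^ 3 - ((nu ^ 3 : ℤ) : Cp 7)‖ < 1 := by
    have := near_pow hu1.le hun 3
    push_cast
    exact this
  have r4 := near_mul (by rw [norm_mul, norm_mul, hv1, hv2, hv3, one_mul, one_mul]) r3 r2
  have r5 : ‖θ₁ ^ k - ((1 : ℤ) : Cp 7)‖ < 1 := by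
    have := near_pow hθ1.le hθn k
    rw [Int.cast_one, one_pow] at this
    rw [Int.cast_one]
    exact this
  have n4 : ‖u ^ 3 * (v * (t' v * t' (t' v)))‖ ≤ 1 := by
    rw [norm_mul, norm_mul, norm_mul, norm_pow, hu1, hv1, hv2, hv3]
    norm_num
  have r6 := near_mul n4 r5 r4
  have r7 : ‖(-121 : Cp 7) ^ j - (((-121) ^ j : ℤ) : Cp 7)‖ < 1 := by
    push_cast
    rw [sub_self, norm_zero]
    exact zero_lt_one
  have r8 := near_mul (by
    rw [norm_mul, norm_pow, hθ1, one_pow, one_mul]; exact n4) r7 r6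
  rw [key] at r8
  have r9 : ‖((1 - (-121) ^ j * (1 * (nu ^ 3 * (nv * (nv * nv)))) : ℤ) : Cp 7)‖ < 1 := by
    push_cast at r8 ⊢
    exact r8
  rw [norm_int_lt_iff] at r9
  have g5 := (ZMod.intCast_zmod_eq_zero_iff_dvd _ 7).2 r9
  push_cast at g5
  have g6 := z7 ((nu : ZMod 7) * nv) ⟨j, hj⟩ (by
    have : (-121 : ZMod 7) ^ j * ((nu : ZMod 7) * nv) ^ 3 =
        (-121) ^ j * (1 * ((nu : ZMod 7) ^ 3 * (nv * (nv * nv)))) := by ring
    rw [this]
    exact (sub_eq_zero.1 g5).symm)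
  have hj0 : j = 0 := congrArg Fin.val g6
  have hk0 : k = 0 := by omega
  rw [hnorm, hk0, pow_zero, one_mul]
  exact ⟨m, rfl⟩

end Pool.Agent.W94.F3
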