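import Mathlib
import Pool.Agent.W94.F3.Main5

/-!
# Reduction to classes with values in the rational subgroup
-/

set_option autoImplicit false
set_option linter.unusedSectionVars false

namespace Pool.Agent.W94.F3

open scoped Classical

/-- exponents divisible by three away from `2` and `3` -/
def HypZ (N : ℤ) : Prop := ∀ p : ℕ, p.Prime → p ≠ 2 → p ≠ 3 → ∀ (m : ℕ) (M : ℤ),
  N = (p : ℤ) ^ m * M → ¬ (p : ℤ) ∣ M → 3 ∣ m

lemma int_factor (n : ℕ) : ∀ N : ℤ, N.natAbs = n → N ≠ 0 → HypZ N →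
    ∃ (a b : ℕ) (r : ℤ), r ≠ 0 ∧ N = 2 ^ a * 3 ^ b * r ^ 3 := by
  induction n using Nat.strong_induction_on with
  | _ n ih =>
    intro N hn hN hyp
    by_cases h1 : n = 1
    · rw [h1] at hn
      rcases Int.natAbs_eq_iff.1 hn with h | h
      · exact ⟨0, 0, 1, one_ne_zero, by rw [h]; norm_num⟩
      · exact ⟨0, 0, -1, by norm_num, by rw [h]; norm_num⟩
    · obtain ⟨p, hp, hpn⟩ := Nat.exists_prime_and_dvd h1
      have hpZ : Prime (p : ℤ) := Nat.prime_iff_prime_int.1 hp
      have hpN : (p : ℤ) ∣ N := by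
        rw [← Int.dvd_natAbs, hn]
        exact_mod_cast hpn
      obtain ⟨N', hN'⟩ := hpN
      have hN'0 : N' ≠ 0 := by
        rintro rfl
        exact hN (by rw [hN', mul_zero])
      have hlt : N'.natAbs < n := by
        rw [← hn, hN', Int.natAbs_mul, Int.natAbs_natCast]
        have := Int.natAbs_pos.2 hN'0
        have := hp.two_le
        nlinarith
      have easy : p = 2 ∨ p = 3 → HypZ N' := by
        intro hp23 q hq hq2 hq3 m M hM hqM
        refine hyp q hq hq2 hq3 m (p * M) (by rw [hN', hM]; ring) ?_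
        intro hd
        rcases (Nat.prime_iff_prime_int.1 hq).dvd_or_dvd hd with h | h
        · have h' : q ∣ p := by exact_mod_cast h
          have := (Nat.prime_dvd_prime_iff_eq hq hp).1 h'
          rcases hp23 with h2 | h2
          · exact hq2 (this.trans h2)
          · exact hq3 (this.trans h2)
        · exact hqM h
      by_cases hp2 : p = 2
      · obtain ⟨a, b, r, hr, h⟩ := ih _ hlt N' rfl hN'0 (easy (Or.inl hp2))
        refine ⟨a + 1, b, r, hr, ?_⟩
        rw [hN', h, hp2]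
        push_cast
        ring
      · by_cases hp3 : p = 3
        · obtain ⟨a, b, r, hr, h⟩ := ih _ hlt N' rfl hN'0 (easy (Or.inr hp3))
          refine ⟨a, b + 1, r, hr, ?_⟩
          rw [hN', h, hp3]
          push_cast
          ring
        · obtain ⟨M, hM, hnd⟩ :=
            (FiniteMultiplicity.of_prime_left hpZ hN).exists_eq_pow_mul_and_not_dvd
          obtain ⟨m, hm⟩ : ∃ m, m = multiplicity (p : ℤ) N := ⟨_, rfl⟩
          rw [← hm] at hM
          have h3 := hyp p hp hp2 hp3 m M hM hnd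
          have hm0 : m ≠ 0 := by
            rintro rfl
            rw [pow_zero, one_mul] at hM
            apply hnd
            rw [← hM, hN']
            exact dvd_mul_right _ _
          have hM0 : M ≠ 0 := by
            rintro rfl
            exact hN (by rw [hM, mul_zero])
          have hlt' : M.natAbs < n := by
            rw [← hn, hM, Int.natAbs_mul]
            have h4 := Int.natAbs_pos.2 hM0
            have h5 : 2 ≤ ((p : ℤ) ^ m).natAbs := by
              rw [Int.natAbs_pow, Int.natAbs_natCast]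
              calc 2 ≤ p := hp.two_le
                _ = p ^ 1 := (pow_one p).symm
                _ ≤ p ^ m := Nat.pow_le_pow_right hp.pos (Nat.one_le_iff_ne_zero.2 hm0)
            nlinarith
          have hyp' : HypZ M := by
            intro q hq hq2 hq3 k M' hM' hqM'
            by_cases hqp : q = p
            · have hk0 : k = 0 := by
                by_contra hk0
                apply hnd
                rw [hM', hqp]
                exact Dvd.dvd.mul_right (dvd_pow_self _ hk0) _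
              rw [hk0]
              exact dvd_zero 3
            · refine hyp q hq hq2 hq3 k (p ^ m * M') (by rw [hM, hM']; ring) ?_
              intro hd
              have hqZ := Nat.prime_iff_prime_int.1 hq
              rcases hqZ.dvd_or_dvd hd with h | h
              · have h' := hqZ.dvd_of_dvd_pow h
                have h'' : q ∣ p := by exact_mod_cast h'
                exact hqp ((Nat.prime_dvd_prime_iff_eq hq hp).1 h'')
              · exact hqM' h
          obtain ⟨a, b, r, hr, h⟩ := ih _ hlt' M rfl hM0 hyp'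
          obtain ⟨l, rfl⟩ := h3
          refine ⟨a, b, (p : ℤ) ^ l * r, mul_ne_zero (pow_ne_zero _ hpZ.ne_zero) hr, ?_⟩
          rw [hM, h]
          ring

lemma zc4 : ∀ (c : ZMod 7) (a b : Fin 3), c ^ 3 = 2 ^ (a : ℕ) * 3 ^ (b : ℕ) → a = b := by decide

lemma stepC4 {Ξ : GQ → Pt Qbar} (hΞ : Coc ⊤ Ξ) (hl : LocAt Ξ) {t : Qbar} (ht0 : t ≠ 0)
    (ht : ∀ g : GQ, g t = eps (Ξ g) * t) :
    ∃ (k : ℕ) (r : Qbar), r ≠ 0 ∧ (∀ g : GQ, g r = r) ∧ t ^ 3 = (tP ^ k * r) ^ 3 := by
  have hfix : ∀ g : GQ, g (t ^ 3) = t ^ 3 := by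
    intro g
    rw [map_pow, ht, mul_pow, eps_cube (hΞ.tors g trivial), one_mul]
  obtain ⟨q, hq⟩ := (InfiniteGalois.mem_range_algebraMap_iff_fixed (k := ℚ) (K := Qbar) (t ^ 3)).2
    hfix
  have hq0 : q ≠ 0 := by
    rintro rfl
    rw [map_zero] at hq
    exact pow_ne_zero 3 ht0 hq.symm
  have hden : (q.den : ℚ) ≠ 0 := by exact_mod_cast q.den_ne_zero
  have hnum : q.num ≠ 0 := Rat.num_ne_zero.2 hq0
  have hN0 : q.num * (q.den : ℤ) ^ 2 ≠ 0 :=
    mul_ne_zero hnum (pow_ne_zero _ (by exact_mod_cast q.den_ne_zero))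
  have hNq : ((q.num * (q.den : ℤ) ^ 2 : ℤ) : ℚ) = q * (q.den : ℚ) ^ 3 := by
    push_cast
    have : (q.num : ℚ) = q * q.den := by
      have := Rat.num_div_den q
      field_simp at this
      linarith
    rw [this]
    ring
  have hNt : ((q.num * (q.den : ℤ) ^ 2 : ℤ) : Qbar) = t ^ 3 * (q.den : Qbar) ^ 3 := by
    have := congrArg (algebraMap ℚ Qbar) hNq
    rw [map_intCast, map_mul, map_pow, map_natCast, hq] at this
    exact this
  have hPZ : ∀ (p : ℕ) [Fact p.Prime], p ≠ 2 → p ≠ 3 → ∃ ι : Qbar →ₐ[ℚ] Cp p, PZ p ‖ι t‖ := by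
    intro p hp h2 h3
    by_cases h7 : p = 7
    · subst h7
      obtain ⟨ι, hι⟩ := exists_iota7
      refine ⟨ι, ?_⟩
      have e : hp = fact7 := rfl
      exact stepC3 hΞ hl ht0 ht ι hι
    · obtain ⟨ι⟩ := exists_iota p
      by_cases h13 : p = 13 ∨ p = 31
      · exact ⟨ι, stepC2 h13 hΞ ht0 ht ι⟩
      · refine ⟨ι, stepC1 hΞ hl ht0 ht h2 h3 ?_ ι⟩
        intro hd
        have hd' : p ∣ 7 * (13 * 31) := by exact_mod_cast hd
        push Not at h13
        rcases (hp.1.dvd_mul).1 hd' with h | h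
        · exact h7 ((Nat.prime_dvd_prime_iff_eq hp.1 (by norm_num)).1 h)
        · rcases (hp.1.dvd_mul).1 h with h | h
          · exact h13.1 ((Nat.prime_dvd_prime_iff_eq hp.1 (by norm_num)).1 h)
          · exact h13.2 ((Nat.prime_dvd_prime_iff_eq hp.1 (by norm_num)).1 h)
  have hyp : HypZ (q.num * (q.den : ℤ) ^ 2) := by
    intro p hp h2 h3 m M hM hnd
    have : Fact p.Prime := ⟨hp⟩
    obtain ⟨ι, n, hn⟩ := hPZ p h2 h3
    have h1 := congrArg norm (congrArg ι hNt)
    rw [hM, map_intCast, map_mul, map_pow, map_pow, map_natCast] at h1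
    have hp0 : (p : ℝ) ≠ 0 := by exact_mod_cast hp.ne_zero
    have e1 : ‖(((p : ℤ) ^ m * M : ℤ) : Cp p)‖ = (p : ℝ) ^ (-(m : ℤ)) := by
      rw [Int.cast_mul, Int.cast_pow, norm_mul, norm_pow, norm_p, norm_int_eq_one hnd, mul_one,
        zpow_neg, zpow_natCast, inv_pow]
    have e2 : PZ p ‖(q.den : Cp p)‖ := by
      have h4 : ∀ s : Gp p, s (q.den : Cp p) = (q.den : Cp p) := fun s => map_natCast s _
      rcases PZ_of_fixed h4 with h5 | h5
      · exact h5
      · rw [norm_eq_zero] at h5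
        have : q.den = 0 := by exact_mod_cast h5
        exact absurd this q.den_ne_zero
    obtain ⟨l, hl'⟩ := e2
    rw [e1, norm_mul, norm_pow, norm_pow, hn, hl', ← zpow_natCast, ← zpow_natCast, ← zpow_mul,
      ← zpow_mul, ← zpow_add₀ hp0] at h1
    have h6 := p_zpow_inj h1
    push_cast at h6
    have h7 : (3 : ℤ) ∣ m := ⟨-(n + l), by linarith⟩
    exact_mod_cast h7
  obtain ⟨a, b, r, hr, hab⟩ := int_factor _ _ rfl hN0 hyp
  have hdenQ : (q.den : Qbar) ≠ 0 := by exact_mod_cast q.den_ne_zero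
  have hrQ : (r : Qbar) ≠ 0 := by exact_mod_cast hr
  have h20 : (2 : Qbar) ≠ 0 := two_ne_zero
  have h30 : (3 : Qbar) ≠ 0 := by norm_num
  -- the reduced form
  obtain ⟨y, hy⟩ : ∃ y : Qbar, y = 2 ^ (a / 3) * 3 ^ (b / 3) * (r / q.den) := ⟨_, rfl⟩
  have hy0 : y ≠ 0 := by
    rw [hy]
    exact mul_ne_zero (mul_ne_zero (pow_ne_zero _ h20) (pow_ne_zero _ h30)) (div_ne_zero hrQ hdenQ)
  have hyf : ∀ g : GQ, g y = y := by
    intro g
    rw [hy, map_mul, map_mul, map_pow, map_pow, map_div₀, map_intCast, map_natCast, map_ofNat,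
      map_ofNat]
  have ht3 : t ^ 3 = 2 ^ (a % 3) * 3 ^ (b % 3) * y ^ 3 := by
    have e1 : t ^ 3 * (q.den : Qbar) ^ 3 = 2 ^ a * 3 ^ b * (r : Qbar) ^ 3 := by
      rw [← hNt, hab]
      push_cast
      ring
    have e2 : (2 : Qbar) ^ a = (2 ^ (a / 3)) ^ 3 * 2 ^ (a % 3) := by
      rw [← pow_mul, ← pow_add, mul_comm, Nat.div_add_mod]
    have e3 : (3 : Qbar) ^ b = (3 ^ (b / 3)) ^ 3 * 3 ^ (b % 3) := by
      rw [← pow_mul, ← pow_add, mul_comm, Nat.div_add_mod]
    rw [e2, e3] at e1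
    rw [hy]
    field_simp
    linear_combination e1
  -- the condition at seven
  have hcong : a % 3 = b % 3 := by
    obtain ⟨ι⟩ := exists_iota 7
    have H := totram (p := 7) (Or.inl rfl) ι
    have hF := stepC3' hΞ hl ht ι
    have hιy : ι y ≠ 0 := (map_ne_zero_iff ι ι.injective).2 hy0
    have hF' : InF (ι ge) (ι t / ι y) := by
      apply hF.div
      intro s _
      rw [← res_spec, hyf]
    have hu3 : (ι t / ι y) ^ 3 = 2 ^ (a % 3) * 3 ^ (b % 3) := by
      have := congrArg ι ht3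
      rw [map_mul, map_mul, map_pow, map_pow, map_pow, map_pow, map_ofNat, map_ofNat] at this
      rw [div_pow, this]
      field_simp
    have n2 : ‖(2 : Cp 7)‖ = 1 := by
      have := norm_int_eq_one (p := 7) (n := 2) (by norm_num)
      exact_mod_cast this
    have n3 : ‖(3 : Cp 7)‖ = 1 := by
      have := norm_int_eq_one (p := 7) (n := 3) (by norm_num)
      exact_mod_cast this
    have hu1 : ‖ι t / ι y‖ = 1 := by
      have := congrArg norm hu3
      rw [norm_pow, norm_mul, norm_pow, norm_pow, n2, n3, one_pow, one_pow, one_mul] at this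
      exact (pow_eq_one_iff_of_nonneg (norm_nonneg _) (by norm_num)).1 this
    obtain ⟨c, hc⟩ := H.residue hF' hu1.le
    have h5 := near_pow hu1.le hc 3
    rw [hu3] at h5
    have h6 : ‖((2 ^ (a % 3) * 3 ^ (b % 3) - c ^ 3 : ℤ) : Cp 7)‖ < 1 := by
      push_cast
      exact h5
    rw [norm_int_lt_iff] at h6
    have h7 := (ZMod.intCast_zmod_eq_zero_iff_dvd _ 7).2 h6
    push_cast at h7
    have h8 := zc4 (c : ZMod 7) ⟨a % 3, Nat.mod_lt _ (by norm_num)⟩
      ⟨b % 3, Nat.mod_lt _ (by norm_num)⟩ (sub_eq_zero.1 h7).symm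
    exact congrArg Fin.val h8
  refine ⟨a % 3, y / (-6) ^ (a % 3), div_ne_zero hy0 (pow_ne_zero _ (by norm_num)), ?_, ?_⟩
  · intro g
    rw [map_div₀, map_pow, map_neg, map_ofNat, hyf]
  · rw [ht3, ← hcong, mul_pow, ← pow_mul, mul_comm (a % 3) 3, pow_mul, tP3, div_pow, ← pow_mul,
      mul_comm (a % 3) 3, pow_mul]
    have e1 : (2 : Qbar) ^ (a % 3) * 3 ^ (a % 3) = 6 ^ (a % 3) := by
      rw [← mul_pow]; norm_num
    have e2 : (-1296 : Qbar) ^ (a % 3) = 6 ^ (a % 3) * ((-6) ^ 3) ^ (a % 3) := by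
      rw [← mul_pow]; norm_num
    have e3 : ((-6 : Qbar) ^ 3) ^ (a % 3) ≠ 0 := pow_ne_zero _ (by norm_num)
    rw [e1, e2]
    field_simp

/-- reduction to the rational subgroup -/
lemma stepC {Ξ : GQ → Pt Qbar} (hΞ : Coc ⊤ Ξ) (hl : LocAt Ξ) :
    ∃ (k : ℕ) (T : Pt Qbar), 3 • T = 0 ∧
      ∀ g : GQ, ∃ i : ℕ, Ξ g = k • cP g + (g • T - T) + i • P3 := by
  obtain ⟨t, ht0, ht'⟩ := exists_t hΞ
  have ht : ∀ g : GQ, g t = eps (Ξ g) * t := fun g => ht' g trivial
  obtain ⟨k, r, hr0, hr, h3⟩ := stepC4 hΞ hl ht0 ht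
  obtain ⟨j, hj⟩ : ∃ j : ℕ, t = gw ^ j * (tP ^ k * r) := by
    rcases cube_roots hgw h3 with h | h | h
    · exact ⟨0, by rw [h]; ring⟩
    · exact ⟨1, by rw [h]; ring⟩
    · exact ⟨2, h⟩
  obtain ⟨T, hT⟩ : ∃ T, T = 0 • P3 + j • T1 gw gd hgw hgd := ⟨_, rfl⟩
  have hT3 : 3 • T = 0 := by rw [hT]; exact comb_tors 0 j
  have heT : eps T = gw ^ j := by rw [hT]; exact eps_comb hgw hgd 0 j
  refine ⟨k, T, hT3, fun g => ?_⟩
  have hX := hΞ.tors g trivial
  have hgT := three_smul_g g hT3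
  have hk := tors_nsmul (cP_tors g) k
  have hY : 3 • (k • cP g + (g • T - T)) = 0 := tors_add hk (tors_sub hgT hT3)
  have key : eps (Ξ g - (k • cP g + (g • T - T))) = 1 := by
    rw [eps_subQ hX hY, eps_addQ hk (tors_sub hgT hT3), eps_subQ hgT hT3, eps_nsmulQ (cP_tors g),
      eps_smul, heT]
    have h1 := ht g
    rw [hj, map_mul, map_mul, map_pow g tP, gal_tP, hr, mul_pow] at h1
    have hw0 : gw ^ j ≠ 0 := pow_ne_zero _ gw_ne
    have ht0' : tP ^ k ≠ 0 := pow_ne_zero _ tP_ne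
    have he0 : eps (cP g) ^ k ≠ 0 := pow_ne_zero _ (eps_ne (cP_tors g))
    have hg0 : g (gw ^ j) ≠ 0 := map_ne hw0
    have h2 : g (gw ^ j) * eps (cP g) ^ k = eps (Ξ g) * gw ^ j := by
      have h4 : tP ^ k * r ≠ 0 := mul_ne_zero ht0' hr0
      apply mul_right_cancel₀ h4
      linear_combination h1
    have h5 : eps (Ξ g) = g (gw ^ j) * eps (cP g) ^ k / gw ^ j := by
      rw [h2]; field_simp
    rw [h5]
    field_simp
  obtain ⟨i, hi⟩ := eps_eq_one hgw hgd (tors_sub hX hY) key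
  refine ⟨i, ?_⟩
  rw [← hi]
  abel

end Pool.Agent.W94.F3
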