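import Mathlib
import Pool.Agent.W94.F3.Main6
import Pool.Agent.W94.F3.Eis3

/-!
# Classes with values in the rational subgroup
-/

set_option autoImplicit false
set_option linter.unusedSectionVars false

namespace Pool.Agent.W94.F3

open scoped Classical

section D

variable {χ : GQ → Pt Qbar} (hχ : Coc ⊤ χ) (hl : LocAt χ) (hP : ∀ g, ∃ i : ℕ, χ g = i • P3)

include hχ hP in
lemma chi_mul (g h : GQ) : χ (g * h) = χ g + χ h := by
  obtain ⟨i, hi⟩ := hP h
  rw [hχ.mul g trivial h trivial, hi, smul_comm g i, smul_P3]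

lemma psiF_P (i : ℕ) : psiF (i • (P3 : Pt Qbar)) = gw ^ i := by
  have := psiF_comb i 0
  rw [zero_smul, add_zero] at this
  exact this

/-- all local automorphisms at `2` and `3` restrict into `NK` -/
lemma res_mem23 {p : ℕ} [hp : Fact p.Prime] (hp23 : p = 2 ∨ p = 3) (ι : Qbar →ₐ[ℚ] Cp p)
    (t : Gp p) : res ι t ∈ NK := by
  obtain ⟨i, hi⟩ := gal_gu (res ι t)
  have hs : ι (gu 0) + ι (gu 1) + ι (gu 2) = 0 := by
    rw [← map_add, ← map_add, gu_sum, map_zero]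
  have hq : ι (gu 0) * ι (gu 1) + ι (gu 1) * ι (gu 2) + ι (gu 2) * ι (gu 0) = -8463 := by
    rw [← map_mul, ← map_mul, ← map_mul, ← map_add, ← map_add, gu_quad, map_neg, map_ofNat]
  have hpr : ι (gu 0) * ι (gu 1) * ι (gu 2) = 242606 := by
    rw [← map_mul, ← map_mul, gu_prod, map_ofNat]
  rcases (show i % 3 = 0 ∨ i % 3 = 1 ∨ i % 3 = 2 by omega) with h | h | h
  · rw [mem_fixing, hi]
    exact gu_mod (by omega)
  · exfalso
    refine Lsplit hp23 hs hq hpr t ?_ ?_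
    · rw [← res_spec, hi]
      exact congrArg ι (gu_mod (by omega))
    · rw [← res_spec, hi]
      exact congrArg ι (gu_mod (by omega))
  · exfalso
    refine Lsplit (u := ι (gu 0)) (v := ι (gu 2)) (z := ι (gu 1)) hp23 ?_ ?_ ?_ t ?_ ?_
    · linear_combination hs
    · linear_combination hq
    · linear_combination hpr
    · rw [← res_spec, hi]
      exact congrArg ι (gu_mod (by omega))
    · rw [← res_spec, hi]
      exact congrArg ι (gu_mod (by omega))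

include hl hP in
lemma chi_zero23 {p : ℕ} [hp : Fact p.Prime] (hp23 : p = 2 ∨ p = 3) (ι : Qbar →ₐ[ℚ] Cp p)
    (t : Gp p) : χ (res ι t) = 0 := by
  obtain ⟨R, hR⟩ := hl p ι
  have h1 := hR t (res_mem23 hp23 ι t)
  have hw := hiw ι
  obtain ⟨i, hi⟩ := hP (res ι t)
  rcases P3_cases (L := Qbar) i with h0 | h0 | h0
  · rw [hi, h0]
  · exfalso
    rw [hi, h0, pm_P3] at h1
    apply L23 hp23 hw t R
    rw [h1]
    abel
  · exfalso
    rw [hi, h0, map_add, pm_P3] at h1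
    apply L23 hp23 hw t⁻¹ R
    have h2 : lact t R = R + (P3 + P3) := by rw [h1]; abel
    have h3 : lact t⁻¹ (lact t R) = R := by
      rw [← lact_mul, inv_mul_cancel, lact_one]
    rw [h2, map_add, map_add, lact_P3] at h3
    have h4 : 3 • (P3 : Pt (Cp p)) = 0 := three_P
    have h5 : lact t⁻¹ R = R - (P3 + P3) := by
      rw [eq_sub_iff_add_eq]
      exact h3
    rw [h5]
    have h6 : R - (P3 + P3) = R + P3 - 3 • P3 := by abel
    rw [h6, h4, sub_zero]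

/-- the stabiliser of `gw` -/
def Hw : Subgroup GQ where
  carrier := {g | g gw = gw}
  one_mem' := rfl
  mul_mem' := by
    rintro a b h1 h2
    change (a * b) gw = gw
    rw [AlgEquiv.mul_apply]
    change b gw = gw at h2
    change a gw = gw at h1
    rw [h2, h1]
  inv_mem' := by
    rintro a h1
    change a gw = gw at h1
    change a⁻¹ gw = gw
    conv_lhs => rw [← h1]
    exact a.symm_apply_apply _

lemma mem_Hw {g : GQ} : g ∈ Hw ↔ g gw = gw := Iff.rfl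

include hχ hP in
lemma exists_y : ∃ y : Qbar, y ≠ 0 ∧ ∀ g ∈ Hw, g y = psiF (χ g) * y := by
  obtain ⟨M, hM, hcont⟩ := hχ.cont
  have hT := fun g : GQ => hχ.tors g trivial
  refine H90 Hw (fun g => psiF (χ g)) (fun g _ => psiF_ne (hT g)) (fun g hg h hh => ?_) M
    (fun g _ hg => ?_)
  · rw [chi_mul hχ hP, psiF_add (hT g) (hT h), psiF_fix (hT h) (mem_Hw.1 hg)]
  · rw [hcont g trivial hg, psiF_zero]

/-- a conjugation in the kernel of `χ` -/
lemma exists_rho' (hχ : Coc ⊤ χ) (hP : ∀ g, ∃ i : ℕ, χ g = i • P3) :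
    ∃ ρ : GQ, ρ gw = gw ^ 2 ∧ χ ρ = 0 := by
  obtain ⟨ρ, hρ⟩ := exists_rho
  refine ⟨ρ * (ρ * ρ), ?_, ?_⟩
  · rw [AlgEquiv.mul_apply, AlgEquiv.mul_apply, hρ, map_pow, hρ, map_pow, map_pow, hρ]
    linear_combination (gw ^ 5 + gw ^ 2) * gw3
  · rw [chi_mul hχ hP, chi_mul hχ hP]
    have := hχ.tors ρ trivial
    rw [← this]
    abel

lemma Q_add_nP {L : Type*} [Field L] [Algebra ℚ L] [DecidableEq L] {w A B : L}
    (hw : w ^ 2 + w + 1 = 0) (h : Rel A B) (i : ℕ) :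
    ∃ h' : Rel (w ^ i * A) (w ^ (2 * i) * B),
      Q w A B hw h + i • P3 = Q w (w ^ i * A) (w ^ (2 * i) * B) hw h' := by
  have key : ∀ (A' B' A'' B'' : L) (h1 : Rel A' B'), A' = A'' → B' = B'' →
      ∃ h2 : Rel A'' B'', Q w A' B' hw h1 = Q w A'' B'' hw h2 := by
    rintro A' B' A'' B'' h1 rfl rfl
    exact ⟨h1, rfl⟩
  induction i with
  | zero =>
    obtain ⟨h2, e⟩ := key A B (w ^ 0 * A) (w ^ (2 * 0) * B) h (by ring) (by ring)
    exact ⟨h2, by rw [zero_smul, add_zero, e]⟩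
  | succ i ih =>
    obtain ⟨h', e⟩ := ih
    have e2 := Q_add_P hw h'
    obtain ⟨h2, e3⟩ := key _ _ (w ^ (i + 1) * A) (w ^ (2 * (i + 1)) * B) (rel_rot hw h')
      (by ring) (by ring)
    refine ⟨h2, ?_⟩
    rw [succ_nsmul, ← add_assoc, e, e2, e3]

include hl hP in
lemma stepD1 {y : Qbar} (hy0 : y ≠ 0) (hy : ∀ g ∈ Hw, g y = psiF (χ g) * y) {p : ℕ}
    [hp : Fact p.Prime] (h3 : p ≠ 3) (h847 : ¬ (p : ℤ) ∣ 847) (h28 : ¬ (p : ℤ) ∣ 2821)
    (ι : Qbar →ₐ[ℚ] Cp p) : PZ p ‖ι y‖ := by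
  obtain ⟨R, hR3, hR⟩ : ∃ R : Pt (Cp p), 3 • R ≠ 0 ∧
      ∀ t : Gp p, res ι t ∈ NK → pm ι (χ (res ι t)) = lact t R - R := by
    obtain ⟨R, hR⟩ := hl p ι
    by_cases h : 3 • R = 0
    · refine ⟨R + T2, ?_, ?_⟩
      · rw [nsmul_add, h, zero_add]
        exact three_T2_ne
      · intro t ht
        rw [hR t ht, map_add, lact_T2]
        abel
    · exact ⟨R, h, hR⟩
  have hw := hiw ι
  have hw3 : (ι gw) ^ 3 = 1 := by rw [← map_pow, gw3, map_one]
  have hw0 : ι gw ≠ 0 := w_ne hw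
  obtain ⟨A, B, hrel, hA, hB, hQ⟩ := exists_Q hw hR3
  have hι0 : ι y ≠ 0 := (map_ne_zero_iff ι ι.injective).2 hy0
  have he : ∀ t' : Gp p, t' (ι gw) = ι gw → t' (ι ge ^ 3) = ι ge ^ 3 := by
    intro t' ht'
    rw [hie, map_mul, map_add, map_mul, ht', map_ofNat, map_ofNat, map_ofNat]
  have key : ∀ t' : Gp p, t' (ι gw) = ι gw → t' (ι ge) = ι ge →
      ∃ i : ℕ, t' A = (ι gw) ^ i * A ∧ t' B = (ι gw) ^ (2 * i) * B ∧
        t' (ι y) = (ι gw) ^ i * ι y := by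
    intro t' h4 h5
    obtain ⟨hgw', -, hN⟩ := res_mem_of_fix ι h4 h5
    obtain ⟨i, hi⟩ := hP (res ι t')
    have h6 := hR t' hN
    rw [hi, map_nsmul, pm_P3] at h6
    have h7 : lact t' R = R + i • P3 := by rw [h6]; abel
    obtain ⟨h8, e8⟩ := lact_Q t' hw h4 hrel
    obtain ⟨h9, e9⟩ := Q_add_nP hw hrel i
    rw [hQ, e9, e8, Q_inj] at h7
    refine ⟨i, h7.1, h7.2, ?_⟩
    rw [← res_spec, hy _ hgw', hi, psiF_P, map_mul, map_pow]
  have hn := norm_ge h28 ι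
  have c1 : PZ p ‖ι y / A‖ ∨ ‖ι y / A‖ = 0 := by
    apply VG h3 hw hn he
    intro t' h4 h5
    obtain ⟨i, e1, e2, e3⟩ := key t' h4 h5
    rw [map_div₀, e1, e3, mul_div_mul_left _ _ (pow_ne_zero _ hw0)]
  have c1' : PZ p ‖ι y / A‖ := by
    rcases c1 with h | h
    · exact h
    · rw [norm_eq_zero] at h
      exact absurd h (div_ne_zero hι0 hA)
  have c2 : PZ p ‖A ^ 3‖ ∨ ‖A ^ 3‖ = 0 := by
    apply VG h3 hw hn he
    intro t' h4 h5
    obtain ⟨i, e1, e2, e3⟩ := key t' h4 h5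
    rw [map_pow, e1, mul_pow, ← pow_mul, mul_comm i 3, pow_mul, hw3, one_pow, one_mul]
  have c3 : PZ p ‖A * B‖ ∨ ‖A * B‖ = 0 := by
    apply VG h3 hw hn he
    intro t' h4 h5
    obtain ⟨i, e1, e2, e3⟩ := key t' h4 h5
    have : (ι gw) ^ i * (ι gw) ^ (2 * i) = 1 := by
      rw [← pow_add, show i + 2 * i = 3 * i by ring, pow_mul, hw3, one_pow]
    rw [map_mul, e1, e2]
    linear_combination (A * B) * this
  have c4 : PZ p ‖A‖ := by
    apply norm_PZ (e := 15) (k := -847) (b := B) _ _ _ hA c2 c3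
    · unfold Rel at hrel
      linear_combination hrel
    · have := norm_int_le (p := p) 15
      exact_mod_cast this
    · have := norm_int_eq_one (p := p) (n := -847) (by rwa [Int.dvd_neg])
      exact_mod_cast this
  have := c1'.mul c4
  rwa [← norm_mul, div_mul_cancel₀ _ hA] at this

/-- the product with the conjugate is rational -/
lemma stepD2 (hχ : Coc ⊤ χ) (hP : ∀ g, ∃ i : ℕ, χ g = i • P3) {y : Qbar}
    (hy : ∀ g ∈ Hw, g y = psiF (χ g) * y) {ρ : GQ} (hρ : ρ gw = gw ^ 2) (hρ0 : χ ρ = 0) :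
    (∀ g : GQ, g (y * ρ y) = y * ρ y) ∧ ρ (ρ y) = y := by
  have hρi : ρ⁻¹ gw = gw ^ 2 := by
    have h1 : ρ (gw ^ 2) = gw := by
      rw [map_pow, hρ]
      linear_combination gw * gw3
    rw [← h1]
    have h2 : ρ⁻¹ (ρ (gw ^ 2)) = gw ^ 2 := ρ.symm_apply_apply _
    rw [h2, h1]
  have hρρ : ρ (ρ y) = y := by
    have h1 : ρ * ρ ∈ Hw := by
      rw [mem_Hw, AlgEquiv.mul_apply, hρ, map_pow, hρ]
      linear_combination gw * gw3
    have h2 := hy _ h1
    rw [chi_mul hχ hP, hρ0, add_zero, psiF_zero, one_mul] at h2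
    exact h2
  have hconj : ∀ g ∈ Hw, ρ⁻¹ * g * ρ ∈ Hw := by
    intro g hg
    rw [mem_Hw] at hg
    rw [mem_Hw, AlgEquiv.mul_apply, AlgEquiv.mul_apply, hρ, map_pow, hg, map_pow, hρi]
    linear_combination gw * gw3
  have h1 : ∀ g ∈ Hw, g (y * ρ y) = y * ρ y := by
    intro g hg
    obtain ⟨i, hi⟩ := hP g
    have h2 := hconj g hg
    have h3 : χ (ρ⁻¹ * g * ρ) = χ g := by
      have h4 : χ (ρ⁻¹ * ρ) = 0 := by rw [inv_mul_cancel]; exact hχ.one
      rw [chi_mul hχ hP, hρ0, add_zero] at h4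
      rw [chi_mul hχ hP, chi_mul hχ hP, h4, hρ0, zero_add, add_zero]
    rw [map_mul, conj_apply g ρ, hy _ h2, h3, hy g hg, hi, psiF_P, map_mul, map_pow, hρ]
    have : gw ^ i * (gw ^ 2) ^ i = 1 := by
      rw [← mul_pow, show gw * gw ^ 2 = gw ^ 3 by ring, gw3, one_pow]
    linear_combination (y * ρ y) * this
  refine ⟨fun g => ?_, hρρ⟩
  rcases gal_gw g with hg | hg
  · exact h1 g hg
  · have h5 : ρ⁻¹ * g ∈ Hw := by
      rw [mem_Hw, AlgEquiv.mul_apply, hg, map_pow, hρi]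
      linear_combination gw * gw3
    have h6 := h1 _ h5
    rw [AlgEquiv.mul_apply] at h6
    calc g (y * ρ y) = ρ (ρ⁻¹ (g (y * ρ y))) := (ρ.apply_symm_apply _).symm
      _ = ρ (y * ρ y) := by rw [h6]
      _ = y * ρ y := by rw [map_mul, hρρ, mul_comm]

lemma rat_of_fixed {x : Qbar} (h : ∀ g : GQ, g x = x) : ∃ q : ℚ, algebraMap ℚ Qbar q = x :=
  (InfiniteGalois.mem_range_algebraMap_iff_fixed (k := ℚ) (K := Qbar) x).2 h

/-- elements of `ℚ(ω)` up to integers -/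
lemma exists_eis {θ : Qbar} (h1 : ∀ g ∈ Hw, g θ = θ) {ρ : GQ} (hρ : ρ gw = gw ^ 2)
    (hρθ : ρ (ρ θ) = θ) : ∃ (D : ℕ) (X : Eis), D ≠ 0 ∧ (D : Qbar) ^ 3 * θ = ev gw X := by
  have hρi : ρ⁻¹ gw = gw ^ 2 := by
    have h1 : ρ (gw ^ 2) = gw := by
      rw [map_pow, hρ]
      linear_combination gw * gw3
    rw [← h1]
    have h2 : ρ⁻¹ (ρ (gw ^ 2)) = gw ^ 2 := ρ.symm_apply_apply _
    rw [h2, h1]
  have hw3 := gw3
  have hw := hgw
  have hconj : ∀ g ∈ Hw, ρ⁻¹ * g * ρ ∈ Hw := by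
    intro g hg
    rw [mem_Hw] at hg
    rw [mem_Hw, AlgEquiv.mul_apply, AlgEquiv.mul_apply, hρ, map_pow, hg, map_pow, hρi]
    linear_combination gw * gw3
  have h2 : ∀ g ∈ Hw, g (ρ θ) = ρ θ := by
    intro g hg
    rw [conj_apply, h1 _ (hconj g hg)]
  have hall : ∀ x : Qbar, (∀ g ∈ Hw, g x = x) → ρ x = x → ∀ g : GQ, g x = x := by
    intro x hx hx' g
    rcases gal_gw g with hg | hg
    · exact hx g hg
    · have h5 : ρ⁻¹ * g ∈ Hw := by
        rw [mem_Hw, AlgEquiv.mul_apply, hg, map_pow, hρi]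
        linear_combination gw * gw3
      have h6 := hx _ h5
      rw [AlgEquiv.mul_apply] at h6
      calc g x = ρ (ρ⁻¹ (g x)) := (ρ.apply_symm_apply _).symm
        _ = ρ x := by rw [h6]
        _ = x := hx'
  obtain ⟨a, ha⟩ := rat_of_fixed (hall (θ + ρ θ) (fun g hg => by
    rw [map_add, h1 g hg, h2 g hg]) (by rw [map_add, hρθ, add_comm]))
  obtain ⟨b, hb⟩ := rat_of_fixed (hall (gw * θ + gw ^ 2 * ρ θ) (fun g hg => by
    rw [map_add, map_mul, map_mul, map_pow, h1 g hg, h2 g hg, mem_Hw.1 hg]) (by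
      rw [map_add, map_mul, map_mul, map_pow, hρθ, hρ]
      linear_combination (gw * θ) * hw3))
  obtain ⟨A, hA⟩ : ∃ A : ℚ, A = (a - b) / 3 := ⟨_, rfl⟩
  obtain ⟨B, hB⟩ : ∃ B : ℚ, B = -(a + 2 * b) / 3 := ⟨_, rfl⟩
  have hθ : θ = algebraMap ℚ Qbar A + algebraMap ℚ Qbar B * gw := by
    rw [hA, hB, map_div₀, map_div₀, map_neg, map_add, map_sub, map_mul, map_ofNat, map_ofNat, ha,
      hb]
    have h3 : (3 : Qbar) ≠ 0 := by norm_num
    field_simp
    linear_combination (2 * θ + (ρ θ) * (2 * gw - 1)) * hw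
  have hD0 : A.den * B.den ≠ 0 := mul_ne_zero A.den_ne_zero B.den_ne_zero
  refine ⟨A.den * B.den, ⟨A.num * A.den ^ 2 * B.den ^ 3, B.num * B.den ^ 2 * A.den ^ 3⟩, hD0, ?_⟩
  have eA : (A.num : Qbar) = algebraMap ℚ Qbar A * A.den := by
    have : (A.num : ℚ) = A * A.den := by
      have h4 := Rat.num_div_den A
      have h5 : (A.den : ℚ) ≠ 0 := by exact_mod_cast A.den_ne_zero
      field_simp at h4
      linarith
    have h6 := congrArg (algebraMap ℚ Qbar) this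
    rw [map_intCast, map_mul, map_natCast] at h6
    exact h6
  have eB : (B.num : Qbar) = algebraMap ℚ Qbar B * B.den := by
    have : (B.num : ℚ) = B * B.den := by
      have h4 := Rat.num_div_den B
      have h5 : (B.den : ℚ) ≠ 0 := by exact_mod_cast B.den_ne_zero
      field_simp at h4
      linarith
    have h6 := congrArg (algebraMap ℚ Qbar) this
    rw [map_intCast, map_mul, map_natCast] at h6
    exact h6
  unfold ev
  push_cast
  rw [eA, eB, hθ]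
  ring

lemma ev_ne_zero {X : Eis} (hX : X ≠ 0) : ev gw X ≠ 0 := by
  intro h
  have h1 := ev_norm hgw X
  rw [h, zero_mul] at h1
  have h2 : QuadraticAlgebra.norm X = 0 := by exact_mod_cast h1.symm
  exact hX (Eis.norm_eq_zero h2)

lemma ev_map {p : ℕ} [hp : Fact p.Prime] (ι : Qbar →ₐ[ℚ] Cp p) (X : Eis) :
    ι (ev gw X) = ev (ι gw) X := by
  unfold ev
  rw [map_add, map_mul, map_intCast, map_intCast]

open Eis in
lemma norm_Z (j a b c : ℕ) : QuadraticAlgebra.norm (om ^ j * (x7 ^ a * x13 ^ b * x31 ^ c)) =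
    7 ^ (3 * a) * 13 ^ (3 * b) * 31 ^ (3 * c) := by
  have h1 : QuadraticAlgebra.norm om = 1 := by decide
  have h2 : QuadraticAlgebra.norm x7 = 7 ^ 3 := by decide
  have h3 : QuadraticAlgebra.norm x13 = 13 ^ 3 := by decide
  have h4 : QuadraticAlgebra.norm x31 = 31 ^ 3 := by decide
  rw [map_mul, map_mul, map_mul, map_pow, map_pow, map_pow, map_pow, h1, h2, h3, h4, one_pow,
    one_mul, ← pow_mul, ← pow_mul, ← pow_mul]

open Eis in
lemma x_prod : x7 * x13 * x31 = (⟨70525, -101556⟩ : Eis) := by decide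

include hχ hl hP in
open Eis in
theorem stepD : ∀ g ∈ NK, χ g = 0 := by
  obtain ⟨y, hy0, hy⟩ := exists_y hχ hP
  obtain ⟨ρ, hρ, hρ0⟩ := exists_rho' hχ hP
  obtain ⟨hv, hρρ⟩ := stepD2 hχ hP hy hρ hρ0
  have hT := fun g : GQ => hχ.tors g trivial
  have hpsi3 : ∀ g, psiF (χ g) ^ 3 = 1 := by
    intro g
    obtain ⟨i, hi⟩ := hP g
    rw [hi, psiF_P, ← pow_mul, mul_comm, pow_mul, gw3, one_pow]
  have hθ : ∀ g ∈ Hw, g (y ^ 3) = y ^ 3 := by
    intro g hg
    rw [map_pow, hy g hg, mul_pow, hpsi3, one_mul]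
  obtain ⟨D, X, hD, hX⟩ := exists_eis hθ hρ (by rw [map_pow, map_pow, hρρ])
  have hDQ : (D : Qbar) ≠ 0 := by exact_mod_cast hD
  obtain ⟨y₁, hy₁⟩ : ∃ y₁, y₁ = (D : Qbar) * y := ⟨_, rfl⟩
  have hy₁0 : y₁ ≠ 0 := by rw [hy₁]; exact mul_ne_zero hDQ hy0
  have hy₁g : ∀ g ∈ Hw, g y₁ = psiF (χ g) * y₁ := by
    intro g hg
    rw [hy₁, map_mul, map_natCast, hy g hg]
    ring
  have hy₁3 : y₁ ^ 3 = ev gw X := by
    rw [hy₁, mul_pow, hX]
  have hX0 : X ≠ 0 := by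
    rintro rfl
    have : ev gw (0 : Eis) = 0 := by
      have h1 : (0 : Eis).re = 0 := rfl
      have h2 : (0 : Eis).im = 0 := rfl
      unfold ev
      rw [h1, h2, Int.cast_zero, zero_mul, add_zero]
    rw [this] at hy₁3
    exact pow_ne_zero 3 hy₁0 hy₁3
  -- the norm
  obtain ⟨hv₁, hρρ₁⟩ := stepD2 hχ hP hy₁g hρ hρ0
  obtain ⟨q, hq⟩ := rat_of_fixed hv₁
  obtain ⟨r, hr⟩ : ∃ r : ℤ, QuadraticAlgebra.norm X = r ^ 3 := by
    have h1 : (q : ℚ) ^ 3 = ((QuadraticAlgebra.norm X : ℤ) : ℚ) := by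
      have h2 : algebraMap ℚ Qbar (q ^ 3) = algebraMap ℚ Qbar ((QuadraticAlgebra.norm X : ℤ) : ℚ) := by
        rw [map_pow, hq, map_intCast, ← ev_norm hgw X, mul_pow, ← map_pow, hy₁3]
        congr 1
        unfold ev
        rw [map_add, map_mul, map_intCast, map_intCast, hρ]
      exact (algebraMap ℚ Qbar).injective h2
    obtain ⟨r, hr⟩ := IsIntegrallyClosed.exists_algebraMap_eq_of_isIntegral_pow (R := ℤ) (K := ℚ)
      (x := q) (n := 3) (by norm_num) (by rw [h1]; exact isIntegral_algebraMap)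
    refine ⟨r, ?_⟩
    rw [← hr] at h1
    have h3 : ((r : ℤ) : ℚ) ^ 3 = ((QuadraticAlgebra.norm X : ℤ) : ℚ) := h1
    exact_mod_cast h3.symm
  -- the hypothesis
  have hyp : Hyp X := by
    apply hyp_of hX0 hr
    intro p hp h3 h847 h28 w hw
    obtain ⟨ι, hι⟩ : ∃ ι : Qbar →ₐ[ℚ] Cp p, ι gw = w := by
      obtain ⟨ι⟩ := exists_iota p
      have h4 : (w - ι gw) * (w - ι gw ^ 2) = 0 := by
        have h5 := hiw ι
        have h6 : (ι gw) ^ 3 = 1 := by rw [← map_pow, gw3, map_one]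
        linear_combination hw - w * h5 + h6
      rcases mul_eq_zero.1 h4 with h5 | h5
      · exact ⟨ι, (sub_eq_zero.1 h5).symm⟩
      · refine ⟨ι.comp ρ.toAlgHom, ?_⟩
        change ι (ρ gw) = w
        rw [hρ, map_pow]
        exact (sub_eq_zero.1 h5).symm
    obtain ⟨n, hn⟩ := stepD1 hl hP hy₁0 hy₁g h3 h847 h28 ι
    refine ⟨n, ?_⟩
    rw [← hι, ← ev_map, ← hy₁3, map_pow, norm_pow, hn]
  obtain ⟨j, a, b, c, z1, z2, hj, ha, hb, hc, hz1, hz2, hZ⟩ := eis_main hX0 hyp hr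
  obtain ⟨Z, hZd⟩ : ∃ Z, Z = om ^ j * (x7 ^ a * x13 ^ b * x31 ^ c) := ⟨_, rfl⟩
  have hz1' := ev_ne_zero hz1
  have hz2' := ev_ne_zero hz2
  obtain ⟨y₂, hy₂⟩ : ∃ y₂, y₂ = y₁ * ev gw z1 / ev gw z2 := ⟨_, rfl⟩
  have hevf : ∀ (z : Eis), ∀ g ∈ Hw, g (ev gw z) = ev gw z := by
    intro z g hg
    unfold ev
    rw [map_add, map_mul, map_intCast, map_intCast, mem_Hw.1 hg]
  have hy₂g : ∀ g ∈ Hw, g y₂ = psiF (χ g) * y₂ := by
    intro g hg
    rw [hy₂, map_div₀, map_mul, hevf _ g hg, hevf _ g hg, hy₁g g hg]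
    ring
  have hy₂3 : y₂ ^ 3 = ev gw Z := by
    have h1 := congrArg (ev gw) hZ
    rw [ev_mul hgw, ev_pow hgw, ev_mul hgw, ev_pow hgw z2, ← hZd] at h1
    rw [hy₂, div_pow, mul_pow, hy₁3, h1]
    field_simp
  have hy₂0 : y₂ ≠ 0 := by
    rw [hy₂]
    exact div_ne_zero (mul_ne_zero hy₁0 hz1') hz2'
  -- local conditions at 2 and 3
  have hloc : ∀ (p : ℕ) [Fact p.Prime], p = 2 ∨ p = 3 → ∀ ι : Qbar →ₐ[ℚ] Cp p,
      ∀ t : Gp p, t (ι gw) = ι gw → t (ι y₂) = ι y₂ := by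
    intro p _ hp ι t ht
    have h1 : res ι t ∈ Hw := by
      have : ι (res ι t gw) = ι gw := by rw [res_spec, ht]
      exact ι.injective this
    rw [← res_spec, hy₂g _ h1, chi_zero23 hl hP hp ι t, psiF_zero, one_mul]
  have hcheck : j = 0 ∧ a = b ∧ b = c := by
    have hnd : ∀ p : ℕ, p.Prime → p = 2 ∨ p = 3 → ¬ (p : ℤ) ∣ QuadraticAlgebra.norm Z := by
      intro p hp hp23 hd
      rw [hZd, norm_Z] at hd
      have hpZ : Prime (p : ℤ) := Nat.prime_iff_prime_int.1 hp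
      rcases hpZ.dvd_or_dvd hd with h | h
      · rcases hpZ.dvd_or_dvd h with h | h
        · have := hpZ.dvd_of_dvd_pow h
          rcases hp23 with rfl | rfl <;> norm_num at this
        · have := hpZ.dvd_of_dvd_pow h
          rcases hp23 with rfl | rfl <;> norm_num at this
      · have := hpZ.dvd_of_dvd_pow h
        rcases hp23 with rfl | rfl <;> norm_num at this
    obtain ⟨ι2⟩ := exists_iota 2
    obtain ⟨ι3⟩ := exists_iota 3
    have c2 := cube_mod2 (hiw ι2) (hloc 2 (Or.inl rfl) ι2) (X := Z)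
      (hnd 2 Nat.prime_two (Or.inl rfl)) (by rw [← map_pow, hy₂3, ev_map])
    have c3 := cube_mod9 (hiw ι3) (hloc 3 (Or.inr rfl) ι3) (X := Z)
      (hnd 3 Nat.prime_three (Or.inr rfl)) (by rw [← map_pow, hy₂3, ev_map])
    rw [hZd] at c2 c3
    have := fin_check ⟨j, hj⟩ ⟨a, ha⟩ ⟨b, hb⟩ ⟨c, hc⟩ c2 c3
    refine ⟨congrArg Fin.val this.1, congrArg Fin.val this.2.1, congrArg Fin.val this.2.2⟩
  obtain ⟨rfl, rfl, rfl⟩ := hcheck
  have hZ2 : y₂ ^ 3 = ((2821 / ge) ^ a) ^ 3 := by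
    rw [hy₂3, hZd, pow_zero, one_mul, ← mul_pow, ← mul_pow, x_prod, ev_pow hgw, ← pow_mul,
      mul_comm a 3, pow_mul, ge_cube_inv]
    congr 1
    unfold ev
    push_cast
    linear_combination (-101556 : Qbar) * hgw
  -- conclusion on `NK ∩ Hw`
  have hfin : ∀ g ∈ NK, g gw = gw → χ g = 0 := by
    intro g hg hgw'
    have hge' := (mem_NK_iff_of_w hgw').1 hg
    have h1 : g y₂ = y₂ := by
      have h2 : ∀ k : ℕ, g (gw ^ k * (2821 / ge) ^ a) = gw ^ k * (2821 / ge) ^ a := by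
        intro k
        rw [map_mul, map_pow, map_pow, map_div₀, map_ofNat, hgw', hge']
      rcases cube_roots hgw hZ2 with h | h | h
      · have := h2 0
        rw [pow_zero, one_mul] at this
        rw [h, this]
      · have := h2 1
        rw [pow_one] at this
        rw [h, this]
      · rw [h, h2 2]
    rw [hy₂g g hgw'] at h1
    obtain ⟨i, hi⟩ := hP g
    rw [hi, psiF_P] at h1
    have h3 : gw ^ i = 1 := mul_right_cancel₀ hy₂0 (by rw [one_mul]; exact h1)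
    obtain ⟨k, rfl⟩ := w_pow_eq_one hgw h3
    rw [hi, mul_comm, mul_smul, three_P, smul_zero]
  intro g hg
  rcases gal_gw g with h | h
  · exact hfin g hg h
  · have h1 : (g * g) gw = gw := by
      rw [AlgEquiv.mul_apply, h, map_pow, h]
      linear_combination gw * gw3
    have h2 := hfin (g * g) (Subgroup.mul_mem _ hg hg) h1
    rw [chi_mul hχ hP] at h2
    have h3 := hT g
    have h4 : χ g = 3 • χ g - (χ g + χ g) := by abel
    rw [h4, h3, h2, sub_zero]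

end D

/-- the main theorem on classes over `ℚ` -/
theorem main_Q (Ξ : GQ → Pt Qbar) (hΞ : Coc ⊤ Ξ) (hl : LocAt Ξ) : InA Ξ := by
  obtain ⟨k, T, hT, h⟩ := stepC hΞ hl
  have c1 : Coc ⊤ (fun g => Ξ g + -(k • cP g + (g • T - T))) := by
    apply hΞ.add
    apply Coc.neg
    apply Coc.add
    · exact (cP_coc ⊤).nsmul k
    · exact coc_of_pt ⊤ T (fun g => tors_sub (three_smul_g g hT) hT)
  have l1 : LocAt (fun g => Ξ g + -(k • cP g + (g • T - T))) := by
    apply hl.add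
    apply LocAt.neg
    apply LocAt.add
    · exact cP_loc.nsmul k
    · exact loc_of_pt T
  have h1 := stepD c1 l1 (fun g => by
    obtain ⟨i, hi⟩ := h g
    refine ⟨i, ?_⟩
    rw [hi]
    abel)
  refine ⟨k, T, hT, fun g hg => ?_⟩
  have := h1 g hg
  rw [← sub_eq_add_neg, sub_eq_zero] at this
  exact this

/-- the main theorem on classes over `K` -/
theorem main_K {c : GQ → Pt Qbar} (hc : Coc NK c) (hl : LocAt c) : InA c :=
  nakayama main_Q hc hl

end Pool.Agent.W94.F3
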