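import Mathlib
import Pool.Agent.W94.F3.Main7

/-!
# The cyclic cubic field and its discriminant
-/

set_option autoImplicit false
set_option linter.unusedSectionVars false

namespace Pool.Agent.W94.F3

open scoped Classical NumberField

noncomputable instance instNFK : NumberField K where
  to_charZero := inferInstance
  to_finiteDimensional := finK

lemma K_galois : IsGalois ℚ K := by
  have h := (InfiniteGalois.normal_iff_isGalois K).1 ⟨fun n hn g => NK_normal g n hn⟩
  convert! h

lemma gu_not_rat (i : ℕ) (q : ℚ) : algebraMap ℚ Qbar q ≠ gu i := by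
  intro h
  obtain ⟨ι⟩ := exists_iota 13
  obtain ⟨τ, hτ, hτN⟩ := exists_tau (Or.inr (Or.inl rfl)) ι
  obtain ⟨a, ha⟩ := gal_gu (res ι τ)
  have h1 : res ι τ (gu i) = gu i := by
    rw [← h]
    exact (res ι τ).commutes q
  rw [ha] at h1
  have h2 := gu_ne h1
  apply hτN
  rw [mem_fixing, ha]
  exact gu_mod (by omega)

open Polynomial in
/-- the defining polynomial -/
noncomputable def fK : ℚ[X] := X ^ 3 - C 8463 * X - C 242606

open Polynomial in
lemma fK_monic : fK.Monic := by
  unfold fK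
  monicity!

open Polynomial in
lemma fK_deg : fK.natDegree = 3 := by
  unfold fK
  compute_degree!

open Polynomial in
lemma fK_irr : Irreducible fK := by
  rw [fK_monic.irreducible_iff_roots_eq_zero_of_degree_le_three (by rw [fK_deg]; norm_num)
    (by rw [fK_deg])]
  rw [Multiset.eq_zero_iff_forall_notMem]
  intro q hq
  rw [mem_roots fK_monic.ne_zero, IsRoot.def] at hq
  unfold fK at hq
  simp only [eval_sub, eval_pow, eval_X, eval_mul, eval_C] at hq
  have h1 : (algebraMap ℚ Qbar q - gu 0) * (algebraMap ℚ Qbar q - gu 1) *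
      (algebraMap ℚ Qbar q - gu 2) = 0 := by
    have h2 : (algebraMap ℚ Qbar q) ^ 3 - 8463 * algebraMap ℚ Qbar q - 242606 = 0 := by
      have := congrArg (algebraMap ℚ Qbar) hq
      rw [map_sub, map_sub, map_pow, map_mul, map_ofNat, map_ofNat, map_zero] at this
      exact this
    linear_combination h2 + (-(algebraMap ℚ Qbar q) ^ 2) * gu_sum +
      (algebraMap ℚ Qbar q) * gu_quad - gu_prod
  rcases mul_eq_zero.1 h1 with h3 | h3
  · rcases mul_eq_zero.1 h3 with h4 | h4
    · exact gu_not_rat 0 q (sub_eq_zero.1 h4)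
    · exact gu_not_rat 1 q (sub_eq_zero.1 h4)
  · exact gu_not_rat 2 q (sub_eq_zero.1 h3)

open Polynomial in
lemma finrank_K : Module.finrank ℚ K = 3 := by
  have hint : IsIntegral ℚ (gu 0) := Algebra.IsIntegral.isIntegral _
  have h1 : Module.finrank ℚ K = (minpoly ℚ (gu 0)).natDegree :=
    IntermediateField.adjoin.finrank hint
  have h2 : minpoly ℚ (gu 0) = fK := by
    symm
    apply minpoly.eq_of_irreducible_of_monic fK_irr _ fK_monic
    unfold fK
    have h3 := gu_root 0
    simp only [map_sub, map_pow, aeval_X, map_mul, aeval_C]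
    rw [map_ofNat, map_ofNat]
    exact h3
  rw [h1, h2, fK_deg]

lemma u_int : IsIntegral ℤ (⟨gu 0, gu0_mem⟩ : K) := by
  refine ⟨Polynomial.X ^ 3 - Polynomial.C 8463 * Polynomial.X - Polynomial.C 242606, ?_, ?_⟩
  · monicity!
  · have h3 := gu_root 0
    have h4 : (⟨gu 0, gu0_mem⟩ : K) ^ 3 - 8463 * (⟨gu 0, gu0_mem⟩ : K) - 242606 = 0 := by
      apply Subtype.ext
      exact h3
    simpa using h4

/-- the generator as an algebraic integer -/
noncomputable def uK : 𝓞 K := ⟨⟨gu 0, gu0_mem⟩, u_int⟩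

lemma uK_eq : uK ^ 3 = 8463 * uK + 242606 := by
  apply NumberField.RingOfIntegers.ext
  apply Subtype.ext
  have h3 := gu_root 0
  have : (gu 0) ^ 3 = 8463 * gu 0 + 242606 := by linear_combination h3
  exact this

lemma ramified (p : ℕ) (hp : p.Prime) (α β : ℤ) (hα : (8463 : ℤ) = p * α)
    (hβ : (242606 : ℤ) = p * β) (hβ' : ¬ (p : ℤ) ∣ β) : (p : ℤ) ∣ NumberField.discr K := by
  by_contra hnd
  have hpZ : Prime (p : ℤ) := Nat.prime_iff_prime_int.1 hp
  have hmax : (Ideal.span {(p : ℤ)}).IsMaximal := by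
    have := (Ideal.span_singleton_prime hpZ.ne_zero).2 hpZ
    exact this.isMaximal (by
      rw [Ne, Ideal.span_singleton_eq_bot]
      exact hpZ.ne_zero)
  rw [NumberField.not_dvd_discr_iff_forall_mem K (𝓞 K) hpZ] at hnd
  obtain ⟨P, hP, hPo⟩ := Ideal.exists_maximal_ideal_liesOver_of_isIntegral
    (Ideal.span {(p : ℤ)}) (S := 𝓞 K)
  have hpP : ((p : ℤ) : 𝓞 K) ∈ P := by
    have h1 : (p : ℤ) ∈ P.under ℤ := by
      rw [← hPo.over]
      exact Ideal.mem_span_singleton_self _
    exact h1
  have hPp : P.IsPrime := hP.isPrime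
  have h1 := hnd P hPp hpP
  rw [← not_dvd_differentIdeal_iff] at h1
  apply h1
  -- `u` lies in `P`
  have hu3 : uK ^ 3 = ((p : ℤ) : 𝓞 K) * ((α : 𝓞 K) * uK + (β : 𝓞 K)) := by
    rw [uK_eq]
    have e1 := congrArg (Int.cast : ℤ → 𝓞 K) hα
    have e2 := congrArg (Int.cast : ℤ → 𝓞 K) hβ
    push_cast at e1 e2
    push_cast
    linear_combination uK * e1 + e2
  have hu : uK ∈ P := by
    apply hPp.mem_of_pow_mem 3
    rw [hu3]
    exact P.mul_mem_right _ hpP
  have hβP : ((α : 𝓞 K) * uK + (β : 𝓞 K)) ∉ P := by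
    intro h
    have h2 : (β : 𝓞 K) ∈ P := by
      have := P.sub_mem h (P.mul_mem_left (α : 𝓞 K) hu)
      have e : (α : 𝓞 K) * uK + (β : 𝓞 K) - α * uK = β := by ring
      rwa [e] at this
    obtain ⟨a, b, hab⟩ := (Prime.irreducible hpZ).coprime_iff_not_dvd.2 hβ'
    apply hPp.ne_top
    rw [Ideal.eq_top_iff_one]
    have h3 := congrArg (Int.cast : ℤ → 𝓞 K) hab
    push_cast at h3
    rw [← h3]
    refine P.add_mem (P.mul_mem_left _ ?_) (P.mul_mem_left _ h2)
    have := hpP
    push_cast at this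
    exact this
  have hdvd : P ^ 3 ∣ Ideal.span {((p : ℤ) : 𝓞 K)} := by
    have hP0 : P ≠ ⊥ := by
      rintro rfl
      rw [Ideal.mem_bot] at hpP
      have : (p : ℤ) = 0 := by exact_mod_cast hpP
      exact hpZ.ne_zero this
    have hPP : Prime P := Ideal.prime_of_isPrime hP0 hPp
    have h2 : P ^ 3 ∣ Ideal.span {(α : 𝓞 K) * uK + (β : 𝓞 K)} * Ideal.span {((p : ℤ) : 𝓞 K)} := by
      rw [Ideal.span_singleton_mul_span_singleton, mul_comm, ← hu3, Ideal.dvd_span_singleton]
      exact Ideal.pow_mem_pow hu 3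
    refine hPP.pow_dvd_of_dvd_mul_left 3 ?_ h2
    rw [Ideal.dvd_span_singleton]
    exact hβP
  have := pow_sub_one_dvd_differentIdeal ℤ (B := 𝓞 K) (p := Ideal.span {(p : ℤ)}) P 3 (by
    rw [Ne, Ideal.span_singleton_eq_bot]
    exact hpZ.ne_zero) (by
      rw [Ideal.map_span, Set.image_singleton]
      exact hdvd)
  exact (dvd_pow_self P (by norm_num)).trans this

lemma three_le_card : 3 ≤ (NumberField.discr K).natAbs.primeFactors.card := by
  have h7 := ramified 7 (by norm_num) 1209 34658 (by norm_num) (by norm_num) (by norm_num)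
  have h13 := ramified 13 (by norm_num) 651 18662 (by norm_num) (by norm_num) (by norm_num)
  have h31 := ramified 31 (by norm_num) 273 7826 (by norm_num) (by norm_num) (by norm_num)
  have h0 : (NumberField.discr K).natAbs ≠ 0 := Int.natAbs_ne_zero.2 (NumberField.discr_ne_zero K)
  have hsub : ({7, 13, 31} : Finset ℕ) ⊆ (NumberField.discr K).natAbs.primeFactors := by
    intro p hp
    rw [Nat.mem_primeFactors]
    simp only [Finset.mem_insert, Finset.mem_singleton] at hp
    rcases hp with rfl | rfl | rfl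
    · exact ⟨by norm_num, Int.natCast_dvd.1 h7, h0⟩
    · exact ⟨by norm_num, Int.natCast_dvd.1 h13, h0⟩
    · exact ⟨by norm_num, Int.natCast_dvd.1 h31, h0⟩
  calc 3 = ({7, 13, 31} : Finset ℕ).card := by decide
    _ ≤ _ := Finset.card_le_card hsub

end Pool.Agent.W94.F3
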