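import Mathlib
import Pool.Agent.W94.F3.Main7
import Pool.Agent.H437R2.Man.MWWeak

/-!
# The group of rational points is finite
-/

set_option autoImplicit false
set_option linter.unusedSectionVars false

namespace Pool.Agent.W94.F3

open scoped Classical

open Polynomial in
/-- the Mordell-Weil theorem for this curve -/
lemma mw : AddGroup.FG (Pt ℚ) := by
  let P : Cubic ℚ := ⟨1, -23, 1408, 0⟩
  let L : Type := P.toPoly.SplittingField
  have : NumberField L := NumberField.of_module_finite ℚ L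
  have ha : P.a ≠ 0 := one_ne_zero
  have hsp : Splits (P.toPoly.map (algebraMap ℚ L)) := SplittingField.splits P.toPoly
  obtain ⟨x, y, z, h3⟩ := (Cubic.splits_iff_roots_eq_three ha).1 hsp
  have hdisc : P.discr ≠ 0 := by
    simp only [Cubic.discr, P]
    norm_num
  obtain ⟨hxy, hxz, hyz⟩ := (Cubic.discr_ne_zero_iff_roots_ne ha h3).1 hdisc
  have hb := Cubic.b_eq_three_roots ha h3
  have hc := Cubic.c_eq_three_roots ha h3
  have hd := Cubic.d_eq_three_roots ha h3
  simp only [P, map_one, map_zero, one_mul] at hb hc hd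
  have hK : AddGroup.FG (Pool.Agent.H437R2.Man.MW.crv (-x) (-y) (-z)).toAffine.Point :=
    Pool.Agent.H437R2.Man.MW.pt_fg (fun h => hxy (neg_injective h)) (fun h => hxz (neg_injective h))
      (fun h => hyz (neg_injective h))
  have heq : Pool.Agent.H437R2.Man.MW.crv (-x) (-y) (-z) = WeierstrassCurve.baseChange W L := by
    apply WeierstrassCurve.ext
    · change (0 : L) = algebraMap ℚ L 0
      rw [map_zero]
    · change -x + -y + -z = algebraMap ℚ L (-23)
      linear_combination -hb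
    · change (0 : L) = algebraMap ℚ L 0
      rw [map_zero]
    · change -x * -y + -x * -z + -y * -z = algebraMap ℚ L 1408
      linear_combination -hc
    · change -x * -y * -z = algebraMap ℚ L 0
      rw [map_zero]
      linear_combination -hd
  have key : ∀ W' : WeierstrassCurve L, Pool.Agent.H437R2.Man.MW.crv (-x) (-y) (-z) = W' →
      AddGroup.FG W'.toAffine.Point := by
    rintro W' rfl
    exact hK
  have hK' : AddGroup.FG (Pt L) := key _ heq
  have h1 : Module.Finite ℤ (Pt L) := Module.Finite.iff_addGroup_fg.mpr hK'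
  exact Module.Finite.iff_addGroup_fg.mp (Module.Finite.of_injective
    (pm (Algebra.ofId ℚ L)).toIntLinearMap (pm_inj (Algebra.ofId ℚ L)))

/-- a fixed point is rational -/
lemma rat_pt {R : Pt Qbar} (h : ∀ g : GQ, g • R = R) :
    ∃ S : Pt ℚ, pm (Algebra.ofId ℚ Qbar) S = R := by
  rcases exists_pt R with rfl | ⟨x, y, hxy, rfl⟩
  · exact ⟨0, pm_zero _⟩
  · have hx : ∀ g : GQ, g x = x ∧ g y = y := by
      intro g
      have := h g
      rw [smul_def, pm_pt, pt_inj] at this
      exact this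
    obtain ⟨a, ha⟩ := rat_of_fixed (fun g => (hx g).1)
    obtain ⟨b, hb⟩ := rat_of_fixed (fun g => (hx g).2)
    have hab : OnE a b := by
      unfold OnE at *
      apply (algebraMap ℚ Qbar).injective
      rw [map_pow, map_add, map_sub, map_pow, map_mul, map_pow, map_mul, map_ofNat, map_ofNat, ha,
        hb, hxy]
    refine ⟨pt a b hab, ?_⟩
    rw [pm_pt, pt_inj]
    exact ⟨ha, hb⟩

lemma smul_rat (g : GQ) (S : Pt ℚ) :
    g • pm (Algebra.ofId ℚ Qbar) S = pm (Algebra.ofId ℚ Qbar) S := by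
  rw [smul_def, pm_comp]
  congr 1
  apply congrArg
  exact Subsingleton.elim _ _

lemma pm_PS {L L' : Type*} [Field L] [Algebra ℚ L] [DecidableEq L] [Field L']
    [Algebra ℚ L'] [DecidableEq L'] (f : L →ₐ[ℚ] L') : pm f PS = PS := by
  unfold PS
  rw [pm_pt, pt_inj]
  simp [map_ofNat]

/-- the descent -/
lemma descent (S : Pt ℚ) : ∃ (S' : Pt ℚ) (k : ℕ), S = 3 • S' + k • PS := by
  obtain ⟨j, hj⟩ : ∃ j, j = Algebra.ofId ℚ Qbar := ⟨_, rfl⟩
  obtain ⟨R, hR⟩ := exists_third Qbar_cube hgw (pm j S)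
  have hgS : ∀ g : GQ, g • pm j S = pm j S := by rw [hj]; exact fun g => smul_rat g S
  have h3 : ∀ g : GQ, 3 • (g • R - R) = 0 := by
    intro g
    rw [smul_sub, smul_comm, hR, hgS, sub_self]
  obtain ⟨k, T, hT, h⟩ := main_K (coc_of_pt NK R h3) (loc_of_pt R)
  obtain ⟨R', hR'⟩ : ∃ R', R' = R - k • RP - T := ⟨_, rfl⟩
  have hfix : ∀ g ∈ NK, g • R' = R' := by
    intro g hg
    have h4 : g • R - R = k • cP g + (g • T - T) := h g hg
    unfold cP at h4
    have h5 : g • R = R + (k • (g • RP - RP) + (g • T - T)) := by rw [← h4]; abel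
    rw [hR', smul_sub, smul_sub, h5, smul_comm g k, smul_sub]
    abel
  have h3R' : 3 • R' = pm j (S - k • PS) := by
    rw [hR', smul_sub, smul_sub, hR, hT, smul_comm 3 k, three_RP, sub_zero, map_sub, map_nsmul,
      pm_PS]
  obtain ⟨ι⟩ := exists_iota 13
  obtain ⟨τ, hτ, hτN⟩ := exists_tau (Or.inr (Or.inl rfl)) ι
  have H := totram (Or.inr (Or.inl rfl)) ι
  obtain ⟨s, hs⟩ : ∃ s, s = res ι τ := ⟨_, rfl⟩
  have hc3 : 3 • (s • R' - R') = 0 := by
    rw [smul_sub, smul_comm, h3R', hj, smul_rat, sub_self]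
  have hcf : ∀ g ∈ NK, g • (s • R' - R') = s • R' - R' := by
    intro g hg
    have e : g • s • R' = s • (s⁻¹ * g * s) • R' := by
      rw [← mul_smul, ← mul_smul]
      congr 1
      group
    rw [smul_sub, e, hfix _ (conj_mem s hg), hfix g hg]
  obtain ⟨i, hi⟩ := tors_fixed ι hc3 hcf
  have hZ : ∀ t : Gp 13, t (ι ge) = ι ge → lact t (pm ι R') = pm ι R' := by
    intro t ht
    rw [← pm_res, hfix _ ((res_mem_iff (Or.inr (Or.inl rfl)) ι t).2 ht)]
  have hL := L13 H (by norm_num) τ hτ _ hZ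
  have hτR : lact τ (pm ι R') = pm ι R' + pm ι (i • P3) := by
    rw [← hi, map_sub, hs, pm_res]
    abel
  have hsR : s • R' = R' := by
    rcases P3_cases (L := Qbar) i with h0 | h0 | h0
    · rw [h0] at hi
      exact sub_eq_zero.1 hi
    · exfalso
      apply hL.1
      rw [hτR, h0, pm_P3]
    · exfalso
      apply hL.2
      rw [hτR, h0, map_add, pm_P3, add_assoc]
  have hall : ∀ g : GQ, g • R' = R' := by
    intro g
    obtain ⟨i, hi⟩ := exists_pow_mem (s := s) (by rw [hs]; exact hτN) g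
    have h6 : ∀ n : ℕ, s ^ n • R' = R' := by
      intro n
      induction n with
      | zero => rw [pow_zero, one_smul]
      | succ n ih => rw [pow_succ, mul_smul, hsR, ih]
    have e : g = g * (s ^ i)⁻¹ * s ^ i := by group
    rw [e, mul_smul, h6, hfix _ hi]
  obtain ⟨S', hS'⟩ := rat_pt hall
  refine ⟨S', k, ?_⟩
  apply pm_inj (Algebra.ofId ℚ Qbar)
  rw [map_add, map_nsmul, map_nsmul, pm_PS, hS', h3R', hj, map_sub, map_nsmul, pm_PS]
  abel

lemma PS_order : 6 • (PS : Pt ℚ) = 0 := by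
  have h1 : HP (PS : Pt ℚ) = -4 := by
    unfold PS
    rw [HP_pt]
    unfold Hp pa pb psi
    norm_num
  have h2 : HM (PS : Pt ℚ) = -4 := by
    unfold PS
    rw [HM_pt]
    unfold Hm pa pb psi
    norm_num
  have h0 : 3 • (PS : Pt ℚ) ≠ 0 := by
    unfold PS
    rw [Ne, three_smul_pt]
    unfold psi
    norm_num
  obtain ⟨h3, e⟩ := triple' h0
  have e2 : 3 • (PS : Pt ℚ) = T2 := by
    rw [e]
    unfold T2
    rw [pt_inj, h1, h2]
    norm_num
  rw [show 6 = 2 * 3 by norm_num, mul_smul, e2, two_T2]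

theorem finite_pt : Finite (Pt ℚ) := by
  have hfg := mw
  have hfin : Module.Finite ℤ (Pt ℚ) := Module.Finite.iff_addGroup_fg.mpr hfg
  let H : Submodule ℤ (Pt ℚ) := Submodule.span ℤ {PS}
  have hQ : Module.Finite ℤ (Pt ℚ ⧸ H) := inferInstance
  obtain ⟨r, hr1, hr⟩ := Submodule.exists_sub_one_mem_and_smul_eq_zero_of_fg_of_le_smul
    (Ideal.span {(3 : ℤ)}) (⊤ : Submodule ℤ (Pt ℚ ⧸ H)) hQ.1 (by
      intro q _
      obtain ⟨S, rfl⟩ := Submodule.Quotient.mk_surjective H q
      obtain ⟨S', k, hS⟩ := descent S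
      have e : Submodule.Quotient.mk (p := H) S = (3 : ℤ) • Submodule.Quotient.mk (p := H) S' := by
        rw [← Submodule.Quotient.mk_smul, Submodule.Quotient.eq, hS]
        have : 3 • S' + k • PS - (3 : ℤ) • S' = k • (PS : Pt ℚ) := by
          rw [show ((3 : ℤ) • S') = 3 • S' from by norm_cast]
          abel
        rw [this]
        exact nsmul_mem (Submodule.mem_span_singleton_self _) k
      rw [e]
      exact Submodule.smul_mem_smul (Ideal.mem_span_singleton_self _) trivial)
  have hr0 : r ≠ 0 := by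
    rintro rfl
    rw [Ideal.mem_span_singleton] at hr1
    norm_num at hr1
  have htors : ∀ S : Pt ℚ, (6 * r) • S = 0 := by
    intro S
    have h1 := hr (Submodule.Quotient.mk S) trivial
    rw [← Submodule.Quotient.mk_smul, Submodule.Quotient.mk_eq_zero] at h1
    obtain ⟨a, ha⟩ := Submodule.mem_span_singleton.1 h1
    rw [mul_smul, ← ha, smul_comm]
    have : (6 : ℤ) • (PS : Pt ℚ) = 0 := by
      have := PS_order
      exact_mod_cast this
    rw [this, smul_zero]
  have h6r : 6 * r ≠ 0 := mul_ne_zero (by norm_num) hr0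
  have : AddGroup.FG (Pt ℚ) := hfg
  refine AddCommGroup.finite_of_fg_torsion (Pt ℚ) (fun S => ?_)
  rw [isOfFinAddOrder_iff_zsmul_eq_zero]
  exact ⟨6 * r, h6r, htors S⟩

end Pool.Agent.W94.F3
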