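import Mathlib
import Pool.Agent.W94.F3.Defs
import Pool.Agent.W94.F3.Rank
import Pool.Agent.W94.F3.FieldK

/-!
# The Selmer group over the cyclic cubic field has at most three elements
-/

set_option autoImplicit false
set_option linter.unusedSectionVars false

namespace Pool.Agent.W94.F3

open scoped Classical Topology

lemma ptMap_eq {L L' : Type} [Field L] [Algebra ℚ L] [Field L'] [Algebra ℚ L'] (f : L →ₐ[ℚ] L')
    (R : Pt L) : ptMap W f R = pm f R := rfl

/-- extension of a cochain by zero -/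
noncomputable def extz (c : K.fixingSubgroup → Pt Qbar) (g : GQ) : Pt Qbar :=
  if h : g ∈ NK then c ⟨g, h⟩ else 0

lemma extz_mem (c : K.fixingSubgroup → Pt Qbar) {g : GQ} (h : g ∈ NK) :
    extz c g = c ⟨g, h⟩ := dif_pos h

lemma extz_coc {c : K.fixingSubgroup → Pt Qbar} (hc : IsSel W 3 K c) : Coc NK (extz c) := by
  obtain ⟨h1, h2, h3, -, -⟩ := hc
  refine ⟨?_, ?_, ?_⟩
  · intro g hg
    rw [extz_mem c hg]
    exact h1 _
  · intro g hg h hh
    rw [extz_mem c hg, extz_mem c hh, extz_mem c (Subgroup.mul_mem _ hg hh)]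
    exact h2 ⟨g, hg⟩ ⟨h, hh⟩
  · have hone : c 1 = 0 := by
      have h4 := h2 1 1
      have h5 : ptMap W ((1 : K.fixingSubgroup).1).toAlgHom (c 1) = c 1 :=
        one_smul GQ (c 1)
      rw [mul_one, h5] at h4
      simpa using h4
    have hopen : IsOpen (c ⁻¹' {0}) := h3 {0}
    have hnhds : c ⁻¹' {0} ∈ 𝓝 (1 : K.fixingSubgroup) := hopen.mem_nhds hone
    rw [mem_nhds_subtype] at hnhds
    obtain ⟨u, hu, hsub⟩ := hnhds
    have hu' : u ∈ 𝓝 (1 : Qbar ≃ₐ[ℚ] Qbar) := hu
    rw [krullTopology_mem_nhds_one_iff] at hu'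
    obtain ⟨E, hE, hEu⟩ := hu'
    refine ⟨E, hE, fun g hg hgE => ?_⟩
    rw [extz_mem c hg]
    have h6 : g ∈ E.fixingSubgroup := by
      rw [IntermediateField.mem_fixingSubgroup_iff]
      exact hgE
    have h7 : (⟨g, hg⟩ : K.fixingSubgroup) ∈ Subtype.val ⁻¹' u := hEu h6
    exact hsub h7

lemma toRat_eq {p : ℕ} [Fact p.Prime] (t : Gp p) :
    ((t : Cp p →+* Cp p).toRatAlgHom : Cp p →ₐ[ℚ] Cp p) = t.toAlgHom.restrictScalars ℚ := by
  apply AlgHom.ext
  intro z
  rfl

lemma extz_loc {c : K.fixingSubgroup → Pt Qbar} (hc : IsSel W 3 K c) : LocAt (extz c) := by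
  obtain ⟨-, -, -, h4, -⟩ := hc
  intro p _ ι
  obtain ⟨R, hR⟩ := h4 p ι
  refine ⟨R, fun t ht => ?_⟩
  rw [extz_mem c ht]
  have h5 := hR t ⟨res ι t, ht⟩ (fun z => res_spec ι t z)
  rw [ptMap_eq, ptMap_eq] at h5
  rw [h5]
  unfold lact
  rw [← toRat_eq]

/-- every cocycle in the Selmer group is a multiple of the Kummer class up to a coboundary -/
lemma sel_eq {c : K.fixingSubgroup → Pt Qbar} (hc : IsSel W 3 K c) :
    ∃ (k : Fin 3) (T : Pt Qbar), 3 • T = 0 ∧
      ∀ h : K.fixingSubgroup, c h = (k : ℕ) • cP h.1 + (ptMap W h.1.toAlgHom T - T) := by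
  obtain ⟨k, T, hT, h⟩ := main_K (extz_coc hc) (extz_loc hc)
  refine ⟨⟨k % 3, Nat.mod_lt _ (by norm_num)⟩, T, hT, fun g => ?_⟩
  have h1 := h g g.2
  rw [extz_mem c g.2] at h1
  have h2 : k • cP g.1 = (k % 3) • cP g.1 := by
    conv_lhs => rw [← Nat.div_add_mod k 3, add_smul, mul_comm, mul_smul, cP_tors, smul_zero,
      zero_add]
  rw [h2] at h1
  exact h1

theorem sel_card : Nat.card (Selmer W 3 K) ≤ 3 ∧ 0 < Nat.card (Selmer W 3 K) := by
  let rep : Selmer W 3 K → {c // IsSel W 3 K c} := fun q => Quot.out q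
  have hrep : ∀ q : Selmer W 3 K, Quot.mk _ (rep q) = q := fun q => Quot.out_eq q
  let f : Selmer W 3 K → Fin 3 := fun q => (sel_eq (rep q).2).choose
  have hf : Function.Injective f := by
    intro q q' hqq
    obtain ⟨T, hT, h⟩ := (sel_eq (rep q).2).choose_spec
    obtain ⟨T', hT', h'⟩ := (sel_eq (rep q').2).choose_spec
    have e : (sel_eq (rep q).2).choose = (sel_eq (rep q').2).choose := hqq
    rw [← hrep q, ← hrep q']
    apply Quot.sound
    refine ⟨T' - T, ?_, ?_⟩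
    · rw [smul_sub, hT, hT', sub_zero]
    · intro g
      have h1 := h g
      have h2 := h' g
      rw [e] at h1
      rw [h1, h2, ptMap_eq, ptMap_eq, ptMap_eq, map_sub]
      abel
  have hfin : Finite (Selmer W 3 K) := Finite.of_injective f hf
  have hne : Nonempty (Selmer W 3 K) := by
    refine ⟨Quot.mk _ ⟨0, fun h => smul_zero 3, fun g h => ?_, IsLocallyConstant.const 0, ?_, ?_⟩⟩
    · have h1 : ptMap W g.1.toAlgHom ((0 : K.fixingSubgroup → Pt Qbar) h) = 0 := pm_zero _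
      rw [h1, add_zero]
      rfl
    · intro p _ ι
      refine ⟨0, fun t h _ => ?_⟩
      rw [sub_zero]
      exact (pm_zero ι).trans (pm_zero _).symm
    · intro ι
      refine ⟨0, fun t h _ => ?_⟩
      rw [sub_zero]
      exact (pm_zero ι).trans (pm_zero _).symm
  refine ⟨?_, Nat.card_pos⟩
  have := Nat.card_le_card_of_injective f hf
  rwa [Nat.card_eq_fintype_card (α := Fin 3), Fintype.card_fin] at this

theorem not_dvd :
    ¬ 3 ^ ((NumberField.discr K).natAbs.primeFactors.card - 1) ∣ Nat.card (Selmer W 3 K) := by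
  intro h
  obtain ⟨h1, h2⟩ := sel_card
  have h3 := three_le_card
  have h4 : 3 ^ 2 ∣ 3 ^ ((NumberField.discr K).natAbs.primeFactors.card - 1) :=
    pow_dvd_pow 3 (by omega)
  have h5 := Nat.le_of_dvd h2 (h4.trans h)
  omega

end Pool.Agent.W94.F3
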